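import Pool.Agent.H48.PL.Defs

/-!
# Module SP: the function `sgn(x)|x|^α`

* `sp_holder`: for `0 ≤ y ≤ x` (same sign): `x^α - y^α ≤ (x-y)^α` (`Real.add_pow_le_pow..`/concavity: `Real.rpow_add_le_add_rpow`
  or `NNReal.rpow_add_le_add_rpow`: `(u+v)^α ≤ u^α+v^α`). Opposite signs: `x^α+|y|^α ≤ 2 (x+|y|)^α`. Oddness for the rest.
* continuity: `sp α` is continuous on both half lines and `→ 0` at `0`; or directly from `sp_holder` if `α ≤ 1`; in general write
  `sp α x = max x 0 ^ α - max (-x) 0 ^ α` (`α ≠ 0`) and use `Real.continuous_rpow_const`/`Continuous.rpow_const`.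
-/

set_option autoImplicit false

open MeasureTheory Set Filter Topology Pool.Agent.H25.Kin

namespace Pool.Agent.H48.PL

lemma sp_eq_max {α : ℝ} (hα : 0 < α) (x : ℝ) : sp α x = max x 0 ^ α - max (-x) 0 ^ α := by
  unfold sp
  rcases lt_or_ge x 0 with h | h
  · rw [if_pos h, max_eq_right h.le, max_eq_left (by linarith), Real.zero_rpow hα.ne']
    ring
  · rw [if_neg (not_lt.2 h), max_eq_left h, max_eq_right (by linarith), Real.zero_rpow hα.ne']
    ring

lemma sp_neg {α : ℝ} (hα : 0 < α) (x : ℝ) : sp α (-x) = -sp α x := by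
  rw [sp_eq_max hα, sp_eq_max hα, neg_neg]
  ring

lemma abs_sp (α x : ℝ) : |sp α x| = |x| ^ α := by
  unfold sp
  rcases lt_or_ge x 0 with h | h
  · rw [if_pos h, abs_neg, abs_of_neg h, abs_of_nonneg (Real.rpow_nonneg (by linarith) _)]
  · rw [if_neg (not_lt.2 h), abs_of_nonneg h, abs_of_nonneg (Real.rpow_nonneg h _)]

lemma mul_sp {α : ℝ} (hα : 0 < α) (x : ℝ) : x * sp α x = |x| ^ (1 + α) := by
  unfold sp
  rcases lt_trichotomy x 0 with h | h | h
  · rw [if_pos h, abs_of_neg h, Real.rpow_add (by linarith), Real.rpow_one]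
    ring
  · subst h
    rw [zero_mul, abs_zero, Real.zero_rpow (x := 1 + α) (by linarith)]
  · rw [if_neg (not_lt.2 h.le), abs_of_pos h, Real.rpow_add h, Real.rpow_one]

lemma sp_cont {α : ℝ} (hα : 0 < α) : Continuous (sp α) := by
  have h : sp α = fun x => max x 0 ^ α - max (-x) 0 ^ α := funext (sp_eq_max hα)
  rw [h]
  have h1 := Real.continuous_rpow_const hα.le
  exact (h1.comp (continuous_id.max continuous_const)).sub
    (h1.comp (continuous_neg.max continuous_const))

lemma sp_holder_aux {α : ℝ} (hα : 0 < α) (hα1 : α ≤ 1) {x y : ℝ} (hy : y ≤ x) :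
    |sp α x - sp α y| ≤ 2 * |x - y| ^ α := by
  have key : ∀ u v : ℝ, v ≤ u → max u 0 ^ α - max v 0 ^ α ≤ (u - v) ^ α ∧
      0 ≤ max u 0 ^ α - max v 0 ^ α := by
    intro u v huv
    have hv0 : (0 : ℝ) ≤ max v 0 := le_max_right _ _
    have hm : max v 0 ≤ max u 0 := max_le_max huv le_rfl
    have hle : max u 0 ≤ (u - v) + max v 0 :=
      max_le (by linarith [le_max_left v 0]) (by linarith)
    have h1 := Real.rpow_add_le_add_rpow (sub_nonneg.2 huv) hv0 hα.le hα1
    have h2 := Real.rpow_le_rpow (le_max_right u 0) hle hα.le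
    have h3 := Real.rpow_le_rpow hv0 hm hα.le
    constructor <;> linarith
  obtain ⟨h1, h2⟩ := key x y hy
  obtain ⟨h3, h4⟩ := key (-y) (-x) (by linarith)
  have h5 : -y - -x = x - y := by ring
  rw [h5] at h3
  rw [sp_eq_max hα, sp_eq_max hα, abs_of_nonneg (sub_nonneg.2 hy), abs_of_nonneg (by linarith)]
  linarith

lemma sp_holder {α : ℝ} (hα : 0 < α) (hα1 : α ≤ 1) (x y : ℝ) :
    |sp α x - sp α y| ≤ 2 * |x - y| ^ α := by
  rcases le_total y x with h | h
  · exact sp_holder_aux hα hα1 h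
  · rw [abs_sub_comm, abs_sub_comm x y]
    exact sp_holder_aux hα hα1 h

end Pool.Agent.H48.PL
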