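import Pool.Agent.H48.PL.JB
import Pool.Agent.H48.PL.SP

/-!
# Module Wgt: the numbers and the weights `Th`, `Ph`

Numbers (`κ = kpa s a = a/(2s) > 1`, `q = qq < 2`, `Q = QQ = q + (a - α)`): from `PP`: `2s < α ≤ a` gives `κ > 1`;
`κ(1+α) ≥ a(1+α)/α`.. hence `a(1+2α)/α < 2`, `a < 2α/(1+2α) ≤ 2a/(1+2a)`, `a < 1/2`. `q ≥ κ(1+α) > 1`, `1 ≤ Q`, `Q - 1 + α = q + a - 1 < 2`.
* `Th_abs`: `|Th v w| ≤ min^Q |V|^α ≤ min^Q (2 max)^α ≤ 2 jb v² jb w²` (with `m = min(jb v, jb w)`, `M = max`): if `Q ≤ 2`: `m^Q ≤ m²`, `(2M)^α ≤ 2M²`;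
  if `Q > 2`: `m^Q M^α ≤ m² M^(Q-2+α)` and `Q-2+α < 1`. `|V| ≤ jb v + jb w ≤ 2M`, `m M = jb v jb w`.
* `VTh_le`: `0 ≤ V_e Th = m^Q |V_e|^(1+α) ≤ 4 jb v² jb w²`, `m^Q M^(1+α) ≤ m² M²` as above (`Q-2+1+α < 2`).
* `VTh_low`: on `CmpS (δ/2) ∩ NtS e ε κ`: `m ≥ (δ/2) RR`, `|V_e| ≥ ε RR^(-κ)|V|`, so `V_e Th ≥ (δ/2)^Q ε^(1+α) RR^(Q-κ(1+α)) |V|^(1+α)`,
  `Q - κ(1+α) = 2a-α`, `RR^(2a-α)|V|^(1+α) = RR^a RR^(a-α)|V|^(1+α) ≥ 2^(-(a-α)) RR^a |V|^(1+a)` (`RR ≥ |V|/2`). `c = (δ/2)^Q ε^(1+α)/2`.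
* antisymmetry: `sp_neg`, `min_comm`. Continuity: `sp_cont`, `min`, `jb_cont`; `rpow` of a function `≥ 1`.
* `Ph_abs`: `μ = min(1, jb w/jb v)`, `|Ph| = μ²|V_e|^a ≤ 2 jb w^a·2`: if `jb w ≥ jb v`: `|V|^a ≤ (2jb w)^a`. Else `μ² (2 jb v)^a ≤ 2 μ^a jb v^a = 2 jb w^a`.
* `VPh`: `V_e Ph = μ²|V_e|^(1+a)`, `0 ≤ . ≤ 4 jb w²` (same argument, `1+a ≤ 2`, `μ² jb v^(1+a) ≤ jb w^(1+a)`).
-/

set_option autoImplicit false

open MeasureTheory Set Filter Topology Pool.Agent.H25.Kin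

namespace Pool.Agent.H48.PL

variable {d : ℕ} {s a α : ℝ}

lemma PP.hs0 (P : PP s a α) : 0 < α ∧ 0 < a ∧ a < 1 / 2 ∧ 1 < kpa s a := by
  have hs := P.hs
  have h1 := P.hα
  have h2 := P.hαa
  have h3 := P.hq
  have hα : 0 < α := by linarith
  have ha : 0 < a := by linarith
  have hk1 : 1 < kpa s a := by
    unfold kpa
    rw [one_lt_div (by linarith)]
    linarith
  have hk2 : a / α < kpa s a := by
    unfold kpa
    exact div_lt_div_of_pos_left ha (by linarith) h1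
  have hk3 : a / α * (1 + α) < kpa s a * (1 + α) := mul_lt_mul_of_pos_right hk2 (by linarith)
  have hk4 : a / α * (1 + α) + a < 2 := by linarith
  have hk5 : a * (1 + α) + a * α < 2 * α := by
    have h : (a / α * (1 + α) + a) * α < 2 * α := mul_lt_mul_of_pos_right hk4 hα
    have h' : (a / α * (1 + α) + a) * α = a * (1 + α) + a * α := by
      field_simp
    linarith
  have ha1 : a < 1 := by
    by_contra hc
    push Not at hc
    nlinarith
  refine ⟨hα, ha, ?_, hk1⟩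
  have h6 : a < 2 * α * (1 - a) := by nlinarith
  have h7 : 2 * α * (1 - a) ≤ 2 * a * (1 - a) := by
    have := mul_le_mul_of_nonneg_right h2 (by linarith : (0 : ℝ) ≤ 1 - a)
    linarith
  have h8 : a * 1 < a * (2 * (1 - a)) := by linarith
  have h9 := lt_of_mul_lt_mul_left h8 ha.le
  linarith

lemma PP.hq1 (P : PP s a α) : 1 ≤ qq s a α ∧ qq s a α < 2 ∧ 1 ≤ QQ s a α ∧
    QQ s a α = qq s a α + (a - α) := by
  obtain ⟨hα, ha, -, hk⟩ := P.hs0
  have h2 := P.hαa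
  have h3 := P.hq
  have h4 : 1 ≤ kpa s a * (1 + α) := by nlinarith
  refine ⟨?_, ?_, ?_, ?_⟩
  · unfold qq; linarith
  · unfold qq; linarith
  · unfold QQ; linarith
  · unfold qq QQ; ring

private lemma wkey {m M Q β : ℝ} (hm : 1 ≤ m) (hM : m ≤ M) (hβ : β ≤ 2) (hQ : Q + β ≤ 4) :
    m ^ Q * M ^ β ≤ m ^ 2 * M ^ 2 := by
  have hm0 : 0 < m := by linarith
  have hM0 : 0 < M := by linarith
  have hM1 : 1 ≤ M := by linarith
  rcases le_total Q 2 with h | h
  · have e1 : m ^ Q ≤ m ^ 2 := by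
      have := Real.rpow_le_rpow_of_exponent_le hm h
      rwa [Real.rpow_two] at this
    have e2 : M ^ β ≤ M ^ 2 := by
      have := Real.rpow_le_rpow_of_exponent_le hM1 hβ
      rwa [Real.rpow_two] at this
    exact mul_le_mul e1 e2 (Real.rpow_nonneg hM0.le _) (by positivity)
  · have e0 : m ^ Q = m ^ 2 * m ^ (Q - 2) := by
      rw [← Real.rpow_two, ← Real.rpow_add hm0]
      congr 1; ring
    have e1 : m ^ (Q - 2) ≤ M ^ (Q - 2) := Real.rpow_le_rpow hm0.le hM (by linarith)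
    have e2 : M ^ (Q - 2) * M ^ β ≤ M ^ 2 := by
      rw [← Real.rpow_add hM0]
      have := Real.rpow_le_rpow_of_exponent_le hM1 (by linarith : Q - 2 + β ≤ 2)
      rwa [Real.rpow_two] at this
    rw [e0, mul_assoc]
    refine mul_le_mul_of_nonneg_left (le_trans ?_ e2) (by positivity)
    exact mul_le_mul_of_nonneg_right e1 (Real.rpow_nonneg hM0.le _)

private lemma abs_V_le (e : Fin d) (v w : Vec d) : |v e - w e| ≤ jb v + jb w := by
  have h1 := abs_coord_le (v - w) e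
  rw [Pi.sub_apply] at h1
  linarith [len_sub_le v w, len_le_jb v, len_le_jb w]

private lemma abs_V_le_max (e : Fin d) (v w : Vec d) : |v e - w e| ≤ 2 * max (jb v) (jb w) := by
  linarith [abs_V_le e v w, le_max_left (jb v) (jb w), le_max_right (jb v) (jb w)]

private lemma one_le_min (v w : Vec d) : 1 ≤ min (jb v) (jb w) := le_min (one_le_jb v) (one_le_jb w)

private lemma two_rpow_le {r : ℝ} {n : ℕ} (hr : r ≤ n) : (2 : ℝ) ^ r ≤ 2 ^ n := by
  have := Real.rpow_le_rpow_of_exponent_le (by norm_num : (1 : ℝ) ≤ 2) hr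
  rwa [Real.rpow_natCast] at this

private lemma min_max_sq (v w : Vec d) :
    min (jb v) (jb w) ^ 2 * max (jb v) (jb w) ^ 2 = jb v ^ 2 * jb w ^ 2 := by
  rw [← mul_pow, min_mul_max, mul_pow]

lemma Th_antisymm (P : PP s a α) (e : Fin d) (v w : Vec d) : Th e s a α w v = -Th e s a α v w := by
  unfold Th
  rw [min_comm, show w e - v e = -(v e - w e) by ring, sp_neg P.hs0.1]
  ring

lemma Th_abs (P : PP s a α) (e : Fin d) (v w : Vec d) :
    |Th e s a α v w| ≤ 2 * (jb v ^ 2 * jb w ^ 2) := by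
  obtain ⟨hα, ha, ha2, hk⟩ := P.hs0
  obtain ⟨hq1, hq2, hQ1, hQ⟩ := P.hq1
  have hαa := P.hαa
  have hm := one_le_min v w
  have hmM : min (jb v) (jb w) ≤ max (jb v) (jb w) := min_le_max
  have hM : 0 < max (jb v) (jb w) := by linarith
  have hV := abs_V_le_max e v w
  have h1 : |v e - w e| ^ α ≤ 2 * max (jb v) (jb w) ^ α := by
    calc |v e - w e| ^ α ≤ (2 * max (jb v) (jb w)) ^ α :=
          Real.rpow_le_rpow (abs_nonneg _) hV hα.le
      _ = 2 ^ α * max (jb v) (jb w) ^ α := Real.mul_rpow (by norm_num) hM.le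
      _ ≤ 2 * max (jb v) (jb w) ^ α := by
          refine mul_le_mul_of_nonneg_right ?_ (Real.rpow_nonneg hM.le _)
          have := two_rpow_le (r := α) (n := 1) (by push_cast; linarith)
          simpa using this
  have h2 := wkey (Q := QQ s a α) (β := α) hm hmM (by linarith) (by linarith)
  rw [min_max_sq] at h2
  unfold Th
  rw [abs_mul, abs_of_nonneg (Real.rpow_nonneg (by linarith : (0 : ℝ) ≤ min (jb v) (jb w)) _), abs_sp]
  calc min (jb v) (jb w) ^ QQ s a α * |v e - w e| ^ α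
      ≤ min (jb v) (jb w) ^ QQ s a α * (2 * max (jb v) (jb w) ^ α) :=
        mul_le_mul_of_nonneg_left h1 (Real.rpow_nonneg (by linarith) _)
    _ = 2 * (min (jb v) (jb w) ^ QQ s a α * max (jb v) (jb w) ^ α) := by ring
    _ ≤ 2 * (jb v ^ 2 * jb w ^ 2) := by linarith

private lemma jb2_le (v : Vec d) : jb v ^ 2 ≤ ((d : ℝ) + 1) ^ 2 * (1 + ‖v‖) ^ 2 := by
  rw [← mul_pow]
  exact pow_le_pow_left₀ (jb_pos v).le (jb_le_w v) 2

private lemma cont_coord (e : Fin d) : Continuous fun p : Vec d × Vec d => p.1 e - p.2 e :=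
  ((continuous_apply e).comp continuous_fst).sub ((continuous_apply e).comp continuous_snd)

lemma Th_PGW (P : PP s a α) (e : Fin d) : PGW (Th e s a α) := by
  refine ⟨?_, 2, 2 * ((d : ℝ) + 1) ^ 4, by positivity, fun v w => ?_⟩
  · unfold Th
    have h1 : Continuous fun p : Vec d × Vec d => min (jb p.1) (jb p.2) :=
      (jb_cont.comp continuous_fst).min (jb_cont.comp continuous_snd)
    have h2 : Continuous fun p : Vec d × Vec d => min (jb p.1) (jb p.2) ^ QQ s a α :=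
      h1.rpow_const fun p => Or.inl (by linarith [one_le_min p.1 p.2])
    exact h2.mul ((sp_cont P.hs0.1).comp (cont_coord e))
  · have h := Th_abs P e v w
    have h1 := jb2_le v
    have h2 := jb2_le w
    have h3 : jb v ^ 2 * jb w ^ 2 ≤
        (((d : ℝ) + 1) ^ 2 * (1 + ‖v‖) ^ 2) * (((d : ℝ) + 1) ^ 2 * (1 + ‖w‖) ^ 2) :=
      mul_le_mul h1 h2 (by positivity) (by positivity)
    calc |Th e s a α v w| ≤ 2 * (jb v ^ 2 * jb w ^ 2) := h
      _ ≤ 2 * ((((d : ℝ) + 1) ^ 2 * (1 + ‖v‖) ^ 2) * (((d : ℝ) + 1) ^ 2 * (1 + ‖w‖) ^ 2)) := by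
          linarith
      _ = 2 * ((d : ℝ) + 1) ^ 4 * ((1 + ‖v‖) ^ 2 * (1 + ‖w‖) ^ 2) := by ring

private lemma VTh_eq (P : PP s a α) (e : Fin d) (v w : Vec d) :
    (v e - w e) * Th e s a α v w = min (jb v) (jb w) ^ QQ s a α * |v e - w e| ^ (1 + α) := by
  unfold Th
  rw [← mul_sp P.hs0.1]
  ring

lemma VTh_nonneg (P : PP s a α) (e : Fin d) (v w : Vec d) : 0 ≤ (v e - w e) * Th e s a α v w := by
  rw [VTh_eq P]
  exact mul_nonneg (Real.rpow_nonneg (by linarith [one_le_min v w]) _)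
    (Real.rpow_nonneg (abs_nonneg _) _)

lemma VTh_le (P : PP s a α) (e : Fin d) (v w : Vec d) :
    (v e - w e) * Th e s a α v w ≤ 4 * (jb v ^ 2 * jb w ^ 2) := by
  obtain ⟨hα, ha, ha2, hk⟩ := P.hs0
  obtain ⟨hq1, hq2, hQ1, hQ⟩ := P.hq1
  have hαa := P.hαa
  have hq3 := P.hq
  have hm := one_le_min v w
  have hmM : min (jb v) (jb w) ≤ max (jb v) (jb w) := min_le_max
  have hM : 0 < max (jb v) (jb w) := by linarith
  have hV := abs_V_le_max e v w
  have h1 : |v e - w e| ^ (1 + α) ≤ 4 * max (jb v) (jb w) ^ (1 + α) := by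
    calc |v e - w e| ^ (1 + α) ≤ (2 * max (jb v) (jb w)) ^ (1 + α) :=
          Real.rpow_le_rpow (abs_nonneg _) hV (by linarith)
      _ = 2 ^ (1 + α) * max (jb v) (jb w) ^ (1 + α) := Real.mul_rpow (by norm_num) hM.le
      _ ≤ 4 * max (jb v) (jb w) ^ (1 + α) := by
          refine mul_le_mul_of_nonneg_right ?_ (Real.rpow_nonneg hM.le _)
          have := two_rpow_le (r := 1 + α) (n := 2) (by push_cast; linarith)
          linarith
  have hQ4 : QQ s a α + (1 + α) ≤ 4 := by unfold QQ; linarith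
  have h2 := wkey (Q := QQ s a α) (β := 1 + α) hm hmM (by linarith) hQ4
  rw [min_max_sq] at h2
  rw [VTh_eq P]
  calc min (jb v) (jb w) ^ QQ s a α * |v e - w e| ^ (1 + α)
      ≤ min (jb v) (jb w) ^ QQ s a α * (4 * max (jb v) (jb w) ^ (1 + α)) :=
        mul_le_mul_of_nonneg_left h1 (Real.rpow_nonneg (by linarith) _)
    _ = 4 * (min (jb v) (jb w) ^ QQ s a α * max (jb v) (jb w) ^ (1 + α)) := by ring
    _ ≤ 4 * (jb v ^ 2 * jb w ^ 2) := by linarith

lemma VTh_low (P : PP s a α) (e : Fin d) {δ ε : ℝ} (hδ : 0 < δ) (hε : 0 < ε) :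
    ∃ c : ℝ, 0 < c ∧ ∀ v w : Vec d, (v, w) ∈ (CmpS (δ / 2) ∩ NtS e ε (kpa s a) : Set (Vec d × Vec d)) →
      c * (len (v - w) ^ (1 + a) * RR v w ^ a) ≤ (v e - w e) * Th e s a α v w := by
  obtain ⟨hα, ha, ha2, hk⟩ := P.hs0
  obtain ⟨hq1, hq2, hQ1, hQ⟩ := P.hq1
  have hαa := P.hαa
  refine ⟨(δ / 2) ^ QQ s a α * ε ^ (1 + α) / 2, by positivity, fun v w hvw => ?_⟩
  obtain ⟨⟨h1, h2⟩, h3⟩ := hvw
  simp only at h1 h2
  have h3' : ε * RR v w ^ (-kpa s a) * len (v - w) ≤ |v e - w e| := h3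
  have hR := RR_pos v w
  have hL := len_nonneg (v - w)
  have hLR := len_le_RR v w
  rw [VTh_eq P]
  -- lower bounds
  have hm : (δ / 2) * RR v w ≤ min (jb v) (jb w) := le_min h1 h2
  have e1 : (δ / 2) ^ QQ s a α * RR v w ^ QQ s a α ≤ min (jb v) (jb w) ^ QQ s a α := by
    rw [← Real.mul_rpow (by positivity) hR.le]
    exact Real.rpow_le_rpow (by positivity) hm (by linarith)
  have e2 : ε ^ (1 + α) * (RR v w ^ (-kpa s a)) ^ (1 + α) * len (v - w) ^ (1 + α) ≤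
      |v e - w e| ^ (1 + α) := by
    rw [← Real.mul_rpow hε.le (Real.rpow_nonneg hR.le _),
      ← Real.mul_rpow (mul_nonneg hε.le (Real.rpow_nonneg hR.le _)) hL]
    exact Real.rpow_le_rpow (by positivity) h3' (by linarith)
  have e3 : (RR v w ^ (-kpa s a)) ^ (1 + α) = RR v w ^ (-kpa s a * (1 + α)) :=
    (Real.rpow_mul hR.le _ _).symm
  have e4 : RR v w ^ QQ s a α * RR v w ^ (-kpa s a * (1 + α)) = RR v w ^ (a - α) * RR v w ^ a := by
    rw [← Real.rpow_add hR, ← Real.rpow_add hR]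
    congr 1
    unfold QQ
    ring
  have e5 : len (v - w) ^ (1 + a) ≤ len (v - w) ^ (1 + α) * (2 * RR v w ^ (a - α)) := by
    rcases hL.eq_or_lt with h0 | h0
    · rw [← h0, Real.zero_rpow (by linarith), Real.zero_rpow (by linarith), zero_mul]
    · have : len (v - w) ^ (1 + a) = len (v - w) ^ (1 + α) * len (v - w) ^ (a - α) := by
        rw [← Real.rpow_add h0]
        congr 1
        ring
      rw [this]
      refine mul_le_mul_of_nonneg_left ?_ (Real.rpow_nonneg hL _)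
      calc len (v - w) ^ (a - α) ≤ (2 * RR v w) ^ (a - α) :=
            Real.rpow_le_rpow hL hLR (by linarith)
        _ = 2 ^ (a - α) * RR v w ^ (a - α) := Real.mul_rpow (by norm_num) hR.le
        _ ≤ 2 * RR v w ^ (a - α) := by
            refine mul_le_mul_of_nonneg_right ?_ (Real.rpow_nonneg hR.le _)
            have := two_rpow_le (r := a - α) (n := 1) (by push_cast; linarith)
            simpa using this
  have hA : 0 ≤ (δ / 2) ^ QQ s a α := by positivity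
  have hB : 0 ≤ ε ^ (1 + α) := by positivity
  have hRa : 0 ≤ RR v w ^ a := Real.rpow_nonneg hR.le _
  calc (δ / 2) ^ QQ s a α * ε ^ (1 + α) / 2 * (len (v - w) ^ (1 + a) * RR v w ^ a)
      ≤ (δ / 2) ^ QQ s a α * ε ^ (1 + α) / 2 *
        (len (v - w) ^ (1 + α) * (2 * RR v w ^ (a - α)) * RR v w ^ a) :=
        mul_le_mul_of_nonneg_left (mul_le_mul_of_nonneg_right e5 hRa) (by positivity)
    _ = (δ / 2) ^ QQ s a α * ε ^ (1 + α) * len (v - w) ^ (1 + α) * (RR v w ^ (a - α) * RR v w ^ a) := by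
        ring
    _ = ((δ / 2) ^ QQ s a α * RR v w ^ QQ s a α) *
        (ε ^ (1 + α) * (RR v w ^ (-kpa s a)) ^ (1 + α) * len (v - w) ^ (1 + α)) := by
        rw [← e4, e3]
        ring
    _ ≤ min (jb v) (jb w) ^ QQ s a α * |v e - w e| ^ (1 + α) :=
        mul_le_mul e1 e2 (by positivity) (Real.rpow_nonneg (by linarith [one_le_min v w]) _)

private lemma Ph_abs_eq (e : Fin d) (v w : Vec d) :
    |Ph e a v w| = min 1 (jb w / jb v) ^ 2 * |v e - w e| ^ a := by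
  unfold Ph
  rw [abs_mul, abs_sp, abs_of_nonneg (by positivity)]

private lemma mu_nonneg (v w : Vec d) : 0 ≤ min 1 (jb w / jb v) :=
  le_min zero_le_one (div_nonneg (jb_pos w).le (jb_pos v).le)

private lemma mu_rpow {r : ℝ} (hr0 : 0 ≤ r) (hr : r ≤ 2) (e : Fin d) (v w : Vec d) :
    min 1 (jb w / jb v) ^ 2 * |v e - w e| ^ r ≤ 2 ^ r * jb w ^ r := by
  have hv := jb_pos v
  have hw := jb_pos w
  have hV := abs_V_le e v w
  have hmu0 := mu_nonneg v w
  rcases le_total (jb v) (jb w) with h | h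
  · have h1 : min 1 (jb w / jb v) ^ 2 ≤ 1 := pow_le_one₀ hmu0 (min_le_left _ _)
    have h2 : |v e - w e| ^ r ≤ 2 ^ r * jb w ^ r := by
      rw [← Real.mul_rpow (by norm_num) hw.le]
      exact Real.rpow_le_rpow (abs_nonneg _) (by linarith) hr0
    calc min 1 (jb w / jb v) ^ 2 * |v e - w e| ^ r ≤ 1 * (2 ^ r * jb w ^ r) :=
          mul_le_mul h1 h2 (Real.rpow_nonneg (abs_nonneg _) _) zero_le_one
      _ = 2 ^ r * jb w ^ r := one_mul _
  · have hle : jb w / jb v ≤ 1 := (div_le_one hv).2 h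
    have hq0 : 0 < jb w / jb v := div_pos hw hv
    rw [min_eq_right hle]
    have h1 : (jb w / jb v) ^ 2 ≤ (jb w / jb v) ^ r := by
      rw [← Real.rpow_two]
      exact Real.rpow_le_rpow_of_exponent_ge hq0 hle hr
    have h2 : |v e - w e| ^ r ≤ 2 ^ r * jb v ^ r := by
      rw [← Real.mul_rpow (by norm_num) hv.le]
      exact Real.rpow_le_rpow (abs_nonneg _) (by linarith) hr0
    have h3 : (jb w / jb v) ^ r * jb v ^ r = jb w ^ r := by
      rw [← Real.mul_rpow hq0.le hv.le, div_mul_cancel₀ _ hv.ne']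
    calc (jb w / jb v) ^ 2 * |v e - w e| ^ r ≤ (jb w / jb v) ^ r * (2 ^ r * jb v ^ r) :=
          mul_le_mul h1 h2 (Real.rpow_nonneg (abs_nonneg _) _) (Real.rpow_nonneg hq0.le _)
      _ = 2 ^ r * ((jb w / jb v) ^ r * jb v ^ r) := by ring
      _ = 2 ^ r * jb w ^ r := by rw [h3]

lemma Ph_PGW (ha : 0 < a) (e : Fin d) : PGW (Ph e a) := by
  obtain ⟨N, hN⟩ := exists_nat_ge a
  refine ⟨?_, N, (2 * ((d : ℝ) + 1) ^ 2) ^ N, by positivity, fun v w => ?_⟩
  · unfold Ph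
    have h1 : Continuous fun p : Vec d × Vec d => min 1 (jb p.2 / jb p.1) :=
      continuous_const.min ((jb_cont.comp continuous_snd).div (jb_cont.comp continuous_fst)
        fun p => (jb_pos p.1).ne')
    exact (h1.pow 2).mul ((sp_cont ha).comp (cont_coord e))
  · have hv := one_le_jb v
    have hw := one_le_jb w
    have h1 : min 1 (jb w / jb v) ^ 2 ≤ 1 := pow_le_one₀ (mu_nonneg v w) (min_le_left _ _)
    have hV := abs_V_le e v w
    have h2 : jb v + jb w ≤ 2 * (jb v * jb w) := by nlinarith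
    have h3 := jb_le_w v
    have h4 := jb_le_w w
    have h5 : jb v * jb w ≤ (((d : ℝ) + 1) * (1 + ‖v‖)) * (((d : ℝ) + 1) * (1 + ‖w‖)) :=
      mul_le_mul h3 h4 (by linarith) (by positivity)
    have h6 : 2 * (jb v * jb w) ≤ (2 * ((d : ℝ) + 1) ^ 2) * ((1 + ‖v‖) * (1 + ‖w‖)) := by
      calc 2 * (jb v * jb w) ≤ 2 * ((((d : ℝ) + 1) * (1 + ‖v‖)) * (((d : ℝ) + 1) * (1 + ‖w‖))) := by
            linarith
        _ = (2 * ((d : ℝ) + 1) ^ 2) * ((1 + ‖v‖) * (1 + ‖w‖)) := by ring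
    have h7 : 1 ≤ 2 * (jb v * jb w) := by nlinarith
    rw [Ph_abs_eq]
    calc min 1 (jb w / jb v) ^ 2 * |v e - w e| ^ a ≤ 1 * (2 * (jb v * jb w)) ^ a :=
          mul_le_mul h1 (Real.rpow_le_rpow (abs_nonneg _) (hV.trans h2) ha.le)
            (Real.rpow_nonneg (abs_nonneg _) _) zero_le_one
      _ = (2 * (jb v * jb w)) ^ a := one_mul _
      _ ≤ (2 * (jb v * jb w)) ^ (N : ℝ) := Real.rpow_le_rpow_of_exponent_le h7 hN
      _ = (2 * (jb v * jb w)) ^ N := Real.rpow_natCast _ _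
      _ ≤ ((2 * ((d : ℝ) + 1) ^ 2) * ((1 + ‖v‖) * (1 + ‖w‖))) ^ N :=
          pow_le_pow_left₀ (by linarith) h6 N
      _ = (2 * ((d : ℝ) + 1) ^ 2) ^ N * ((1 + ‖v‖) ^ N * (1 + ‖w‖) ^ N) := by
          rw [mul_pow, mul_pow (1 + ‖v‖)]

lemma Ph_abs (ha : 0 < a) (ha1 : a ≤ 1) (e : Fin d) (v w : Vec d) : |Ph e a v w| ≤ 2 * jb w ^ a := by
  rw [Ph_abs_eq]
  refine (mu_rpow ha.le (by linarith) e v w).trans ?_
  refine mul_le_mul_of_nonneg_right ?_ (Real.rpow_nonneg (jb_pos w).le _)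
  have := two_rpow_le (r := a) (n := 1) (by push_cast; linarith)
  simpa using this

lemma VPh_eq (ha : 0 < a) (e : Fin d) (v w : Vec d) :
    (v e - w e) * Ph e a v w = min 1 (jb w / jb v) ^ 2 * |v e - w e| ^ (1 + a) := by
  unfold Ph
  rw [← mul_sp ha]
  ring

lemma VPh_nonneg (ha : 0 < a) (e : Fin d) (v w : Vec d) : 0 ≤ (v e - w e) * Ph e a v w := by
  rw [VPh_eq ha]
  exact mul_nonneg (sq_nonneg _) (Real.rpow_nonneg (abs_nonneg _) _)

lemma VPh_le (ha : 0 < a) (ha1 : a ≤ 1) (e : Fin d) (v w : Vec d) :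
    (v e - w e) * Ph e a v w ≤ 4 * jb w ^ 2 := by
  rw [VPh_eq ha]
  refine (mu_rpow (by linarith) (by linarith) e v w).trans ?_
  have h1 : (2 : ℝ) ^ (1 + a) ≤ 4 := by
    have := two_rpow_le (r := 1 + a) (n := 2) (by push_cast; linarith)
    linarith
  have h2 : jb w ^ (1 + a) ≤ jb w ^ 2 := by
    have := Real.rpow_le_rpow_of_exponent_le (one_le_jb w) (by linarith : 1 + a ≤ 2)
    rwa [Real.rpow_two] at this
  exact mul_le_mul h1 h2 (Real.rpow_nonneg (jb_pos w).le _) (by norm_num)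

end Pool.Agent.H48.PL
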