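import Pool.Agent.H48.PL.Defs
import Pool.Agent.H82.BK.Geo

/-!
# Module JB: elementary facts about `jb`, `RR`, `len`

`jb v = √(1+|v|²)`, `RR v w = √(2+|v|²+|w|²)`. Tools: `sq_nonneg'`, `one_add_sq_le` (1+nsq ≤ (d+1)(1+‖v‖)²), `len_sq`,
`norm_le_len`, `nsq_add`, `dot_sq_le` (Cauchy-Schwarz), `energy_post`, `post_eq`, `nsq_sub_dirk`, `nsq_smul`.
* triangle inequality: `(|u|+|v|)² = |u|²+2|u||v|+|v|² ≥ nsq (u+v)` by Cauchy-Schwarz.
* `|jb v - jb w| ≤ |v-w|`: `jb² v - jb² w = nsq v - nsq w = (|v|-|w|)(|v|+|w|)` and `|v|+|w| ≤ jb v + jb w`,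
  `||v|-|w|| ≤ |v-w|`.
* `nsq (v-w) ≤ 2(nsq v + nsq w) ≤ 2 RR²`.
* `RR` is conserved: `energy_post`. `post v w σ - v = (|V|/2)(σ - dirk)`, `nsq (σ-dirk) = 2(1-cosTh)`.
* PG: `jb v ^ r ≤ ((d+1)(1+‖v‖))^r ≤ ((d+1)(1+‖v‖))^N` for a natural `N ≥ r`.
-/

set_option autoImplicit false

open MeasureTheory Set Filter Topology Pool.Agent.H25.Kin

namespace Pool.Agent.H48.PL

variable {d : ℕ}

lemma jb_sq (v : Vec d) : jb v ^ 2 = 1 + nsq v := by
  unfold jb
  exact Real.sq_sqrt (by linarith [sq_nonneg' v])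

lemma one_le_jb (v : Vec d) : 1 ≤ jb v := by
  unfold jb
  exact Real.one_le_sqrt.2 (by linarith [sq_nonneg' v])

lemma jb_pos (v : Vec d) : 0 < jb v := lt_of_lt_of_le one_pos (one_le_jb v)

lemma jb_cont : Continuous (jb : Vec d → ℝ) := (continuous_const.add continuous_sq).sqrt

lemma len_le_jb (v : Vec d) : len v ≤ jb v := Real.sqrt_le_sqrt (by linarith)

lemma jb_le_w (v : Vec d) : jb v ≤ ((d : ℝ) + 1) * (1 + ‖v‖) := by
  have hd : (0 : ℝ) ≤ d := Nat.cast_nonneg d
  have hn := norm_nonneg v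
  unfold jb
  refine Real.sqrt_le_iff.2 ⟨by positivity, ?_⟩
  have h := one_add_sq_le v
  nlinarith [mul_nonneg hd (sq_nonneg (1 + ‖v‖)), mul_nonneg (mul_nonneg hd hd) (sq_nonneg (1 + ‖v‖))]

lemma w_le_jb (v : Vec d) : 1 + ‖v‖ ≤ 2 * jb v := by
  linarith [one_le_jb v, norm_le_len v, len_le_jb v]

lemma len_add_le (u v : Vec d) : len (u + v) ≤ len u + len v := by
  have hu := len_nonneg u
  have hv := len_nonneg v
  have h1 : dot u v ≤ len u * len v := by
    refine le_of_abs_le (abs_le_of_sq_le_sq ?_ (by positivity))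
    rw [mul_pow, len_sq, len_sq]
    exact dot_sq_le u v
  unfold len at hu hv h1 ⊢
  refine Real.sqrt_le_iff.2 ⟨by positivity, ?_⟩
  rw [nsq_add]
  have h2 := Real.sq_sqrt (sq_nonneg' u)
  have h3 := Real.sq_sqrt (sq_nonneg' v)
  nlinarith

lemma len_sub_le (u v : Vec d) : len (u - v) ≤ len u + len v := by
  have h := len_add_le u (-v)
  rwa [len_neg, ← sub_eq_add_neg] at h

lemma len_le_add_sub (u v : Vec d) : len u ≤ len v + len (u - v) := by
  have h := len_add_le v (u - v)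
  rwa [add_sub_cancel] at h

lemma jb_lip (v w : Vec d) : |jb v - jb w| ≤ len (v - w) := by
  have a1 := jb_sq v
  have a2 := jb_sq w
  have b1 := len_sq v
  have b2 := len_sq w
  have c1 := len_le_jb v
  have c2 := len_le_jb w
  have d1 := len_le_add_sub v w
  have d2 := len_le_add_sub w v
  rw [len_comm w v] at d2
  have e1 := jb_pos v
  have e2 := jb_pos w
  have e3 := len_nonneg v
  have e4 := len_nonneg w
  have e5 := len_nonneg (v - w)
  have key : (jb v - jb w) * (jb v + jb w) = (len v - len w) * (len v + len w) := by nlinarith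
  have hs : 0 < jb v + jb w := by linarith
  rw [abs_le]
  constructor
  · by_contra hc
    push Not at hc
    have h1 : (jb v - jb w) * (jb v + jb w) < -len (v - w) * (jb v + jb w) :=
      mul_lt_mul_of_pos_right hc hs
    have h2 : -len (v - w) * (len v + len w) ≤ (len v - len w) * (len v + len w) :=
      mul_le_mul_of_nonneg_right (by linarith) (by linarith)
    have h3 : len (v - w) * (len v + len w) ≤ len (v - w) * (jb v + jb w) :=
      mul_le_mul_of_nonneg_left (by linarith) e5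
    linarith
  · by_contra hc
    push Not at hc
    have h1 : len (v - w) * (jb v + jb w) < (jb v - jb w) * (jb v + jb w) :=
      mul_lt_mul_of_pos_right hc hs
    have h2 : (len v - len w) * (len v + len w) ≤ len (v - w) * (len v + len w) :=
      mul_le_mul_of_nonneg_right (by linarith) (by linarith)
    have h3 : len (v - w) * (len v + len w) ≤ len (v - w) * (jb v + jb w) :=
      mul_le_mul_of_nonneg_left (by linarith) e5
    linarith

lemma abs_coord_le (v : Vec d) (i : Fin d) : |v i| ≤ len v := by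
  have h := norm_le_pi_norm v i
  rw [Real.norm_eq_abs] at h
  exact h.trans (norm_le_len v)

lemma RR_sq (v w : Vec d) : RR v w ^ 2 = jb v ^ 2 + jb w ^ 2 := by
  rw [jb_sq, jb_sq]
  unfold RR
  rw [Real.sq_sqrt (by linarith [sq_nonneg' v, sq_nonneg' w])]
  ring

lemma one_le_RR (v w : Vec d) : 1 ≤ RR v w := by
  unfold RR
  exact Real.one_le_sqrt.2 (by linarith [sq_nonneg' v, sq_nonneg' w])

lemma RR_pos (v w : Vec d) : 0 < RR v w := lt_of_lt_of_le one_pos (one_le_RR v w)

lemma jb_le_RR_left (v w : Vec d) : jb v ≤ RR v w := Real.sqrt_le_sqrt (by linarith [sq_nonneg' w])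

lemma jb_le_RR_right (v w : Vec d) : jb w ≤ RR v w := Real.sqrt_le_sqrt (by linarith [sq_nonneg' v])

lemma RR_le (v w : Vec d) : RR v w ≤ jb v + jb w := by
  have h1 := jb_pos v
  have h2 := jb_pos w
  refine abs_le_of_sq_le_sq' ?_ (by positivity) |>.2
  rw [RR_sq]
  nlinarith

lemma RR_cont : Continuous fun p : Vec d × Vec d => RR p.1 p.2 := ((continuous_const.add (continuous_sq.comp continuous_fst)).add (continuous_sq.comp continuous_snd)).sqrt

lemma nsq_sub_le_RR (v w : Vec d) : nsq (v - w) ≤ 2 * RR v w ^ 2 := by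
  rw [RR_sq, jb_sq, jb_sq]
  have h := nsq_par v w
  linarith [sq_nonneg' (v + w)]

lemma len_le_RR (v w : Vec d) : len (v - w) ≤ 2 * RR v w := by
  have h := RR_pos v w
  refine abs_le_of_sq_le_sq' ?_ (by positivity) |>.2
  rw [len_sq]
  have h2 := nsq_sub_le_RR v w
  nlinarith [sq_nonneg (RR v w)]

lemma RR_comm (v w : Vec d) : RR v w = RR w v := by
  unfold RR
  congr 1
  ring

lemma RR_post {v w σ : Vec d} (hσ : nsq σ = 1) : RR (post v w σ) (post' v w σ) = RR v w := by
  have h := energy_post (v := v) (w := w) hσ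
  unfold RR
  congr 1
  linarith

lemma nsq_post_sub {v w σ : Vec d} (hvw : v ≠ w) (hσ : nsq σ = 1) :
    nsq (post v w σ - v) = nsq (v - w) * ((1 - cosTh v w σ) / 2) := by
  rw [post_eq, add_sub_cancel_left, nsq_smul, nsq_sub_dirk hvw hσ, div_pow, len_sq]
  ring

lemma nsq_post'_sub {v w σ : Vec d} (hvw : v ≠ w) (hσ : nsq σ = 1) :
    nsq (post' v w σ - w) = nsq (v - w) * ((1 - cosTh v w σ) / 2) := by
  have e : post' v w σ - w = -((len (v - w) / 2) • (σ - dirk v w)) := by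
    rw [post'_eq]; abel
  rw [e, sq_neg, nsq_smul, nsq_sub_dirk hvw hσ, div_pow, len_sq]
  ring

lemma jb_post_le {v w σ : Vec d} (hσ : nsq σ = 1) : jb (post v w σ) ≤ RR v w := by
  rw [← RR_post hσ]
  exact jb_le_RR_left _ _

lemma jb_post'_le {v w σ : Vec d} (hσ : nsq σ = 1) : jb (post' v w σ) ≤ RR v w := by
  rw [← RR_post hσ]
  exact jb_le_RR_right _ _

lemma PG_jb {r : ℝ} : PG fun v : Vec d => jb v ^ r := by
  obtain ⟨N, hN⟩ := exists_nat_ge r
  refine ⟨N, ((d : ℝ) + 1) ^ N, fun v => ?_⟩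
  have h1 := one_le_jb v
  have h0 := jb_pos v
  rw [Real.norm_of_nonneg (Real.rpow_nonneg h0.le _), ← mul_pow]
  calc jb v ^ r ≤ jb v ^ (N : ℝ) := Real.rpow_le_rpow_of_exponent_le h1 hN
    _ = jb v ^ N := Real.rpow_natCast _ _
    _ ≤ (((d : ℝ) + 1) * (1 + ‖v‖)) ^ N := pow_le_pow_left₀ h0.le (jb_le_w v) N

end Pool.Agent.H48.PL
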