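import Pool.Agent.H48.PL.JB
import Pool.Agent.H15.AV.Ent
import Pool.Agent.H15.AVB.HB

/-!
# Module Glob: global bounds and slices of a planar Boltzmann solution

* `glob_bounds`: `mass_const`, `energy_const`, `entropy_le` (H15/AV/Ent) with `hth_boltz H`, `boltz_HasInvariants H` (Kin/BMain).
* `jb2_bound`: `jb² = 1 + nsq`, additivity (integrability: `f` rapidly decaying, `integrable_nu`).
* `fs_of`: periodicity and planarity of `boltzQ γ b (f t x)`: the function `f t x` itself is the same. Continuity `hf.cont_Q`, decay `hf.Q_le` (with `T₀ = T₁ = t`), `hf.decay`.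
* `X_pl`: `x ↦ XS a (f t x) A` is a continuous planar periodic function (`XS_cont` restricted to the slice).
-/

set_option autoImplicit false

open MeasureTheory Set Filter Topology Pool.Agent.H25.Kin

namespace Pool.Agent.H48.PL

variable {d : ℕ} {γ s C Ca T : ℝ} {b : ℝ → ℝ} {f : ℝ → Vec d → Vec d → ℝ}

/-- total mass, energy and entropy at most `M` -/
structure GB (M : ℝ) (F : Vec d → Vec d → ℝ) : Prop where
  mass : ∫ q, F q.2 q.1 ∂(nu d) ≤ M
  energy : ∫ q, F q.2 q.1 * nsq q.1 ∂(nu d) ≤ M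
  entropy : ∫ q, F q.2 q.1 * Real.log (F q.2 q.1) ∂(nu d) ≤ M

theorem glob_bounds (H : Hyp d γ s b C Ca) (hf : IsBoltzmannSol γ b T f) {M : ℝ}
    (h0 : GB M (f 0)) {t : ℝ} (ht : t ∈ Ico 0 T) : GB M (f t) := by
  have hI := boltz_HasInvariants H hf
  exact ⟨(Pool.Agent.H15.AV.mass_const (Q := boltzQ γ b) hf hI ht).trans_le h0.mass,
    (Pool.Agent.H15.AV.energy_const (Q := boltzQ γ b) hf hI ht).trans_le h0.energy,
    (Pool.Agent.H15.AV.entropy_le (Q := boltzQ γ b) (Pool.Agent.H15.AV.hth_boltz H) hf hI ht).trans h0.entropy⟩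

private theorem glob_wt (hf : IsBoltzmannSol γ b T f) {t : ℝ} (ht : t ∈ Ico 0 T) (k : ℕ) :
    ∃ C, ∀ x v, f t x v * (1 + ‖v‖) ^ k ≤ C * wt d v := by
  obtain ⟨C, hC⟩ := hf.decay t ht.2 (k + (d + 1))
  refine ⟨C, fun x v => ?_⟩
  have h1 := hC t ⟨ht.1, le_rfl⟩ x v
  have h2 : 0 < (1 + ‖v‖) ^ (d + 1) := pow_pos (w_pos v) _
  unfold wt
  rw [← div_eq_mul_inv, le_div_iff₀ h2]
  calc f t x v * (1 + ‖v‖) ^ k * (1 + ‖v‖) ^ (d + 1) = (1 + ‖v‖) ^ (k + (d + 1)) * f t x v := by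
        rw [pow_add]; ring
    _ ≤ C := h1

theorem jb2_bound (hf : IsBoltzmannSol γ b T f) {M : ℝ} {t : ℝ} (ht : t ∈ Ico 0 T)
    (h : GB M (f t)) : ∫ q, f t q.2 q.1 * jb q.1 ^ 2 ∂(nu d) ≤ 2 * M := by
  have hc : Continuous fun q : Vec d × Vec d => f t q.2 q.1 :=
    (IsClassicalSol.cont_slice hf ht).comp (by fun_prop : Continuous fun q : Vec d × Vec d => (q.2, q.1))
  have hn : ∀ q : Vec d × Vec d, 0 ≤ f t q.2 q.1 := fun q => hf.nonneg t ht q.2 q.1
  obtain ⟨C₁, h1⟩ := glob_wt hf ht 0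
  obtain ⟨C₂, h2⟩ := glob_wt hf ht 2
  have i1 : Integrable (fun q : Vec d × Vec d => f t q.2 q.1) (nu d) := by
    refine integrable_nu (C := C₁) hc.aestronglyMeasurable fun q => ?_
    have := h1 q.2 q.1
    rw [pow_zero, mul_one] at this
    rw [abs_of_nonneg (hn q)]
    exact this
  have i2 : Integrable (fun q : Vec d × Vec d => f t q.2 q.1 * nsq q.1) (nu d) := by
    refine integrable_nu (C := d * C₂)
      (hc.mul (continuous_sq.comp continuous_fst)).aestronglyMeasurable fun q => ?_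
    have a1 := h2 q.2 q.1
    have a2 := sq_le q.1
    have a3 : (d : ℝ) * ‖q.1‖ ^ 2 ≤ d * (1 + ‖q.1‖) ^ 2 := by
      have := norm_nonneg q.1
      gcongr
      linarith
    rw [abs_of_nonneg (mul_nonneg (hn q) (sq_nonneg' q.1))]
    calc f t q.2 q.1 * nsq q.1 ≤ f t q.2 q.1 * (d * (1 + ‖q.1‖) ^ 2) :=
          mul_le_mul_of_nonneg_left (a2.trans a3) (hn q)
      _ = d * (f t q.2 q.1 * (1 + ‖q.1‖) ^ 2) := by ring
      _ ≤ d * (C₂ * wt d q.1) := mul_le_mul_of_nonneg_left a1 (Nat.cast_nonneg d)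
      _ = d * C₂ * wt d q.1 := by ring
  have e : ∫ q, f t q.2 q.1 * jb q.1 ^ 2 ∂(nu d) =
      ∫ q, f t q.2 q.1 ∂(nu d) + ∫ q, f t q.2 q.1 * nsq q.1 ∂(nu d) := by
    rw [← integral_add i1 i2]
    refine integral_congr_ae (Eventually.of_forall fun q => ?_)
    simp only
    rw [jb_sq]
    ring
  rw [e]
  linarith [h.mass, h.energy]

theorem fs_of (hf : IsBoltzmannSol γ b T f) {e : Fin d} (hpl : Planar e T f) {t : ℝ}
    (ht : t ∈ Ioo 0 T) : FS e (f t) (fun x => boltzQ γ b (f t x)) := by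
  have ht' : t ∈ Ico 0 T := ⟨ht.1.le, ht.2⟩
  have hper : ∀ x i, f t (x + Pi.single i 1) = f t x := fun x i => by
    funext v
    exact hf.periodic t ht' x v i
  have hplf : ∀ x y, x e = y e → f t x = f t y := fun x y h => by
    funext v
    exact hpl t ht' x y v h
  refine ⟨fun x v => hf.nonneg t ht' x v, fun x v i => hf.periodic t ht' x v i,
    fun x v i => by simp only [hper], fun x y v h => hpl t ht' x y v h,
    fun x y v h => by simp only [hplf x y h], IsClassicalSol.cont_slice hf ht',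
    IsClassicalSol.cont_Q hf ht, ?_, ?_⟩
  · intro N
    obtain ⟨C, hC⟩ := hf.decay t ht.2 N
    refine ⟨C, fun x v => ?_⟩
    rw [abs_of_nonneg (hf.nonneg t ht' x v)]
    exact hC t ⟨ht.1.le, le_rfl⟩ x v
  · intro N
    obtain ⟨C, -, hC⟩ := IsClassicalSol.Q_le hf ht.1 ht.2 N
    refine ⟨C, fun x v => ?_⟩
    have h1 := hC t ⟨le_rfl, le_rfl⟩ x v
    have h2 : 0 < (1 + ‖v‖) ^ N := pow_pos (w_pos v) N
    rw [← div_eq_mul_inv, le_div_iff₀ h2, mul_comm] at h1
    exact h1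

end Pool.Agent.H48.PL
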