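import Pool.Agent.H48.PL.JB
import Pool.Agent.H82.CM.ExcG

/-!
# Module TbL: the comparison function `Tb p c v u = c ((1+|v|²)/(1+|u|²))^p` and the gain integrals

* `Tb_touch`: divide the touching condition by `(1+nsq u)^p`.
* `Tb_reg`: `(z,u) ∈ RegS θ L v`, `a = 1+nsq v`, `h = u-v`: if `|h|² ≥ a/4` then `|u|² ≥ a/4`; if `|h|² < a/4`: `1+|u|² = a(1+X+Y)`,
  `X = |h|²/a < 1/4`, `|Y| = 2|v·h|/a ≤ 2√X`, so `≥ a (1-√X)² ≥ a/4`. Hence `a/(1+|u|²) ≤ 4`.
* `Tb_low`: `|u-v|² ≤ a`: `1+|u|² ≤ 1+2|v|²+2|u-v|² ≤ 4a`.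
* `GMg`, `GEg` are lintegrals of `ofReal (kernel * g (v+hh σ m))`: monotone and additive in `g ≥ 0` (kernel `≥ 0` on the sphere a.e.: `fast_Kn0`-like, see
  `exc_boundg`; `ENNReal.ofReal_add`, `ENNReal.ofReal_mul`, `surf_ae`; measurability `measurable_hh`, `measurable_co`, `measurable_bt`).
-/

set_option autoImplicit false

open MeasureTheory Set Filter Topology Pool.Agent.H25.Kin Pool.Agent.H82.BK Pool.Agent.H82.CM
open scoped ENNReal

namespace Pool.Agent.H48.PL

variable {d : ℕ} {γ s a C Ca : ℝ} {b : ℝ → ℝ} {p : ℕ}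

private lemma tb_pos (v : Vec d) : 0 < 1 + nsq v := by
  have := sq_nonneg' v
  linarith

private lemma tb_min0 (v u : Vec d) : 0 ≤ min 1 (nsq (u - v) / (1 + nsq v)) :=
  le_min zero_le_one (div_nonneg (sq_nonneg' _) (tb_pos v).le)

private lemma tb_two (x y : Vec d) : nsq (x + y) ≤ 2 * nsq x + 2 * nsq y := by
  have e2 := nsq_sub x y
  have e3 := nsq_add x y
  have e4 := sq_nonneg' (x - y)
  linarith

lemma mm_nonneg (a : ℝ) (v u : Vec d) : 0 ≤ mm a v u := Real.rpow_nonneg (tb_min0 v u) _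

lemma mm_le_one (ha : 0 ≤ a) (v u : Vec d) : mm a v u ≤ 1 :=
  Real.rpow_le_one (tb_min0 v u) (min_le_left _ _) (by linarith)

lemma mm_meas (a : ℝ) (v : Vec d) : Measurable (mm a v) := by
  have h1 : Measurable fun u : Vec d => nsq (u - v) :=
    (continuous_sq.comp (continuous_id.sub continuous_const)).measurable
  exact (measurable_const.min (h1.div_const _)).pow_const _

lemma Tb_self (p : ℕ) (c : ℝ) (v : Vec d) : Tb p c v v = c := by
  unfold Tb
  rw [div_self (tb_pos v).ne', one_pow, mul_one]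

lemma Tb_nonneg {c : ℝ} (hc : 0 ≤ c) (v u : Vec d) : 0 ≤ Tb p c v u :=
  mul_nonneg hc (pow_nonneg (div_nonneg (tb_pos v).le (tb_pos u).le) p)

lemma Tb_meas (p : ℕ) (c : ℝ) (v : Vec d) : Measurable (Tb p c v) := by
  have h1 : Measurable fun u : Vec d => 1 + nsq u :=
    measurable_const.add (continuous_sq (d := d)).measurable
  exact measurable_const.mul ((measurable_const.div h1).pow_const p)

lemma Tb_eq (p : ℕ) (c : ℝ) (v u : Vec d) :
    Tb p c v u * (1 + nsq u) ^ p = Tb p c v v * (1 + nsq v) ^ p := by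
  rw [Tb_self]
  unfold Tb
  rw [div_pow, mul_assoc, div_mul_cancel₀ _ (pow_ne_zero p (tb_pos u).ne')]

lemma Tb_touch {δ : ℝ} {g : Vec d → ℝ} {v : Vec d} (h : Touch δ a p g v) (u : Vec d) :
    g u ≤ Tb p (g v) v u + δ * (Tb p (g v) v u * mm a v u) := by
  have hp := pow_pos (tb_pos u) p
  have h1 := h u
  have h2 := Tb_eq (p := p) (g v) v u
  rw [Tb_self] at h2
  refine le_of_mul_le_mul_right ?_ hp
  calc g u * (1 + nsq u) ^ p ≤ g v * (1 + nsq v) ^ p * (1 + δ * mm a v u) := h1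
    _ = (Tb p (g v) v u + δ * (Tb p (g v) v u * mm a v u)) * (1 + nsq u) ^ p := by
      rw [← h2]; ring

lemma Tb_reg {θ L c : ℝ} (hc : 0 ≤ c) {v z u : Vec d} (h : (z, u) ∈ RegS θ L v) :
    Tb p c v u ≤ 4 ^ p * c := by
  have h1 : 1 + nsq v ≤ 4 * (1 + nsq u) := by
    by_cases h2 : nsq u < (1 + nsq v) / 4
    · have h3 : nsq (u - v) < (1 + nsq v) / 4 := by
        by_contra h4
        exact h.1 ⟨h2, not_lt.1 h4⟩
      have h5 := tb_two (v - u) u
      rw [sub_add_cancel] at h5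
      have h6 : nsq (v - u) = nsq (u - v) := by
        rw [← Pool.Agent.H25.Kin.sq_neg (u - v), neg_sub]
      rw [h6] at h5
      have h7 := sq_nonneg' u
      linarith
    · have h3 := not_lt.1 h2
      linarith
  have h2 : (1 + nsq v) / (1 + nsq u) ≤ 4 := by
    rw [div_le_iff₀ (tb_pos u)]
    exact h1
  unfold Tb
  rw [mul_comm]
  exact mul_le_mul_of_nonneg_right (pow_le_pow_left₀ (div_nonneg (tb_pos v).le (tb_pos u).le) h2 p) hc

lemma Tb_low {c : ℝ} (hc : 0 ≤ c) {v u : Vec d} (h : nsq (u - v) ≤ 1 + nsq v) :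
    c / 4 ^ p ≤ Tb p c v u := by
  have h1 : 1 + nsq u ≤ 4 * (1 + nsq v) := by
    have h5 := tb_two (u - v) v
    rw [sub_add_cancel] at h5
    linarith
  have h2 : 1 / 4 ≤ (1 + nsq v) / (1 + nsq u) := by
    rw [div_le_div_iff₀ (by norm_num) (tb_pos u)]
    linarith
  unfold Tb
  calc c / 4 ^ p = c * (1 / 4) ^ p := by rw [div_pow, one_pow, mul_one_div]
    _ ≤ c * ((1 + nsq v) / (1 + nsq u)) ^ p :=
      mul_le_mul_of_nonneg_left (pow_le_pow_left₀ (by norm_num) h2 p) hc

private lemma tb_kn_nonneg {β : ℝ → ℝ} (hβ : ∀ x, -1 ≤ x → x ≤ 1 → 0 ≤ β x) {m σ : Vec d}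
    (hσ : nsq σ = 1) (hd : 0 < dot m σ) : 0 ≤ Kn d γ β (co m σ) := by
  have h1 := co_pos hd
  have h2 := co_le_one (m := m) hσ
  have h3 : 0 ≤ β (2 * co m σ ^ 2 - 1) := hβ _ (by nlinarith) (by nlinarith)
  have h4 : 0 ≤ co m σ ^ (-2 - γ) := Real.rpow_nonneg h1.le _
  unfold Kn
  positivity

private lemma tb_p (m : Vec d) : Measurable fun σ : Vec d => ((m, σ) : Vec d × Vec d) :=
  measurable_const.prodMk measurable_id

private lemma tb_co (m : Vec d) : Measurable fun σ : Vec d => co m σ := by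
  have h1 : Measurable fun q : Vec d × Vec d => co q.1 q.2 := measurable_co
  have h2 := h1.comp (tb_p m)
  exact h2

private lemma tb_h (m : Vec d) : Measurable fun σ : Vec d => hh σ m := by
  have h1 : Measurable fun q : Vec d × Vec d => hh q.2 q.1 := measurable_hh
  have h2 := h1.comp (tb_p m)
  exact h2

private lemma tb_hh (v m : Vec d) : Measurable fun σ : Vec d => v + hh σ m := by
  have h2 : Measurable fun x : Vec d => v + x := (continuous_const.add continuous_id).measurable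
  have h3 := h2.comp (tb_h m)
  exact h3

private lemma tb_kn (γ : ℝ) {β : ℝ → ℝ} (hβ : Measurable β) (m : Vec d) :
    Measurable fun σ : Vec d => Kn d γ β (co m σ) := by
  have h1 := tb_co m
  have h3 : Measurable fun c : ℝ => Kn d γ β c := by
    unfold Kn
    have e1 : Measurable fun c : ℝ => c ^ (-2 - γ) := measurable_id.pow_const _
    have e2 : Measurable fun c : ℝ => 2 * c ^ 2 - 1 := by fun_prop
    exact (measurable_const.mul e1).mul (hβ.comp e2)
  exact Measurable.comp (g := fun c : ℝ => Kn d γ β c) h3 h1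

private lemma tb_meas (γ : ℝ) {β : ℝ → ℝ} (hβ : Measurable β) {T : Vec d → ℝ} (hT : Measurable T) (v m : Vec d) :
    Measurable fun σ : Vec d => ENNReal.ofReal (Kn d γ β (co m σ) * T (v + hh σ m)) := by
  have h3 := tb_kn γ hβ m
  have h4 : Measurable fun σ : Vec d => T (v + hh σ m) := Measurable.comp (g := T) hT (tb_hh v m)
  exact (h3.mul h4).ennreal_ofReal

private lemma tb_point {K δ x T M : ℝ} (hK : 0 ≤ K) (hδ : 0 ≤ δ) (hT : 0 ≤ T) (hM : 0 ≤ M)
    (h : x ≤ T + δ * (T * M)) :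
    ENNReal.ofReal (K * x) ≤ ENNReal.ofReal (K * T) + ENNReal.ofReal δ * ENNReal.ofReal (K * (T * M)) := by
  rw [← ENNReal.ofReal_mul hδ, ← ENNReal.ofReal_add (by positivity) (by positivity)]
  apply ENNReal.ofReal_le_ofReal
  calc K * x ≤ K * (T + δ * (T * M)) := mul_le_mul_of_nonneg_left h hK
    _ = _ := by ring

/-- the regular gain of a touching function -/
lemma GMg_touch (H : Hyp d γ s b C Ca) {δ : ℝ} (hδ : 0 ≤ δ) {g : Vec d → ℝ} (hg0 : ∀ u, 0 ≤ g u) {v : Vec d}
    (h : Touch δ a p g v) (S : Set (Vec d × Vec d)) (hS : MeasurableSet S) (m : Vec d) {ε : ℝ} (hε : 0 < ε) :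
    GMg γ b ε g S v m ≤ GMg γ b ε (Tb p (g v) v) S v m +
      ENNReal.ofReal δ * GMg γ b ε (fun u => Tb p (g v) v u * mm a v u) S v m := by
  classical
  have hbt := measurable_bt H.bm ε
  have hSm : MeasurableSet {σ : Vec d | (v - m, v + hh σ m) ∈ S} :=
    (measurable_const.prodMk (tb_hh v m)) hS
  have m1 : Measurable fun σ : Vec d => (if (v - m, v + hh σ m) ∈ S then
      ENNReal.ofReal (Kn d γ (bt b ε) (co m σ) * Tb p (g v) v (v + hh σ m)) else 0) :=
    Measurable.ite hSm (tb_meas γ hbt (Tb_meas p (g v) v) v m) measurable_const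
  have m2 : Measurable fun σ : Vec d => (if (v - m, v + hh σ m) ∈ S then
      ENNReal.ofReal (Kn d γ (bt b ε) (co m σ) * (Tb p (g v) v (v + hh σ m) * mm a v (v + hh σ m))) else 0) :=
    Measurable.ite hSm (tb_meas γ hbt ((Tb_meas p (g v) v).mul (mm_meas a v)) v m) measurable_const
  unfold GMg
  rw [← lintegral_const_mul _ m2, ← lintegral_add_left m1]
  apply lintegral_mono_ae
  filter_upwards [ae_restrict_of_ae surf_ae, ae_restrict_mem (measurableSet_half m)] with σ hσ hd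
  have hK := tb_kn_nonneg (γ := γ) (β := bt b ε) (fun x h1 h2 => bt_nonneg H.bd hε h1 h2) hσ hd
  split_ifs with hs
  · exact tb_point hK hδ (Tb_nonneg (hg0 v) _ _) (mm_nonneg _ _ _) (Tb_touch h _)
  · exact zero_le

/-- the exceptional gain of a touching function, `δ ≤ 1` -/
lemma GEg_touch (H : Hyp d γ s b C Ca) {δ : ℝ} (hδ : 0 ≤ δ) (ha : 0 ≤ a) {g : Vec d → ℝ} (hg0 : ∀ u, 0 ≤ g u)
    {v : Vec d} (h : Touch δ a p g v) (S : Set (Vec d × Vec d)) (hS : MeasurableSet S) (m : Vec d) {ε : ℝ}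
    (hε : 0 < ε) :
    GEg γ b ε g S v m ≤ GEg γ b ε (Tb p (g v) v) S v m +
      ENNReal.ofReal δ * GEg γ b ε (Tb p (g v) v) S v m := by
  classical
  have hbt : Measurable fun x => bt b ε (-x) := (measurable_bt H.bm ε).comp measurable_neg
  have hSm : MeasurableSet {σ : Vec d | (v + hh σ m, v - m) ∈ S} :=
    ((tb_hh v m).prodMk measurable_const) hS
  have m1 : Measurable fun σ : Vec d => (if (v + hh σ m, v - m) ∈ S then 0 else
      ENNReal.ofReal (Kn d γ (fun x => bt b ε (-x)) (co m σ) * Tb p (g v) v (v + hh σ m))) :=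
    Measurable.ite hSm measurable_const (tb_meas γ hbt (Tb_meas p (g v) v) v m)
  unfold GEg
  rw [← lintegral_const_mul _ m1, ← lintegral_add_left m1]
  apply lintegral_mono_ae
  filter_upwards [ae_restrict_of_ae surf_ae, ae_restrict_mem (measurableSet_half m)] with σ hσ hd
  have hK := tb_kn_nonneg (γ := γ) (β := fun x => bt b ε (-x))
    (fun x h1 h2 => bt_nonneg H.bd hε (by linarith) (by linarith)) hσ hd
  split_ifs with hs
  · exact zero_le
  · have hT : 0 ≤ Tb p (g v) v (v + hh σ m) := Tb_nonneg (hg0 v) _ _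
    have h1 := Tb_touch h (v + hh σ m)
    have h2 := mul_le_mul_of_nonneg_left (mm_le_one ha v (v + hh σ m)) hT
    have h3 : g (v + hh σ m) ≤ Tb p (g v) v (v + hh σ m) + δ * (Tb p (g v) v (v + hh σ m) * 1) := by
      have := mul_le_mul_of_nonneg_left h2 hδ
      linarith
    have h4 := tb_point hK hδ hT zero_le_one h3
    rwa [mul_one] at h4

end Pool.Agent.H48.PL
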