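import Pool.Agent.H48.PL.Defs
import Pool.Agent.H82.CM.LowK

/-!
# Module Ang: angular integrals

`β = (d-1)/2 + s`, `x = k·σ`, `y = 1 - x ∈ [0,2]`. The library has (`H.an : AngInt d s Ca`, with `cosTh k 0 σ = dot k σ` for
`|k| = 1`) `∫ y^(-β) min(r² y, 1) ≤ Ca r^(2s)` for all `r > 0`.
* `ang_large`: on `y ≥ u` take `r = u^(-1/2)`: `min(r² y,1) = 1`, so the integral is `≤ Ca u^(-s)`.
* `ang_scale`: for `0 ≤ t ≤ 1`: `t^τ ≤ 4 ∑_{j≥0} 4^(-τ j) min(4^j t, 1)` (take `j` with `4^(-j-1) < t ≤ 4^(-j)`: `4^(-τ j) ≥ t^τ`,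
  `min(4^j t,1) ≥ 1/4`; `t = 0` trivial). With `t = min(ρ² y, 1)`: `min(4^j min(ρ²y,1),1) ≤ min((2^j ρ)² y, 1)`. Sum:
  `∫ y^(-β) min(ρ²y,1)^τ ≤ 4 ∑ 4^(-τ j) Ca (2^j ρ)^(2s) = 4 Ca ρ^(2s) ∑ 4^((s-τ) j) < ∞` (`lintegral_tsum` or finite sums).
* `ang_small`: on `y ≤ u` take `ρ = u^(-1/2)` in `ang_scale`: `y^τ = u^τ min(ρ² y,1)^τ`.
* `cap_low`: `|σ-k|² = 2(1-k·σ)` for `|k|=|σ|=1`. `shell_low` (H82/CM/Shell) with `u = r²/64 ≤ 1/64`: the shell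
  `u ≤ 1-k·σ ≤ 32u` is contained in `|σ-k|² ≤ 64 u = r²`, measure `≥ c (r²/64)^((d-1)/2) = c 8^(-(d-1)) r^(d-1)`.
* `ker_small`, `ker_large`: `kerB ≤ C |V|^γ y^(-β)` (`kerB_le_ang`, a.e. `surf_ae`), `y = 1 - cosTh v w σ`, `cosTh_eq`.
-/

set_option autoImplicit false

open MeasureTheory Set Filter Topology Pool.Agent.H25.Kin Pool.Agent.H82.BK Pool.Agent.H82.CM
open scoped ENNReal

namespace Pool.Agent.H48.PL

variable {d : ℕ} {γ s C Ca cb : ℝ} {b : ℝ → ℝ}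

private lemma y_cont (k : Vec d) : Continuous fun σ : Vec d => 1 - dot k σ :=
  continuous_const.sub (dot_cont k)

private lemma y_nonneg {k σ : Vec d} (hk : nsq k = 1) (hσ : nsq σ = 1) : 0 ≤ 1 - dot k σ := by
  have := (abs_le.1 (dot_le_one hk hσ)).2
  linarith

private lemma rt_sq {u : ℝ} (hu : 0 < u) : (u ^ (-(1 / 2) : ℝ)) ^ 2 = u⁻¹ := by
  rw [← Real.rpow_natCast (u ^ (-(1 / 2) : ℝ)) 2, ← Real.rpow_mul hu.le, ← Real.rpow_neg_one u]
  congr 1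
  push_cast
  ring

private lemma rt_pow {u : ℝ} (hu : 0 < u) : (u ^ (-(1 / 2) : ℝ)) ^ (2 * s) = u ^ (-s) := by
  rw [← Real.rpow_mul hu.le]
  congr 1
  ring

theorem ang_large (H : Hyp d γ s b C Ca) : ∃ A : ℝ, 0 ≤ A ∧ ∀ k : Vec d, nsq k = 1 → ∀ u : ℝ, 0 < u →
    ∫⁻ σ in {σ : Vec d | u ≤ 1 - dot k σ}, ENNReal.ofReal ((1 - dot k σ) ^ (-(((d : ℝ) - 1) / 2 + s)))
      ∂(surf d) ≤ ENNReal.ofReal (A * u ^ (-s)) := by
  obtain ⟨A, hA, h⟩ := angular H.hd1 H.hs H.hs1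
  refine ⟨A, hA, fun k hk u hu => ?_⟩
  have h1 := h k hk (u ^ (-(1 / 2) : ℝ)) (Real.rpow_pos_of_pos hu _)
  rw [rt_pow hu] at h1
  refine le_trans ?_ h1
  have hS : MeasurableSet {σ : Vec d | u ≤ 1 - dot k σ} :=
    (isClosed_le continuous_const (y_cont k)).measurableSet
  refine le_trans (setLIntegral_mono' hS fun σ hσ => ?_) (setLIntegral_le_lintegral _ _)
  have h2 : u ≤ 1 - dot k σ := hσ
  have h3 : min ((u ^ (-(1 / 2) : ℝ)) ^ 2 * (1 - dot k σ)) 1 = 1 := by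
    rw [rt_sq hu]
    refine min_eq_right ?_
    calc (1 : ℝ) = u⁻¹ * u := (inv_mul_cancel₀ hu.ne').symm
      _ ≤ u⁻¹ * (1 - dot k σ) := mul_le_mul_of_nonneg_left h2 (inv_nonneg.2 hu.le)
  rw [h3, mul_one]

private lemma pt_scale {y ρ β τ : ℝ} (hy : 0 ≤ y) (hτ : 0 < τ) :
    ENNReal.ofReal (y ^ (-β) * min (ρ ^ 2 * y) 1 ^ τ) ≤
      4 * ∑' j : ℕ, ENNReal.ofReal (((1 / 4 : ℝ) ^ τ) ^ j) *
        ENNReal.ofReal (y ^ (-β) * min ((2 ^ j * ρ) ^ 2 * y) 1) := by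
  set m := min (ρ ^ 2 * y) 1 with hm
  have hm0 : 0 ≤ m := le_min (mul_nonneg (sq_nonneg _) hy) zero_le_one
  have hm1 : m ≤ 1 := min_le_right _ _
  rcases hm0.eq_or_lt with h0 | h0
  · rw [← h0, Real.zero_rpow hτ.ne', mul_zero, ENNReal.ofReal_zero]
    exact zero_le
  obtain ⟨j, hj1, hj2⟩ := exists_nat_pow_near_of_lt_one h0 hm1 (y := (1 / 4 : ℝ)) (by norm_num)
    (by norm_num)
  refine le_trans ?_ (mul_le_mul_right (ENNReal.le_tsum j) 4)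
  have hq : 0 ≤ ((1 / 4 : ℝ) ^ τ) ^ j := by positivity
  have hyb : 0 ≤ y ^ (-β) := Real.rpow_nonneg hy _
  have e4 : (4 : ℝ≥0∞) = ENNReal.ofReal 4 := by norm_num
  rw [← ENNReal.ofReal_mul hq, e4, ← ENNReal.ofReal_mul (by norm_num)]
  refine ENNReal.ofReal_le_ofReal ?_
  have h1 : m ^ τ ≤ ((1 / 4 : ℝ) ^ τ) ^ j := by
    calc m ^ τ ≤ ((1 / 4 : ℝ) ^ j) ^ τ := Real.rpow_le_rpow hm0 hj2 hτ.le
      _ = ((1 / 4 : ℝ) ^ τ) ^ j := by
        rw [← Real.rpow_natCast (1 / 4 : ℝ) j, ← Real.rpow_natCast ((1 / 4 : ℝ) ^ τ) j,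
          ← Real.rpow_mul (by norm_num), ← Real.rpow_mul (by norm_num), mul_comm]
  have h2 : 1 / 4 ≤ min ((2 ^ j * ρ) ^ 2 * y) 1 := by
    refine le_min ?_ (by norm_num)
    have h3 : (1 / 4 : ℝ) ^ (j + 1) < ρ ^ 2 * y := lt_of_lt_of_le hj1 (min_le_left _ _)
    have h4 : (4 : ℝ) ^ j * (1 / 4 : ℝ) ^ (j + 1) = 1 / 4 := by
      rw [pow_succ, ← mul_assoc, ← mul_pow]
      norm_num
    have h5 : (2 ^ j * ρ) ^ 2 * y = (4 : ℝ) ^ j * (ρ ^ 2 * y) := by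
      rw [mul_pow, ← pow_mul, mul_comm j 2, pow_mul]
      norm_num
      ring
    rw [h5, ← h4]
    exact mul_le_mul_of_nonneg_left h3.le (by positivity)
  calc y ^ (-β) * m ^ τ ≤ y ^ (-β) * ((1 / 4 : ℝ) ^ τ) ^ j := mul_le_mul_of_nonneg_left h1 hyb
    _ = 4 * (((1 / 4 : ℝ) ^ τ) ^ j * (y ^ (-β) * (1 / 4))) := by ring
    _ ≤ 4 * (((1 / 4 : ℝ) ^ τ) ^ j * (y ^ (-β) * min ((2 ^ j * ρ) ^ 2 * y) 1)) := by
      gcongr

theorem ang_scale (H : Hyp d γ s b C Ca) {τ : ℝ} (hτ : s < τ) (hτ1 : τ ≤ 1) :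
    ∃ A : ℝ, 0 ≤ A ∧ ∀ k : Vec d, nsq k = 1 → ∀ ρ : ℝ, 0 < ρ →
    ∫⁻ σ, ENNReal.ofReal ((1 - dot k σ) ^ (-(((d : ℝ) - 1) / 2 + s)) *
      min (ρ ^ 2 * (1 - dot k σ)) 1 ^ τ) ∂(surf d) ≤ ENNReal.ofReal (A * ρ ^ (2 * s)) := by
  obtain ⟨A, hA, h⟩ := angular H.hd1 H.hs H.hs1
  set q : ℝ := (1 / 4 : ℝ) ^ τ * 4 ^ s with hq
  have hq0 : 0 ≤ q := by positivity
  have hq1 : q < 1 := by
    have e1 : q = (1 / 4 : ℝ) ^ (τ - s) := by
      have e0 : (4 : ℝ) ^ s = ((1 / 4 : ℝ) ^ s)⁻¹ := by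
        rw [← Real.inv_rpow (by norm_num)]
        norm_num
      rw [hq, Real.rpow_sub (by norm_num) τ s, e0]
      exact (div_eq_mul_inv _ _).symm
    rw [e1]
    exact Real.rpow_lt_one (by norm_num) (by norm_num) (by linarith)
  have hq2 : 0 < 1 - q := by linarith
  refine ⟨4 * (A * (1 - q)⁻¹), by positivity, fun k hk ρ hρ => ?_⟩
  have hm : ∀ j : ℕ, Measurable fun σ : Vec d => ENNReal.ofReal
      ((1 - dot k σ) ^ (-(((d : ℝ) - 1) / 2 + s)) * min ((2 ^ j * ρ) ^ 2 * (1 - dot k σ)) 1) := by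
    intro j
    have h0 : Measurable fun σ : Vec d => 1 - dot k σ := (y_cont k).measurable
    exact ((h0.pow_const _).mul ((measurable_const.mul h0).min measurable_const)).ennreal_ofReal
  have hρ2 : 0 ≤ ρ ^ (2 * s) := Real.rpow_nonneg hρ.le _
  calc ∫⁻ σ, ENNReal.ofReal ((1 - dot k σ) ^ (-(((d : ℝ) - 1) / 2 + s)) *
        min (ρ ^ 2 * (1 - dot k σ)) 1 ^ τ) ∂(surf d)
      ≤ ∫⁻ σ, 4 * ∑' j : ℕ, ENNReal.ofReal (((1 / 4 : ℝ) ^ τ) ^ j) * ENNReal.ofReal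
          ((1 - dot k σ) ^ (-(((d : ℝ) - 1) / 2 + s)) * min ((2 ^ j * ρ) ^ 2 * (1 - dot k σ)) 1)
          ∂(surf d) := by
        refine lintegral_mono_ae ?_
        filter_upwards [surf_ae] with σ hσ
        exact pt_scale (y_nonneg hk hσ) (H.hs.trans hτ)
    _ = 4 * ∑' j : ℕ, ENNReal.ofReal (((1 / 4 : ℝ) ^ τ) ^ j) * ∫⁻ σ, ENNReal.ofReal
          ((1 - dot k σ) ^ (-(((d : ℝ) - 1) / 2 + s)) * min ((2 ^ j * ρ) ^ 2 * (1 - dot k σ)) 1)
          ∂(surf d) := by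
        rw [lintegral_const_mul _ (Measurable.tsum fun j => (hm j).const_mul _),
          lintegral_tsum fun j => ((hm j).const_mul _).aemeasurable]
        congr 1
        exact tsum_congr fun j => lintegral_const_mul _ (hm j)
    _ ≤ 4 * ∑' j : ℕ, ENNReal.ofReal (A * ρ ^ (2 * s) * q ^ j) := by
        refine mul_le_mul_right (ENNReal.tsum_le_tsum fun j => ?_) 4
        have h2j : (0 : ℝ) < 2 ^ j := by positivity
        refine le_trans (mul_le_mul_right (h k hk (2 ^ j * ρ) (by positivity)) _) ?_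
        rw [← ENNReal.ofReal_mul (by positivity)]
        refine ENNReal.ofReal_le_ofReal (le_of_eq ?_)
        have e2 : (2 ^ j * ρ) ^ (2 * s) = ((4 : ℝ) ^ s) ^ j * ρ ^ (2 * s) := by
          rw [Real.mul_rpow h2j.le hρ.le]
          congr 1
          rw [← Real.rpow_natCast (2 : ℝ) j, ← Real.rpow_natCast ((4 : ℝ) ^ s) j,
            ← Real.rpow_mul (by norm_num), ← Real.rpow_mul (by norm_num),
            show (4 : ℝ) = 2 ^ (2 : ℝ) by norm_num, ← Real.rpow_mul (by norm_num)]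
          congr 1
          ring
        rw [e2, hq, mul_pow]
        ring
    _ = ENNReal.ofReal (4 * (A * (1 - q)⁻¹) * ρ ^ (2 * s)) := by
        rw [← ENNReal.ofReal_tsum_of_nonneg (fun j => by positivity)
          ((summable_geometric_of_lt_one hq0 hq1).mul_left _), tsum_mul_left,
          tsum_geometric_of_lt_one hq0 hq1, show (4 : ℝ≥0∞) = ENNReal.ofReal 4 by norm_num,
          ← ENNReal.ofReal_mul (by norm_num)]
        congr 1
        ring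

theorem ang_small (H : Hyp d γ s b C Ca) {τ : ℝ} (hτ : s < τ) (hτ1 : τ ≤ 1) :
    ∃ A : ℝ, 0 ≤ A ∧ ∀ k : Vec d, nsq k = 1 → ∀ u : ℝ, 0 < u →
    ∫⁻ σ in {σ : Vec d | 1 - dot k σ ≤ u}, ENNReal.ofReal
      ((1 - dot k σ) ^ (-(((d : ℝ) - 1) / 2 + s)) * (1 - dot k σ) ^ τ) ∂(surf d) ≤
      ENNReal.ofReal (A * u ^ (τ - s)) := by
  obtain ⟨A, hA, h⟩ := ang_scale H hτ hτ1
  refine ⟨A, hA, fun k hk u hu => ?_⟩
  have h1 := h k hk (u ^ (-(1 / 2) : ℝ)) (Real.rpow_pos_of_pos hu _)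
  rw [rt_pow hu] at h1
  have hS : MeasurableSet {σ : Vec d | 1 - dot k σ ≤ u} :=
    (isClosed_le (y_cont k) continuous_const).measurableSet
  have hut : 0 ≤ u ^ τ := Real.rpow_nonneg hu.le _
  have hm : Measurable fun σ : Vec d => ENNReal.ofReal
      ((1 - dot k σ) ^ (-(((d : ℝ) - 1) / 2 + s)) *
        min ((u ^ (-(1 / 2) : ℝ)) ^ 2 * (1 - dot k σ)) 1 ^ τ) := by
    have h0 : Measurable fun σ : Vec d => 1 - dot k σ := (y_cont k).measurable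
    exact ((h0.pow_const _).mul
      (((measurable_const.mul h0).min measurable_const).pow_const _)).ennreal_ofReal
  calc ∫⁻ σ in {σ : Vec d | 1 - dot k σ ≤ u}, ENNReal.ofReal
        ((1 - dot k σ) ^ (-(((d : ℝ) - 1) / 2 + s)) * (1 - dot k σ) ^ τ) ∂(surf d)
      ≤ ∫⁻ σ in {σ : Vec d | 1 - dot k σ ≤ u}, ENNReal.ofReal (u ^ τ) * ENNReal.ofReal
          ((1 - dot k σ) ^ (-(((d : ℝ) - 1) / 2 + s)) *
            min ((u ^ (-(1 / 2) : ℝ)) ^ 2 * (1 - dot k σ)) 1 ^ τ) ∂(surf d) := by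
        refine lintegral_mono_ae ((ae_restrict_iff' hS).2 ?_)
        filter_upwards [surf_ae] with σ hσ hy1
        have hy : 0 ≤ 1 - dot k σ := y_nonneg hk hσ
        have hy1' : 1 - dot k σ ≤ u := hy1
        rw [← ENNReal.ofReal_mul hut]
        refine ENNReal.ofReal_le_ofReal (le_of_eq ?_)
        have h3 : min ((u ^ (-(1 / 2) : ℝ)) ^ 2 * (1 - dot k σ)) 1 = u⁻¹ * (1 - dot k σ) := by
          rw [rt_sq hu]
          refine min_eq_left ?_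
          calc u⁻¹ * (1 - dot k σ) ≤ u⁻¹ * u := mul_le_mul_of_nonneg_left hy1' (inv_nonneg.2 hu.le)
            _ = 1 := inv_mul_cancel₀ hu.ne'
        rw [h3, Real.mul_rpow (inv_nonneg.2 hu.le) hy, Real.inv_rpow hu.le]
        have h4 : u ^ τ ≠ 0 := (Real.rpow_pos_of_pos hu _).ne'
        field_simp
    _ ≤ ∫⁻ σ, ENNReal.ofReal (u ^ τ) * ENNReal.ofReal
          ((1 - dot k σ) ^ (-(((d : ℝ) - 1) / 2 + s)) *
            min ((u ^ (-(1 / 2) : ℝ)) ^ 2 * (1 - dot k σ)) 1 ^ τ) ∂(surf d) :=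
        setLIntegral_le_lintegral _ _
    _ ≤ ENNReal.ofReal (u ^ τ) * ENNReal.ofReal (A * u ^ (-s)) := by
        rw [lintegral_const_mul _ hm]
        exact mul_le_mul_right h1 _
    _ = ENNReal.ofReal (A * u ^ (τ - s)) := by
        rw [← ENNReal.ofReal_mul hut, Real.rpow_sub hu, Real.rpow_neg hu.le]
        congr 1
        field_simp

theorem cap_low (hd : 2 ≤ d) : ∃ c : ℝ, 0 < c ∧ ∀ k : Vec d, nsq k = 1 → ∀ r : ℝ, 0 < r → r ≤ 1 →
    ENNReal.ofReal (c * r ^ ((d : ℝ) - 1)) ≤ surf d {σ | nsq σ = 1 ∧ nsq (σ - k) ≤ r ^ 2} := by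
  obtain ⟨c, hc, h⟩ := shell_low hd
  refine ⟨c * (1 / 64) ^ (((d : ℝ) - 1) / 2), by positivity, fun k hk r hr hr1 => ?_⟩
  have hu : 0 < r ^ 2 / 64 := by positivity
  have h1 := h k hk (r ^ 2 / 64) hu (by nlinarith)
  have e1 : c * (r ^ 2 / 64) ^ (((d : ℝ) - 1) / 2) =
      c * (1 / 64) ^ (((d : ℝ) - 1) / 2) * r ^ ((d : ℝ) - 1) := by
    rw [show r ^ 2 / 64 = (1 / 64) * r ^ 2 by ring, Real.mul_rpow (by norm_num) (by positivity),
      ← Real.rpow_natCast r 2, ← Real.rpow_mul hr.le, ← mul_assoc]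
    congr 2
    push_cast
    ring
  rw [e1] at h1
  refine h1.trans ?_
  refine measure_mono_ae ?_
  filter_upwards [surf_ae] with σ hσ h2
  obtain ⟨_, h3⟩ := h2
  refine ⟨hσ, ?_⟩
  rw [nsq_sub, hσ, hk, dot_comm]
  have h4 : 1 - dot k σ ≤ 32 * (r ^ 2 / 64) := h3
  linarith

private lemma of_lint {μ : Measure (Vec d)} {S : Set (Vec d)} {f : Vec d → ℝ} (hf : Measurable f)
    (h0 : ∀ᵐ σ ∂μ, 0 ≤ f σ) {B : ℝ} (hB : 0 ≤ B)
    (h : ∫⁻ σ in S, ENNReal.ofReal (f σ) ∂μ ≤ ENNReal.ofReal B) :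
    IntegrableOn f S μ ∧ ∫ σ in S, f σ ∂μ ≤ B := by
  have h1 : 0 ≤ᵐ[μ.restrict S] f := ae_restrict_of_ae h0
  refine ⟨⟨hf.aestronglyMeasurable, ?_⟩, ?_⟩
  · rw [hasFiniteIntegral_iff_ofReal h1]
    exact lt_of_le_of_lt h ENNReal.ofReal_lt_top
  · rw [integral_eq_lintegral_of_nonneg_ae h1 hf.aestronglyMeasurable]
    calc _ ≤ (ENNReal.ofReal B).toReal := ENNReal.toReal_mono ENNReal.ofReal_ne_top h
      _ = B := ENNReal.toReal_ofReal hB

/-- the moment of order `2τ` of small angles -/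
theorem ker_small (H : Hyp d γ s b C Ca) {τ : ℝ} (hτ : s < τ) (hτ1 : τ ≤ 1) :
    ∃ A : ℝ, 0 ≤ A ∧ ∀ ε : ℝ, 0 < ε → ∀ v w : Vec d, v ≠ w → ∀ u : ℝ, 0 < u →
    IntegrableOn (fun σ => kerB γ b ε v w σ * (1 - cosTh v w σ) ^ τ) {σ | 1 - cosTh v w σ ≤ u}
      (surf d) ∧
    ∫ σ in {σ : Vec d | 1 - cosTh v w σ ≤ u}, kerB γ b ε v w σ * (1 - cosTh v w σ) ^ τ ∂(surf d) ≤
      A * len (v - w) ^ γ * u ^ (τ - s) := by
  obtain ⟨A, hA, h⟩ := ang_small H hτ hτ1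
  have hC := H.bd.1
  refine ⟨C * A, by positivity, fun ε hε v w hvw u hu => ?_⟩
  have hlen : 0 ≤ len (v - w) ^ γ := Real.rpow_nonneg (len_nonneg _) _
  have hut : 0 ≤ u ^ (τ - s) := Real.rpow_nonneg hu.le _
  have hm0 : Measurable fun σ : Vec d => 1 - cosTh v w σ :=
    measurable_const.sub (measurable_cosTh' v w)
  refine of_lint ((measurable_kerB' γ H.bm ε v w).mul (hm0.pow_const _)) ?_ (by positivity) ?_
  · filter_upwards [surf_ae] with σ hσ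
    exact mul_nonneg (kerB_nonneg H.bd hε hσ) (Real.rpow_nonneg (one_sub_cosTh_nonneg hσ) _)
  have h1 := h (dirk v w) (nsq_dirk hvw) u hu
  have hm : Measurable fun σ : Vec d => ENNReal.ofReal
      ((1 - dot (dirk v w) σ) ^ (-(((d : ℝ) - 1) / 2 + s)) * (1 - dot (dirk v w) σ) ^ τ) := by
    have h0 : Measurable fun σ : Vec d => 1 - dot (dirk v w) σ := (y_cont _).measurable
    exact ((h0.pow_const _).mul (h0.pow_const _)).ennreal_ofReal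
  simp_rw [cosTh_eq v w]
  calc ∫⁻ σ in {σ : Vec d | 1 - dot (dirk v w) σ ≤ u}, ENNReal.ofReal
        (kerB γ b ε v w σ * (1 - dot (dirk v w) σ) ^ τ) ∂(surf d)
      ≤ ∫⁻ σ in {σ : Vec d | 1 - dot (dirk v w) σ ≤ u}, ENNReal.ofReal (C * len (v - w) ^ γ) *
          ENNReal.ofReal ((1 - dot (dirk v w) σ) ^ (-(((d : ℝ) - 1) / 2 + s)) *
            (1 - dot (dirk v w) σ) ^ τ) ∂(surf d) := by
        refine lintegral_mono_ae (ae_restrict_of_ae ?_)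
        filter_upwards [surf_ae] with σ hσ
        rw [← ENNReal.ofReal_mul (by positivity)]
        refine ENNReal.ofReal_le_ofReal ?_
        have h2 := kerB_le_ang (γ := γ) H.bd hε (v := v) (w := w) hσ
        rw [cosTh_eq] at h2
        rw [← mul_assoc]
        exact mul_le_mul_of_nonneg_right h2 (Real.rpow_nonneg (y_nonneg (nsq_dirk hvw) hσ) _)
    _ ≤ ENNReal.ofReal (C * len (v - w) ^ γ) * ENNReal.ofReal (A * u ^ (τ - s)) := by
        rw [lintegral_const_mul _ hm]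
        exact mul_le_mul_right h1 _
    _ = _ := by
        rw [← ENNReal.ofReal_mul (by positivity)]
        congr 1
        ring

/-- the mass of the angles which are not small -/
theorem ker_large (H : Hyp d γ s b C Ca) :
    ∃ A : ℝ, 0 ≤ A ∧ ∀ ε : ℝ, 0 < ε → ∀ v w : Vec d, v ≠ w → ∀ u : ℝ, 0 < u →
    IntegrableOn (fun σ => kerB γ b ε v w σ) {σ | u ≤ 1 - cosTh v w σ} (surf d) ∧
    ∫ σ in {σ : Vec d | u ≤ 1 - cosTh v w σ}, kerB γ b ε v w σ ∂(surf d) ≤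
      A * len (v - w) ^ γ * u ^ (-s) := by
  obtain ⟨A, hA, h⟩ := ang_large H
  have hC := H.bd.1
  refine ⟨C * A, by positivity, fun ε hε v w hvw u hu => ?_⟩
  have hlen : 0 ≤ len (v - w) ^ γ := Real.rpow_nonneg (len_nonneg _) _
  have hut : 0 ≤ u ^ (-s) := Real.rpow_nonneg hu.le _
  refine of_lint (measurable_kerB' γ H.bm ε v w) ?_ (by positivity) ?_
  · filter_upwards [surf_ae] with σ hσ
    exact kerB_nonneg H.bd hε hσ
  have h1 := h (dirk v w) (nsq_dirk hvw) u hu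
  have hm : Measurable fun σ : Vec d => ENNReal.ofReal
      ((1 - dot (dirk v w) σ) ^ (-(((d : ℝ) - 1) / 2 + s))) := by
    have h0 : Measurable fun σ : Vec d => 1 - dot (dirk v w) σ := (y_cont _).measurable
    exact (h0.pow_const _).ennreal_ofReal
  simp_rw [cosTh_eq v w]
  calc ∫⁻ σ in {σ : Vec d | u ≤ 1 - dot (dirk v w) σ}, ENNReal.ofReal
        (kerB γ b ε v w σ) ∂(surf d)
      ≤ ∫⁻ σ in {σ : Vec d | u ≤ 1 - dot (dirk v w) σ}, ENNReal.ofReal (C * len (v - w) ^ γ) *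
          ENNReal.ofReal ((1 - dot (dirk v w) σ) ^ (-(((d : ℝ) - 1) / 2 + s))) ∂(surf d) := by
        refine lintegral_mono_ae (ae_restrict_of_ae ?_)
        filter_upwards [surf_ae] with σ hσ
        rw [← ENNReal.ofReal_mul (by positivity)]
        refine ENNReal.ofReal_le_ofReal ?_
        have h2 := kerB_le_ang (γ := γ) H.bd hε (v := v) (w := w) hσ
        rw [cosTh_eq] at h2
        exact h2
    _ ≤ ENNReal.ofReal (C * len (v - w) ^ γ) * ENNReal.ofReal (A * u ^ (-s)) := by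
        rw [lintegral_const_mul _ hm]
        exact mul_le_mul_right h1 _
    _ = _ := by
        rw [← ENNReal.ofReal_mul (by positivity)]
        congr 1
        ring

end Pool.Agent.H48.PL
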