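import Pool.Agent.H48.PL.TbL
import Pool.Agent.H48.PL.Ang
import Pool.Agent.H82.CM.Fast

/-!
# Module FastR: the perturbation term of fast velocities

`τ = a/2 ∈ (s,1]`, `A = 1+nsq v`, `Q = nsq m/A`, `u₀ = θ/Q`, `u₁ = max u₀ ε`. `z = v-m` is fast, so in `RegS θ L v`: `X = nsq (hh)/A = Q(1-c²)/c² < θ` (`nsq_hh`), `Tb ≤ 4^p c₀` (`Tb_reg`),
`mm = X^τ`. As in the private lemma `fast_second` of H82/CM/Fast.lean (there with `X` in place of `X^τ`):
* case `ε < 4u₀`: for `c² ≥ 1/2` (otherwise `Kn = 0`): `X ≤ 4Q(1-c)`, `X < θ`, so `X^τ ≤ θ^τ min(R²(1-c),1)^τ`, `R² = 4/u₀`; `Kn ≤ K (1-c)^(-β)`; `ang_scale`: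
  `≤ 4^p c₀ K A θ^τ R^(2s)`, `R^(2s) = 4^s u₀^(-s) ≤ 4^s 4^s u₁^(-s)`.
* case `ε ≥ 4u₀`: `1-c < u₀`, `1-(2c²-1) < 4u₀ ≤ ε`: only the second part of `bt` is left, `bt ≤ C`, `Kn ≤ 2^(d-1)·4·C`, integrand `≤ 4^p c₀·2^(d-1)·4·C`: `≤ K c₀`.
-/

set_option autoImplicit false

open MeasureTheory Set Filter Topology Pool.Agent.H25.Kin Pool.Agent.H82.BK Pool.Agent.H82.CM
open scoped ENNReal

namespace Pool.Agent.H48.PL

variable {d : ℕ} {γ s a C Ca : ℝ} {b : ℝ → ℝ}

private lemma fr_Kn (H : Hyp d γ s b C Ca) {m σ : Vec d} (hσ : nsq σ = 1) (hm : 0 < dot m σ) (ε : ℝ)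
    (h1 : co m σ < 1) :
    Kn d γ (bt b ε) (co m σ) ≤ (2 ^ (d - 1) * 4 * (2 * C)) * (1 - co m σ) ^ (-(((d : ℝ) - 1) / 2 + s)) := by
  have h := fast_kernel H hσ hm (ε := ε) 1
  have hcos : cosTh m 0 σ = co m σ := by
    unfold cosTh co; rw [sub_zero, dot_comm]
  unfold aw at h
  rw [hcos] at h
  have hmn0 : 0 < min ((1 : ℝ) ^ 2 * (1 - co m σ)) 1 := lt_min (by linarith) zero_lt_one
  rw [← mul_assoc] at h
  exact le_of_mul_le_mul_right h hmn0

private lemma fr_second (H : Hyp d γ s b C Ca) {A₁ τ : ℝ} (hA₁ : 0 ≤ A₁) (hτ0 : 0 < τ)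
    (hang : ∀ k : Vec d, nsq k = 1 → ∀ ρ : ℝ, 0 < ρ →
      ∫⁻ σ, ENNReal.ofReal ((1 - dot k σ) ^ (-(((d : ℝ) - 1) / 2 + s)) *
        min (ρ ^ 2 * (1 - dot k σ)) 1 ^ τ) ∂(surf d) ≤ ENNReal.ofReal (A₁ * ρ ^ (2 * s)))
    {θ Q : ℝ} (hθ : 0 < θ) (hθ1 : θ ≤ 1 / 4) (hQ : 0 < Q) {m : Vec d} (hm : m ≠ 0)
    {ε u₁ : ℝ} (hε : 0 < ε) (hu : u₁ = max (θ / Q) ε) :
    ∫⁻ σ in {σ : Vec d | 0 < dot m σ},
        ENNReal.ofReal (if Q * ((1 - co m σ ^ 2) / co m σ ^ 2) < θ then
          Kn d γ (bt b ε) (co m σ) * (Q * ((1 - co m σ ^ 2) / co m σ ^ 2)) ^ τ else 0)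
        ∂(surf d) ≤
      ENNReal.ofReal (16 * ((2 ^ (d - 1) * 4 * (2 * C)) * A₁) * (θ ^ τ * u₁ ^ (-s)) +
        2 ^ (d - 1) * 4 * C * (surf d univ).toReal) := by
  have hC0 : 0 ≤ C := H.bd.1
  have hs := H.hs
  have hs1 := H.hs1
  have hu0 : 0 < θ / Q := by positivity
  set u₀ := θ / Q with hu₀
  have hu1 : 0 < u₁ := by rw [hu]; exact lt_max_of_lt_left hu0
  set KC := (2 ^ (d - 1) * 4 * (2 * C) : ℝ) with hKC
  have hKC0 : 0 ≤ KC := by positivity
  have hup : 0 < u₁ ^ (-s) := Real.rpow_pos_of_pos hu1 _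
  have hθτ : 0 < θ ^ τ := Real.rpow_pos_of_pos hθ _
  rcases lt_or_ge ε (4 * u₀) with hcase | hcase
  · -- small cut-off
    set R := Real.sqrt (4 / u₀) with hR
    have hR2 : R ^ 2 = 4 / u₀ := Real.sq_sqrt (by positivity)
    have hR0 : 0 < R := Real.sqrt_pos.2 (by positivity)
    have hdd : ∀ σ : Vec d, dot (dir m) σ = co m σ := by
      intro σ
      unfold dir co
      rw [smul_dot]
      ring
    have h1 := hang (dir m) (nsq_dir hm) R hR0
    calc ∫⁻ σ in {σ : Vec d | 0 < dot m σ},
          ENNReal.ofReal (if Q * ((1 - co m σ ^ 2) / co m σ ^ 2) < θ then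
            Kn d γ (bt b ε) (co m σ) * (Q * ((1 - co m σ ^ 2) / co m σ ^ 2)) ^ τ else 0)
          ∂(surf d)
        ≤ ∫⁻ σ in {σ : Vec d | 0 < dot m σ}, ENNReal.ofReal (KC * θ ^ τ) * ENNReal.ofReal
          ((1 - dot (dir m) σ) ^ (-(((d : ℝ) - 1) / 2 + s)) *
            min (R ^ 2 * (1 - dot (dir m) σ)) 1 ^ τ) ∂(surf d) := by
          refine lintegral_mono_ae ?_
          filter_upwards [ae_restrict_of_ae surf_ae, ae_restrict_mem (measurableSet_half m)]
            with σ hσ hmσ
          have hK0 := fast_Kn0 (γ := γ) H.bd hε hσ hmσ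
          have hc0 := co_pos hmσ
          have hc1 := co_le_one (m := m) hσ
          rw [hdd σ, ← ENNReal.ofReal_mul (by positivity)]
          refine ENNReal.ofReal_le_ofReal ?_
          have hmn0 : 0 ≤ min (R ^ 2 * (1 - co m σ)) 1 :=
            le_min (mul_nonneg (sq_nonneg _) (by linarith)) zero_le_one
          have hmnτ : 0 ≤ min (R ^ 2 * (1 - co m σ)) 1 ^ τ := Real.rpow_nonneg hmn0 _
          have hyB : 0 ≤ (1 - co m σ) ^ (-(((d : ℝ) - 1) / 2 + s)) :=
            Real.rpow_nonneg (by linarith) _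
          split_ifs with hcond
          · have hKn := fr_Kn H hσ hmσ ε
            set c := co m σ with hc
            rcases lt_or_ge (2 * c ^ 2 - 1) 0 with h2 | h2
            · have : Kn d γ (bt b ε) c = 0 := by
                unfold Kn; rw [bt_neg h2, mul_zero]
              rw [this, zero_mul]
              positivity
            · rcases eq_or_lt_of_le hc1 with h3 | h3
              · have hX : Q * ((1 - c ^ 2) / c ^ 2) = 0 := by rw [h3]; norm_num
                rw [hX, Real.zero_rpow hτ0.ne', mul_zero]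
                positivity
              · have h3' : (1 - c ^ 2) / c ^ 2 ≤ 4 * (1 - c) := by
                  rw [div_le_iff₀ (by positivity)]
                  linarith [mul_nonneg (by linarith : 0 ≤ 1 - c)
                    (by linarith : 0 ≤ 4 * c ^ 2 - 1 - c)]
                have hX0 : 0 ≤ Q * ((1 - c ^ 2) / c ^ 2) :=
                  mul_nonneg hQ.le (div_nonneg
                    (by linarith [mul_nonneg (by linarith : 0 ≤ 1 - c) (by linarith : 0 ≤ 1 + c)])
                    (by positivity))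
                set X := Q * ((1 - c ^ 2) / c ^ 2) with hXd
                have h6 : R ^ 2 * (1 - c) = Q * (4 * (1 - c)) / θ := by
                  rw [hR2, hu₀]; field_simp
                have h7 : X / θ ≤ min (R ^ 2 * (1 - c)) 1 := by
                  refine le_min ?_ ?_
                  · rw [h6]
                    exact div_le_div_of_nonneg_right (mul_le_mul_of_nonneg_left h3' hQ.le) hθ.le
                  · exact (div_le_one hθ).2 hcond.le
                have h8 : X ^ τ ≤ θ ^ τ * min (R ^ 2 * (1 - c)) 1 ^ τ := by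
                  have e1 : X = θ * (X / θ) := by field_simp
                  calc X ^ τ = (θ * (X / θ)) ^ τ := by rw [← e1]
                    _ = θ ^ τ * (X / θ) ^ τ := Real.mul_rpow hθ.le (by positivity)
                    _ ≤ _ := mul_le_mul_of_nonneg_left
                      (Real.rpow_le_rpow (by positivity) h7 hτ0.le) hθτ.le
                calc Kn d γ (bt b ε) c * X ^ τ
                    ≤ (KC * (1 - c) ^ (-(((d : ℝ) - 1) / 2 + s))) *
                      (θ ^ τ * min (R ^ 2 * (1 - c)) 1 ^ τ) :=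
                      mul_le_mul (hKn h3) h8 (Real.rpow_nonneg hX0 _) (mul_nonneg hKC0 hyB)
                  _ = _ := by ring
          · positivity
      _ = ENNReal.ofReal (KC * θ ^ τ) * ∫⁻ σ in {σ : Vec d | 0 < dot m σ}, ENNReal.ofReal
          ((1 - dot (dir m) σ) ^ (-(((d : ℝ) - 1) / 2 + s)) *
            min (R ^ 2 * (1 - dot (dir m) σ)) 1 ^ τ) ∂(surf d) := by
          rw [lintegral_const_mul' _ _ ENNReal.ofReal_ne_top]
      _ ≤ ENNReal.ofReal (KC * θ ^ τ) * ENNReal.ofReal (A₁ * R ^ (2 * s)) :=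
          mul_le_mul_right ((setLIntegral_le_lintegral _ _).trans h1) _
      _ = ENNReal.ofReal (KC * θ ^ τ * (A₁ * R ^ (2 * s))) := by
          rw [← ENNReal.ofReal_mul (by positivity)]
      _ ≤ _ := by
          refine ENNReal.ofReal_le_ofReal ?_
          have hRs : R ^ (2 * s) ≤ 16 * u₁ ^ (-s) := by
            have e5 : (4 : ℝ) ^ s ≤ 4 := by
              calc (4 : ℝ) ^ s ≤ 4 ^ (1 : ℝ) :=
                    Real.rpow_le_rpow_of_exponent_le (by norm_num) hs1.le
                _ = 4 := Real.rpow_one _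
            have e1 : R ^ (2 * s) = 4 ^ s * u₀ ^ (-s) := by
              rw [Real.rpow_mul hR0.le, Real.rpow_ofNat, hR2, Real.div_rpow (by norm_num) hu0.le,
                Real.rpow_neg hu0.le]
              ring
            have e2 : u₁ / 4 ≤ u₀ := by
              rw [hu]
              rcases max_cases u₀ ε with h | h
              · rw [h.1]; linarith
              · rw [h.1]; linarith
            have e3 : u₀ ^ (-s) ≤ (u₁ / 4) ^ (-s) :=
              Real.rpow_le_rpow_of_nonpos (by positivity) e2 (by linarith)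
            have e4 : (u₁ / 4) ^ (-s) = 4 ^ s * u₁ ^ (-s) := by
              rw [Real.div_rpow hu1.le (by norm_num), Real.rpow_neg (by norm_num : (0 : ℝ) ≤ 4),
                div_inv_eq_mul, mul_comm]
            have e6 : u₀ ^ (-s) ≤ 4 * u₁ ^ (-s) :=
              (e3.trans_eq e4).trans (mul_le_mul_of_nonneg_right e5 hup.le)
            have e7 : 0 ≤ u₀ ^ (-s) := Real.rpow_nonneg hu0.le _
            rw [e1]
            calc (4 : ℝ) ^ s * u₀ ^ (-s) ≤ 4 * (4 * u₁ ^ (-s)) :=
                  mul_le_mul e5 e6 e7 (by norm_num)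
              _ = _ := by ring
          have h9 : KC * θ ^ τ * (A₁ * R ^ (2 * s)) ≤ KC * θ ^ τ * (A₁ * (16 * u₁ ^ (-s))) := by
            gcongr
          have h10 : 0 ≤ 2 ^ (d - 1) * 4 * C * (surf d univ).toReal := by positivity
          linarith
  · -- large cut-off: the integrand is bounded
    calc ∫⁻ σ in {σ : Vec d | 0 < dot m σ},
          ENNReal.ofReal (if Q * ((1 - co m σ ^ 2) / co m σ ^ 2) < θ then
            Kn d γ (bt b ε) (co m σ) * (Q * ((1 - co m σ ^ 2) / co m σ ^ 2)) ^ τ else 0)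
          ∂(surf d)
        ≤ ∫⁻ _σ in {σ : Vec d | 0 < dot m σ}, ENNReal.ofReal (2 ^ (d - 1) * 4 * C)
            ∂(surf d) := by
          refine lintegral_mono_ae ?_
          filter_upwards [ae_restrict_of_ae surf_ae, ae_restrict_mem (measurableSet_half m)]
            with σ hσ hmσ
          have hK0 := fast_Kn0 (γ := γ) H.bd hε hσ hmσ
          have hc0 := co_pos hmσ
          have hc1 := co_le_one (m := m) hσ
          refine ENNReal.ofReal_le_ofReal ?_
          split_ifs with hcond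
          · set c := co m σ with hc
            rcases lt_or_ge (2 * c ^ 2 - 1) 0 with h2 | h2
            · have : Kn d γ (bt b ε) c = 0 := by
                unfold Kn; rw [bt_neg h2, mul_zero]
              rw [this, zero_mul]
              positivity
            · have hcs : c ^ 2 ≤ 1 := by
                linarith [mul_nonneg (by linarith : 0 ≤ 1 - c) (by linarith : 0 ≤ 1 + c)]
              have h4 : 1 - c ≤ (1 - c ^ 2) / c ^ 2 := by
                rw [le_div_iff₀ (by positivity)]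
                linarith [mul_nonneg (by linarith : 0 ≤ 1 - c) (by linarith : 0 ≤ 1 - c ^ 2),
                  mul_nonneg hc0.le (by linarith : 0 ≤ 1 - c)]
              have h5 : Q * (1 - c) < θ := (mul_le_mul_of_nonneg_left h4 hQ.le).trans_lt hcond
              have h6 : 1 - c < u₀ := by
                rw [hu₀, lt_div_iff₀ hQ]; linarith
              have h7 : ¬ (2 * c ^ 2 - 1 ≤ 1 - ε) := by
                intro h8
                linarith [sq_nonneg (1 - c)]
              have hB0 := H.β0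
              have h9 : bt b ε (2 * c ^ 2 - 1) ≤ C := by
                unfold bt bcut
                rw [if_neg h7]
                have h10 : (if 0 < 2 * c ^ 2 - 1 then (0 : ℝ) else 0) = 0 := by split_ifs <;> rfl
                rw [h10, zero_add, if_pos h2]
                split_ifs with q2
                · refine (H.bd.2 (-(2 * c ^ 2 - 1)) (by linarith) (by linarith)).2.trans ?_
                  have : (1 - -(2 * c ^ 2 - 1)) ^ (-(((d : ℝ) - 1) / 2 + s)) ≤ 1 :=
                    Real.rpow_le_one_of_one_le_of_nonpos (by linarith) (by linarith)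
                  exact mul_le_of_le_one_right hC0 this
                · exact hC0
              have hbn := bt_nonneg (ε := ε) H.bd hε (x := 2 * c ^ 2 - 1) (by linarith)
                (by linarith)
              have h8 : c ^ (-2 - γ) ≤ 4 := by
                have hg1 := H.g1
                have hg2 := H.g2
                have hcc : (1 / 2 : ℝ) ≤ c ^ 2 := by linarith
                have h9 : c ^ (-2 - γ) = (c ^ 2) ^ ((-2 - γ) / 2) := by
                  rw [← Real.rpow_natCast c 2, ← Real.rpow_mul hc0.le]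
                  congr 1; push_cast; ring
                rw [h9]
                calc (c ^ 2) ^ ((-2 - γ) / 2) ≤ (1 / 2 : ℝ) ^ ((-2 - γ) / 2) :=
                      Real.rpow_le_rpow_of_nonpos (by norm_num) hcc (by linarith)
                  _ ≤ (1 / 2 : ℝ) ^ (-2 : ℝ) :=
                      Real.rpow_le_rpow_of_exponent_ge (by norm_num) (by norm_num) (by linarith)
                  _ = 4 := by
                      rw [Real.rpow_neg (by norm_num)]; norm_num
              have h10 : 0 ≤ c ^ (-2 - γ) := Real.rpow_nonneg hc0.le _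
              have h11 : Kn d γ (bt b ε) c ≤ 2 ^ (d - 1) * 4 * C := by
                unfold Kn
                exact mul_le_mul (mul_le_mul_of_nonneg_left h8 (by positivity)) h9 hbn
                  (by positivity)
              have h12 : 0 ≤ Q * ((1 - c ^ 2) / c ^ 2) :=
                mul_nonneg hQ.le ((by linarith : (0 : ℝ) ≤ 1 - c).trans h4)
              have h13 : (Q * ((1 - c ^ 2) / c ^ 2)) ^ τ ≤ 1 :=
                Real.rpow_le_one h12 (by linarith) hτ0.le
              calc Kn d γ (bt b ε) c * (Q * ((1 - c ^ 2) / c ^ 2)) ^ τ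
                  ≤ (2 ^ (d - 1) * 4 * C) * 1 :=
                    mul_le_mul h11 h13 (Real.rpow_nonneg h12 _) (by positivity)
                _ = 2 ^ (d - 1) * 4 * C := mul_one _
          · positivity
      _ = ENNReal.ofReal (2 ^ (d - 1) * 4 * C) * surf d {σ : Vec d | 0 < dot m σ} := by
          rw [setLIntegral_const]
      _ ≤ ENNReal.ofReal (2 ^ (d - 1) * 4 * C) * surf d univ := by gcongr; exact subset_univ _
      _ = ENNReal.ofReal (2 ^ (d - 1) * 4 * C * (surf d univ).toReal) := by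
          rw [ENNReal.ofReal_mul (p := 2 ^ (d - 1) * 4 * C) (by positivity),
            ENNReal.ofReal_toReal (measure_ne_top _ _)]
      _ ≤ _ := by
          refine ENNReal.ofReal_le_ofReal ?_
          have : 0 ≤ 16 * (KC * A₁) * (θ ^ τ * u₁ ^ (-s)) := by positivity
          linarith

theorem fast_rem (H : Hyp d γ s b C Ca) (h1 : 2 * s < a) (ha1 : a ≤ 1) (p : ℕ) :
    ∃ K : ℝ, 0 ≤ K ∧ ∀ θ : ℝ, 0 < θ → θ ≤ 1 / 4 → ∀ L : ℝ, 1 ≤ L → ∀ c : ℝ, 0 ≤ c →
      ∀ v m : Vec d, m ≠ 0 → L * (1 + nsq v) < nsq (v - m) → ∀ ε : ℝ, 0 < ε →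
      GMg γ b ε (fun u => Tb p c v u * mm a v u) (RegS θ L v) v m ≤
        ENNReal.ofReal (K * c * (θ ^ (a / 2) * (max (θ / (nsq m / (1 + nsq v))) ε) ^ (-s) + 1)) := by
  classical
  have hs := H.hs
  have hC0 : 0 ≤ C := H.bd.1
  obtain ⟨A₁, hA₁, hang⟩ := ang_scale H (τ := a / 2) (by linarith) (by linarith)
  have hτ0 : 0 < a / 2 := by linarith
  set k1 := (16 * ((2 ^ (d - 1) * 4 * (2 * C)) * A₁) : ℝ) with hk1
  set k2 := (2 ^ (d - 1) * 4 * C * (surf d univ).toReal : ℝ) with hk2
  have hk10 : 0 ≤ k1 := by positivity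
  have hk20 : 0 ≤ k2 := by positivity
  refine ⟨4 ^ p * (k1 + k2), by positivity, ?_⟩
  intro θ hθ hθ1 L hL c hc v m hm hfast ε hε
  have hA : 0 < 1 + nsq v := by have := sq_nonneg' v; linarith
  have hm0 : 0 < nsq m := by
    rw [← len_sq m]
    exact pow_pos (len_pos hm) 2
  set Q := nsq m / (1 + nsq v) with hQd
  have hQ : 0 < Q := div_pos hm0 hA
  have h2 := fr_second H hA₁ hτ0 hang hθ hθ1 hQ hm hε rfl
  have hpt : GMg γ b ε (fun u => Tb p c v u * mm a v u) (RegS θ L v) v m ≤
      ENNReal.ofReal (4 ^ p * c) * ∫⁻ σ in {σ : Vec d | 0 < dot m σ},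
        ENNReal.ofReal (if Q * ((1 - co m σ ^ 2) / co m σ ^ 2) < θ then
          Kn d γ (bt b ε) (co m σ) * (Q * ((1 - co m σ ^ 2) / co m σ ^ 2)) ^ (a / 2) else 0)
        ∂(surf d) := by
    rw [← lintegral_const_mul' _ _ ENNReal.ofReal_ne_top]
    unfold GMg
    refine lintegral_mono_ae ?_
    filter_upwards [ae_restrict_of_ae surf_ae, ae_restrict_mem (measurableSet_half m)]
      with σ hσ hmσ
    have hK0 := fast_Kn0 (γ := γ) H.bd hε hσ hmσ
    have hX : nsq (hh σ m) / (1 + nsq v) = Q * ((1 - co m σ ^ 2) / co m σ ^ 2) := by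
      rw [nsq_hh hσ hmσ, hQd]; ring
    by_cases hM : (v - m, v + hh σ m) ∈ RegS θ L v
    · rw [if_pos hM]
      have hXθ : Q * ((1 - co m σ ^ 2) / co m σ ^ 2) < θ := by
        by_contra hcn
        rw [← hX, not_lt, le_div_iff₀ hA] at hcn
        apply hM.2
        refine ⟨hfast, ?_⟩
        change θ * (1 + nsq v) ≤ nsq (v + hh σ m - v)
        rw [add_sub_cancel_left]
        exact hcn
      rw [if_pos hXθ, ← ENNReal.ofReal_mul (by positivity)]
      refine ENNReal.ofReal_le_ofReal ?_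
      have hX0 : 0 ≤ Q * ((1 - co m σ ^ 2) / co m σ ^ 2) := by
        rw [← hX]; exact div_nonneg (sq_nonneg' _) hA.le
      have hmm : mm a v (v + hh σ m) = (Q * ((1 - co m σ ^ 2) / co m σ ^ 2)) ^ (a / 2) := by
        unfold mm
        rw [add_sub_cancel_left, hX, min_eq_right (by linarith)]
      have hTb := Tb_reg (p := p) hc hM
      rw [hmm]
      have hXr : 0 ≤ (Q * ((1 - co m σ ^ 2) / co m σ ^ 2)) ^ (a / 2) := Real.rpow_nonneg hX0 _
      calc Kn d γ (bt b ε) (co m σ) *
            (Tb p c v (v + hh σ m) * (Q * ((1 - co m σ ^ 2) / co m σ ^ 2)) ^ (a / 2))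
          ≤ Kn d γ (bt b ε) (co m σ) *
            (4 ^ p * c * (Q * ((1 - co m σ ^ 2) / co m σ ^ 2)) ^ (a / 2)) :=
            mul_le_mul_of_nonneg_left (mul_le_mul_of_nonneg_right hTb hXr) hK0
        _ = _ := by ring
    · rw [if_neg hM]
      exact zero_le
  refine (hpt.trans (mul_le_mul_right h2 _)).trans ?_
  rw [← ENNReal.ofReal_mul (by positivity)]
  refine ENNReal.ofReal_le_ofReal ?_
  have hu1 : 0 < max (θ / Q) ε := lt_max_of_lt_right hε
  have hup : 0 ≤ θ ^ (a / 2) * (max (θ / Q) ε) ^ (-s) :=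
    mul_nonneg (Real.rpow_nonneg hθ.le _) (Real.rpow_nonneg hu1.le _)
  set W := θ ^ (a / 2) * (max (θ / Q) ε) ^ (-s) with hW
  have h3 : k1 * W + k2 ≤ (k1 + k2) * (W + 1) := by linarith [mul_nonneg hk20 hup]
  calc 4 ^ p * c * (k1 * W + k2) ≤ 4 ^ p * c * ((k1 + k2) * (W + 1)) :=
        mul_le_mul_of_nonneg_left h3 (by positivity)
    _ = 4 ^ p * (k1 + k2) * c * (W + 1) := by ring

end Pool.Agent.H48.PL
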