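import Pool.Agent.H48.PL.RegR
import Pool.Agent.H48.PL.FastM
import Pool.Agent.H48.PL.FastR
import Pool.Agent.H82.CM.CombG

/-!
# Module Pert: the library bounds for the perturbed touching condition

All library bounds are applied to the inner function `T = Tb p (g v) v` (`Tb_eq`: it satisfies the exact condition with equality, `T v = g v`, `Tb_self`).
* `exc_pert`: `GEg_touch`, `exc_boundg` (constant `K₀(θ)`), `δ ≤ 1`: `K = 2K₀`.
* `med_pert`: `GMg_touch`, `GMg ≤ GM` (as `comb_GM` in H82/CM/CombG.lean, private: copy), `main_bound` and `reg_rem`; `Q^s ≤ (1+Q)^s`.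
* `slow_pert`: `slow_boundg` (margin `κ₀`), `GMg_touch`, `GEg_touch`; extra terms `δ₁ (K_R Q^s + K₀(θ)) g v` with `Q = nsq m/A ≤ 4` for slow `z = v-m`
  (`nsq m ≤ 2nsq v + 2nsq z ≤ 4A`, `δ ≤ 1`). `δ₁ = min 1 (κ₀/(2(4K_R + K₀+1)))`, `κ = κ₀/2`.
* `fast_pert`: `θ = min θ₀ (..)` with `K_F θ^(a/2) ≤ c₅` (`K_F` of `fast_rem`), `fast_margin` with `K₂ + K_F` in place of `K₂`.
-/

set_option autoImplicit false

open MeasureTheory Set Filter Topology Pool.Agent.H25.Kin Pool.Agent.H82.BK Pool.Agent.H82.CM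
open scoped ENNReal

namespace Pool.Agent.H48.PL

variable {d : ℕ} {γ s a C Ca cb : ℝ} {b : ℝ → ℝ}

/-- the main part is at most the one of BK -/
private lemma pert_GM (γ : ℝ) (b : ℝ → ℝ) (ε : ℝ) (g : Vec d → ℝ) (θ L : ℝ) (v m : Vec d) :
    GMg γ b ε g (RegS θ L v) v m ≤ GM γ b ε g v m := by
  unfold GMg GM
  refine lintegral_mono fun σ => ?_
  dsimp only
  by_cases h : (v - m, v + hh σ m) ∈ RegS θ L v
  · have h1 : MainR v (hh σ m) := by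
      intro hc
      apply h.1
      refine ⟨hc.1, ?_⟩
      change (1 + nsq v) / 4 ≤ nsq (v + hh σ m - v)
      rw [add_sub_cancel_left]
      exact hc.2
    rw [if_pos h, if_pos h1]
  · rw [if_neg h]
    exact zero_le

private lemma pert_two {δ₁ x : ℝ} (hδ : 0 ≤ δ₁) (hδ1 : δ₁ ≤ 1) (hx : 0 ≤ x) {A : ℝ≥0∞}
    (hA : A ≤ ENNReal.ofReal x) : ENNReal.ofReal δ₁ * A ≤ ENNReal.ofReal x := by
  calc ENNReal.ofReal δ₁ * A ≤ ENNReal.ofReal δ₁ * ENNReal.ofReal x := mul_le_mul_right hA _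
    _ = ENNReal.ofReal (δ₁ * x) := (ENNReal.ofReal_mul hδ).symm
    _ ≤ _ := ENNReal.ofReal_le_ofReal (by nlinarith)

theorem exc_pert (H : Hyp d γ s b C Ca) (ha : 0 ≤ a) {p : ℕ} (hp : (d : ℝ) + γ + 4 ≤ 2 * p) {θ : ℝ}
    (hθ : 0 < θ) :
    ∃ K : ℝ, 0 ≤ K ∧ ∀ L : ℝ, 1 ≤ L → ∀ δ₁ : ℝ, 0 ≤ δ₁ → δ₁ ≤ 1 → ∀ g : Vec d → ℝ, (∀ u, 0 ≤ g u) →
      ∀ v : Vec d, Touch δ₁ a p g v → ∀ m : Vec d, ∀ ε > 0,
      GEg γ b ε g (RegS θ L v) v m ≤ ENNReal.ofReal (K * g v) := by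
  obtain ⟨K₀, hK₀, h⟩ := exc_boundg H hp hθ
  refine ⟨K₀ + K₀, by positivity, fun L hL δ₁ hδ hδ1 g hg0 v ht m ε hε => ?_⟩
  have hgv := hg0 v
  have h1 := GEg_touch (p := p) H hδ ha hg0 ht (RegS θ L v) (measurableSet_RegS θ L v) m hε
  have h2 := h L hL (Tb p (g v) v) (Tb_nonneg (hg0 v) v) v (fun u => (Tb_eq p (g v) v u).le) m ε hε
  rw [Tb_self] at h2
  have h3 := pert_two hδ hδ1 (mul_nonneg hK₀ hgv) h2
  refine h1.trans ((add_le_add h2 h3).trans ?_)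
  rw [← ENNReal.ofReal_add (by positivity) (by positivity)]
  exact ENNReal.ofReal_le_ofReal (by linarith)

theorem med_pert (H : Hyp d γ s b C Ca) (h1 : 2 * s < a) (ha1 : a ≤ 1) (p : ℕ) :
    ∃ K : ℝ, 0 ≤ K ∧ ∀ (θ L δ₁ : ℝ), 0 ≤ δ₁ → δ₁ ≤ 1 → ∀ g : Vec d → ℝ, Measurable g → (∀ u, 0 ≤ g u) →
      ∀ v : Vec d, Touch δ₁ a p g v → ∀ m : Vec d, m ≠ 0 → ∀ ε > 0,
      GMg γ b ε g (RegS θ L v) v m ≤ ENNReal.ofReal (g v) * BB b ε (dir m) +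
        ENNReal.ofReal (K * g v * (1 + nsq m / (1 + nsq v)) ^ s) := by
  obtain ⟨K₁, hK₁, hmain⟩ := main_bound H p
  obtain ⟨K₂, hK₂, hreg⟩ := reg_rem H h1 ha1 p
  have hs := H.hs
  refine ⟨K₁ + K₂, by positivity, fun θ L δ₁ hδ hδ1 g hg hg0 v ht m hm ε hε => ?_⟩
  have hgv := hg0 v
  have hQ : 0 ≤ nsq m / (1 + nsq v) := by
    have h1 := sq_nonneg' m
    have h2 := sq_nonneg' v
    positivity
  have e1 := GMg_touch (p := p) H hδ hg0 ht (RegS θ L v) (measurableSet_RegS θ L v) m hε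
  have e2 := hmain (Tb p (g v) v) (Tb_meas p (g v) v) (Tb_nonneg hgv v) v
    (fun u => (Tb_eq p (g v) v u).le) m hm ε hε
  rw [Tb_self] at e2
  have e3 := hreg θ L (g v) hgv v m hm ε hε
  have e4 := pert_two hδ hδ1 (by positivity) e3
  refine e1.trans ((add_le_add ((pert_GM γ b ε _ θ L v m).trans e2) e4).trans ?_)
  rw [add_assoc, ← ENNReal.ofReal_add (by positivity) (by positivity)]
  refine add_le_add_right (ENNReal.ofReal_le_ofReal ?_) _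
  have h5 : (nsq m / (1 + nsq v)) ^ s ≤ (1 + nsq m / (1 + nsq v)) ^ s :=
    Real.rpow_le_rpow hQ (by linarith) hs.le
  have h6 := mul_le_mul_of_nonneg_left h5 (mul_nonneg hK₂ hgv)
  linarith

theorem slow_pert (HL : HypL d γ s b C Ca cb) (h1 : 2 * s < a) (ha1 : a ≤ 1) {p : ℕ}
    (hp : (d : ℝ) + γ + 4 ≤ 2 * p) : ∃ δ > 0, δ ≤ 1 ∧ ∃ a₀ : ℝ, 1 ≤ a₀ ∧ ∃ κ : ℝ, 0 < κ ∧
    ∀ θ : ℝ, 0 < θ → ∃ δ₁ : ℝ, 0 < δ₁ ∧ δ₁ ≤ 1 ∧ ∀ L : ℝ, 1 ≤ L →
    ∀ g : Vec d → ℝ, Measurable g → (∀ u, 0 ≤ g u) → ∀ v : Vec d, Touch δ₁ a p g v →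
      ∀ m : Vec d, m ≠ 0 → SlowR δ a₀ v (v - m) → ∀ ε : ℝ, 0 < ε → ε ≤ 1 / 64 →
      GMg γ b ε g (RegS θ L v) v m + GEg γ b ε g (RegS θ L v) v m + ENNReal.ofReal (κ * g v) ≤
        ENNReal.ofReal (g v) * BB b ε (dir m) := by
  have H := HL.H
  have hs := H.hs
  have hs1 := H.hs1
  obtain ⟨δ, hδ, hδ1, a₀, ha₀, κ₀, hκ₀, hslow⟩ := slow_boundg HL hp
  obtain ⟨KR, hKR, hreg⟩ := reg_rem H h1 ha1 p
  refine ⟨δ, hδ, hδ1, a₀, ha₀, κ₀ / 2, by positivity, fun θ hθ => ?_⟩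
  obtain ⟨K₀, hK₀, hexc⟩ := exc_boundg H hp hθ
  refine ⟨min 1 (κ₀ / (2 * (4 * KR + K₀ + 1))), lt_min one_pos (by positivity), min_le_left _ _,
    fun L hL g hg hg0 v ht m hm hsl ε hε hε1 => ?_⟩
  set δ₁ := min 1 (κ₀ / (2 * (4 * KR + K₀ + 1))) with hδ₁
  have hδ₁0 : 0 ≤ δ₁ := le_min zero_le_one (by positivity)
  have hδ₁1 : δ₁ ≤ 1 := min_le_left _ _
  have hδ₁2 : δ₁ * (4 * KR + K₀) ≤ κ₀ / 2 := by
    have h2 : δ₁ * (2 * (4 * KR + K₀ + 1)) ≤ κ₀ := by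
      have := min_le_right 1 (κ₀ / (2 * (4 * KR + K₀ + 1)))
      rwa [← hδ₁, le_div_iff₀ (by positivity)] at this
    nlinarith
  have hgv := hg0 v
  have hv0 := sq_nonneg' v
  have ha : 0 < 1 + nsq v := by linarith
  have hQ0 : 0 ≤ nsq m / (1 + nsq v) := div_nonneg (sq_nonneg' m) ha.le
  have hQ : nsq m / (1 + nsq v) ≤ 4 := by
    rw [div_le_iff₀ ha]
    have h5 : nsq m ≤ 2 * nsq v + 2 * nsq (v - m) := by
      have h6 := nsq_par v (v - m)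
      rw [sub_sub_cancel] at h6
      have h7 := sq_nonneg' (v + (v - m))
      linarith
    have h8 := hsl.2
    have h9 : δ ^ 2 * (1 + nsq v) ≤ 1 * (1 + nsq v) :=
      mul_le_mul_of_nonneg_right (pow_le_one₀ hδ.le hδ1) ha.le
    linarith
  have hQs : (nsq m / (1 + nsq v)) ^ s ≤ 4 := by
    calc (nsq m / (1 + nsq v)) ^ s ≤ (4 : ℝ) ^ s := Real.rpow_le_rpow hQ0 hQ hs.le
      _ ≤ (4 : ℝ) ^ (1 : ℝ) := Real.rpow_le_rpow_of_exponent_le (by norm_num) hs1.le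
      _ = 4 := Real.rpow_one _
  set T := Tb p (g v) v with hT
  have hTm : Measurable T := Tb_meas p (g v) v
  have hT0 : ∀ u, 0 ≤ T u := Tb_nonneg hgv v
  have hTt : ∀ u, T u * (1 + nsq u) ^ p ≤ T v * (1 + nsq v) ^ p := fun u => (Tb_eq p (g v) v u).le
  have hTv : T v = g v := Tb_self p (g v) v
  have e1 := GMg_touch (p := p) H hδ₁0 hg0 ht (RegS θ L v) (measurableSet_RegS θ L v) m hε
  have e2 := GEg_touch (p := p) H hδ₁0 (by linarith) hg0 ht (RegS θ L v)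
    (measurableSet_RegS θ L v) m hε
  have e3 := hslow T hTm hT0 v hTt m hm hsl ε hε hε1 (RegS θ L v)
  rw [hTv] at e3
  have e4 := hreg θ L (g v) hgv v m hm ε hε
  have e5 := hexc L hL T hT0 v hTt m ε hε
  rw [hTv] at e5
  rw [← hT] at e1 e2
  have e6 : ENNReal.ofReal δ₁ * GMg γ b ε (fun u => T u * mm a v u) (RegS θ L v) v m ≤
      ENNReal.ofReal (δ₁ * (4 * KR) * g v) := by
    refine (mul_le_mul_right e4 _).trans ?_
    rw [← ENNReal.ofReal_mul hδ₁0]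
    refine ENNReal.ofReal_le_ofReal ?_
    have := mul_le_mul_of_nonneg_left hQs (mul_nonneg hδ₁0 (mul_nonneg hKR hgv))
    linarith
  have e7 : ENNReal.ofReal δ₁ * GEg γ b ε T (RegS θ L v) v m ≤ ENNReal.ofReal (δ₁ * K₀ * g v) := by
    refine (mul_le_mul_right e5 _).trans ?_
    rw [← ENNReal.ofReal_mul hδ₁0, mul_assoc]
  calc GMg γ b ε g (RegS θ L v) v m + GEg γ b ε g (RegS θ L v) v m + ENNReal.ofReal (κ₀ / 2 * g v)
      ≤ (GMg γ b ε T (RegS θ L v) v m + ENNReal.ofReal (δ₁ * (4 * KR) * g v)) +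
        (GEg γ b ε T (RegS θ L v) v m + ENNReal.ofReal (δ₁ * K₀ * g v)) +
        ENNReal.ofReal (κ₀ / 2 * g v) := by
        gcongr
        · exact e1.trans (add_le_add_right e6 _)
        · exact e2.trans (add_le_add_right e7 _)
    _ = GMg γ b ε T (RegS θ L v) v m + GEg γ b ε T (RegS θ L v) v m +
        ENNReal.ofReal (δ₁ * (4 * KR) * g v + δ₁ * K₀ * g v + κ₀ / 2 * g v) := by
        rw [ENNReal.ofReal_add (p := δ₁ * (4 * KR) * g v + δ₁ * K₀ * g v) (by positivity)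
          (by positivity), ENNReal.ofReal_add (p := δ₁ * (4 * KR) * g v) (by positivity)
          (by positivity)]
        ring
    _ ≤ GMg γ b ε T (RegS θ L v) v m + GEg γ b ε T (RegS θ L v) v m +
        ENNReal.ofReal (κ₀ * g v) := by
        refine add_le_add_right (ENNReal.ofReal_le_ofReal ?_) _
        have := mul_le_mul_of_nonneg_right hδ₁2 hgv
        linarith
    _ ≤ _ := e3

theorem fast_pert (HL : HypL d γ s b C Ca cb) (h1 : 2 * s < a) (ha1 : a ≤ 1) (p : ℕ) :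
    ∃ θ : ℝ, 0 < θ ∧ θ ≤ 1 / 4 ∧ ∀ K₂ : ℝ, 0 ≤ K₂ → ∃ L : ℝ, 1 ≤ L ∧ ∃ ε₀ : ℝ, 0 < ε₀ ∧
      ∀ δ₁ : ℝ, 0 ≤ δ₁ → δ₁ ≤ 1 → ∀ g : Vec d → ℝ, Measurable g → (∀ u, 0 ≤ g u) → ∀ v : Vec d,
      Touch δ₁ a p g v → ∀ m : Vec d, m ≠ 0 → L * (1 + nsq v) < nsq (v - m) → ∀ ε : ℝ, 0 < ε → ε ≤ ε₀ →
      GMg γ b ε g (RegS θ L v) v m + ENNReal.ofReal (K₂ * g v) ≤
        ENNReal.ofReal (g v) * BB b ε (dir m) := by
  have H := HL.H
  have hs := H.hs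
  have hapos : 0 < a := by linarith
  obtain ⟨c₅, θ₀, hc₅, hθ₀, hθ₀4, hmar⟩ := fast_margin HL p
  obtain ⟨KF, hKF, hrem⟩ := fast_rem H h1 ha1 p
  set θ := min θ₀ ((c₅ / (KF + 1)) ^ (2 / a)) with hθ
  have hθ0 : 0 < θ := lt_min hθ₀ (by positivity)
  have hθ4 : θ ≤ 1 / 4 := (min_le_left _ _).trans hθ₀4
  have hθ5 : KF * θ ^ (a / 2) ≤ c₅ := by
    have h2 : θ ^ (a / 2) ≤ ((c₅ / (KF + 1)) ^ (2 / a)) ^ (a / 2) :=
      Real.rpow_le_rpow hθ0.le (min_le_right _ _) (by positivity)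
    have h3 : ((c₅ / (KF + 1)) ^ (2 / a)) ^ (a / 2) = c₅ / (KF + 1) := by
      rw [← Real.rpow_mul (by positivity)]
      have : 2 / a * (a / 2) = 1 := by field_simp
      rw [this, Real.rpow_one]
    rw [h3, le_div_iff₀ (by positivity)] at h2
    have h4 : 0 ≤ θ ^ (a / 2) := by positivity
    nlinarith
  refine ⟨θ, hθ0, hθ4, fun K₂ hK₂ => ?_⟩
  obtain ⟨L, hL, ε₀, hε₀, hm'⟩ := hmar θ hθ0 (min_le_left _ _) (K₂ + KF) (by positivity)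
  refine ⟨L, hL, ε₀, hε₀, fun δ₁ hδ hδ1 g hg hg0 v ht m hm hfa ε hε hε1 => ?_⟩
  have hgv := hg0 v
  have e1 := GMg_touch (p := p) H hδ hg0 ht (RegS θ L v) (measurableSet_RegS θ L v) m hε
  have e2 := hm' (Tb p (g v) v) (Tb_meas p (g v) v) (Tb_nonneg hgv v) v
    (fun u => (Tb_eq p (g v) v u).le) m hm hfa ε hε hε1
  rw [Tb_self] at e2
  have e3 := hrem θ hθ0 hθ4 L hL (g v) hgv v m hm hfa ε hε
  set u₁ := max (θ / (nsq m / (1 + nsq v))) ε with hu₁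
  have hu₁0 : 0 < u₁ := lt_max_of_lt_right hε
  have hup : 0 ≤ u₁ ^ (-s) := Real.rpow_nonneg hu₁0.le _
  have hth : 0 ≤ θ ^ (a / 2) := by positivity
  have e4 := pert_two hδ hδ1 (by positivity) e3
  calc GMg γ b ε g (RegS θ L v) v m + ENNReal.ofReal (K₂ * g v)
      ≤ (GMg γ b ε (Tb p (g v) v) (RegS θ L v) v m +
          ENNReal.ofReal (KF * g v * (θ ^ (a / 2) * u₁ ^ (-s) + 1))) +
          ENNReal.ofReal (K₂ * g v) := by
        gcongr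
        exact e1.trans (add_le_add_right e4 _)
    _ ≤ (GMg γ b ε (Tb p (g v) v) (RegS θ L v) v m +
          ENNReal.ofReal (KF * g v + c₅ * g v * u₁ ^ (-s))) +
          ENNReal.ofReal (K₂ * g v) := by
        gcongr
        have := mul_le_mul_of_nonneg_right hθ5 (mul_nonneg hgv hup)
        nlinarith
    _ = GMg γ b ε (Tb p (g v) v) (RegS θ L v) v m + ENNReal.ofReal ((K₂ + KF) * g v) +
          ENNReal.ofReal (c₅ * g v * u₁ ^ (-s)) := by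
        rw [ENNReal.ofReal_add (by positivity) (by positivity), add_mul,
          ENNReal.ofReal_add (by positivity) (by positivity)]
        ring
    _ ≤ _ := e2

end Pool.Agent.H48.PL
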