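import Pool.Agent.H48.PL.TbL
import Pool.Agent.H48.PL.Ang
import Pool.Agent.H82.CM.Fast

/-!
# Module RegR: the perturbation term in the regular region

`τ = a/2 ∈ (s, 1]`, `A = 1+nsq v`, `k = dir m`, `c = co m σ = dot k σ` (`co_eq`), `X = nsq h/A = Q (1-c²)/c²`, `Q = nsq m/A`. In the regular region
`Tb ≤ 4^p c₀` (`Tb_reg`), `mm = min(1,X)^τ` (`u - v = hh`). The kernel `Kn (bt) c` vanishes for `2c²<1` (`bt_neg`); for `c² ≥ 1/2`:
`X ≤ 4Q(1-c)`, so `min(1,X)^τ ≤ min((2√Q)²(1-c),1)^τ`, `Kn ≤ 2^(d-1)·4·2C (1-c)^(-β)` (as in `fast_kernel`). `ang_scale` with `ρ = 2√Q`: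
`≤ 4^p c₀ K A (2√Q)^(2s)` and `(2√Q)^(2s) ≤ 4 Q^s`.
-/

set_option autoImplicit false

open MeasureTheory Set Filter Topology Pool.Agent.H25.Kin Pool.Agent.H82.BK Pool.Agent.H82.CM
open scoped ENNReal

namespace Pool.Agent.H48.PL

variable {d : ℕ} {γ s a C Ca : ℝ} {b : ℝ → ℝ}

private lemma reg_kn (H : Hyp d γ s b C Ca) {c ε : ℝ} (hc0 : 0 < c) (hc1 : c < 1)
    (h2 : 0 ≤ 2 * c ^ 2 - 1) :
    Kn d γ (bt b ε) c ≤ (2 ^ (d - 1) * 4 * (2 * C)) * (1 - c) ^ (-(((d : ℝ) - 1) / 2 + s)) := by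
  have hC0 : 0 ≤ C := H.bd.1
  have hB := H.β0
  set B := ((d : ℝ) - 1) / 2 + s with hBd
  have h1c : 0 ≤ 1 - c := by linarith
  have hr : 0 ≤ (1 - c) ^ (-B) := Real.rpow_nonneg h1c _
  unfold Kn
  have h4 : 2 * c ^ 2 - 1 < 1 := by nlinarith
  have h5 := bt_le (ε := ε) H.bd hB h2 h4
  have h6 : (1 - (2 * c ^ 2 - 1)) ^ (-B) ≤ (1 - c) ^ (-B) := by
    apply Real.rpow_le_rpow_of_nonpos (by linarith) _ (by linarith)
    nlinarith
  have h7 : bt b ε (2 * c ^ 2 - 1) ≤ 2 * C * (1 - c) ^ (-B) :=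
    h5.trans (mul_le_mul_of_nonneg_left h6 (by linarith))
  have h8 : c ^ (-2 - γ) ≤ 4 := by
    have hg1 := H.g1
    have hg2 := H.g2
    have hcc : (1 / 2 : ℝ) ≤ c ^ 2 := by linarith
    have h9 : c ^ (-2 - γ) = (c ^ 2) ^ ((-2 - γ) / 2) := by
      rw [← Real.rpow_natCast c 2, ← Real.rpow_mul hc0.le]
      congr 1; push_cast; ring
    rw [h9]
    calc (c ^ 2) ^ ((-2 - γ) / 2) ≤ (1 / 2 : ℝ) ^ ((-2 - γ) / 2) :=
          Real.rpow_le_rpow_of_nonpos (by norm_num) hcc (by linarith)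
      _ ≤ (1 / 2 : ℝ) ^ (-2 : ℝ) :=
          Real.rpow_le_rpow_of_exponent_ge (by norm_num) (by norm_num) (by linarith)
      _ = 4 := by
          rw [Real.rpow_neg (by norm_num)]; norm_num
  have h10 : 0 ≤ c ^ (-2 - γ) := Real.rpow_nonneg hc0.le _
  calc 2 ^ (d - 1) * c ^ (-2 - γ) * bt b ε (2 * c ^ 2 - 1)
      ≤ 2 ^ (d - 1) * c ^ (-2 - γ) * (2 * C * (1 - c) ^ (-B)) :=
        mul_le_mul_of_nonneg_left h7 (by positivity)
    _ ≤ 2 ^ (d - 1) * 4 * (2 * C * (1 - c) ^ (-B)) := by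
        apply mul_le_mul_of_nonneg_right _ (by positivity)
        exact mul_le_mul_of_nonneg_left h8 (by positivity)
    _ = 2 ^ (d - 1) * 4 * (2 * C) * (1 - c) ^ (-B) := by ring

private lemma reg_pt (H : Hyp d γ s b C Ca) (h1 : 2 * s < a) (p : ℕ) {θ L c : ℝ} (hc : 0 ≤ c)
    {v m σ : Vec d} (hσ : nsq σ = 1) (hm : 0 < dot m σ) {ε : ℝ} (hε : 0 < ε)
    (hR : (v - m, v + hh σ m) ∈ RegS θ L v) :
    Kn d γ (bt b ε) (co m σ) * (Tb p c v (v + hh σ m) * mm a v (v + hh σ m)) ≤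
      (4 ^ p * c * (2 ^ (d - 1) * 4 * (2 * C))) *
      ((1 - dot (dir m) σ) ^ (-(((d : ℝ) - 1) / 2 + s)) *
      min ((2 * Real.sqrt (nsq m / (1 + nsq v))) ^ 2 * (1 - dot (dir m) σ)) 1 ^ (a / 2)) := by
  rw [← co_eq]
  set x := co m σ with hx
  have hx0 : 0 < x := co_pos hm
  have hx1 : x ≤ 1 := co_le_one hσ
  have hC0 : 0 ≤ C := H.bd.1
  have h1x : 0 ≤ 1 - x := by linarith
  have hA : 0 < 1 + nsq v := by have := sq_nonneg' v; linarith
  have hm0 : 0 ≤ nsq m := sq_nonneg' m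
  have hQ : 0 ≤ nsq m / (1 + nsq v) := by positivity
  have hρ : (2 * Real.sqrt (nsq m / (1 + nsq v))) ^ 2 = 4 * (nsq m / (1 + nsq v)) := by
    rw [mul_pow, Real.sq_sqrt hQ]; norm_num
  rw [hρ]
  set Q := nsq m / (1 + nsq v) with hQd
  have hKn := fast_Kn0 (γ := γ) H.bd hε hσ hm
  have hT0 : 0 ≤ Tb p c v (v + hh σ m) := Tb_nonneg hc _ _
  have hT1 : Tb p c v (v + hh σ m) ≤ 4 ^ p * c := Tb_reg hc hR
  have hr : 0 ≤ (1 - x) ^ (-(((d : ℝ) - 1) / 2 + s)) := Real.rpow_nonneg h1x _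
  have hmn0 : 0 ≤ min (4 * Q * (1 - x)) 1 := le_min (by positivity) zero_le_one
  have hR0 : 0 ≤ (4 ^ p * c * (2 ^ (d - 1) * 4 * (2 * C))) *
      ((1 - x) ^ (-(((d : ℝ) - 1) / 2 + s)) * min (4 * Q * (1 - x)) 1 ^ (a / 2)) := by
    have := Real.rpow_nonneg hmn0 (a / 2)
    positivity
  rcases lt_or_ge (2 * x ^ 2 - 1) 0 with h2 | h2
  · have : Kn d γ (bt b ε) x = 0 := by
      unfold Kn; rw [bt_neg h2, mul_zero]
    rw [this, zero_mul]
    exact hR0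
  · have hmm : mm a v (v + hh σ m) ≤ min (4 * Q * (1 - x)) 1 ^ (a / 2) := by
      unfold mm
      have e1 : nsq (v + hh σ m - v) / (1 + nsq v) = Q * ((1 - x ^ 2) / x ^ 2) := by
        rw [add_sub_cancel_left, nsq_hh hσ hm, hQd]; ring
      rw [e1]
      have hs := H.hs
      have hxx : 0 < x ^ 2 := by positivity
      have h3 : (1 - x ^ 2) / x ^ 2 ≤ 4 * (1 - x) := by
        rw [div_le_iff₀ hxx]
        nlinarith
      have h4 : 0 ≤ (1 - x ^ 2) / x ^ 2 := by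
        apply div_nonneg _ hxx.le
        nlinarith
      apply Real.rpow_le_rpow (le_min zero_le_one (mul_nonneg hQ h4)) _ (by linarith)
      rw [min_comm (4 * Q * (1 - x)) 1]
      apply min_le_min le_rfl
      calc Q * ((1 - x ^ 2) / x ^ 2) ≤ Q * (4 * (1 - x)) := mul_le_mul_of_nonneg_left h3 hQ
        _ = 4 * Q * (1 - x) := by ring
    have hmm0 : 0 ≤ mm a v (v + hh σ m) := mm_nonneg _ _ _
    rcases eq_or_lt_of_le hx1 with h3 | h3
    · have hs := H.hs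
      have e2 : min (4 * Q * (1 - x)) 1 ^ (a / 2) = 0 := by
        rw [h3, sub_self, mul_zero, min_eq_left zero_le_one]
        exact Real.zero_rpow (by linarith)
      have e3 : mm a v (v + hh σ m) = 0 := le_antisymm (by rw [← e2]; exact hmm) hmm0
      rw [e3, mul_zero, mul_zero]
      exact hR0
    · have h4 := reg_kn (ε := ε) H hx0 h3 h2
      have h5 : Tb p c v (v + hh σ m) * mm a v (v + hh σ m) ≤
          (4 ^ p * c) * min (4 * Q * (1 - x)) 1 ^ (a / 2) :=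
        mul_le_mul hT1 hmm hmm0 (by positivity)
      calc Kn d γ (bt b ε) x * (Tb p c v (v + hh σ m) * mm a v (v + hh σ m))
          ≤ ((2 ^ (d - 1) * 4 * (2 * C)) * (1 - x) ^ (-(((d : ℝ) - 1) / 2 + s))) *
            ((4 ^ p * c) * min (4 * Q * (1 - x)) 1 ^ (a / 2)) :=
            mul_le_mul h4 h5 (mul_nonneg hT0 hmm0) (by positivity)
        _ = _ := by ring

theorem reg_rem (H : Hyp d γ s b C Ca) (h1 : 2 * s < a) (ha1 : a ≤ 1) (p : ℕ) :
    ∃ K : ℝ, 0 ≤ K ∧ ∀ (θ L c : ℝ), 0 ≤ c → ∀ v m : Vec d, m ≠ 0 → ∀ ε : ℝ, 0 < ε →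
      GMg γ b ε (fun u => Tb p c v u * mm a v u) (RegS θ L v) v m ≤
        ENNReal.ofReal (K * c * (nsq m / (1 + nsq v)) ^ s) := by
  obtain ⟨A, hA, hang⟩ := ang_scale H (τ := a / 2) (by linarith) (by linarith)
  have hC0 : 0 ≤ C := H.bd.1
  have hs := H.hs
  have hs1 := H.hs1
  refine ⟨4 ^ p * (2 ^ (d - 1) * 4 * (2 * C)) * A * 4, by positivity, ?_⟩
  intro θ L c hc v m hm ε hε
  have hAv : 0 < 1 + nsq v := by have := sq_nonneg' v; linarith
  have hm0 : 0 < nsq m := by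
    have h2 := len_pos hm
    have h3 := len_sq m
    rw [← h3]
    positivity
  have hQ : 0 < nsq m / (1 + nsq v) := by positivity
  set Q := nsq m / (1 + nsq v) with hQd
  have hρ : 0 < 2 * Real.sqrt Q := by positivity
  have hK0 : 0 ≤ 4 ^ p * c * (2 ^ (d - 1) * 4 * (2 * C)) := by positivity
  classical
  unfold GMg
  calc ∫⁻ σ in {σ : Vec d | 0 < dot m σ}, (if (v - m, v + hh σ m) ∈ RegS θ L v then
        ENNReal.ofReal (Kn d γ (bt b ε) (co m σ) *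
          (Tb p c v (v + hh σ m) * mm a v (v + hh σ m))) else 0) ∂(surf d)
      ≤ ∫⁻ σ in {σ : Vec d | 0 < dot m σ}, ENNReal.ofReal (4 ^ p * c * (2 ^ (d - 1) * 4 * (2 * C))) *
          ENNReal.ofReal ((1 - dot (dir m) σ) ^ (-(((d : ℝ) - 1) / 2 + s)) *
          min ((2 * Real.sqrt Q) ^ 2 * (1 - dot (dir m) σ)) 1 ^ (a / 2)) ∂(surf d) := by
        refine lintegral_mono_ae ?_
        filter_upwards [ae_restrict_of_ae surf_ae, ae_restrict_mem (measurableSet_half m)]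
          with σ hσ hd
        split_ifs with hR
        · rw [← ENNReal.ofReal_mul hK0]
          exact ENNReal.ofReal_le_ofReal (reg_pt H h1 p hc hσ hd hε hR)
        · exact zero_le
    _ ≤ ∫⁻ σ, ENNReal.ofReal (4 ^ p * c * (2 ^ (d - 1) * 4 * (2 * C))) *
          ENNReal.ofReal ((1 - dot (dir m) σ) ^ (-(((d : ℝ) - 1) / 2 + s)) *
          min ((2 * Real.sqrt Q) ^ 2 * (1 - dot (dir m) σ)) 1 ^ (a / 2)) ∂(surf d) :=
        setLIntegral_le_lintegral _ _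
    _ = ENNReal.ofReal (4 ^ p * c * (2 ^ (d - 1) * 4 * (2 * C))) *
        ∫⁻ σ, ENNReal.ofReal ((1 - dot (dir m) σ) ^ (-(((d : ℝ) - 1) / 2 + s)) *
          min ((2 * Real.sqrt Q) ^ 2 * (1 - dot (dir m) σ)) 1 ^ (a / 2)) ∂(surf d) := by
        rw [lintegral_const_mul' _ _ ENNReal.ofReal_ne_top]
    _ ≤ ENNReal.ofReal (4 ^ p * c * (2 ^ (d - 1) * 4 * (2 * C))) *
        ENNReal.ofReal (A * (2 * Real.sqrt Q) ^ (2 * s)) := by
        gcongr
        exact hang (dir m) (nsq_dir hm) (2 * Real.sqrt Q) hρ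
    _ ≤ ENNReal.ofReal (4 ^ p * (2 ^ (d - 1) * 4 * (2 * C)) * A * 4 * c * Q ^ s) := by
        rw [← ENNReal.ofReal_mul hK0]
        apply ENNReal.ofReal_le_ofReal
        have e1 : (2 * Real.sqrt Q) ^ (2 * s) = 4 ^ s * Q ^ s := by
          rw [Real.rpow_mul hρ.le, Real.rpow_two, mul_pow, Real.sq_sqrt hQ.le,
            Real.mul_rpow (by norm_num) hQ.le]
          norm_num
        have e2 : (4 : ℝ) ^ s ≤ 4 := by
          calc (4 : ℝ) ^ s ≤ 4 ^ (1 : ℝ) := Real.rpow_le_rpow_of_exponent_le (by norm_num) hs1.le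
            _ = 4 := Real.rpow_one 4
        have e3 : 0 ≤ Q ^ s := Real.rpow_nonneg hQ.le _
        rw [e1]
        calc 4 ^ p * c * (2 ^ (d - 1) * 4 * (2 * C)) * (A * (4 ^ s * Q ^ s))
            ≤ 4 ^ p * c * (2 ^ (d - 1) * 4 * (2 * C)) * (A * (4 * Q ^ s)) := by gcongr
          _ = 4 ^ p * (2 ^ (d - 1) * 4 * (2 * C)) * A * 4 * c * Q ^ s := by ring

end Pool.Agent.H48.PL
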