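import Pool.Agent.H48.PL.Final
import Pool.Agent.H15.AV.Slc
import Pool.Agent.H15.AV.SlcB

/-!
# Module GBI: total mass, energy and entropy as iterated integrals
-/

set_option autoImplicit false

open MeasureTheory Set Filter Topology Pool.Agent.H25.Kin Pool.Agent.H15.AV

namespace Pool.Agent.H48.PL

variable {d : ℕ}

private lemma gbi_ibd {F : Vec d → Vec d → ℝ} (hF : Slice F) {p : Vec d → ℝ} (hp : Measurable p)
    {K : ℝ} (hK : 0 ≤ K) (hpb : ∀ v, |p v| ≤ K * (1 + ‖v‖) ^ 2) :
    Integrable (fun q : Vec d × Vec d => F q.2 q.1 * p q.1) (nu d) := by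
  obtain ⟨C, hC⟩ := hF.decay (d + 1 + 2)
  have hm : Measurable fun q : Vec d × Vec d => F q.2 q.1 :=
    (hF.cont.comp (continuous_snd.prodMk continuous_fst)).measurable
  refine integrable_nu (C := K * C) (hm.mul (hp.comp measurable_fst)).aestronglyMeasurable
    fun q => ?_
  rw [abs_mul, abs_of_nonneg (hF.nonneg _ _)]
  have h1 := hC q.2 q.1
  have hw := w_pos q.1
  have h3 : (1 + ‖q.1‖) ^ 2 * F q.2 q.1 ≤ C * wt d q.1 := by
    unfold wt
    rw [← div_eq_mul_inv, le_div_iff₀ (pow_pos hw _)]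
    calc (1 + ‖q.1‖) ^ 2 * F q.2 q.1 * (1 + ‖q.1‖) ^ (d + 1) =
        (1 + ‖q.1‖) ^ (d + 1 + 2) * F q.2 q.1 := by ring
      _ ≤ C := h1
  calc F q.2 q.1 * |p q.1| ≤ F q.2 q.1 * (K * (1 + ‖q.1‖) ^ 2) :=
        mul_le_mul_of_nonneg_left (hpb q.1) (hF.nonneg _ _)
    _ = K * ((1 + ‖q.1‖) ^ 2 * F q.2 q.1) := by ring
    _ ≤ K * (C * wt d q.1) := mul_le_mul_of_nonneg_left h3 hK
    _ = _ := by ring

private lemma gbi_intM {F : Vec d → Vec d → ℝ} (hF : Slice F) :
    ∫ q, F q.2 q.1 ∂(nu d) = ∫ x in Icc (0 : Vec d) 1, ∫ v, F x v := by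
  have h1 : Integrable (fun q : Vec d × Vec d => F q.2 q.1 * (fun _ => (1 : ℝ)) q.1) (nu d) :=
    gbi_ibd hF measurable_const (K := 1) zero_le_one fun v => by
      rw [abs_one, one_mul]
      exact one_le_pow₀ (by have := norm_nonneg v; linarith)
  simp only [mul_one] at h1
  exact nu_integral h1

private lemma gbi_intE {F : Vec d → Vec d → ℝ} (hF : Slice F) :
    ∫ q, F q.2 q.1 * nsq q.1 ∂(nu d) = ∫ x in Icc (0 : Vec d) 1, ∫ v, F x v * nsq v := by
  have h1 : Integrable (fun q : Vec d × Vec d => F q.2 q.1 * nsq q.1) (nu d) :=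
    gbi_ibd hF continuous_sq.measurable (K := d) (Nat.cast_nonneg _) fun v => by
      rw [abs_of_nonneg (sq_nonneg' v)]
      refine (sq_le v).trans (mul_le_mul_of_nonneg_left ?_ (Nat.cast_nonneg _))
      exact pow_le_pow_left₀ (norm_nonneg _) (by linarith) 2
  exact nu_integral h1

private lemma gbi_intH {F : Vec d → Vec d → ℝ} (hF : Slice F) :
    ∫ q, F q.2 q.1 * Real.log (F q.2 q.1) ∂(nu d) =
      ∫ x in Icc (0 : Vec d) 1, ∫ v, F x v * Real.log (F x v) := by
  have hm : Measurable fun q : Vec d × Vec d => F q.2 q.1 :=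
    (hF.cont.comp (continuous_snd.prodMk continuous_fst)).measurable
  obtain ⟨B, hB⟩ := hF.decay 0
  obtain ⟨C, hC⟩ := hF.decay (2 * (d + 1))
  have hB' : ∀ x v, F x v ≤ max B 1 := fun x v => by
    have := hB x v
    rw [pow_zero, one_mul] at this
    exact this.trans (le_max_left _ _)
  have hC0 : 0 ≤ C := (mul_nonneg (by positivity) (hF.nonneg 0 0)).trans (hC 0 0)
  have hL0 : 0 ≤ Real.log (max B 1) := Real.log_nonneg (le_max_right _ _)
  -- `|y log y| ≤ 2 √y + y log B`
  have key : ∀ x v, |F x v * Real.log (F x v)| ≤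
      (2 * Real.sqrt C + C * Real.log (max B 1)) * wt d v := by
    intro x v
    have hy := hF.nonneg x v
    set y := F x v with hyd
    have hw := w_pos v
    have hs : Real.sqrt y ≤ Real.sqrt C * wt d v := by
      have h1 : y ≤ (Real.sqrt C * wt d v) ^ 2 := by
        rw [mul_pow, Real.sq_sqrt hC0]
        unfold wt
        rw [inv_pow, ← div_eq_mul_inv, le_div_iff₀ (by positivity)]
        calc y * ((1 + ‖v‖) ^ (d + 1)) ^ 2 = (1 + ‖v‖) ^ (2 * (d + 1)) * y := by
              rw [← pow_mul]; ring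
          _ ≤ C := hC x v
      calc Real.sqrt y ≤ Real.sqrt ((Real.sqrt C * wt d v) ^ 2) := Real.sqrt_le_sqrt h1
        _ = Real.sqrt C * wt d v :=
          Real.sqrt_sq (mul_nonneg (Real.sqrt_nonneg _) (wt_nonneg _))
    have hyw : y ≤ C * wt d v := by
      unfold wt
      rw [← div_eq_mul_inv, le_div_iff₀ (by positivity)]
      have h1 := hC x v
      have h2 : (1 + ‖v‖) ^ (d + 1) ≤ (1 + ‖v‖) ^ (2 * (d + 1)) :=
        pow_le_pow_right₀ (by have := norm_nonneg v; linarith) (by omega)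
      calc y * (1 + ‖v‖) ^ (d + 1) ≤ y * (1 + ‖v‖) ^ (2 * (d + 1)) :=
            mul_le_mul_of_nonneg_left h2 hy
        _ ≤ C := by rw [mul_comm]; exact h1
    rcases hy.eq_or_lt with h0 | h0
    · rw [← h0, zero_mul, abs_zero]
      have := wt_nonneg (d := d) v
      positivity
    · rcases le_total y 1 with h1 | h1
      · have h2 : Real.log y ≤ 0 := Real.log_nonpos hy h1
        rw [abs_of_nonpos (mul_nonpos_of_nonneg_of_nonpos hy h2)]
        have h3 : -Real.log y ≤ 2 / Real.sqrt y := by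
          have hsy : 0 < Real.sqrt y := Real.sqrt_pos.2 h0
          have h4 : Real.log (Real.sqrt y)⁻¹ ≤ (Real.sqrt y)⁻¹ - 1 :=
            Real.log_le_sub_one_of_pos (by positivity)
          rw [Real.log_inv, Real.log_sqrt hy] at h4
          have h5 : (Real.sqrt y)⁻¹ - 1 ≤ (Real.sqrt y)⁻¹ := by linarith
          have h6 : 2 / Real.sqrt y = 2 * (Real.sqrt y)⁻¹ := by ring
          rw [h6]
          linarith
        have h7 : -(y * Real.log y) ≤ 2 * Real.sqrt y := by
          have hsy : 0 < Real.sqrt y := Real.sqrt_pos.2 h0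
          calc -(y * Real.log y) = y * (-Real.log y) := by ring
            _ ≤ y * (2 / Real.sqrt y) := mul_le_mul_of_nonneg_left h3 hy
            _ = 2 * (y / Real.sqrt y) := by ring
            _ = 2 * Real.sqrt y := by rw [Real.div_sqrt]
        have := wt_nonneg (d := d) v
        have h8 : 0 ≤ C * Real.log (max B 1) * wt d v := by positivity
        calc -(y * Real.log y) ≤ 2 * Real.sqrt y := h7
          _ ≤ 2 * (Real.sqrt C * wt d v) := by linarith
          _ ≤ _ := by linarith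
      · have h2 : 0 ≤ Real.log y := Real.log_nonneg h1
        rw [abs_of_nonneg (mul_nonneg hy h2)]
        have h3 : Real.log y ≤ Real.log (max B 1) := Real.log_le_log h0 (hB' x v)
        have := wt_nonneg (d := d) v
        calc y * Real.log y ≤ (C * wt d v) * Real.log (max B 1) :=
              mul_le_mul hyw h3 h2 (by positivity)
          _ ≤ _ := by
              have h9 : 0 ≤ 2 * Real.sqrt C * wt d v := by positivity
              linarith
  have h1 : Integrable (fun q : Vec d × Vec d => F q.2 q.1 * Real.log (F q.2 q.1)) (nu d) :=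
    integrable_nu (hm.mul (Real.measurable_log.comp hm)).aestronglyMeasurable
      fun q => key q.2 q.1
  exact nu_integral h1


/-- the bounds `GB` in terms of iterated integrals -/
theorem GB_of {M : ℝ} {F : Vec d → Vec d → ℝ} (hF : Slice F)
    (h1 : ∫ x in Icc (0 : Vec d) 1, ∫ v, F x v ≤ M)
    (h2 : ∫ x in Icc (0 : Vec d) 1, ∫ v, F x v * nsq v ≤ M)
    (h3 : ∫ x in Icc (0 : Vec d) 1, ∫ v, F x v * Real.log (F x v) ≤ M) : GB M F :=
  ⟨(gbi_intM hF).trans_le h1, (gbi_intE hF).trans_le h2, (gbi_intH hF).trans_le h3⟩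

end Pool.Agent.H48.PL
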