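import Pool.Agent.H48.PL.Defs

/-!
# Module WkI: the weak form with the angular integral inside

`weak_cut` (Kin/BWeak) gives `∫ boltzCut g φ = (1/2) ∫ kerB (g w g v)(φ'+φ'_*-φ-φ_*) d(mu3)`, and `mu3 = vol × (vol × surf)`; the
integrand is integrable (as in `hb_int` of H15/AVB/HB.lean, by `int_piece`; copy). Fubini (`integral_prod`, associativity
`MeasurableEquiv.prodAssoc`/`integral_prod` twice) moves the `σ` integral inside: `g p.1 g p.2 * ainc`.
`weak_ge_of`, `weak_le_of`: for `ε ≤ ε₀` integrate the pointwise inequality (diagonal `v = w` is a null set), then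
`ε → 0` with `boltz_weak_tendsto H hg hφ hφm`.
-/

set_option autoImplicit false

open MeasureTheory Set Filter Topology Pool.Agent.H25.Kin

namespace Pool.Agent.H48.PL

variable {d : ℕ} {γ s C Ca : ℝ} {b : ℝ → ℝ}

/-- the increment of a collision -/
private noncomputable def wkX (φ : Vec d → ℝ) (p : Vec d × Vec d × Vec d) : ℝ :=
  φ (post p.1 p.2.1 p.2.2) + φ (post' p.1 p.2.1 p.2.2) - φ p.1 - φ p.2.1

private theorem wkX_meas {φ : Vec d → ℝ} (hφm : Measurable φ) : Measurable (wkX φ) := by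
  have mpost := (continuous_post (d := d)).measurable
  have mpost' := (continuous_post' (d := d)).measurable
  have mv : Measurable fun p : Vec d × Vec d × Vec d => p.1 := measurable_fst
  have mw : Measurable fun p : Vec d × Vec d × Vec d => p.2.1 := measurable_fst.comp measurable_snd
  exact (((hφm.comp mpost).add (hφm.comp mpost')).sub (hφm.comp mv)).sub (hφm.comp mw)

private theorem wkX_le {φ : Vec d → ℝ} (hφ : PG φ) : ∃ (K : ℕ) (B : ℝ), 0 ≤ B ∧
    ∀ v w σ : Vec d, nsq σ = 1 → |wkX φ (v, w, σ)| ≤ B * ((1 + ‖v‖) * (1 + ‖w‖)) ^ K := by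
  obtain ⟨K, B, hB0, hB⟩ := pg_post_le hφ
  refine ⟨K, 4 * B, by positivity, fun v w σ hσ => ?_⟩
  obtain ⟨h1, h2, h3, h4⟩ := hB v w σ hσ
  change |φ (post v w σ) + φ (post' v w σ) - φ v - φ w| ≤ _
  obtain ⟨a1, a2⟩ := abs_le.1 h1
  obtain ⟨b1, b2⟩ := abs_le.1 h2
  obtain ⟨c1, c2⟩ := abs_le.1 h3
  obtain ⟨e1, e2⟩ := abs_le.1 h4
  rw [abs_le]
  constructor <;> linarith

private theorem wk_int (H : Hyp d γ s b C Ca) {ε : ℝ} (hε : 0 < ε) {h : Vec d → ℝ} (hh : RD h)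
    (hhc : Continuous h) {φ : Vec d → ℝ} (hφ : PG φ) (hφm : Measurable φ) :
    Integrable (fun p : Vec d × Vec d × Vec d =>
      kerB γ b ε p.1 p.2.1 p.2.2 * (h p.2.1 * h p.1) * wkX φ p) (mu3 d) := by
  obtain ⟨K, B, hB0, hB⟩ := wkX_le hφ
  obtain ⟨A2, hA2, hA2'⟩ := prod_le' hh (d + 1 + (d + 5) + K)
  have mv : Measurable fun p : Vec d × Vec d × Vec d => p.1 := measurable_fst
  have mw : Measurable fun p : Vec d × Vec d × Vec d => p.2.1 := measurable_fst.comp measurable_snd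
  exact int_piece (P := fun p : Vec d × Vec d × Vec d => h p.2.1 * h p.1) (Φ := wkX φ)
    H.hd H.g1 H.g2 H.bm H.bd H.β0 hε
    ((hhc.measurable.comp mw).mul (hhc.measurable.comp mv)) (wkX_meas hφm) hA2 hB0
    (fun v w σ _ => by have := hA2' v w; rw [mul_comm] at this; exact this)
    (fun v w σ hσ => hB v w σ hσ)

private theorem wk_inner (γ : ℝ) (b : ℝ → ℝ) (ε : ℝ) (g φ : Vec d → ℝ) (v w : Vec d) :
    ∫ σ, kerB γ b ε v w σ * (g w * g v) * wkX φ (v, w, σ) ∂(surf d) =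
      g v * g w * ainc γ b ε φ v w := by
  unfold ainc
  rw [← integral_const_mul]
  refine integral_congr_ae (Eventually.of_forall fun σ => ?_)
  simp only [wkX]
  ring

theorem weak_pair (H : Hyp d γ s b C Ca) {ε : ℝ} (hε : 0 < ε) {g φ : Vec d → ℝ} (hg : RD g)
    (hgc : Continuous g) (hφ : PG φ) (hφm : Measurable φ) :
    Integrable (fun p : Vec d × Vec d => g p.1 * g p.2 * ainc γ b ε φ p.1 p.2) ∧
    ∫ v, boltzCut γ b ε g v * φ v =
      (1 / 2) * ∫ p : Vec d × Vec d, g p.1 * g p.2 * ainc γ b ε φ p.1 p.2 := by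
  have i := wk_int H hε hg hgc hφ hφm
  have h3 : MeasurePreserving (MeasurableEquiv.prodAssoc (α := Vec d) (β := Vec d) (γ := Vec d))
      (((volume : Measure (Vec d)).prod volume).prod (surf d)) (mu3 d) :=
    measurePreserving_prodAssoc _ _ _
  have i2 := h3.integrable_comp_of_integrable i
  have e0 := h3.integral_comp' (fun p : Vec d × Vec d × Vec d =>
      kerB γ b ε p.1 p.2.1 p.2.2 * (g p.2.1 * g p.1) * wkX φ p)
  have ei : (fun q : Vec d × Vec d => ∫ σ, ((fun p : Vec d × Vec d × Vec d =>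
      kerB γ b ε p.1 p.2.1 p.2.2 * (g p.2.1 * g p.1) * wkX φ p) ∘
      (MeasurableEquiv.prodAssoc (α := Vec d) (β := Vec d) (γ := Vec d))) (q, σ) ∂(surf d)) =
      fun q : Vec d × Vec d => g q.1 * g q.2 * ainc γ b ε φ q.1 q.2 := by
    funext q
    exact wk_inner γ b ε g φ q.1 q.2
  have i3 := i2.integral_prod_left
  have e2 := integral_prod _ i2
  rw [ei] at i3 e2
  refine ⟨i3, ?_⟩
  rw [weak_cut H.hd H.g1 H.g2 H.bm H.bd H.β0 hε hg hgc hφ hφm]
  congr 1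
  exact e0.symm.trans e2

private theorem wk_ne (hd : 1 ≤ d) : ∀ᵐ p ∂(volume : Measure (Vec d × Vec d)), p.1 ≠ p.2 := by
  have hne : Nonempty (Fin d) := ⟨⟨0, by omega⟩⟩
  have hs : MeasurableSet {p : Vec d × Vec d | p.1 ≠ p.2} :=
    (isClosed_eq continuous_fst continuous_snd).measurableSet.compl
  refine (Measure.ae_prod_iff_ae_ae hs).2 (Eventually.of_forall fun v => ?_)
  have : (volume : Measure (Vec d)) {v} = 0 := measure_singleton v
  filter_upwards [compl_mem_ae_iff.2 this] with w hw h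
  exact hw h.symm

private theorem wk_Ioc {ε₀ : ℝ} (hε₀ : 0 < ε₀) : ∀ᶠ ε : ℝ in 𝓝[>] 0, 0 < ε ∧ ε ≤ ε₀ := by
  filter_upwards [Ioc_mem_nhdsGT hε₀] with ε hε
  exact ⟨hε.1, hε.2⟩

theorem weak_ge_of (H : Hyp d γ s b C Ca) {g φ : Vec d → ℝ} (hg : Nice g) (hg0 : ∀ v, 0 ≤ g v)
    (hφ : PG φ) (hφm : Measurable φ) {L : Vec d × Vec d → ℝ}
    (hL : Integrable fun p : Vec d × Vec d => g p.1 * g p.2 * L p) {ε₀ : ℝ} (hε₀ : 0 < ε₀)
    (h : ∀ ε : ℝ, 0 < ε → ε ≤ ε₀ → ∀ v w : Vec d, v ≠ w → L (v, w) ≤ ainc γ b ε φ v w) :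
    (1 / 2) * ∫ p : Vec d × Vec d, g p.1 * g p.2 * L p ≤ ∫ v, boltzQ γ b g v * φ v := by
  refine ge_of_tendsto (boltz_weak_tendsto H hg hφ hφm) ?_
  filter_upwards [wk_Ioc hε₀] with ε hε
  obtain ⟨i, e⟩ := weak_pair H hε.1 hg.rd hg.cont hφ hφm
  rw [e]
  refine mul_le_mul_of_nonneg_left ?_ (by norm_num)
  refine integral_mono_ae hL i ?_
  filter_upwards [wk_ne H.hd1] with p hp
  exact mul_le_mul_of_nonneg_left (h ε hε.1 hε.2 p.1 p.2 hp) (mul_nonneg (hg0 _) (hg0 _))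

theorem weak_le_of (H : Hyp d γ s b C Ca) {g φ : Vec d → ℝ} (hg : Nice g) (hg0 : ∀ v, 0 ≤ g v)
    (hφ : PG φ) (hφm : Measurable φ) {L : Vec d × Vec d → ℝ}
    (hL : Integrable fun p : Vec d × Vec d => g p.1 * g p.2 * L p) {ε₀ : ℝ} (hε₀ : 0 < ε₀)
    (h : ∀ ε : ℝ, 0 < ε → ε ≤ ε₀ → ∀ v w : Vec d, v ≠ w → ainc γ b ε φ v w ≤ L (v, w)) :
    ∫ v, boltzQ γ b g v * φ v ≤ (1 / 2) * ∫ p : Vec d × Vec d, g p.1 * g p.2 * L p := by
  refine le_of_tendsto (boltz_weak_tendsto H hg hφ hφm) ?_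
  filter_upwards [wk_Ioc hε₀] with ε hε
  obtain ⟨i, e⟩ := weak_pair H hε.1 hg.rd hg.cont hφ hφm
  rw [e]
  refine mul_le_mul_of_nonneg_left ?_ (by norm_num)
  refine integral_mono_ae i hL ?_
  filter_upwards [wk_ne H.hd1] with p hp
  exact mul_le_mul_of_nonneg_left (h ε hε.1 hε.2 p.1 p.2 hp) (mul_nonneg (hg0 _) (hg0 _))

end Pool.Agent.H48.PL
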