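import Pool.Agent.H48.PL.JB

/-!
# Module XB: the density `dens` and `XS`

* `dens a g p = g p.1 g p.2 |V|^(1+a) RR^a ≤ |g p.1||g p.2| (2 RR)^(1+a) RR^a`, `RR ≤ jb p.1 + jb p.2 ≤ 2 jb p.1 jb p.2`, so that
  `|dens| ≤ C ((1+‖v‖)^4 |g v|)((1+‖w‖)^4 |g w|)` for `0 ≤ a ≤ 1` (`RR^(1+2a) ≤ RR^3`), and `g` is `RD`: bound by
  `C wt(v) wt(w)`, integrable on the product (`Integrable.mul_prod`, `integrable_wt`).
* the set lemmas: closed sets (continuity of `jb`, `RR`, `len`, coordinates; `RR^(-κ)` is continuous because `RR ≥ 1`).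
* additivity/monotonicity of set integrals of a nonnegative integrable function.
  `CmpS δ ⊆ CmpS (δ/2)` for `δ ≥ 0`. `univ = (CmpS δ)ᶜ ∪ (CmpS δ ∩ Nᶜ) ∪ (CmpS δ ∩ N)`.
-/

set_option autoImplicit false

open MeasureTheory Set Filter Topology Pool.Agent.H25.Kin

namespace Pool.Agent.H48.PL

variable {d : ℕ} {a : ℝ} {g : Vec d → ℝ}

lemma measurableSet_CmpS (δ : ℝ) : MeasurableSet (CmpS δ : Set (Vec d × Vec d)) := by
  have h1 : MeasurableSet {p : Vec d × Vec d | δ * RR p.1 p.2 ≤ jb p.1} :=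
    measurableSet_le (RR_cont.measurable.const_mul δ) (jb_cont.measurable.comp measurable_fst)
  have h2 : MeasurableSet {p : Vec d × Vec d | δ * RR p.1 p.2 ≤ jb p.2} :=
    measurableSet_le (RR_cont.measurable.const_mul δ) (jb_cont.measurable.comp measurable_snd)
  exact h1.inter h2

lemma measurableSet_NtS (e : Fin d) (ε κ : ℝ) : MeasurableSet (NtS e ε κ) := by
  have h1 : Measurable fun p : Vec d × Vec d => ε * RR p.1 p.2 ^ (-κ) * len (p.1 - p.2) :=
    ((RR_cont.measurable.pow_const (-κ)).const_mul ε).mul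
      (continuous_len.comp (by fun_prop : Continuous fun p : Vec d × Vec d => p.1 - p.2)).measurable
  have h2 : Measurable fun p : Vec d × Vec d => |p.1 e - p.2 e| :=
    (by fun_prop : Continuous fun p : Vec d × Vec d => |p.1 e - p.2 e|).measurable
  exact measurableSet_le h1 h2

lemma CmpS_mono {δ δ' : ℝ} (h : δ' ≤ δ) : (CmpS δ : Set (Vec d × Vec d)) ⊆ CmpS δ' := by
  intro p hp
  have h1 : δ' * RR p.1 p.2 ≤ δ * RR p.1 p.2 := mul_le_mul_of_nonneg_right h (RR_pos _ _).le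
  exact ⟨h1.trans hp.1, h1.trans hp.2⟩

lemma dens_nonneg (hg : ∀ v, 0 ≤ g v) (p : Vec d × Vec d) : 0 ≤ dens a g p := by
  unfold dens
  exact mul_nonneg (mul_nonneg (hg _) (hg _))
    (mul_nonneg (Real.rpow_nonneg (len_nonneg _) _) (Real.rpow_nonneg (RR_pos _ _).le _))

lemma dens_cont (ha : 0 ≤ a) (hgc : Continuous g) : Continuous (dens a g) := by
  unfold dens
  have h1 : Continuous fun p : Vec d × Vec d => len (p.1 - p.2) ^ (1 + a) :=
    (continuous_len.comp (by fun_prop : Continuous fun p : Vec d × Vec d => p.1 - p.2)).rpow_const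
      fun p => Or.inr (by linarith)
  have h2 : Continuous fun p : Vec d × Vec d => RR p.1 p.2 ^ a :=
    RR_cont.rpow_const fun p => Or.inr ha
  exact ((hgc.comp continuous_fst).mul (hgc.comp continuous_snd)).mul (h1.mul h2)

lemma dens_integrable (ha : 0 ≤ a) (ha1 : a ≤ 1) (hg : RD g) (hgc : Continuous g) :
    Integrable (dens a g) := by
  have hr : RD fun v => g v * jb v ^ (3 : ℝ) := hg.mul_PG PG_jb
  have hc : Continuous fun v => g v * jb v ^ (3 : ℝ) :=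
    hgc.mul (jb_cont.rpow_const fun v => Or.inr (by norm_num))
  have hi : Integrable (fun v => g v * jb v ^ (3 : ℝ)) := hr.integrable hc.aestronglyMeasurable
  have hp : Integrable (fun p : Vec d × Vec d =>
      32 * (‖g p.1 * jb p.1 ^ (3 : ℝ)‖ * ‖g p.2 * jb p.2 ^ (3 : ℝ)‖)) :=
    (hi.norm.mul_prod hi.norm).const_mul 32
  refine hp.mono' (dens_cont ha hgc).aestronglyMeasurable (Filter.Eventually.of_forall fun p => ?_)
  obtain ⟨v, w⟩ := p
  have e3 : ∀ u : Vec d, jb u ^ (3 : ℝ) = jb u ^ 3 := fun u => by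
    rw [show (3 : ℝ) = ((3 : ℕ) : ℝ) by norm_num, Real.rpow_natCast]
  simp only [dens, e3, norm_mul, Real.norm_eq_abs]
  have r1 := one_le_RR v w
  have r0 := RR_pos v w
  have j1 := one_le_jb v
  have j2 := one_le_jb w
  have q1 : |len (v - w) ^ (1 + a)| ≤ (2 * RR v w) ^ 2 := by
    rw [abs_of_nonneg (Real.rpow_nonneg (len_nonneg _) _)]
    calc len (v - w) ^ (1 + a) ≤ (2 * RR v w) ^ (1 + a) :=
          Real.rpow_le_rpow (len_nonneg _) (len_le_RR v w) (by linarith)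
      _ ≤ (2 * RR v w) ^ (2 : ℝ) :=
          Real.rpow_le_rpow_of_exponent_le (by linarith) (by linarith)
      _ = (2 * RR v w) ^ 2 := by
          rw [show (2 : ℝ) = ((2 : ℕ) : ℝ) by norm_num, Real.rpow_natCast]
  have q2 : |RR v w ^ a| ≤ RR v w := by
    rw [abs_of_nonneg (Real.rpow_nonneg r0.le _)]
    calc RR v w ^ a ≤ RR v w ^ (1 : ℝ) := Real.rpow_le_rpow_of_exponent_le r1 ha1
      _ = RR v w := Real.rpow_one _
  have q3 : RR v w ≤ 2 * (jb v * jb w) := by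
    have := RR_le v w
    nlinarith [mul_nonneg (sub_nonneg.2 j1) (sub_nonneg.2 j2)]
  have q4 : RR v w ^ 3 ≤ (2 * (jb v * jb w)) ^ 3 := pow_le_pow_left₀ r0.le q3 3
  have q5 : |len (v - w) ^ (1 + a)| * |RR v w ^ a| ≤ 32 * (jb v ^ 3 * jb w ^ 3) := by
    calc |len (v - w) ^ (1 + a)| * |RR v w ^ a| ≤ (2 * RR v w) ^ 2 * RR v w :=
          mul_le_mul q1 q2 (abs_nonneg _) (by positivity)
      _ = 4 * RR v w ^ 3 := by ring
      _ ≤ 4 * (2 * (jb v * jb w)) ^ 3 := by linarith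
      _ = 32 * (jb v ^ 3 * jb w ^ 3) := by ring
  have a1 : |jb v ^ 3| = jb v ^ 3 := abs_of_nonneg (by positivity)
  have a2 : |jb w ^ 3| = jb w ^ 3 := abs_of_nonneg (by positivity)
  rw [a1, a2]
  calc |g v| * |g w| * (|len (v - w) ^ (1 + a)| * |RR v w ^ a|)
      ≤ |g v| * |g w| * (32 * (jb v ^ 3 * jb w ^ 3)) :=
        mul_le_mul_of_nonneg_left q5 (by positivity)
    _ = 32 * (|g v| * jb v ^ 3 * (|g w| * jb w ^ 3)) := by ring

lemma XS_nonneg (hg : ∀ v, 0 ≤ g v) (A : Set (Vec d × Vec d)) : 0 ≤ XS a g A :=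
  integral_nonneg fun p => dens_nonneg hg p

lemma XS_mono (ha : 0 ≤ a) (ha1 : a ≤ 1) (hg : RD g) (hgc : Continuous g) (hg0 : ∀ v, 0 ≤ g v)
    {A B : Set (Vec d × Vec d)} (h : A ⊆ B) : XS a g A ≤ XS a g B := by
  unfold XS
  exact setIntegral_mono_set (dens_integrable ha ha1 hg hgc).integrableOn
    (Filter.Eventually.of_forall fun p => dens_nonneg hg0 p) (HasSubset.Subset.eventuallyLE h)

lemma XS_cmp_le (ha : 0 ≤ a) (ha1 : a ≤ 1) (hg : RD g) (hgc : Continuous g) (hg0 : ∀ v, 0 ≤ g v)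
    {δ : ℝ} (hδ : 0 ≤ δ) (e : Fin d) (ε κ : ℝ) :
    XS a g (CmpS δ) ≤ XS a g (CmpS δ ∩ (NtS e ε κ)ᶜ) + XS a g (CmpS (δ / 2) ∩ NtS e ε κ) := by
  have hI := dens_integrable ha ha1 hg hgc
  have h1 : XS a g (CmpS δ) = XS a g (CmpS δ ∩ NtS e ε κ) + XS a g (CmpS δ ∩ (NtS e ε κ)ᶜ) := by
    unfold XS
    rw [← setIntegral_union (disjoint_compl_right.mono inter_subset_right inter_subset_right)
      ((measurableSet_CmpS δ).inter (measurableSet_NtS e ε κ).compl) hI.integrableOn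
      hI.integrableOn, inter_union_compl]
  have h2 : XS a g (CmpS δ ∩ NtS e ε κ) ≤ XS a g (CmpS (δ / 2) ∩ NtS e ε κ) :=
    XS_mono ha ha1 hg hgc hg0 (inter_subset_inter_left _ (CmpS_mono (by linarith)))
  linarith

lemma XS_univ_le (ha : 0 ≤ a) (ha1 : a ≤ 1) (hg : RD g) (hgc : Continuous g) (hg0 : ∀ v, 0 ≤ g v)
    {δ : ℝ} (hδ : 0 ≤ δ) (e : Fin d) (ε κ : ℝ) :
    XS a g univ ≤ XS a g (CmpS δ)ᶜ + (XS a g (CmpS δ ∩ (NtS e ε κ)ᶜ) +
      XS a g (CmpS (δ / 2) ∩ NtS e ε κ)) := by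
  have hI := dens_integrable ha ha1 hg hgc
  have h1 : XS a g univ = XS a g (CmpS δ) + XS a g (CmpS δ)ᶜ := by
    unfold XS
    rw [setIntegral_univ, integral_add_compl (measurableSet_CmpS δ) hI]
  have h2 := XS_cmp_le ha ha1 hg hgc hg0 hδ e ε κ
  linarith

end Pool.Agent.H48.PL
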