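import Pool.Agent.H48.PL.Ang
import Pool.Agent.H48.PL.WkI
import Pool.Agent.H48.PL.XB

/-!
# Module Hw: the collision operator tested with a Holder function

`ψ` with `|ψ w - ψ w'| ≤ A max(⟨w⟩,⟨w'⟩)^(a-α) |w-w'|^α`, `2s < α ≤ a ≤ 1`, `γ = 1+a`. For a collision:
`|ψ(post) - ψ(v)| ≤ A RR^(a-α) (|V|² y/2)^(α/2) ≤ A RR^(a-α) |V|^α y^(α/2)`, `y = 1 - cosTh` (`jb_post_le`, `nsq_post_sub`), and the same for `post'`, `w`.
By `ker_small` with `τ = α/2 > s`, `u = 2`: `|ainc| ≤ 2 A RR^(a-α)|V|^α K |V|^(1+a) ≤ 4 A K |V|^(1+a) RR^a` (`|V| ≤ 2RR`, `α ≤ 1`).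
`ψ` is PG and continuous (hence measurable). `weak_ge_of` and `weak_le_of` with `L = ∓ 4AK |V|^(1+a) RR^a`.
-/

set_option autoImplicit false

open MeasureTheory Set Filter Topology Pool.Agent.H25.Kin Pool.Agent.H82.BK Pool.Agent.H82.CM

namespace Pool.Agent.H48.PL

variable {d : ℕ} {s a α C Ca cb : ℝ} {b : ℝ → ℝ}

private lemma len_zero' : len (0 : Vec d) = 0 := by
  have h : nsq (0 : Vec d) = 0 := by unfold nsq; simp
  unfold len
  rw [h, Real.sqrt_zero]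

private lemma jb_zero' : jb (0 : Vec d) = 1 := by
  have h : nsq (0 : Vec d) = 0 := by unfold nsq; simp
  unfold jb
  rw [h, add_zero, Real.sqrt_one]

private lemma psi_cont {ψ : Vec d → ℝ} {A p : ℝ} (hα : 0 < α)
    (h : ∀ w w' : Vec d, |ψ w - ψ w'| ≤ A * (max (jb w) (jb w') ^ p * len (w - w') ^ α)) :
    Continuous ψ := by
  rw [continuous_iff_continuousAt]
  intro w
  rw [ContinuousAt, tendsto_iff_dist_tendsto_zero]
  have hc : Continuous fun w' : Vec d => A * (max (jb w') (jb w) ^ p * len (w' - w) ^ α) := by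
    refine continuous_const.mul (Continuous.mul ?_ ?_)
    · refine (jb_cont.max continuous_const).rpow_const fun w' => Or.inl ?_
      exact (lt_of_lt_of_le (jb_pos w') (le_max_left _ _)).ne'
    · exact (continuous_len.comp (continuous_id.sub continuous_const)).rpow_const
        fun w' => Or.inr hα.le
  have h0 : Tendsto (fun w' : Vec d => A * (max (jb w') (jb w) ^ p * len (w' - w) ^ α)) (𝓝 w)
      (𝓝 0) := by
    have h1 := hc.tendsto w
    rwa [sub_self, len_zero', Real.zero_rpow hα.ne', mul_zero, mul_zero] at h1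
  refine squeeze_zero (fun _ => dist_nonneg) (fun w' => ?_) h0
  rw [Real.dist_eq]
  exact h w' w

private lemma psi_PG {ψ : Vec d → ℝ} {A : ℝ} (hA : 0 ≤ A) (hα : 0 < α) (h3 : a ≤ 1)
    (h : ∀ w w' : Vec d, |ψ w - ψ w'| ≤ A * (max (jb w) (jb w') ^ (a - α) * len (w - w') ^ α)) :
    PG ψ := by
  refine ⟨1, (|ψ 0| + A) * ((d : ℝ) + 1), fun v => ?_⟩
  have h4 := h v 0
  rw [jb_zero', sub_zero, max_eq_left (one_le_jb v)] at h4
  have h5 : jb v ^ (a - α) * len v ^ α ≤ jb v := by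
    calc jb v ^ (a - α) * len v ^ α ≤ jb v ^ (a - α) * jb v ^ α := by
          refine mul_le_mul_of_nonneg_left ?_ (Real.rpow_nonneg (jb_pos v).le _)
          exact Real.rpow_le_rpow (len_nonneg v) (len_le_jb v) hα.le
      _ = jb v ^ a := by rw [← Real.rpow_add (jb_pos v)]; congr 1; ring
      _ ≤ jb v ^ (1 : ℝ) := Real.rpow_le_rpow_of_exponent_le (one_le_jb v) h3
      _ = jb v := Real.rpow_one _
  have h6 : |ψ v| ≤ |ψ 0| + A * jb v := by
    have h7 : |ψ v| ≤ |ψ v - ψ 0| + |ψ 0| := by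
      have := abs_add_le (ψ v - ψ 0) (ψ 0)
      rwa [sub_add_cancel] at this
    have h8 := mul_le_mul_of_nonneg_left h5 hA
    linarith
  have h9 := one_le_jb v
  have h10 := jb_le_w v
  rw [Real.norm_eq_abs, pow_one]
  calc |ψ v| ≤ |ψ 0| + A * jb v := h6
    _ ≤ (|ψ 0| + A) * jb v := by nlinarith [abs_nonneg (ψ 0)]
    _ ≤ (|ψ 0| + A) * (((d : ℝ) + 1) * (1 + ‖v‖)) :=
      mul_le_mul_of_nonneg_left h10 (add_nonneg (abs_nonneg _) hA)
    _ = _ := by ring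

private lemma len_of_nsq {x y : Vec d} {t : ℝ} (ht : 0 ≤ t) (h : nsq x = nsq y * (t / 2)) :
    len x ^ α = len y ^ α * (t / 2) ^ (α / 2) := by
  have h1 : len x = len y * (t / 2) ^ (1 / 2 : ℝ) := by
    unfold len
    rw [h, Real.sqrt_mul (sq_nonneg' y), Real.sqrt_eq_rpow (t / 2)]
  rw [h1, Real.mul_rpow (len_nonneg y) (Real.rpow_nonneg (by linarith) _),
    ← Real.rpow_mul (by linarith)]
  congr 2
  ring

private lemma inc_bd {ψ : Vec d → ℝ} {A : ℝ} (hA : 0 ≤ A) (hα : 0 < α) (h2 : α ≤ a)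
    (h : ∀ w w' : Vec d, |ψ w - ψ w'| ≤ A * (max (jb w) (jb w') ^ (a - α) * len (w - w') ^ α))
    {v w x y : Vec d} {t : ℝ} (ht : 0 ≤ t) (hx : jb x ≤ RR v w) (hy : jb y ≤ RR v w)
    (hn : nsq (x - y) = nsq (v - w) * (t / 2)) :
    |ψ x - ψ y| ≤ A * (RR v w ^ (a - α) * (len (v - w) ^ α * t ^ (α / 2))) := by
  refine (h x y).trans (mul_le_mul_of_nonneg_left ?_ hA)
  have h4 : max (jb x) (jb y) ^ (a - α) ≤ RR v w ^ (a - α) :=
    Real.rpow_le_rpow (le_max_of_le_left (jb_pos x).le) (max_le hx hy) (by linarith)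
  have h5 : len (x - y) ^ α ≤ len (v - w) ^ α * t ^ (α / 2) := by
    rw [len_of_nsq ht hn]
    refine mul_le_mul_of_nonneg_left ?_ (Real.rpow_nonneg (len_nonneg _) _)
    exact Real.rpow_le_rpow (by linarith) (by linarith) (by linarith)
  exact mul_le_mul h4 h5 (Real.rpow_nonneg (len_nonneg _) _) (Real.rpow_nonneg (RR_pos v w).le _)

private lemma ainc_bd (H : Hyp d (1 + a) s b C Ca) (h1 : 2 * s < α) (h2 : α ≤ a) (h3 : a ≤ 1) :
    ∃ K : ℝ, 0 ≤ K ∧ ∀ (ψ : Vec d → ℝ) (A : ℝ), 0 ≤ A →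
      (∀ w w' : Vec d, |ψ w - ψ w'| ≤ A * (max (jb w) (jb w') ^ (a - α) * len (w - w') ^ α)) →
      ∀ ε : ℝ, 0 < ε → ∀ v w : Vec d, v ≠ w →
        |ainc (1 + a) b ε ψ v w| ≤ K * A * (len (v - w) ^ (1 + a) * RR v w ^ a) := by
  have hs := H.hs
  have hα : 0 < α := by linarith
  obtain ⟨A1, hA1, hk⟩ := ker_small H (τ := α / 2) (by linarith) (by linarith)
  refine ⟨4 * (A1 * 2 ^ (α / 2 - s)), by positivity, fun ψ A hA h ε hε v w hvw => ?_⟩
  obtain ⟨hi, hb⟩ := hk ε hε v w hvw 2 two_pos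
  have hS : (surf d).restrict {σ : Vec d | 1 - cosTh v w σ ≤ 2} = surf d := by
    refine Measure.restrict_eq_self_of_ae_mem ?_
    filter_upwards [surf_ae] with σ hσ
    have h4 := (abs_le.1 (abs_cosTh_le (v := v) (w := w) hσ)).1
    show 1 - cosTh v w σ ≤ 2
    linarith
  unfold IntegrableOn at hi
  rw [hS] at hi hb
  set M : ℝ := 2 * A * (RR v w ^ (a - α) * len (v - w) ^ α) with hM
  have hR0 := RR_pos v w
  have hl0 := len_nonneg (v - w)
  have hRa : 0 ≤ RR v w ^ (a - α) := Real.rpow_nonneg hR0.le _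
  have hla : 0 ≤ len (v - w) ^ α := Real.rpow_nonneg hl0 _
  have hlg : 0 ≤ len (v - w) ^ (1 + a) := Real.rpow_nonneg hl0 _
  have hM0 : 0 ≤ M := by positivity
  have hle : ‖ainc (1 + a) b ε ψ v w‖ ≤
      ∫ σ, M * (kerB (1 + a) b ε v w σ * (1 - cosTh v w σ) ^ (α / 2)) ∂(surf d) := by
    unfold ainc
    refine norm_integral_le_of_norm_le (hi.const_mul M) ?_
    filter_upwards [surf_ae] with σ hσ
    have hk0 := kerB_nonneg (γ := 1 + a) H.bd hε (v := v) (w := w) hσ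
    have hy := one_sub_cosTh_nonneg (v := v) (w := w) hσ
    have e1 := inc_bd hA hα h2 h hy (jb_post_le (v := v) (w := w) hσ) (jb_le_RR_left v w)
      (nsq_post_sub hvw hσ)
    have e2 := inc_bd hA hα h2 h hy (jb_post'_le (v := v) (w := w) hσ) (jb_le_RR_right v w)
      (nsq_post'_sub hvw hσ)
    rw [norm_mul, Real.norm_eq_abs, Real.norm_eq_abs, abs_of_nonneg hk0]
    have e3 : |ψ (post v w σ) + ψ (post' v w σ) - ψ v - ψ w| ≤
        M * (1 - cosTh v w σ) ^ (α / 2) := by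
      calc |ψ (post v w σ) + ψ (post' v w σ) - ψ v - ψ w|
          = |(ψ (post v w σ) - ψ v) + (ψ (post' v w σ) - ψ w)| := by congr 1; ring
        _ ≤ |ψ (post v w σ) - ψ v| + |ψ (post' v w σ) - ψ w| := abs_add_le _ _
        _ ≤ A * (RR v w ^ (a - α) * (len (v - w) ^ α * (1 - cosTh v w σ) ^ (α / 2))) +
            A * (RR v w ^ (a - α) * (len (v - w) ^ α * (1 - cosTh v w σ) ^ (α / 2))) :=
            add_le_add e1 e2
        _ = _ := by rw [hM]; ring
    calc kerB (1 + a) b ε v w σ * |ψ (post v w σ) + ψ (post' v w σ) - ψ v - ψ w|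
        ≤ kerB (1 + a) b ε v w σ * (M * (1 - cosTh v w σ) ^ (α / 2)) :=
          mul_le_mul_of_nonneg_left e3 hk0
      _ = _ := by ring
  rw [integral_const_mul, Real.norm_eq_abs] at hle
  have hlR : len (v - w) ^ α ≤ 2 * RR v w ^ α := by
    calc len (v - w) ^ α ≤ (2 * RR v w) ^ α := Real.rpow_le_rpow hl0 (len_le_RR v w) hα.le
      _ = 2 ^ α * RR v w ^ α := Real.mul_rpow (by norm_num) hR0.le
      _ ≤ 2 * RR v w ^ α := by
        refine mul_le_mul_of_nonneg_right ?_ (Real.rpow_nonneg hR0.le _)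
        calc (2 : ℝ) ^ α ≤ 2 ^ (1 : ℝ) :=
              Real.rpow_le_rpow_of_exponent_le (by norm_num) (by linarith)
          _ = 2 := Real.rpow_one _
  have hRR : RR v w ^ (a - α) * RR v w ^ α = RR v w ^ a := by
    rw [← Real.rpow_add hR0]; congr 1; ring
  have hM1 : M ≤ 4 * A * RR v w ^ a := by
    calc M = 2 * A * (RR v w ^ (a - α) * len (v - w) ^ α) := hM
      _ ≤ 2 * A * (RR v w ^ (a - α) * (2 * RR v w ^ α)) := by gcongr
      _ = 4 * A * (RR v w ^ (a - α) * RR v w ^ α) := by ring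
      _ = _ := by rw [hRR]
  have h2p : (0 : ℝ) ≤ 2 ^ (α / 2 - s) := by positivity
  calc |ainc (1 + a) b ε ψ v w|
      ≤ M * ∫ σ, kerB (1 + a) b ε v w σ * (1 - cosTh v w σ) ^ (α / 2) ∂(surf d) := hle
    _ ≤ M * (A1 * len (v - w) ^ (1 + a) * 2 ^ (α / 2 - s)) := mul_le_mul_of_nonneg_left hb hM0
    _ ≤ (4 * A * RR v w ^ a) * (A1 * len (v - w) ^ (1 + a) * 2 ^ (α / 2 - s)) :=
      mul_le_mul_of_nonneg_right hM1 (by positivity)
    _ = _ := by ring

theorem hw_bound (HL : HypL d (1 + a) s b C Ca cb) (h1 : 2 * s < α) (h2 : α ≤ a) (h3 : a ≤ 1) :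
    ∃ K : ℝ, 0 ≤ K ∧ ∀ (ψ : Vec d → ℝ) (A : ℝ), 0 ≤ A →
      (∀ w w' : Vec d, |ψ w - ψ w'| ≤ A * (max (jb w) (jb w') ^ (a - α) * len (w - w') ^ α)) →
      ∀ g : Vec d → ℝ, Nice g → (∀ v, 0 ≤ g v) →
        |∫ w, boltzQ (1 + a) b g w * ψ w| ≤ K * (A * XS a g univ) := by
  have hs := HL.H.hs
  have hα : 0 < α := by linarith
  obtain ⟨K, hK, hk⟩ := ainc_bd HL.H h1 h2 h3
  refine ⟨K / 2, by positivity, fun ψ A hA h g hg hg0 => ?_⟩
  have hc := psi_cont hα h
  have hPG := psi_PG hA hα h3 h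
  have hd := dens_integrable (a := a) (by linarith) h3 hg.rd hg.smooth.continuous
  have e0 : ∀ c : ℝ, (fun p : Vec d × Vec d => g p.1 * g p.2 *
      (c * (len (p.1 - p.2) ^ (1 + a) * RR p.1 p.2 ^ a))) = fun p => c * dens a g p := by
    intro c
    funext p
    unfold dens
    ring
  have hX : XS a g univ = ∫ p, dens a g p := by
    unfold XS
    rw [Measure.restrict_univ]
  have hLi : ∀ c : ℝ, Integrable (fun p : Vec d × Vec d => g p.1 * g p.2 *
      (c * (len (p.1 - p.2) ^ (1 + a) * RR p.1 p.2 ^ a))) := by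
    intro c
    rw [e0]
    exact hd.const_mul c
  have hLe : ∀ c : ℝ, ∫ p : Vec d × Vec d, g p.1 * g p.2 *
      (c * (len (p.1 - p.2) ^ (1 + a) * RR p.1 p.2 ^ a)) = c * XS a g univ := by
    intro c
    rw [e0, integral_const_mul, hX]
  have u1 := weak_le_of HL.H hg hg0 hPG hc.measurable
    (L := fun p => K * A * (len (p.1 - p.2) ^ (1 + a) * RR p.1 p.2 ^ a)) (hLi (K * A)) one_pos
    (fun ε hε _ v w hvw => (abs_le.1 (hk ψ A hA h ε hε v w hvw)).2)
  have u2 := weak_ge_of HL.H hg hg0 hPG hc.measurable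
    (L := fun p => (-(K * A)) * (len (p.1 - p.2) ^ (1 + a) * RR p.1 p.2 ^ a)) (hLi (-(K * A)))
    one_pos (fun ε hε _ v w hvw => by
      have := (abs_le.1 (hk ψ A hA h ε hε v w hvw)).1
      show (-(K * A)) * (len (v - w) ^ (1 + a) * RR v w ^ a) ≤ _
      linarith)
  rw [hLe (K * A)] at u1
  rw [hLe (-(K * A))] at u2
  rw [abs_le]
  constructor <;> linarith

end Pool.Agent.H48.PL
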