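import Pool.Agent.H48.PL.Defs
import Pool.Agent.H25.Kin.Trans

/-!
# Module CSolF: integrating along characteristics

Compare `TSol.pair_hasDerivAt`, `TSol.ftc`, `pairS_cont` in H15/AV/Tr.lean (there for `φ`-tested functions; copy with `φ = 1`, using the field `char` of `CSol`
instead of the chain rule, and `contS`, `perS` instead of `contOn_S`, `per_S`). `∫ h(t,x,v) dν = ∫ h(t, x+tv, v) dν` (`shear_nu`), differentiate under the
integral with the bound `C wt` (`hasDerivAt_integral_of_dominated_loc_of_deriv_le`), then the fundamental theorem of calculus on `[s,t]` (`intervalIntegral.integral_eq_sub_of_hasDerivAt`).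
-/

set_option autoImplicit false

open MeasureTheory Set Filter Topology Pool.Agent.H25.Kin

namespace Pool.Agent.H48.PL

variable {d : ℕ} {T : ℝ} {S h : ℝ → Vec d → Vec d → ℝ}

private lemma sh_cont (s : ℝ) : Continuous fun q : Vec d × Vec d => (q.2 + s • q.1, q.1) := by
  fun_prop

private lemma cont_h (H : CSol T S h) {s : ℝ} (hs : s ∈ Ico 0 T) :
    Continuous fun q : Vec d × Vec d => h s q.1 q.2 := by
  have h1 : Continuous fun q : Vec d × Vec d => (s, q.1, q.2) := by fun_prop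
  exact H.cont.comp_continuous h1 fun q => ⟨hs, mem_univ _⟩

private lemma cont_S (H : CSol T S h) {s : ℝ} (hs : s ∈ Ioo 0 T) :
    Continuous fun q : Vec d × Vec d => S s q.1 q.2 := by
  have h1 : Continuous fun q : Vec d × Vec d => (s, q.1, q.2) := by fun_prop
  exact H.contS.comp_continuous h1 fun q => ⟨hs, mem_univ _⟩

/-- the sheared form of the integral -/
private lemma int_shear {C : ℝ} {g : Vec d → Vec d → ℝ}
    (hg : Continuous fun q : Vec d × Vec d => g q.1 q.2) (hC : ∀ x v, |g x v| ≤ C * wt d v)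
    (hgp : ∀ x v i, g (x + Pi.single i 1) v = g x v) (t : ℝ) :
    ∫ q, g q.2 q.1 ∂(nu d) = ∫ q, g (q.2 + t • q.1) q.1 ∂(nu d) := by
  have c2 : Continuous fun q : Vec d × Vec d => g q.2 q.1 :=
    hg.comp (by fun_prop : Continuous fun q : Vec d × Vec d => (q.2, q.1))
  rw [← shear_nu (G := fun q => g q.2 q.1) c2 (C := C) (fun q => hC _ _)
    (fun v x i => hgp x v i) t]

private lemma int_hasDerivAt (H : CSol T S h) {t : ℝ} (ht : t ∈ Ioo 0 T) :
    HasDerivAt (fun r => ∫ q, h r q.2 q.1 ∂(nu d)) (∫ q, S t q.2 q.1 ∂(nu d)) t := by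
  obtain ⟨D, hD⟩ := H.dec ((t + T) / 2) (by linarith [ht.2])
  obtain ⟨C, hC⟩ := H.decS (t / 2) (by linarith [ht.1]) ((t + T) / 2) (by linarith [ht.2])
  have hnhds : Ioo (t / 2) ((t + T) / 2) ∈ 𝓝 t :=
    Ioo_mem_nhds (by linarith [ht.1]) (by linarith [ht.2])
  have hsub : ∀ r ∈ Ioo (t / 2) ((t + T) / 2), r ∈ Ioo 0 T := fun r hr =>
    ⟨by linarith [hr.1, ht.1], by linarith [hr.2, ht.2]⟩
  have htt : t ∈ Ioo (t / 2) ((t + T) / 2) := ⟨by linarith [ht.1], by linarith [ht.2]⟩
  have key := (hasDerivAt_integral_of_dominated_loc_of_deriv_le (μ := nu d)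
    (F := fun s (q : Vec d × Vec d) => h s (q.2 + s • q.1) q.1)
    (F' := fun s q => S s (q.2 + s • q.1) q.1) (bound := fun q => C * wt d q.1)
    hnhds ?_ ?_ ?_ ?_ ?_ ?_).2
  · have e1 : ∫ q, S t q.2 q.1 ∂(nu d) = ∫ q, S t (q.2 + t • q.1) q.1 ∂(nu d) :=
      int_shear (cont_S H ht) (fun x v => hC t ⟨htt.1.le, htt.2.le⟩ x v)
        (fun x v i => H.perS t ht x v i) t
    rw [e1]
    refine key.congr_of_eventuallyEq ?_
    filter_upwards [hnhds] with r hr
    have hr' := hsub r hr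
    exact int_shear (cont_h H ⟨hr'.1.le, hr'.2⟩)
      (fun x v => hD r ⟨hr'.1.le, hr.2.le⟩ x v) (fun x v i => H.per r ⟨hr'.1.le, hr'.2⟩ x v i) r
  · filter_upwards [hnhds] with r hr
    have hr' := hsub r hr
    exact ((cont_h H ⟨hr'.1.le, hr'.2⟩).comp (sh_cont r)).aestronglyMeasurable
  · refine integrable_nu (C := D)
      ((cont_h H ⟨ht.1.le, ht.2⟩).comp (sh_cont t)).aestronglyMeasurable fun q => ?_
    exact hD t ⟨ht.1.le, htt.2.le⟩ _ _
  · exact ((cont_S H ht).comp (sh_cont t)).aestronglyMeasurable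
  · refine Eventually.of_forall fun q r hr => ?_
    rw [Real.norm_eq_abs]
    exact hC r ⟨hr.1.le, hr.2.le⟩ _ _
  · exact ((integrable_wt (d := d)).comp_fst (muD d)).const_mul _
  · refine Eventually.of_forall fun q r hr => ?_
    exact H.char r (hsub r hr) q.2 q.1

theorem CSol.contI (H : CSol T S h) :
    ContinuousOn (fun t => ∫ q, S t q.2 q.1 ∂(nu d)) (Ioo 0 T) := by
  have main : ∀ T₀ > 0, ∀ T₁ < T,
      ContinuousOn (fun t => ∫ q, S t q.2 q.1 ∂(nu d)) (Icc T₀ T₁) := by
    intro T₀ h0 T₁ h1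
    obtain ⟨C, hC⟩ := H.decS T₀ h0 T₁ h1
    refine continuousOn_of_dominated (bound := fun q => C * wt d q.1) ?_ ?_ ?_ ?_
    · intro s hs
      have hs' : s ∈ Ioo 0 T := ⟨h0.trans_le hs.1, hs.2.trans_lt h1⟩
      have c2 : Continuous fun q : Vec d × Vec d => S s q.2 q.1 :=
        (cont_S H hs').comp (by fun_prop : Continuous fun q : Vec d × Vec d => (q.2, q.1))
      exact c2.aestronglyMeasurable
    · intro s hs
      refine Eventually.of_forall fun q => ?_
      rw [Real.norm_eq_abs]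
      exact hC s hs _ _
    · exact ((integrable_wt (d := d)).comp_fst (muD d)).const_mul _
    · refine Eventually.of_forall fun q => ?_
      have c2 : Continuous fun s : ℝ => (s, q.2, q.1) := by fun_prop
      exact H.contS.comp c2.continuousOn
        fun s hs => ⟨⟨h0.trans_le hs.1, hs.2.trans_lt h1⟩, mem_univ _⟩
  intro t ht
  have h1 : (t + T) / 2 < T := by linarith [ht.2]
  have h2 : t < (t + T) / 2 := by linarith [ht.2]
  have h3 : t / 2 < t := by linarith [ht.1]
  have h4 : 0 < t / 2 := by linarith [ht.1]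
  exact ((main _ h4 _ h1).continuousAt (Icc_mem_nhds h3 h2)).continuousWithinAt

theorem CSol.ftc (H : CSol T S h) {s t : ℝ} (hs : 0 < s) (hst : s ≤ t) (ht : t < T) :
    (∫ q, h t q.2 q.1 ∂(nu d)) - ∫ q, h s q.2 q.1 ∂(nu d) =
      ∫ τ in s..t, (∫ q, S τ q.2 q.1 ∂(nu d)) := by
  have hsub : uIcc s t ⊆ Ioo 0 T := by
    rw [uIcc_of_le hst]
    exact fun r hr => ⟨hs.trans_le hr.1, hr.2.trans_lt ht⟩
  refine (intervalIntegral.integral_eq_sub_of_hasDerivAt
    (f := fun r => ∫ q, h r q.2 q.1 ∂(nu d)) (fun r hr => ?_) ?_).symm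
  · exact int_hasDerivAt H (hsub hr)
  · exact (H.contI.mono hsub).intervalIntegrable

end Pool.Agent.H48.PL
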