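import Pool.Agent.H48.PL.PotD
import Pool.Agent.H48.PL.CSolF

/-!
# Module CSolP: two functions with a derivative along characteristics

`csol_mom`: `h = f p(v)`, source `Q p(v)` (`hf.hasDerivAt_char`; `hf.f_le`, `hf.Q_le` with `N` large absorb the polynomial growth of `p`, `wt_bound`).
`csol_pair`: `h = f · pot`, source `Q · pot + f · dpot`: product rule, `pot_char`, `pot_cont`, `dpot_cont`, `pot_per`, `dpot_per`, `pot_bd`, `dpot_bd`. Continuity and periodicity of `Q` on `(0,T)`: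
`Q = fderiv (unc f) (1,v,0)` (`hf.eqn`, `hf.cont_fderiv`; periodicity: `csol_perQ`).
-/

set_option autoImplicit false

open MeasureTheory Set Filter Topology Pool.Agent.H25.Kin

namespace Pool.Agent.H48.PL

variable {d : ℕ} {T l : ℝ} {Q f : ℝ → Vec d → Vec d → ℝ} {Φ : Vec d → Vec d → ℝ}

lemma csol_perQ (hf : IsClassicalSol T Q f) {t : ℝ} (ht : t ∈ Ioo 0 T) (x v : Vec d) (i : Fin d) :
    Q t (x + Pi.single i 1) v = Q t x v := by
  have hd : ∀ y, Q t y v = fderiv ℝ (unc f) (t, y, v) (1, v, 0) := fun y =>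
    (hf.eqn t ht y v).symm
  rw [hd, hd]
  congr 1
  have e4 : (fun z : ℝ × Vec d × Vec d => unc f (z + (0, Pi.single i 1, 0))) =ᶠ[𝓝 (t, x, v)]
      unc f := by
    have hop : {z : ℝ × Vec d × Vec d | z.1 ∈ Ioo 0 T} ∈ 𝓝 (t, x, v) :=
      (isOpen_Ioo.preimage continuous_fst).mem_nhds ht
    filter_upwards [hop] with z hz
    have := hf.periodic z.1 ⟨hz.1.le, hz.2⟩ z.2.1 z.2.2 i
    simpa [unc] using this
  have e5 := e4.fderiv_eq (𝕜 := ℝ)
  rw [fderiv_comp_add_right] at e5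
  have e6 : (t, x, v) + ((0 : ℝ), (Pi.single i 1 : Vec d), (0 : Vec d)) =
      (t, x + Pi.single i 1, v) := by simp
  rw [e6] at e5
  exact e5

private lemma contQ (hf : IsClassicalSol T Q f) : ContinuousOn (unc Q) (Ioo 0 T ×ˢ univ) := by
  have h1 : Continuous fun z : ℝ × Vec d × Vec d => ((1 : ℝ), z.2.2, (0 : Vec d)) := by fun_prop
  have h2 : ContinuousOn (fun z : ℝ × Vec d × Vec d => fderiv ℝ (unc f) z (1, z.2.2, 0))
      (Ioo 0 T ×ˢ univ) := hf.cont_fderiv.clm_apply h1.continuousOn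
  exact h2.congr fun z hz => (hf.eqn z.1 hz.1 z.2.1 z.2.2).symm

private lemma sub_T : (Ioo 0 T ×ˢ (univ : Set (Vec d × Vec d))) ⊆ Ico 0 T ×ˢ univ :=
  prod_mono Ioo_subset_Ico_self le_rfl

/-- the growth of one factor is absorbed by the decay of the other -/
private lemma absorb {A B C K : ℝ} {N : ℕ} {v : Vec d} (hC0 : 0 ≤ C)
    (hA : |A| ≤ C * ((1 + ‖v‖) ^ (N + (d + 1)))⁻¹) (hB : |B| ≤ K * (1 + ‖v‖) ^ N) :
    |A * B| ≤ |K| * C * wt d v := by
  have hv := w_pos v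
  have hB' : |B| ≤ |K| * (1 + ‖v‖) ^ N := hB.trans (by gcongr; exact le_abs_self K)
  rw [abs_mul]
  calc |A| * |B| ≤ (C * ((1 + ‖v‖) ^ (N + (d + 1)))⁻¹) * (|K| * (1 + ‖v‖) ^ N) := by gcongr
    _ = (|K| * (1 + ‖v‖) ^ N) * (C * ((1 + ‖v‖) ^ (N + (d + 1)))⁻¹) := mul_comm _ _
    _ = |K| * C * wt d v := wt_bound (abs_nonneg K) hC0 v N

theorem csol_mom (hf : IsClassicalSol T Q f) {p : Vec d → ℝ} (hp : PG p) (hpc : Continuous p) :
    CSol T (fun t x v => Q t x v * p v) (fun t x v => f t x v * p v) := by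
  obtain ⟨m, P, hP0, hP⟩ := hp.pos
  have hc : Continuous fun z : ℝ × Vec d × Vec d => p z.2.2 := hpc.comp (by fun_prop)
  refine ⟨?_, ?_, ?_, ?_, ?_, ?_, ?_⟩
  · intro t ht x v i
    rw [hf.periodic t ht]
  · intro t ht x v i
    rw [csol_perQ hf ht]
  · exact hf.cont.mul hc.continuousOn
  · exact (contQ hf).mul hc.continuousOn
  · intro T₁ h1
    obtain ⟨C, hC0, hC⟩ := hf.f_le h1 (m + (d + 1))
    exact ⟨_, fun t ht x v => absorb hC0 (hC t ht x v) (hP v)⟩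
  · intro T₀ h0 T₁ h1
    obtain ⟨C, hC0, hC⟩ := hf.Q_le h0 h1 (m + (d + 1))
    exact ⟨_, fun t ht x v => absorb hC0 (hC t ht x v) (hP v)⟩
  · intro t ht x v
    exact (hf.hasDerivAt_char ht x v).mul_const (p v)

theorem csol_pair (hf : IsClassicalSol T Q f) {e : Fin d} (hpl : Planar e T f) (hΦ : PGW Φ)
    (hl : 0 < l) :
    CSol T (fun t x v => Q t x v * pot e l Φ (f t) x v + f t x v * dpot e l Φ (f t) (Q t) x v)
      (fun t x v => f t x v * pot e l Φ (f t) x v) := by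
  obtain ⟨N, hN⟩ := pot_bd hf hΦ e hl
  obtain ⟨M, hM⟩ := dpot_bd hf hΦ e hl
  refine ⟨?_, ?_, ?_, ?_, ?_, ?_, ?_⟩
  · intro t ht x v i
    rw [hf.periodic t ht, pot_per (fun x v i => hf.periodic t ht x v i)]
  · intro t ht x v i
    have ht' : t ∈ Ico 0 T := ⟨ht.1.le, ht.2⟩
    rw [hf.periodic t ht', csol_perQ hf ht, pot_per (fun x v i => hf.periodic t ht' x v i),
      dpot_per (fun x v i => hf.periodic t ht' x v i) (fun x v i => csol_perQ hf ht x v i)]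
  · exact hf.cont.mul (pot_cont hf hΦ e hl)
  · exact ((contQ hf).mul ((pot_cont hf hΦ e hl).mono sub_T)).add
      ((hf.cont.mono sub_T).mul (dpot_cont hf hΦ e hl))
  · intro T₁ h1
    obtain ⟨K, hK⟩ := hN T₁ h1
    obtain ⟨C, hC0, hC⟩ := hf.f_le h1 (N + (d + 1))
    exact ⟨_, fun t ht x v => absorb hC0 (hC t ht x v) (hK t ht x v)⟩
  · intro T₀ h0 T₁ h1
    obtain ⟨K, hK⟩ := hN T₁ h1
    obtain ⟨L, hL⟩ := hM T₀ h0 T₁ h1
    obtain ⟨C, hC0, hC⟩ := hf.Q_le h0 h1 (N + (d + 1))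
    obtain ⟨D, hD0, hD⟩ := hf.f_le h1 (M + (d + 1))
    refine ⟨|K| * C + |L| * D, fun t ht x v => ?_⟩
    have ht' : t ∈ Icc 0 T₁ := ⟨h0.le.trans ht.1, ht.2⟩
    rw [add_mul]
    exact (abs_add_le _ _).trans (add_le_add (absorb hC0 (hC t ht x v) (hK t ht' x v))
      (absorb hD0 (hD t ht' x v) (hL t ht x v)))
  · intro t ht x v
    exact (hf.hasDerivAt_char ht x v).mul (pot_char hf hpl hΦ hl ht x v)

end Pool.Agent.H48.PL
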