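import Pool.Agent.H48.PL.Defs
import Pool.Agent.H48.PL.JB
import Pool.Agent.H25.Kin.Per

/-!
# Module PlI: planar periodic functions on the torus

`A : Vec d → ℝ` continuous, `Per A`, depends on `x e` only; `a₁(r) = A(Pi.single e r)` is continuous with period 1, `A x = a₁ (x e)`.
* `muD_univ`: `muD` is a probability measure (see `ent_muD` in H15/AV/Ent.lean).
* `pl_integral`: `∫ x, A x ∂(muD d) = ∫ r in Ioo 0 1, a₁ r`: `muD d = Measure.pi (fun _ => volume.restrict (Icc 0 1))` (`Measure.restrict_pi_pi`, `Icc_prod..`/`Set.pi_univ_Icc`) and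
  `MeasureTheory.measurePreserving_eval` (probability factors).
* `loc_le`: `A ≥ 0`, `l ≤ 1`: `∫ z in (-l/2,l/2), a₁(x e - z) ≤ ∫` over an interval of length 1 `= ∫_0^1 a₁` (`Function.Periodic.intervalIntegral_add_eq`).
* `pl_trans`: translation invariance on the torus: `Per.integral`.
* `pl_swap`: Fubini for the finite measure `(-l/2,l/2)` and `muD` and `pl_trans`: `∫x ∫z k(z) A(x-ze) B(x) = ∫x A(x) ∫z k(z) B(x+ze)`, bound `|k| ≤ 1/2`, and `z → -z`.
-/

set_option autoImplicit false

open MeasureTheory Set Filter Topology Pool.Agent.H25.Kin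

namespace Pool.Agent.H48.PL

variable {d : ℕ}

/-- continuous periodic functions of `x e` -/
structure PlF (e : Fin d) (A : Vec d → ℝ) : Prop where
  cont : Continuous A
  per : ∀ x i, A (x + Pi.single i 1) = A x
  pl : ∀ x y, x e = y e → A x = A y

lemma muD_univ : (muD d) univ = 1 := by
  unfold muD
  rw [Measure.restrict_apply_univ, Real.volume_Icc_pi]
  simp

private lemma pl_line {e : Fin d} {A : Vec d → ℝ} (hA : PlF e A) (x : Vec d) :
    A x = A (Pi.single e (x e)) := hA.pl _ _ (by simp)

private lemma line_per {e : Fin d} {A : Vec d → ℝ} (hA : PlF e A) :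
    Function.Periodic (fun r : ℝ => A (Pi.single e r)) 1 := by
  intro r
  have h := hA.per (Pi.single e r) e
  rw [← Pi.single_add] at h
  exact h

private lemma single_cont (e : Fin d) : Continuous fun r : ℝ => (Pi.single e r : Vec d) :=
  continuous_single (A := fun _ : Fin d => ℝ) e

private lemma line_cont {e : Fin d} {A : Vec d → ℝ} (hA : PlF e A) :
    Continuous (fun r : ℝ => A (Pi.single e r)) := hA.cont.comp (single_cont e)

lemma pl_bdd {e : Fin d} {A : Vec d → ℝ} (hA : PlF e A) : ∃ C, ∀ x, |A x| ≤ C := by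
  obtain ⟨C, hC⟩ := (isCompact_Icc (a := (0 : ℝ)) (b := 1)).exists_bound_of_continuousOn
    (line_cont hA).continuousOn
  refine ⟨C, fun x => ?_⟩
  obtain ⟨y, hy, hxy⟩ := (line_per hA).exists_mem_Ico₀ one_pos (x e)
  rw [pl_line hA x]
  have hxy' : A (Pi.single e (x e)) = A (Pi.single e y) := hxy
  rw [hxy']
  exact hC y ⟨hy.1, hy.2.le⟩

lemma pl_int {e : Fin d} {A : Vec d → ℝ} (hA : PlF e A) : Integrable A (muD d) := by
  obtain ⟨C, hC⟩ := pl_bdd hA
  exact Integrable.of_bound hA.cont.aestronglyMeasurable C (Eventually.of_forall hC)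

private lemma sub_cont (e : Fin d) (x : Vec d) : Continuous fun z : ℝ => x - Pi.single e z :=
  continuous_const.sub (single_cont e)

private lemma loc_int {e : Fin d} {A : Vec d → ℝ} (hA : PlF e A) (x : Vec d) (a b : ℝ) :
    IntegrableOn (fun z : ℝ => A (x - Pi.single e z)) (Ioo a b) := by
  obtain ⟨C, hC⟩ := pl_bdd hA
  exact Integrable.of_bound (hA.cont.comp (sub_cont e x)).aestronglyMeasurable C
    (Eventually.of_forall fun z => hC _)

lemma pl_loc_cont {e : Fin d} {A : Vec d → ℝ} (hA : PlF e A) (l : ℝ) : PlF e (loc e l A) := by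
  obtain ⟨C, hC⟩ := pl_bdd hA
  refine ⟨?_, ?_, ?_⟩
  · unfold loc
    refine continuous_of_dominated (bound := fun _ => C) ?_ ?_ (integrable_const C) ?_
    · intro x
      exact (hA.cont.comp (sub_cont e x)).aestronglyMeasurable
    · intro x
      exact Eventually.of_forall fun z => hC _
    · refine Eventually.of_forall fun z => ?_
      exact hA.cont.comp (continuous_id.sub continuous_const)
  · intro x i
    unfold loc
    congr 1
    funext z
    have h5 : x + Pi.single i 1 - Pi.single e z = (x - Pi.single e z) + Pi.single i 1 := by abel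
    rw [h5]
    exact hA.per _ i
  · intro x y hxy
    unfold loc
    congr 1
    funext z
    exact hA.pl _ _ (by simp [hxy])

lemma loc_nonneg (e : Fin d) (l : ℝ) {A : Vec d → ℝ} (hA : ∀ x, 0 ≤ A x) (x : Vec d) :
    0 ≤ loc e l A x := integral_nonneg fun z => hA _

lemma loc_mono {e : Fin d} {A B : Vec d → ℝ} (hA : PlF e A) (hB : PlF e B) (h : ∀ x, A x ≤ B x)
    (l : ℝ) (x : Vec d) : loc e l A x ≤ loc e l B x :=
  integral_mono (loc_int hA x _ _) (loc_int hB x _ _) fun z => h _

private lemma pl_integral {e : Fin d} {A : Vec d → ℝ} (hA : PlF e A) :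
    ∫ y, A y ∂(muD d) = ∫ r in (0 : ℝ)..1, A (Pi.single e r) := by
  have hpi : muD d = Measure.pi (fun _ : Fin d => (volume : Measure ℝ).restrict (Icc 0 1)) := by
    unfold muD
    rw [← Measure.restrict_pi_pi (fun _ : Fin d => (volume : Measure ℝ)) (fun _ => Icc (0 : ℝ) 1),
      Set.pi_univ_Icc]
    rfl
  have hpr : IsProbabilityMeasure ((volume : Measure ℝ).restrict (Icc (0 : ℝ) 1)) := by
    refine ⟨?_⟩
    rw [Measure.restrict_apply_univ]
    simp
  have : ∀ i : Fin d, IsProbabilityMeasure ((fun _ : Fin d => (volume : Measure ℝ).restrict (Icc (0 : ℝ) 1)) i) :=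
    fun _ => hpr
  have hmp := measurePreserving_eval (fun _ : Fin d => (volume : Measure ℝ).restrict (Icc (0 : ℝ) 1)) e
  have h1 : ∫ y, A y ∂(muD d) = ∫ y, (fun r : ℝ => A (Pi.single e r)) (Function.eval e y) ∂(muD d) := by
    congr 1
    funext y
    exact pl_line hA y
  rw [h1, hpi, ← integral_map hmp.measurable.aemeasurable (line_cont hA).aestronglyMeasurable, hmp.map_eq,
    intervalIntegral.integral_of_le zero_le_one, integral_Icc_eq_integral_Ioc]

lemma loc_le {e : Fin d} {A : Vec d → ℝ} (hA : PlF e A) (h0 : ∀ x, 0 ≤ A x) {l : ℝ} (hl : 0 < l)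
    (hl1 : l ≤ 1) (x : Vec d) : loc e l A x ≤ ∫ y, A y ∂(muD d) := by
  rw [pl_integral hA]
  have h1 : ∫ r in (0 : ℝ)..1, A (Pi.single e r) =
      ∫ z in (-(1 / 2) : ℝ)..(1 / 2), A (Pi.single e (x e - z)) := by
    rw [intervalIntegral.integral_comp_sub_left (fun r => A (Pi.single e r)) (x e)]
    have h2 := (line_per hA).intervalIntegral_add_eq 0 (x e - 1 / 2)
    rw [zero_add] at h2
    rw [h2]
    congr 1
    ring
  rw [h1, intervalIntegral.integral_of_le (by norm_num)]
  unfold loc
  have h3 : ∀ z : ℝ, A (x - Pi.single e z) = A (Pi.single e (x e - z)) := by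
    intro z
    refine hA.pl _ _ ?_
    simp
  simp only [h3]
  refine setIntegral_mono_set ?_ (Eventually.of_forall fun z => h0 _) (Eventually.of_forall ?_)
  · have h4 : Continuous fun z : ℝ => A (Pi.single e (x e - z)) :=
      (line_cont hA).comp (continuous_const.sub continuous_id)
    exact (h4.integrableOn_Icc (a := -(1 / 2)) (b := 1 / 2)).mono_set Ioc_subset_Icc_self
  · intro z hz
    exact ⟨lt_of_le_of_lt (by linarith) hz.1, hz.2.le.trans (by linarith)⟩

private lemma neg_Ioo (g : ℝ → ℝ) (c : ℝ) :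
    ∫ z in Ioo (-c) c, g z = ∫ z in Ioo (-c) c, g (-z) := by
  rw [← integral_indicator measurableSet_Ioo, ← integral_indicator measurableSet_Ioo,
    ← integral_neg_eq_self]
  congr 1
  funext z
  have h : -z ∈ Ioo (-c) c ↔ z ∈ Ioo (-c) c := by
    simp only [mem_Ioo]
    constructor <;> rintro ⟨h1, h2⟩ <;> constructor <;> linarith
  by_cases hz : z ∈ Ioo (-c) c
  · rw [indicator_of_mem hz, indicator_of_mem (h.2 hz)]
  · rw [indicator_of_notMem hz, indicator_of_notMem (fun h' => hz (h.1 h'))]

/-- `|∫_x ∫_z k(z) A(x-ze) B(x)| ≤ (1/2) ∫_x A(x) loc B(x)` and the version with `1` instead of `k` -/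
lemma pl_swap {e : Fin d} {A B : Vec d → ℝ} (hA : PlF e A) (hB : PlF e B) {l : ℝ} :
    ∫ x, B x * loc e l A x ∂(muD d) = ∫ x, A x * loc e l B x ∂(muD d) := by
  obtain ⟨CA, hCA⟩ := pl_bdd hA
  obtain ⟨CB, hCB⟩ := pl_bdd hB
  have hCA0 : 0 ≤ CA := (abs_nonneg _).trans (hCA 0)
  have key : ∀ {A B : Vec d → ℝ} (hA : PlF e A) (hB : PlF e B) {CA CB : ℝ} (hCA : ∀ x, |A x| ≤ CA)
      (hCB : ∀ x, |B x| ≤ CB), ∫ x, B x * loc e l A x ∂(muD d) =
        ∫ z in Ioo (-(l / 2)) (l / 2), ∫ x, B x * A (x - Pi.single e z) ∂(muD d) := by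
    intro A B hA hB CA CB hCA hCB
    have hCB0 : 0 ≤ CB := (abs_nonneg _).trans (hCB 0)
    unfold loc
    simp only [← integral_const_mul]
    refine integral_integral_swap ?_
    have hc : Continuous (Function.uncurry fun (x : Vec d) (z : ℝ) => B x * A (x - Pi.single e z)) := by
      refine (hB.cont.comp continuous_fst).mul (hA.cont.comp ?_)
      exact continuous_fst.sub ((single_cont e).comp continuous_snd)
    refine Integrable.of_bound hc.aestronglyMeasurable (CB * CA) (Eventually.of_forall ?_)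
    rintro ⟨x, z⟩
    simp only [Function.uncurry]
    rw [norm_mul]
    exact mul_le_mul (hCB x) (hCA _) (norm_nonneg _) hCB0
  rw [key hA hB hCA hCB, key hB hA hCB hCA, neg_Ioo]
  congr 1
  funext z
  have hper : Per fun x => A x * B (x - Pi.single e z) := by
    intro x i
    have h5 : x + Pi.single i 1 - Pi.single e z = (x - Pi.single e z) + Pi.single i 1 := by abel
    have h6 : B (x + Pi.single i 1 - Pi.single e z) = B (x - Pi.single e z) := by
      rw [h5]
      exact hB.per _ i
    show A (x + Pi.single i 1) * B (x + Pi.single i 1 - Pi.single e z) = A x * B (x - Pi.single e z)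
    rw [hA.per, h6]
  have h := hper.integral (Pi.single e z)
  unfold muD
  rw [← h]
  congr 1
  funext x
  have e1 : x - Pi.single e (-z) = x + Pi.single e z := by
    rw [Pi.single_neg, sub_neg_eq_add]
  rw [e1, add_sub_cancel_right, mul_comm]

/-- velocity averages of planar slices are planar functions -/
lemma pl_avg {e : Fin d} {F G : Vec d → Vec d → ℝ} (h : FS e F G) {r : ℝ} :
    PlF e fun x => ∫ v, F x v * jb v ^ r := by
  refine ⟨?_, ?_, ?_⟩
  · obtain ⟨N, hN⟩ := exists_nat_ge r
    obtain ⟨C, hC⟩ := h.decF (N + (d + 1))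
    have hjc : Continuous fun v : Vec d => jb v ^ r :=
      jb_cont.rpow_const fun v => Or.inl (jb_pos v).ne'
    refine continuous_of_dominated (bound := fun v => (((d : ℝ) + 1) ^ N * C) * wt d v) ?_ ?_
      (integrable_wt.const_mul _) ?_
    · intro x
      exact ((h.contF.comp (continuous_const.prodMk continuous_id)).mul hjc).aestronglyMeasurable
    · intro x
      refine Eventually.of_forall fun v => ?_
      have hw : 0 < 1 + ‖v‖ := by positivity
      have h1 : jb v ^ r ≤ (((d : ℝ) + 1) * (1 + ‖v‖)) ^ N := by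
        calc jb v ^ r ≤ jb v ^ (N : ℝ) := Real.rpow_le_rpow_of_exponent_le (one_le_jb v) hN
          _ = jb v ^ N := Real.rpow_natCast _ _
          _ ≤ _ := pow_le_pow_left₀ (jb_pos v).le (jb_le_w v) N
      have h2 := hC x v
      rw [norm_mul, Real.norm_eq_abs, Real.norm_of_nonneg (Real.rpow_nonneg (jb_pos v).le r)]
      unfold wt
      rw [← div_eq_mul_inv, le_div_iff₀ (by positivity)]
      calc |F x v| * jb v ^ r * (1 + ‖v‖) ^ (d + 1)
          ≤ |F x v| * (((d : ℝ) + 1) * (1 + ‖v‖)) ^ N * (1 + ‖v‖) ^ (d + 1) := by gcongr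
        _ = ((d : ℝ) + 1) ^ N * ((1 + ‖v‖) ^ (N + (d + 1)) * |F x v|) := by
          rw [mul_pow, pow_add]; ring
        _ ≤ ((d : ℝ) + 1) ^ N * C := by gcongr
    · refine Eventually.of_forall fun v => ?_
      exact (h.contF.comp (continuous_id.prodMk continuous_const)).mul continuous_const
  · intro x i
    congr 1
    funext v
    rw [h.perF]
  · intro x y hxy
    congr 1
    funext v
    rw [h.plF x y v hxy]

end Pool.Agent.H48.PL
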