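import Pool.Agent.H48.PL.XB
import Pool.Agent.H25.Kin.Trans

/-!
# Module XC: continuity of `XS (f t x) A` in `(t,x)`

Dominated convergence (`continuousOn_of_dominated` or `continuousWithinAt_of_dominated`): for `T₁ < T` and `t ∈ [0,T₁]`,
`hf.decay` (`hf.f_le`) with `N = d + 5` gives `|f t x v| ≤ C ((1+‖v‖)^(d+5))⁻¹`, hence `|dens a (f t x) p| ≤ C' wt(p.1) wt(p.2)` as in
XB (`|V| ≤ 2RR`, `RR ≤ 2 jb jb`, `jb ≤ (d+1)(1+‖·‖)`, exponent `1+2a ≤ 3`). Pointwise continuity in `(t,x)`: `hf.isCont`.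
A point of `[0,T)` has a relative neighbourhood `[0,T₁]` with `T₁ < T`.
-/

set_option autoImplicit false

open MeasureTheory Set Filter Topology Pool.Agent.H25.Kin

namespace Pool.Agent.H48.PL

variable {d : ℕ} {a T : ℝ} {Q f : ℝ → Vec d → Vec d → ℝ}

private lemma xc_kin (ha : 0 ≤ a) (ha1 : a ≤ 1) (v w : Vec d) :
    |len (v - w) ^ (1 + a) * RR v w ^ a| ≤
      32 * ((d : ℝ) + 1) ^ 6 * ((1 + ‖v‖) ^ 3 * (1 + ‖w‖) ^ 3) := by
  have hR := RR_pos v w
  have hR1 := one_le_RR v w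
  have hl := len_nonneg (v - w)
  have h0 : 0 ≤ len (v - w) ^ (1 + a) * RR v w ^ a :=
    mul_nonneg (Real.rpow_nonneg hl _) (Real.rpow_nonneg hR.le _)
  rw [abs_of_nonneg h0]
  have h1 : len (v - w) ^ (1 + a) ≤ (2 * RR v w) ^ (2 : ℕ) := by
    calc len (v - w) ^ (1 + a) ≤ (2 * RR v w) ^ (1 + a) :=
          Real.rpow_le_rpow hl (len_le_RR v w) (by linarith)
      _ ≤ (2 * RR v w) ^ ((2 : ℕ) : ℝ) :=
          Real.rpow_le_rpow_of_exponent_le (by linarith) (by push_cast; linarith)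
      _ = (2 * RR v w) ^ (2 : ℕ) := Real.rpow_natCast _ _
  have h2 : RR v w ^ a ≤ RR v w := by
    calc RR v w ^ a ≤ RR v w ^ (1 : ℝ) := Real.rpow_le_rpow_of_exponent_le hR1 ha1
      _ = RR v w := Real.rpow_one _
  have h3 : RR v w ≤ 2 * (jb v * jb w) := by
    have h4 := RR_le v w
    have h5 := one_le_jb v
    have h6 := one_le_jb w
    nlinarith
  have h4 : jb v * jb w ≤ (((d : ℝ) + 1) * (1 + ‖v‖)) * (((d : ℝ) + 1) * (1 + ‖w‖)) :=
    mul_le_mul (jb_le_w v) (jb_le_w w) (jb_pos w).le (by positivity)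
  calc len (v - w) ^ (1 + a) * RR v w ^ a ≤ (2 * RR v w) ^ (2 : ℕ) * RR v w :=
        mul_le_mul h1 h2 (Real.rpow_nonneg hR.le _) (by positivity)
    _ = 4 * RR v w ^ 3 := by ring
    _ ≤ 4 * (2 * ((((d : ℝ) + 1) * (1 + ‖v‖)) * (((d : ℝ) + 1) * (1 + ‖w‖)))) ^ 3 := by
        gcongr
        linarith
    _ = 32 * ((d : ℝ) + 1) ^ 6 * ((1 + ‖v‖) ^ 3 * (1 + ‖w‖) ^ 3) := by ring

private lemma xc_dens {C : ℝ} (ha : 0 ≤ a) (ha1 : a ≤ 1) (hC : 0 ≤ C) {g : Vec d → ℝ}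
    (hg : ∀ v, |g v| ≤ C * ((1 + ‖v‖) ^ (3 + (d + 1)))⁻¹) (p : Vec d × Vec d) :
    |dens a g p| ≤ 32 * ((d : ℝ) + 1) ^ 6 * (C * C) * (wt d p.1 * wt d p.2) := by
  unfold dens
  rw [abs_mul, abs_mul]
  have h1 := hg p.1
  have h2 := hg p.2
  have h3 := xc_kin ha ha1 p.1 p.2
  have w1 := w_pos p.1
  have w2 := w_pos p.2
  have e1 := wt_bound (d := d) (a := 1) (b := C) zero_le_one hC p.1 3
  have e2 := wt_bound (d := d) (a := 1) (b := C) zero_le_one hC p.2 3
  calc |g p.1| * |g p.2| * |len (p.1 - p.2) ^ (1 + a) * RR p.1 p.2 ^ a|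
      ≤ (C * ((1 + ‖p.1‖) ^ (3 + (d + 1)))⁻¹) * (C * ((1 + ‖p.2‖) ^ (3 + (d + 1)))⁻¹) *
        (32 * ((d : ℝ) + 1) ^ 6 * ((1 + ‖p.1‖) ^ 3 * (1 + ‖p.2‖) ^ 3)) := by
        refine mul_le_mul (mul_le_mul h1 h2 (abs_nonneg _) (by positivity)) h3 (abs_nonneg _)
          (by positivity)
    _ = 32 * ((d : ℝ) + 1) ^ 6 * (((1 * (1 + ‖p.1‖) ^ 3) * (C * ((1 + ‖p.1‖) ^ (3 + (d + 1)))⁻¹)) *
        ((1 * (1 + ‖p.2‖) ^ 3) * (C * ((1 + ‖p.2‖) ^ (3 + (d + 1)))⁻¹))) := by ring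
    _ = 32 * ((d : ℝ) + 1) ^ 6 * (C * C) * (wt d p.1 * wt d p.2) := by rw [e1, e2]; ring

private lemma xc_dens_cont (ha : 0 ≤ a) {g : Vec d → ℝ} (hg : Continuous g) :
    Continuous (dens a g) := by
  unfold dens
  have h1 : Continuous fun p : Vec d × Vec d => len (p.1 - p.2) ^ (1 + a) :=
    (continuous_len.comp (continuous_fst.sub continuous_snd)).rpow_const
      fun _ => Or.inr (by linarith)
  have h2 : Continuous fun p : Vec d × Vec d => RR p.1 p.2 ^ a :=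
    RR_cont.rpow_const fun _ => Or.inr ha
  exact ((hg.comp continuous_fst).mul (hg.comp continuous_snd)).mul (h1.mul h2)

private lemma xc_int : Integrable fun p : Vec d × Vec d => wt d p.1 * wt d p.2 :=
  (integrable_wt (d := d)).mul_prod (integrable_wt (d := d))

private lemma xc_slice (hf : IsClassicalSol T Q f) {t : ℝ} (ht : t ∈ Ico 0 T) (x : Vec d) :
    Continuous (f t x) :=
  (hf.cont_slice ht).comp (by fun_prop : Continuous fun v : Vec d => (x, v))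

private lemma xc_bd (ha : 0 ≤ a) (ha1 : a ≤ 1) (hf : IsClassicalSol T Q f) {T₁ : ℝ} (h1 : T₁ < T) :
    ∃ K, 0 ≤ K ∧ ∀ t ∈ Icc 0 T₁, ∀ x, ∀ p : Vec d × Vec d,
      |dens a (f t x) p| ≤ K * (wt d p.1 * wt d p.2) := by
  obtain ⟨C, hC0, hC⟩ := hf.f_le h1 (3 + (d + 1))
  exact ⟨32 * ((d : ℝ) + 1) ^ 6 * (C * C), by positivity,
    fun t ht x p => xc_dens ha ha1 hC0 (hC t ht x) p⟩

/-- a uniform bound on `[0,T₁]` -/
lemma XS_bdd (ha : 0 ≤ a) (ha1 : a ≤ 1) (hf : IsClassicalSol T Q f) {T₁ : ℝ} (h1 : T₁ < T) :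
    ∃ C, 0 ≤ C ∧ ∀ t ∈ Icc 0 T₁, ∀ x, ∀ A : Set (Vec d × Vec d), XS a (f t x) A ≤ C := by
  obtain ⟨K, hK0, hK⟩ := xc_bd ha ha1 hf h1
  refine ⟨∫ p : Vec d × Vec d, K * (wt d p.1 * wt d p.2), ?_, fun t ht x A => ?_⟩
  · exact integral_nonneg fun p =>
      mul_nonneg hK0 (mul_nonneg (wt_nonneg _) (wt_nonneg _))
  · have hi : Integrable fun p : Vec d × Vec d => K * (wt d p.1 * wt d p.2) := xc_int.const_mul K
    have h0 : ∀ p : Vec d × Vec d, 0 ≤ K * (wt d p.1 * wt d p.2) := fun p =>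
      mul_nonneg hK0 (mul_nonneg (wt_nonneg _) (wt_nonneg _))
    have hd : Integrable (dens a (f t x)) :=
      hi.mono' (xc_dens_cont ha (xc_slice hf ⟨ht.1, ht.2.trans_lt h1⟩ x)).aestronglyMeasurable
        (Eventually.of_forall fun p => hK t ht x p)
    have hdA : Integrable (dens a (f t x)) (volume.restrict A) := hd.restrict
    have hiA : Integrable (fun p : Vec d × Vec d => K * (wt d p.1 * wt d p.2))
      (volume.restrict A) := hi.restrict
    have e1 : XS a (f t x) A ≤ ∫ p in A, K * (wt d p.1 * wt d p.2) := by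
      unfold XS
      refine integral_mono hdA hiA ?_
      intro p
      exact (le_abs_self _).trans (hK t ht x p)
    have e2 : ∫ p in A, K * (wt d p.1 * wt d p.2) ≤ ∫ p : Vec d × Vec d, K * (wt d p.1 * wt d p.2) :=
      setIntegral_le_integral hi (Eventually.of_forall h0)
    exact e1.trans e2

theorem XS_cont (ha : 0 ≤ a) (ha1 : a ≤ 1) (hf : IsClassicalSol T Q f)
    (A : Set (Vec d × Vec d)) :
    ContinuousOn (fun q : ℝ × Vec d => XS a (f q.1 q.2) A) (Ico 0 T ×ˢ univ) := by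
  intro q hq
  have hq1 : q.1 ∈ Ico 0 T := hq.1
  have hlt : (q.1 + T) / 2 < T := by linarith [hq1.2]
  obtain ⟨K, hK0, hK⟩ := xc_bd ha ha1 hf hlt
  have hsub : ∀ r ∈ Icc 0 ((q.1 + T) / 2), r ∈ Ico 0 T := fun r hr => ⟨hr.1, hr.2.trans_lt hlt⟩
  have key : ContinuousOn (fun q : ℝ × Vec d => XS a (f q.1 q.2) A)
      (Icc 0 ((q.1 + T) / 2) ×ˢ univ) := by
    unfold XS
    refine continuousOn_of_dominated (bound := fun p => K * (wt d p.1 * wt d p.2)) ?_ ?_ ?_ ?_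
    · intro r hr
      exact (xc_dens_cont ha (xc_slice hf (hsub _ hr.1) r.2)).aestronglyMeasurable
    · intro r hr
      exact Eventually.of_forall fun p => hK r.1 hr.1 r.2 p
    · exact (xc_int.const_mul K).restrict
    · refine Eventually.of_forall fun p => ?_
      have hc : ∀ v : Vec d, ContinuousOn (fun r : ℝ × Vec d => f r.1 r.2 v)
          (Icc 0 ((q.1 + T) / 2) ×ˢ univ) := by
        intro v
        have h1 : Continuous fun r : ℝ × Vec d => (r.1, r.2, v) := by fun_prop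
        exact hf.isCont.comp h1.continuousOn fun r hr => ⟨hsub _ hr.1, mem_univ _⟩
      unfold dens
      exact ((hc p.1).mul (hc p.2)).mul continuousOn_const
  refine (key q ⟨⟨hq1.1, by linarith [hq1.2]⟩, mem_univ _⟩).mono_of_mem_nhdsWithin ?_
  have hop : {r : ℝ × Vec d | r.1 < (q.1 + T) / 2} ∈ 𝓝 q :=
    (isOpen_lt continuous_fst continuous_const).mem_nhds (by
      change q.1 < (q.1 + T) / 2
      linarith [hq1.2])
  filter_upwards [mem_nhdsWithin_of_mem_nhds hop, self_mem_nhdsWithin] with r hr hr2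
  exact ⟨⟨hr2.1.1, le_of_lt hr⟩, mem_univ _⟩

/-- the integral over the torus is continuous in time -/
theorem XSt_cont (ha : 0 ≤ a) (ha1 : a ≤ 1) (hf : IsClassicalSol T Q f)
    (A : Set (Vec d × Vec d)) :
    ContinuousOn (fun t : ℝ => ∫ x, XS a (f t x) A ∂(muD d)) (Ico 0 T) := by
  intro t ht
  have hlt : (t + T) / 2 < T := by linarith [ht.2]
  obtain ⟨C, hC0, hC⟩ := XS_bdd ha ha1 hf hlt
  have hX := XS_cont ha ha1 hf A
  have hsub : ∀ r ∈ Icc 0 ((t + T) / 2), r ∈ Ico 0 T := fun r hr => ⟨hr.1, hr.2.trans_lt hlt⟩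
  have key : ContinuousOn (fun t : ℝ => ∫ x, XS a (f t x) A ∂(muD d)) (Icc 0 ((t + T) / 2)) := by
    refine continuousOn_of_dominated (bound := fun _ => C) ?_ ?_ ?_ ?_
    · intro r hr
      have h1 : Continuous fun x : Vec d => (r, x) := by fun_prop
      have h2 : Continuous fun x : Vec d => XS a (f r x) A :=
        hX.comp_continuous h1 fun x => ⟨hsub r hr, mem_univ _⟩
      exact h2.aestronglyMeasurable
    · intro r hr
      refine Eventually.of_forall fun x => ?_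
      have h0 : 0 ≤ XS a (f r x) A := by
        unfold XS
        refine integral_nonneg fun p => ?_
        unfold dens
        exact mul_nonneg (mul_nonneg (hf.nonneg r (hsub r hr) x _) (hf.nonneg r (hsub r hr) x _))
          (mul_nonneg (Real.rpow_nonneg (len_nonneg _) _) (Real.rpow_nonneg (RR_pos _ _).le _))
      rw [Real.norm_eq_abs, abs_of_nonneg h0]
      exact hC r hr x A
    · exact integrable_const C
    · refine Eventually.of_forall fun x => ?_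
      have h1 : Continuous fun r : ℝ => (r, x) := by fun_prop
      exact hX.comp h1.continuousOn fun r hr => ⟨hsub r hr, mem_univ _⟩
  refine (key t ⟨ht.1, by linarith [ht.2]⟩).mono_of_mem_nhdsWithin ?_
  filter_upwards [mem_nhdsWithin_of_mem_nhds (Iio_mem_nhds (show t < (t + T) / 2 by linarith [ht.2])),
    self_mem_nhdsWithin] with r hr hr2
  exact ⟨hr2.1, le_of_lt hr⟩

end Pool.Agent.H48.PL
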