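import Pool.Agent.H48.PL.Pov
import Pool.Agent.H48.PL.XC
import Pool.Agent.H48.PL.Glob
import Pool.Agent.H48.PL.CSolP

/-!
# Module TimA: (A1), the low moment in time

`csol_mom` with `p = jb^a` (`PG_jb`), `CSol.ftc`: `∫ f jb^a dν |_s^t = ∫_s^t ∫ Q jb^a dν`. The left side is `≤ ∫ f(t) jb^a ≤ ∫ f(t) jb² ≤ 2M` (`0 ≤ a ≤ 2`, `jb ≥ 1`, `f ≥ 0`; `glob_bounds`, `jb2_bound`).
For every `τ ∈ (0,T)`: `∫ Q jb^a dν = ∫x (∫v Q jb^a)` (`nu_integral`, H15/AV/SlcB; integrable: `hf.Q_le`) `≥ ∫x (c₁ XS (CmpS δ)ᶜ - C₁ XS (CmpS δ))` (`povzner` for `g = f τ x`, `hf.nice`; integrable in `x` by `XS_cont`).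
Integrate in time (interval integrability from `XSt_cont` and `CSol.contI`).
-/

set_option autoImplicit false

open MeasureTheory Set Filter Topology Pool.Agent.H25.Kin Pool.Agent.H82.BK Pool.Agent.H82.CM

namespace Pool.Agent.H48.PL

variable {d : ℕ} {s a C Ca cb : ℝ} {b : ℝ → ℝ}

private lemma timA_cont {F : ℝ → Vec d → Vec d → ℝ} {D : Set ℝ} (h : ContinuousOn (unc F) (D ×ˢ univ))
    {t : ℝ} (ht : t ∈ D) : Continuous fun q : Vec d × Vec d => F t q.2 q.1 := by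
  have h1 : Continuous fun q : Vec d × Vec d => (t, q.2, q.1) := by fun_prop
  exact h.comp_continuous h1 fun q => ⟨ht, mem_univ _⟩

private lemma timA_int {F : ℝ → Vec d → Vec d → ℝ} {D : Set ℝ} (h : ContinuousOn (unc F) (D ×ˢ univ))
    {t : ℝ} (ht : t ∈ D) {K : ℝ} (hK : ∀ x v, |F t x v| ≤ K * wt d v) :
    Integrable (fun q : Vec d × Vec d => F t q.2 q.1) (nu d) :=
  integrable_nu (timA_cont h ht).aestronglyMeasurable fun q => hK q.2 q.1

private lemma timA_xint {T : ℝ} {Q f : ℝ → Vec d → Vec d → ℝ} (ha : 0 ≤ a) (ha1 : a ≤ 1)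
    (hf : IsClassicalSol T Q f) (A : Set (Vec d × Vec d)) {t : ℝ} (ht : t ∈ Ico 0 T) :
    Integrable (fun x => XS a (f t x) A) (muD d) := by
  have h1 : Continuous fun x : Vec d => (t, x) := by fun_prop
  have h2 : Continuous fun x : Vec d => XS a (f t x) A :=
    (XS_cont ha ha1 hf A).comp_continuous h1 fun x => ⟨ht, mem_univ _⟩
  unfold muD
  exact h2.continuousOn.integrableOn_compact isCompact_Icc

theorem pov_time (HL : HypL d (1 + a) s b C Ca cb) (h1 : 2 * s < a) (ha1 : a ≤ 1) :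
    ∃ δ c₁ C₁ : ℝ, 0 < δ ∧ δ < 1 ∧ 0 < c₁ ∧ 0 ≤ C₁ ∧ ∀ (M T : ℝ) (f : ℝ → Vec d → Vec d → ℝ),
      IsBoltzmannSol (1 + a) b T f → GB M (f 0) → ∀ r t : ℝ, 0 < r → r ≤ t → t < T →
      c₁ * ∫ τ in r..t, (∫ x, XS a (f τ x) (CmpS δ)ᶜ ∂(muD d)) ≤
        2 * M + C₁ * ∫ τ in r..t, (∫ x, XS a (f τ x) (CmpS δ) ∂(muD d)) := by
  obtain ⟨δ, c₁, C₁, hδ, hδ1, hc₁, hC₁, hP⟩ := povzner HL h1 ha1
  refine ⟨δ, c₁, C₁, hδ, hδ1, hc₁, hC₁, fun M T f hf h0 r t hr hrt htT => ?_⟩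
  have hs0 : 0 < s := HL.H.hs
  have ha0 : 0 < a := by linarith
  have hf' : IsClassicalSol T (fun t x => boltzQ (1 + a) b (f t x)) f := hf
  have hjc : ∀ r : ℝ, Continuous fun v : Vec d => jb v ^ r := fun r =>
    jb_cont.rpow_const fun v => Or.inl (jb_pos v).ne'
  have HA := csol_mom hf' (PG_jb (d := d) (r := a)) (hjc a)
  have H2 := csol_mom hf' (PG_jb (d := d) (r := 2)) (hjc 2)
  have ht : t ∈ Ico 0 T := ⟨hr.le.trans hrt, htT⟩
  have hrI : r ∈ Ico 0 T := ⟨hr.le, hrt.trans_lt htT⟩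
  -- the boundary terms
  have hftc := HA.ftc hr hrt htT
  have b0 : 0 ≤ ∫ q, f r q.2 q.1 * jb q.1 ^ a ∂(nu d) :=
    integral_nonneg fun q => mul_nonneg (hf'.nonneg r hrI _ _) (Real.rpow_nonneg (jb_pos _).le _)
  have b1 : ∫ q, f t q.2 q.1 * jb q.1 ^ a ∂(nu d) ≤ 2 * M := by
    refine le_trans ?_ (jb2_bound hf ht (glob_bounds HL.H hf h0 ht))
    obtain ⟨K, hK⟩ := HA.dec t htT
    obtain ⟨K2, hK2⟩ := H2.dec t htT
    have i1 := timA_int HA.cont ht (hK t ⟨ht.1, le_rfl⟩)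
    have i2 := timA_int H2.cont ht (hK2 t ⟨ht.1, le_rfl⟩)
    have e2 : (fun q : Vec d × Vec d => f t q.2 q.1 * jb q.1 ^ (2 : ℕ)) =
        fun q => f t q.2 q.1 * jb q.1 ^ (2 : ℝ) := by
      funext q
      rw [Real.rpow_two]
    rw [e2]
    refine integral_mono i1 i2 fun q => ?_
    refine mul_le_mul_of_nonneg_left ?_ (hf'.nonneg t ht _ _)
    exact Real.rpow_le_rpow_of_exponent_le (one_le_jb _) (by linarith)
  have b2 : ∫ τ in r..t, (∫ q, boltzQ (1 + a) b (f τ q.2) q.1 * jb q.1 ^ a ∂(nu d)) ≤ 2 * M := by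
    rw [← hftc]
    linarith
  -- interval integrability
  have hsub : uIcc r t ⊆ Ioo 0 T := by
    rw [uIcc_of_le hrt]
    exact fun τ hτ => ⟨hr.trans_le hτ.1, hτ.2.trans_lt htT⟩
  have hsub2 : uIcc r t ⊆ Ico 0 T := fun τ hτ => ⟨(hsub hτ).1.le, (hsub hτ).2⟩
  have j0 : IntervalIntegrable (fun τ => ∫ q, boltzQ (1 + a) b (f τ q.2) q.1 * jb q.1 ^ a ∂(nu d))
      volume r t := (HA.contI.mono hsub).intervalIntegrable
  have j1 : IntervalIntegrable (fun τ => ∫ x, XS a (f τ x) (CmpS δ)ᶜ ∂(muD d)) volume r t :=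
    ((XSt_cont ha0.le ha1 hf' _).mono hsub2).intervalIntegrable
  have j2 : IntervalIntegrable (fun τ => ∫ x, XS a (f τ x) (CmpS δ) ∂(muD d)) volume r t :=
    ((XSt_cont ha0.le ha1 hf' _).mono hsub2).intervalIntegrable
  -- the pointwise inequality
  have key : ∀ τ ∈ Icc r t, c₁ * (∫ x, XS a (f τ x) (CmpS δ)ᶜ ∂(muD d)) ≤
      (∫ q, boltzQ (1 + a) b (f τ q.2) q.1 * jb q.1 ^ a ∂(nu d)) +
        C₁ * ∫ x, XS a (f τ x) (CmpS δ) ∂(muD d) := by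
    intro τ hτ
    have hτ' : τ ∈ Ioo 0 T := ⟨hr.trans_le hτ.1, hτ.2.trans_lt htT⟩
    have hτ2 : τ ∈ Ico 0 T := ⟨hτ'.1.le, hτ'.2⟩
    obtain ⟨K, hK⟩ := HA.decS τ hτ'.1 τ hτ'.2
    have i1 : Integrable (fun q : Vec d × Vec d => boltzQ (1 + a) b (f τ q.2) q.1 * jb q.1 ^ a)
        (nu d) := timA_int HA.contS hτ' (hK τ ⟨le_rfl, le_rfl⟩)
    have i2 : Integrable (fun x => ∫ v, boltzQ (1 + a) b (f τ x) v * jb v ^ a) (muD d) := by
      unfold nu at i1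
      exact i1.integral_prod_right
    have i3 := timA_xint ha0.le ha1 hf' (CmpS δ)ᶜ hτ2
    have i4 := timA_xint ha0.le ha1 hf' (CmpS δ) hτ2
    rw [Pool.Agent.H15.AV.nu_integral i1, ← integral_const_mul, ← integral_const_mul,
      ← integral_add i2 (i4.const_mul C₁)]
    refine integral_mono (i3.const_mul c₁) (i2.add (i4.const_mul C₁)) fun x => ?_
    exact hP (f τ x) (hf'.nice hτ' x) fun v => hf'.nonneg τ hτ2 x v
  have k1 := intervalIntegral.integral_mono_on hrt (j1.const_mul c₁) (j0.add (j2.const_mul C₁)) key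
  rw [intervalIntegral.integral_add j0 (j2.const_mul C₁), intervalIntegral.integral_const_mul,
    intervalIntegral.integral_const_mul] at k1
  linarith

end Pool.Agent.H48.PL
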