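import Pool.Agent.H48.PL.Defs
import Pool.Agent.H15.AVB.HB

/-!
# Module Prod: the entropy production controls exchanged pairs

As in the proof of `cut_H` (H15/AVB/HB.lean; copy its private lemmas `hbX`, `hb_int`, `hb_int'`, `hb_weak`):
`-4 ∫ boltzCut G log G = ∫ kerB (x - y)(log x - log y) d(mu3)`, `x = G_* G`, `y = G' G'_*`, the integrand is `≥ 0` a.e.
Elementary: `x ≤ 4y + (x-y)(log x - log y)` for `x, y > 0` (if `x > 4y`: `(x-y) ≥ 3x/4`, `log(x/y) ≥ log 4 ≥ 4/3`).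
So `∫_A kerB x ≤ 4 ∫_A kerB y + ∫ kerB (x-y)(log x-log y)`, and `∫_A kerB y = ∫_{coll⁻¹ A} kerB x` by `coll_preserving` (for the indicator
of `A` times `kerB y`: `integral_comp_mp`, `kerB_post`, `post_post`, `post'_post`, `ae_good`).
-/

set_option autoImplicit false

open MeasureTheory Set Filter Topology Pool.Agent.H25.Kin Pool.Agent.H15.AV

namespace Pool.Agent.H48.PL

variable {d : ℕ} {γ s C Ca : ℝ} {b : ℝ → ℝ}

/-- the increment of a collision -/
private noncomputable def prX (φ : Vec d → ℝ) (p : Vec d × Vec d × Vec d) : ℝ :=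
  φ (post p.1 p.2.1 p.2.2) + φ (post' p.1 p.2.1 p.2.2) - φ p.1 - φ p.2.1

private theorem prX_meas {φ : Vec d → ℝ} (hφm : Measurable φ) : Measurable (prX φ) := by
  have mpost := (continuous_post (d := d)).measurable
  have mpost' := (continuous_post' (d := d)).measurable
  have mv : Measurable fun p : Vec d × Vec d × Vec d => p.1 := measurable_fst
  have mw : Measurable fun p : Vec d × Vec d × Vec d => p.2.1 := measurable_fst.comp measurable_snd
  exact (((hφm.comp mpost).add (hφm.comp mpost')).sub (hφm.comp mv)).sub (hφm.comp mw)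

private theorem prX_le {φ : Vec d → ℝ} (hφ : PG φ) : ∃ (K : ℕ) (B : ℝ), 0 ≤ B ∧
    ∀ v w σ : Vec d, nsq σ = 1 → |prX φ (v, w, σ)| ≤ B * ((1 + ‖v‖) * (1 + ‖w‖)) ^ K := by
  obtain ⟨K, B, hB0, hB⟩ := pg_post_le hφ
  refine ⟨K, 4 * B, by positivity, fun v w σ hσ => ?_⟩
  obtain ⟨h1, h2, h3, h4⟩ := hB v w σ hσ
  change |φ (post v w σ) + φ (post' v w σ) - φ v - φ w| ≤ _
  obtain ⟨a1, a2⟩ := abs_le.1 h1
  obtain ⟨b1, b2⟩ := abs_le.1 h2
  obtain ⟨c1, c2⟩ := abs_le.1 h3
  obtain ⟨e1, e2⟩ := abs_le.1 h4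
  rw [abs_le]
  constructor <;> linarith

private theorem pr_int (H : Hyp d γ s b C Ca) {ε : ℝ} (hε : 0 < ε) {h : Vec d → ℝ} (hh : RD h)
    (hhc : Continuous h) {X : Vec d × Vec d × Vec d → ℝ} (hX : Measurable X) {K : ℕ} {B : ℝ}
    (hB0 : 0 ≤ B)
    (hB : ∀ v w σ : Vec d, nsq σ = 1 → |X (v, w, σ)| ≤ B * ((1 + ‖v‖) * (1 + ‖w‖)) ^ K) :
    Integrable (fun p : Vec d × Vec d × Vec d =>
      kerB γ b ε p.1 p.2.1 p.2.2 * (h p.2.1 * h p.1) * X p) (mu3 d) := by
  obtain ⟨A2, hA2, hA2'⟩ := prod_le' hh (d + 1 + (d + 5) + K)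
  have mv : Measurable fun p : Vec d × Vec d × Vec d => p.1 := measurable_fst
  have mw : Measurable fun p : Vec d × Vec d × Vec d => p.2.1 := measurable_fst.comp measurable_snd
  exact int_piece (P := fun p : Vec d × Vec d × Vec d => h p.2.1 * h p.1) (Φ := X)
    H.hd H.g1 H.g2 H.bm H.bd H.β0 hε
    ((hhc.measurable.comp mw).mul (hhc.measurable.comp mv)) hX hA2 hB0
    (fun v w σ _ => by have := hA2' v w; rw [mul_comm] at this; exact this)
    (fun v w σ hσ => hB v w σ hσ)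

private theorem pr_int' (H : Hyp d γ s b C Ca) {ε : ℝ} (hε : 0 < ε) {h : Vec d → ℝ} (hh : RD h)
    (hhc : Continuous h) {X : Vec d × Vec d × Vec d → ℝ} (hX : Measurable X) {K : ℕ} {B : ℝ}
    (hB0 : 0 ≤ B)
    (hB : ∀ v w σ : Vec d, nsq σ = 1 → |X (v, w, σ)| ≤ B * ((1 + ‖v‖) * (1 + ‖w‖)) ^ K) :
    Integrable (fun p : Vec d × Vec d × Vec d =>
      kerB γ b ε p.1 p.2.1 p.2.2 *
        (h (post p.1 p.2.1 p.2.2) * h (post' p.1 p.2.1 p.2.2)) * X p) (mu3 d) := by
  obtain ⟨A1, hA1, hA1'⟩ := post_prod_le hh (d + 1 + (d + 5) + K)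
  have mpost := (continuous_post (d := d)).measurable
  have mpost' := (continuous_post' (d := d)).measurable
  exact int_piece (P := fun p : Vec d × Vec d × Vec d =>
      h (post p.1 p.2.1 p.2.2) * h (post' p.1 p.2.1 p.2.2)) (Φ := X)
    H.hd H.g1 H.g2 H.bm H.bd H.β0 hε
    ((hhc.measurable.comp mpost).mul (hhc.measurable.comp mpost')) hX hA1 hB0
    (fun v w σ hσ => hA1' v w σ hσ)
    (fun v w σ hσ => hB v w σ hσ)

/-- the elementary inequality -/
private theorem pr_elem {x y : ℝ} (hx : 0 < x) (hy : 0 < y) :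
    x ≤ 4 * y + (x - y) * (Real.log x - Real.log y) := by
  have h0 : 0 ≤ (x - y) * (Real.log x - Real.log y) := by
    rcases le_total x y with h | h
    · exact mul_nonneg_of_nonpos_of_nonpos (by linarith) (by
        have := Real.log_le_log hx h
        linarith)
    · exact mul_nonneg (by linarith) (by
        have := Real.log_le_log hy h
        linarith)
  rcases le_or_gt x (4 * y) with h | h
  · linarith
  · have h1 : Real.log (4 * y) ≤ Real.log x := Real.log_le_log (by positivity) h.le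
    rw [Real.log_mul (by norm_num) hy.ne'] at h1
    have h2 : (4 / 3 : ℝ) ≤ Real.log 4 := by
      have h3 : Real.log 4 = 2 * Real.log 2 := by
        rw [show (4 : ℝ) = 2 ^ 2 by norm_num, Real.log_pow]
        norm_num
      have := Real.log_two_gt_d9
      rw [h3]
      linarith
    have h3 : (4 / 3 : ℝ) ≤ Real.log x - Real.log y := by linarith
    have h4 : (3 / 4) * x ≤ x - y := by linarith
    have h5 : (3 / 4) * x * (4 / 3) ≤ (x - y) * (Real.log x - Real.log y) :=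
      mul_le_mul h4 h3 (by norm_num) (by linarith)
    linarith

theorem prod_ineq (H : Hyp d γ s b C Ca) {ε : ℝ} (hε : 0 < ε) {G : Vec d → ℝ} (hG : RD G)
    (hGc : Continuous G) (pos : ∀ v, 0 < G v) (hl : PG fun v => Real.log (G v))
    {A : Set (Vec d × Vec d × Vec d)} (hA : MeasurableSet A) :
    ∫ p in A, kerB γ b ε p.1 p.2.1 p.2.2 * (G p.2.1 * G p.1) ∂(mu3 d) ≤
      4 * (∫ p in coll ⁻¹' A, kerB γ b ε p.1 p.2.1 p.2.2 * (G p.2.1 * G p.1) ∂(mu3 d)) -
        4 * ∫ v, boltzCut γ b ε G v * Real.log (G v) := by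
  have hlm : Measurable fun v => Real.log (G v) := hGc.measurable.log
  obtain ⟨K, B, hB0, hB⟩ := prX_le hl
  have hXm := prX_meas (d := d) hlm
  have i1 := pr_int H hε hG hGc hXm hB0 hB
  have i2 := pr_int' H hε hG hGc hXm hB0 hB
  have hone : ∀ v w σ : Vec d, nsq σ = 1 → |(fun _ : Vec d × Vec d × Vec d => (1 : ℝ)) (v, w, σ)| ≤
      1 * ((1 + ‖v‖) * (1 + ‖w‖)) ^ 0 := fun v w σ _ => by simp
  have j1 := pr_int H hε hG hGc (measurable_const (a := (1 : ℝ))) zero_le_one hone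
  have j2 := pr_int' H hε hG hGc (measurable_const (a := (1 : ℝ))) zero_le_one hone
  simp only [mul_one] at j1 j2
  rw [weak_cut H.hd H.g1 H.g2 H.bm H.bd H.β0 hε hG hGc hl hlm]
  change _ ≤ _ - 4 * ((1 / 2) * ∫ p : Vec d × Vec d × Vec d,
      kerB γ b ε p.1 p.2.1 p.2.2 * (G p.2.1 * G p.1) * prX (fun v => Real.log (G v)) p ∂(mu3 d))
  set X := prX fun v => Real.log (G v) with hX
  have mpost := (continuous_post (d := d)).measurable
  have mpost' := (continuous_post' (d := d)).measurable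
  have mk := measurable_kerB (d := d) γ H.bm ε
  have mQ : Measurable fun p : Vec d × Vec d × Vec d => kerB γ b ε p.1 p.2.1 p.2.2 *
        (G (post p.1 p.2.1 p.2.2) * G (post' p.1 p.2.1 p.2.2)) :=
    mk.mul ((hGc.measurable.comp mpost).mul (hGc.measurable.comp mpost'))
  have mP : Measurable fun p : Vec d × Vec d × Vec d => kerB γ b ε p.1 p.2.1 p.2.2 *
        (G (post p.1 p.2.1 p.2.2) * G (post' p.1 p.2.1 p.2.2)) * X p := mQ.mul hXm
  have e1 : ∫ p : Vec d × Vec d × Vec d, kerB γ b ε p.1 p.2.1 p.2.2 * (G p.2.1 * G p.1) * X p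
        ∂(mu3 d) =
      -∫ p : Vec d × Vec d × Vec d, kerB γ b ε p.1 p.2.1 p.2.2 *
        (G (post p.1 p.2.1 p.2.2) * G (post' p.1 p.2.1 p.2.2)) * X p ∂(mu3 d) := by
    rw [← integral_comp_mp (coll_preserving H.hd1) mP, ← integral_neg]
    refine integral_congr_ae ?_
    filter_upwards [ae_good H.hd1] with p hp
    obtain ⟨v, w, σ⟩ := p
    have hp1 : v ≠ w := hp.1
    have hp2 : nsq σ = 1 := hp.2
    simp only [coll, hX, prX]
    rw [kerB_post γ b ε hp1 hp2, post_post hp1 hp2, post'_post hp1 hp2]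
    ring
  have e2 : 2 * ∫ p : Vec d × Vec d × Vec d, kerB γ b ε p.1 p.2.1 p.2.2 * (G p.2.1 * G p.1) * X p
        ∂(mu3 d) =
      ∫ p : Vec d × Vec d × Vec d, (kerB γ b ε p.1 p.2.1 p.2.2 * (G p.2.1 * G p.1) * X p -
        kerB γ b ε p.1 p.2.1 p.2.2 *
        (G (post p.1 p.2.1 p.2.2) * G (post' p.1 p.2.1 p.2.2)) * X p) ∂(mu3 d) := by
    rw [integral_sub i1 i2, two_mul]
    nth_rewrite 2 [e1]
    ring
  -- the exchanged pairs
  have e3 : ∫ p in A, kerB γ b ε p.1 p.2.1 p.2.2 *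
        (G (post p.1 p.2.1 p.2.2) * G (post' p.1 p.2.1 p.2.2)) ∂(mu3 d) =
      ∫ p in coll ⁻¹' A, kerB γ b ε p.1 p.2.1 p.2.2 * (G p.2.1 * G p.1) ∂(mu3 d) := by
    have hcm : Measurable (coll (d := d)) := (coll_preserving H.hd1).measurable
    rw [← integral_indicator hA, ← integral_indicator (hcm hA),
      ← integral_comp_mp (coll_preserving H.hd1) (mQ.indicator hA)]
    refine integral_congr_ae ?_
    filter_upwards [ae_good H.hd1] with p hp
    obtain ⟨v, w, σ⟩ := p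
    have hp1 : v ≠ w := hp.1
    have hp2 : nsq σ = 1 := hp.2
    by_cases hmem : coll (v, w, σ) ∈ A
    · rw [indicator_of_mem hmem, indicator_of_mem (show (v, w, σ) ∈ coll ⁻¹' A from hmem)]
      simp only [coll]
      rw [kerB_post γ b ε hp1 hp2, post_post hp1 hp2, post'_post hp1 hp2]
      ring
    · rw [indicator_of_notMem hmem,
        indicator_of_notMem (show (v, w, σ) ∉ coll ⁻¹' A from hmem)]
  -- pointwise inequality
  have hD : ∀ᵐ p ∂(mu3 d), 0 ≤ kerB γ b ε p.1 p.2.1 p.2.2 *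
        (G (post p.1 p.2.1 p.2.2) * G (post' p.1 p.2.1 p.2.2)) * X p -
        kerB γ b ε p.1 p.2.1 p.2.2 * (G p.2.1 * G p.1) * X p := by
    filter_upwards [ae_good H.hd1] with p hp
    obtain ⟨v, w, σ⟩ := p
    have hp2 : nsq σ = 1 := hp.2
    have hk : 0 ≤ kerB γ b ε v w σ := kerB_nonneg H.bd hε hp2
    have g1 := pos v
    have g2 := pos w
    have g3 := pos (post v w σ)
    have g4 := pos (post' v w σ)
    have hXe : X (v, w, σ) = Real.log (G (post v w σ) * G (post' v w σ)) - Real.log (G w * G v) := by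
      rw [Real.log_mul g3.ne' g4.ne', Real.log_mul g2.ne' g1.ne']
      simp only [hX, prX]
      ring
    have hm : 0 ≤ (G (post v w σ) * G (post' v w σ) - G w * G v) *
        (Real.log (G (post v w σ) * G (post' v w σ)) - Real.log (G w * G v)) := by
      rcases le_total (G w * G v) (G (post v w σ) * G (post' v w σ)) with h | h
      · exact mul_nonneg (by linarith) (by
          have := Real.log_le_log (mul_pos g2 g1) h
          linarith)
      · exact mul_nonneg_of_nonpos_of_nonpos (by linarith) (by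
          have := Real.log_le_log (mul_pos g3 g4) h
          linarith)
    change 0 ≤ kerB γ b ε v w σ * (G (post v w σ) * G (post' v w σ)) * X (v, w, σ) -
      kerB γ b ε v w σ * (G w * G v) * X (v, w, σ)
    rw [hXe]
    have := mul_nonneg hk hm
    linarith
  have hPt : ∀ᵐ p ∂(mu3 d), kerB γ b ε p.1 p.2.1 p.2.2 * (G p.2.1 * G p.1) ≤
      4 * (kerB γ b ε p.1 p.2.1 p.2.2 *
        (G (post p.1 p.2.1 p.2.2) * G (post' p.1 p.2.1 p.2.2))) +
      (kerB γ b ε p.1 p.2.1 p.2.2 *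
        (G (post p.1 p.2.1 p.2.2) * G (post' p.1 p.2.1 p.2.2)) * X p -
        kerB γ b ε p.1 p.2.1 p.2.2 * (G p.2.1 * G p.1) * X p) := by
    filter_upwards [ae_good H.hd1] with p hp
    obtain ⟨v, w, σ⟩ := p
    have hp2 : nsq σ = 1 := hp.2
    have hk : 0 ≤ kerB γ b ε v w σ := kerB_nonneg H.bd hε hp2
    have g1 := pos v
    have g2 := pos w
    have g3 := pos (post v w σ)
    have g4 := pos (post' v w σ)
    have hXe : X (v, w, σ) = Real.log (G (post v w σ) * G (post' v w σ)) - Real.log (G w * G v) := by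
      rw [Real.log_mul g3.ne' g4.ne', Real.log_mul g2.ne' g1.ne']
      simp only [hX, prX]
      ring
    have he := mul_le_mul_of_nonneg_left (pr_elem (mul_pos g2 g1) (mul_pos g3 g4)) hk
    change kerB γ b ε v w σ * (G w * G v) ≤ 4 * (kerB γ b ε v w σ *
        (G (post v w σ) * G (post' v w σ))) + (kerB γ b ε v w σ *
        (G (post v w σ) * G (post' v w σ)) * X (v, w, σ) -
        kerB γ b ε v w σ * (G w * G v) * X (v, w, σ))
    rw [hXe]
    refine he.trans (le_of_eq ?_)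
    ring
  have iD : Integrable (fun p : Vec d × Vec d × Vec d => kerB γ b ε p.1 p.2.1 p.2.2 *
        (G (post p.1 p.2.1 p.2.2) * G (post' p.1 p.2.1 p.2.2)) * X p -
        kerB γ b ε p.1 p.2.1 p.2.2 * (G p.2.1 * G p.1) * X p) (mu3 d) := i2.sub i1
  have step1 : ∫ p in A, kerB γ b ε p.1 p.2.1 p.2.2 * (G p.2.1 * G p.1) ∂(mu3 d) ≤
      ∫ p in A, (4 * (kerB γ b ε p.1 p.2.1 p.2.2 *
        (G (post p.1 p.2.1 p.2.2) * G (post' p.1 p.2.1 p.2.2))) +
      (kerB γ b ε p.1 p.2.1 p.2.2 *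
        (G (post p.1 p.2.1 p.2.2) * G (post' p.1 p.2.1 p.2.2)) * X p -
        kerB γ b ε p.1 p.2.1 p.2.2 * (G p.2.1 * G p.1) * X p)) ∂(mu3 d) :=
    integral_mono_ae j1.integrableOn ((j2.const_mul 4).add iD).integrableOn
      (ae_restrict_of_ae hPt)
  have step2 : ∫ p in A, (4 * (kerB γ b ε p.1 p.2.1 p.2.2 *
        (G (post p.1 p.2.1 p.2.2) * G (post' p.1 p.2.1 p.2.2))) +
      (kerB γ b ε p.1 p.2.1 p.2.2 *
        (G (post p.1 p.2.1 p.2.2) * G (post' p.1 p.2.1 p.2.2)) * X p -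
        kerB γ b ε p.1 p.2.1 p.2.2 * (G p.2.1 * G p.1) * X p)) ∂(mu3 d) =
      4 * (∫ p in A, kerB γ b ε p.1 p.2.1 p.2.2 *
        (G (post p.1 p.2.1 p.2.2) * G (post' p.1 p.2.1 p.2.2)) ∂(mu3 d)) +
      ∫ p in A, (kerB γ b ε p.1 p.2.1 p.2.2 *
        (G (post p.1 p.2.1 p.2.2) * G (post' p.1 p.2.1 p.2.2)) * X p -
        kerB γ b ε p.1 p.2.1 p.2.2 * (G p.2.1 * G p.1) * X p) ∂(mu3 d) := by
    rw [integral_add (j2.const_mul 4).integrableOn iD.integrableOn, integral_const_mul]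
  have step3 : ∫ p in A, (kerB γ b ε p.1 p.2.1 p.2.2 *
        (G (post p.1 p.2.1 p.2.2) * G (post' p.1 p.2.1 p.2.2)) * X p -
        kerB γ b ε p.1 p.2.1 p.2.2 * (G p.2.1 * G p.1) * X p) ∂(mu3 d) ≤
      ∫ p, (kerB γ b ε p.1 p.2.1 p.2.2 *
        (G (post p.1 p.2.1 p.2.2) * G (post' p.1 p.2.1 p.2.2)) * X p -
        kerB γ b ε p.1 p.2.1 p.2.2 * (G p.2.1 * G p.1) * X p) ∂(mu3 d) :=
    setIntegral_le_integral iD hD
  have step4 : ∫ p, (kerB γ b ε p.1 p.2.1 p.2.2 *
        (G (post p.1 p.2.1 p.2.2) * G (post' p.1 p.2.1 p.2.2)) * X p -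
        kerB γ b ε p.1 p.2.1 p.2.2 * (G p.2.1 * G p.1) * X p) ∂(mu3 d) =
      -(2 * ∫ p : Vec d × Vec d × Vec d,
        kerB γ b ε p.1 p.2.1 p.2.2 * (G p.2.1 * G p.1) * X p ∂(mu3 d)) := by
    rw [e2, ← integral_neg]
    refine integral_congr_ae (Eventually.of_forall fun p => ?_)
    simp only
    ring
  rw [e3] at step2
  rw [step2] at step1
  rw [step4] at step3
  linarith

end Pool.Agent.H48.PL
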