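import Pool.Agent.H48.PL.Ang
import Pool.Agent.H48.PL.JB

/-!
# Module Rot: rotating a thin pair

`n = dirk v w` (unit), `|n_e| < u` (the pair is not in `NtS`: `|V_e| < u |V|`, `V = |V| n` by `len_smul_dirk`), `0 < u ≤ 1/16`.
`m₀ = (e_e - n_e n)/√(1-n_e²)` is a unit vector orthogonal to `n`, `m₀_e = √(1-n_e²) ≥ .99`. `σ₀ = c n + 4u m₀`, `c = √(1-16u²) ≥ .96`:
unit, `(σ₀)_e ≥ 4u·.99 - u ≥ 2.9u`; `1 - n·σ₀ = 1-c ∈ [8u², 8.4u²]` (`1-√(1-t) ∈ [t/2, t/2 + t²/2..]`), i.e. `|n-σ₀| = √(2(1-c)) ∈ [4u, 4.1u]`.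
If `|σ-σ₀| ≤ u/2` and `|σ|=1`: `σ_e ≥ 2.4u ≥ u`, `|n-σ| ∈ [3.5u, 4.6u]`, `1-n·σ = |n-σ|²/2 ∈ [6.1u², 10.6u²] ⊂ [6u², 19u²]`.
So the set contains the ball of radius `u/2` around `σ₀` (on the sphere): `cap_low` gives measure `≥ c (u/2)^(d-1)`; there
`cosTh ≥ 0`, `b(cosTh) ≥ cb (19u²)^(-β)` (`HL.lo`), the cut-off `ε ≤ 6u²` is not active: `∫ kerB ≥ |V|^γ cb 19^(-β) u^(-2β) c 2^(-(d-1)) u^(d-1)
= c' |V|^γ u^(-2s)` as `2β = d-1+2s`. Integrability of `kerB` on the set: bounded by `C |V|^γ ε^(-β)` (`kerB_le_eps`), `surf` finite.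
-/

set_option autoImplicit false

open MeasureTheory Set Filter Topology Pool.Agent.H25.Kin Pool.Agent.H82.BK Pool.Agent.H82.CM

namespace Pool.Agent.H48.PL

variable {d : ℕ} {γ s C Ca cb : ℝ} {b : ℝ → ℝ}

/-- the directions to which a thin pair is rotated -/
def RotS (e : Fin d) (u : ℝ) (v w : Vec d) : Set (Vec d) :=
  {σ | nsq σ = 1 ∧ 6 * u ^ 2 ≤ 1 - cosTh v w σ ∧ 1 - cosTh v w σ ≤ 19 * u ^ 2 ∧ u ≤ |σ e|}

private lemma rot_nsq_single (e : Fin d) : nsq (Pi.single e (1 : ℝ) : Vec d) = 1 := by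
  unfold nsq
  rw [Finset.sum_eq_single e]
  · simp
  · intro i _ hi
    simp [hi]
  · simp

private lemma rot_dot_single (n : Vec d) (e : Fin d) : dot n (Pi.single e (1 : ℝ) : Vec d) = n e := by
  unfold dot
  rw [Finset.sum_eq_single e]
  · simp
  · intro i _ hi
    simp [hi]
  · simp

/-- the centre of the cap -/
private lemma rot_center (e : Fin d) {u : ℝ} (hu : 0 < u) (hu1 : u ≤ 1 / 16) {n : Vec d}
    (hn : nsq n = 1) (hne : |n e| < u) :
    ∃ z : Vec d, nsq z = 1 ∧ 5 / 2 * u ≤ z e ∧ 4 * u ≤ len (n - z) ∧ len (n - z) ≤ 41 / 10 * u := by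
  have hne2 : n e ^ 2 ≤ u ^ 2 := by
    rw [← sq_abs (n e)]
    exact pow_le_pow_left₀ (abs_nonneg _) hne.le 2
  have hu2 : u ^ 2 ≤ 1 / 256 := by nlinarith
  set q : ℝ := Real.sqrt (1 - n e ^ 2) with hq
  have hq2 : q ^ 2 = 1 - n e ^ 2 := Real.sq_sqrt (by linarith)
  have hq0 : 0 ≤ q := Real.sqrt_nonneg _
  have hq1 : q ≤ 1 := by
    rw [hq]
    exact Real.sqrt_le_one.2 (by nlinarith [sq_nonneg (n e)])
  have hq3 : 99 / 100 ≤ q := by nlinarith
  have hqp : 0 < q := by linarith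
  set c : ℝ := Real.sqrt (1 - 16 * u ^ 2) with hc
  have hc2 : c ^ 2 = 1 - 16 * u ^ 2 := Real.sq_sqrt (by linarith)
  have hc0 : 0 ≤ c := Real.sqrt_nonneg _
  have hc1 : c ≤ 1 := by
    rw [hc]
    exact Real.sqrt_le_one.2 (by nlinarith [sq_nonneg u])
  have hc3 : 15 / 16 ≤ c := by nlinarith
  set m : Vec d := q⁻¹ • ((Pi.single e (1 : ℝ) : Vec d) - n e • n) with hm
  have hm1 : nsq m = 1 := by
    rw [hm, nsq_smul, nsq_sub, nsq_smul, dot_smul, dot_comm, rot_dot_single, rot_nsq_single, hn]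
    have : (1 : ℝ) - 2 * (n e * n e) + n e ^ 2 * 1 = q ^ 2 := by rw [hq2]; ring
    rw [this, ← mul_pow, inv_mul_cancel₀ hqp.ne', one_pow]
  have hnm : dot n m = 0 := by
    rw [hm, dot_smul, dot_sub, rot_dot_single, dot_smul, dot_self, hn]
    ring
  have hme : m e = q := by
    rw [hm]
    simp only [Pi.smul_apply, Pi.sub_apply, Pi.single_eq_same, smul_eq_mul]
    have : (1 : ℝ) - n e * n e = q ^ 2 := by rw [hq2]; ring
    rw [this]
    field_simp
  have hz1 : nsq (c • n + (4 * u) • m) = 1 := by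
    rw [nsq_add, nsq_smul, nsq_smul, smul_dot, dot_smul, hnm, hn, hm1]
    nlinarith
  have hnz : nsq (n - (c • n + (4 * u) • m)) = 2 * (1 - c) := by
    rw [nsq_sub, hz1, hn, dot_add, dot_smul, dot_smul, hnm, dot_self, hn]
    ring
  refine ⟨c • n + (4 * u) • m, hz1, ?_, ?_, ?_⟩
  · simp only [Pi.add_apply, Pi.smul_apply, smul_eq_mul, hme]
    have h1 := (abs_lt.1 hne).1
    have h2 : -u ≤ c * n e := by
      rcases le_total 0 (n e) with h | h
      · have := mul_nonneg hc0 h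
        linarith
      · nlinarith
    nlinarith
  · refine Real.le_sqrt_of_sq_le ?_
    rw [hnz]
    nlinarith
  · refine Real.sqrt_le_iff.2 ⟨by positivity, ?_⟩
    rw [hnz]
    nlinarith

private lemma rot_len_neg_sub (x y : Vec d) : len (x - y) = len (y - x) := len_comm x y

/-- the cap is contained in the set -/
private lemma rot_sub (e : Fin d) {u : ℝ} (hu : 0 < u) {v w z : Vec d} (hvw : v ≠ w)
    (hz : 5 / 2 * u ≤ z e) (h1 : 4 * u ≤ len (dirk v w - z)) (h2 : len (dirk v w - z) ≤ 41 / 10 * u) :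
    {σ : Vec d | nsq σ = 1 ∧ nsq (σ - z) ≤ (u / 2) ^ 2} ⊆ RotS e u v w := by
  intro σ hσ
  obtain ⟨hσ1, hσ2⟩ := hσ
  have hl : len (σ - z) ≤ u / 2 := Real.sqrt_le_iff.2 ⟨by positivity, hσ2⟩
  have ha : len (σ - dirk v w) ^ 2 = 2 * (1 - cosTh v w σ) := by
    rw [len_sq, nsq_sub_dirk hvw hσ1]
  have h3 : 7 / 2 * u ≤ len (σ - dirk v w) := by
    have h4 := len_add_le (dirk v w - σ) (σ - z)
    rw [sub_add_sub_cancel, rot_len_neg_sub (dirk v w) σ] at h4
    linarith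
  have h4 : len (σ - dirk v w) ≤ 23 / 5 * u := by
    have h5 := len_add_le (σ - z) (z - dirk v w)
    rw [sub_add_sub_cancel, rot_len_neg_sub z (dirk v w)] at h5
    linarith
  have h5 : (7 / 2 * u) ^ 2 ≤ len (σ - dirk v w) ^ 2 := pow_le_pow_left₀ (by positivity) h3 2
  have h6 : len (σ - dirk v w) ^ 2 ≤ (23 / 5 * u) ^ 2 := pow_le_pow_left₀ (len_nonneg _) h4 2
  rw [ha] at h5 h6
  have hu2 : 0 < u ^ 2 := by positivity
  refine ⟨hσ1, by nlinarith, by nlinarith, ?_⟩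
  have h7 := abs_coord_le (σ - z) e
  rw [Pi.sub_apply] at h7
  have h8 := (abs_le.1 (h7.trans hl)).1
  refine le_trans ?_ (le_abs_self _)
  linarith

private lemma rot_meas (e : Fin d) (u : ℝ) (v w : Vec d) : MeasurableSet (RotS e u v w) := by
  have h1 := measurable_cosTh' v w
  have h2 : MeasurableSet {σ : Vec d | nsq σ = 1} :=
    (isClosed_eq continuous_sq continuous_const).measurableSet
  have h3 : MeasurableSet {σ : Vec d | 6 * u ^ 2 ≤ 1 - cosTh v w σ} :=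
    measurableSet_le measurable_const (measurable_const.sub h1)
  have h4 : MeasurableSet {σ : Vec d | 1 - cosTh v w σ ≤ 19 * u ^ 2} :=
    measurableSet_le (measurable_const.sub h1) measurable_const
  have h5 : MeasurableSet {σ : Vec d | u ≤ |σ e|} :=
    (isClosed_le continuous_const (continuous_apply e).abs).measurableSet
  exact h2.inter (h3.inter (h4.inter h5))

theorem rot_low (HL : HypL d γ s b C Ca cb) (e : Fin d) : ∃ c : ℝ, 0 < c ∧
    ∀ u : ℝ, 0 < u → u ≤ 1 / 16 → ∀ v w : Vec d, v ≠ w → |v e - w e| < u * len (v - w) →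
    ∀ ε : ℝ, 0 < ε → ε ≤ 6 * u ^ 2 →
      IntegrableOn (fun σ => kerB γ b ε v w σ) (RotS e u v w) (surf d) ∧
      c * (len (v - w) ^ γ * u ^ (-(2 * s))) ≤ ∫ σ in RotS e u v w, kerB γ b ε v w σ ∂(surf d) := by
  obtain ⟨c0, hc0, hcap⟩ := cap_low (d := d) HL.H.hd
  have hcb := HL.lo.1
  have hβ := HL.H.β0
  set β : ℝ := ((d : ℝ) - 1) / 2 + s with hβdef
  refine ⟨cb * 19 ^ (-β) * (c0 * (1 / 2) ^ ((d : ℝ) - 1)), by positivity, ?_⟩
  intro u hu hu1 v w hvw hthin ε hε hε1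
  have hl : 0 < len (v - w) := len_pos (sub_ne_zero.2 hvw)
  -- integrability
  have hint : Integrable (fun σ => kerB γ b ε v w σ) (surf d) := by
    refine Integrable.of_bound (measurable_kerB' γ HL.H.bm ε v w).aestronglyMeasurable
      (C * ε ^ (-β) * len (v - w) ^ γ) ?_
    filter_upwards [surf_ae] with σ hσ
    rw [Real.norm_eq_abs, abs_of_nonneg (kerB_nonneg HL.H.bd hε hσ)]
    exact kerB_le_eps HL.H.bd hβ hε hσ
  refine ⟨hint.integrableOn, ?_⟩
  -- the direction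
  have hn : nsq (dirk v w) = 1 := nsq_dirk hvw
  have hne : |dirk v w e| < u := by
    have h1 : len (v - w) * dirk v w e = v e - w e := by
      have := congrFun (len_smul_dirk v w) e
      simpa using this
    rw [← h1, abs_mul, abs_of_pos hl, mul_comm u] at hthin
    exact lt_of_mul_lt_mul_left hthin hl.le
  obtain ⟨z, hz1, hz2, hz3, hz4⟩ := rot_center e hu hu1 hn hne
  set B : Set (Vec d) := {σ : Vec d | nsq σ = 1 ∧ nsq (σ - z) ≤ (u / 2) ^ 2} with hB
  have hBs : B ⊆ RotS e u v w := rot_sub e hu hvw hz2 hz3 hz4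
  have hBm : MeasurableSet B := by
    have h2 : MeasurableSet {σ : Vec d | nsq σ = 1} :=
      (isClosed_eq continuous_sq continuous_const).measurableSet
    have h3 : MeasurableSet {σ : Vec d | nsq (σ - z) ≤ (u / 2) ^ 2} :=
      (isClosed_le (continuous_sq.comp (continuous_id.sub continuous_const))
        continuous_const).measurableSet
    exact h2.inter h3
  have hmu : c0 * (u / 2) ^ ((d : ℝ) - 1) ≤ (surf d).real B := by
    have h1 := hcap z hz1 (u / 2) (by positivity) (by linarith)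
    have h2 : surf d B ≠ ⊤ := measure_ne_top _ _
    exact (ENNReal.ofReal_le_iff_le_toReal h2).1 h1
  -- pointwise lower bound
  have hlow : ∀ σ ∈ RotS e u v w,
      len (v - w) ^ γ * (cb * (19 * u ^ 2) ^ (-β)) ≤ kerB γ b ε v w σ := by
    intro σ hσ
    obtain ⟨_, h2, h3, _⟩ := hσ
    have hu2 : 0 < u ^ 2 := by positivity
    have h4 : u ^ 2 ≤ 1 / 256 := by nlinarith
    unfold kerB
    rw [if_pos (by linarith)]
    refine mul_le_mul_of_nonneg_left ?_ (Real.rpow_nonneg hl.le _)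
    refine le_trans ?_ (HL.lo.2 (cosTh v w σ) (by linarith) (by linarith))
    refine mul_le_mul_of_nonneg_left ?_ hcb.le
    exact Real.rpow_le_rpow_of_nonpos (by linarith) h3 (by linarith)
  set K : ℝ := len (v - w) ^ γ * (cb * (19 * u ^ 2) ^ (-β)) with hK
  have hK0 : 0 ≤ K := by positivity
  have e1 : (19 * u ^ 2) ^ (-β) * (u / 2) ^ ((d : ℝ) - 1) =
      19 ^ (-β) * (1 / 2) ^ ((d : ℝ) - 1) * u ^ (-(2 * s)) := by
    rw [Real.mul_rpow (by norm_num) (by positivity), div_eq_mul_one_div u 2,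
      Real.mul_rpow hu.le (by norm_num), ← Real.rpow_natCast u 2, ← Real.rpow_mul hu.le]
    have : u ^ (((2 : ℕ) : ℝ) * -β) * u ^ ((d : ℝ) - 1) = u ^ (-(2 * s)) := by
      rw [← Real.rpow_add hu]
      congr 1
      rw [hβdef]
      push_cast
      ring
    calc (19 : ℝ) ^ (-β) * u ^ (((2 : ℕ) : ℝ) * -β) * (u ^ ((d : ℝ) - 1) * (1 / 2) ^ ((d : ℝ) - 1))
        = 19 ^ (-β) * (1 / 2) ^ ((d : ℝ) - 1) * (u ^ (((2 : ℕ) : ℝ) * -β) * u ^ ((d : ℝ) - 1)) := by ring
      _ = _ := by rw [this]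
  calc cb * 19 ^ (-β) * (c0 * (1 / 2) ^ ((d : ℝ) - 1)) * (len (v - w) ^ γ * u ^ (-(2 * s)))
      = K * (c0 * (u / 2) ^ ((d : ℝ) - 1)) := by
        rw [hK]
        calc _ = len (v - w) ^ γ * cb * c0 *
              (19 ^ (-β) * (1 / 2) ^ ((d : ℝ) - 1) * u ^ (-(2 * s))) := by ring
          _ = len (v - w) ^ γ * cb * c0 * ((19 * u ^ 2) ^ (-β) * (u / 2) ^ ((d : ℝ) - 1)) := by rw [e1]
          _ = _ := by ring
    _ ≤ K * (surf d).real B := mul_le_mul_of_nonneg_left hmu hK0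
    _ = ∫ _σ in B, K ∂(surf d) := by
        rw [setIntegral_const, smul_eq_mul, mul_comm]
    _ ≤ ∫ σ in B, kerB γ b ε v w σ ∂(surf d) := by
        refine setIntegral_mono_on (integrable_const _).integrableOn hint.integrableOn hBm ?_
        intro σ hσ
        exact hlow σ (hBs hσ)
    _ ≤ _ := by
        refine setIntegral_mono_set hint.integrableOn ?_ (Eventually.of_forall hBs)
        refine (ae_restrict_iff' (rot_meas e u v w)).2 (Eventually.of_forall fun σ hσ => ?_)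
        exact kerB_nonneg HL.H.bd hε hσ.1

end Pool.Agent.H48.PL
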