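import Pool.Agent.H48.PL.XB
import Pool.Agent.H15.AVB.HB

/-!
# Module EntB: regularization of the logarithm, uniform on bounded classes

* `reg_nice`, `reg_log`: `G = g + δ gau` is `RD`, continuous, `> 0`, with `log G` `PG` (copy `hb_nice_add`, `hlPG` from the proof of
  `hth_boltz`, H15/AVB/HB.lean).
* `cut_decomp`: copy `hb_decomp`, `hb_gau_cut`, `hb_unice`, `hb_small` and the estimate in the proof of `hth_boltz`:
  `∫ Q_ε(G) log G = (1-δ) ∫ Q_ε(g) log G + δ ∫ Q_ε(g+gau) log G` and `δ |∫ Q_ε(g+gau) log G| ≤ δ U(δ) → 0`, uniformly in `g` and `ε`.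
* `XS_reg`: `GG_* ≤ gg_* + δ (g gau_* + gau g_* + gau gau_*)`, the weight `|V|^(1+a)RR^a ≤ C ((1+‖v‖)(1+‖w‖))^3`, `g ≤ C N ((1+‖v‖)^N)⁻¹`
  uniformly (UNice), `gau` is RD.
-/

set_option autoImplicit false

open MeasureTheory Set Filter Topology Pool.Agent.H25.Kin Pool.Agent.H15.AV

namespace Pool.Agent.H48.PL

variable {d : ℕ} {γ s a C Ca : ℝ} {b : ℝ → ℝ}

/-- the increment of a collision -/
private noncomputable def entB_X (φ : Vec d → ℝ) (p : Vec d × Vec d × Vec d) : ℝ :=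
  φ (post p.1 p.2.1 p.2.2) + φ (post' p.1 p.2.1 p.2.2) - φ p.1 - φ p.2.1

private theorem entB_X_meas {φ : Vec d → ℝ} (hφm : Measurable φ) : Measurable (entB_X φ) := by
  have mpost := (continuous_post (d := d)).measurable
  have mpost' := (continuous_post' (d := d)).measurable
  have mv : Measurable fun p : Vec d × Vec d × Vec d => p.1 := measurable_fst
  have mw : Measurable fun p : Vec d × Vec d × Vec d => p.2.1 := measurable_fst.comp measurable_snd
  exact (((hφm.comp mpost).add (hφm.comp mpost')).sub (hφm.comp mv)).sub (hφm.comp mw)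

private theorem entB_X_le {φ : Vec d → ℝ} (hφ : PG φ) : ∃ (K : ℕ) (B : ℝ), 0 ≤ B ∧
    ∀ v w σ : Vec d, nsq σ = 1 → |entB_X φ (v, w, σ)| ≤ B * ((1 + ‖v‖) * (1 + ‖w‖)) ^ K := by
  obtain ⟨K, B, hB0, hB⟩ := pg_post_le hφ
  refine ⟨K, 4 * B, by positivity, fun v w σ hσ => ?_⟩
  obtain ⟨h1, h2, h3, h4⟩ := hB v w σ hσ
  change |φ (post v w σ) + φ (post' v w σ) - φ v - φ w| ≤ _
  obtain ⟨a1, a2⟩ := abs_le.1 h1
  obtain ⟨b1, b2⟩ := abs_le.1 h2
  obtain ⟨c1, c2⟩ := abs_le.1 h3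
  obtain ⟨e1, e2⟩ := abs_le.1 h4
  rw [abs_le]
  constructor <;> linarith

private theorem entB_int (H : Hyp d γ s b C Ca) {ε : ℝ} (hε : 0 < ε) {h : Vec d → ℝ} (hh : RD h)
    (hhc : Continuous h) {φ : Vec d → ℝ} (hφ : PG φ) (hφm : Measurable φ) :
    Integrable (fun p : Vec d × Vec d × Vec d =>
      kerB γ b ε p.1 p.2.1 p.2.2 * (h p.2.1 * h p.1) * entB_X φ p) (mu3 d) := by
  obtain ⟨K, B, hB0, hB⟩ := entB_X_le hφ
  obtain ⟨A2, hA2, hA2'⟩ := prod_le' hh (d + 1 + (d + 5) + K)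
  have mv : Measurable fun p : Vec d × Vec d × Vec d => p.1 := measurable_fst
  have mw : Measurable fun p : Vec d × Vec d × Vec d => p.2.1 := measurable_fst.comp measurable_snd
  exact int_piece (P := fun p : Vec d × Vec d × Vec d => h p.2.1 * h p.1) (Φ := entB_X φ)
    H.hd H.g1 H.g2 H.bm H.bd H.β0 hε
    ((hhc.measurable.comp mw).mul (hhc.measurable.comp mv)) (entB_X_meas hφm) hA2 hB0
    (fun v w σ _ => by have := hA2' v w; rw [mul_comm] at this; exact this)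
    (fun v w σ hσ => hB v w σ hσ)

private theorem entB_int' (H : Hyp d γ s b C Ca) {ε : ℝ} (hε : 0 < ε) {h : Vec d → ℝ} (hh : RD h)
    (hhc : Continuous h) {φ : Vec d → ℝ} (hφ : PG φ) (hφm : Measurable φ) :
    Integrable (fun p : Vec d × Vec d × Vec d =>
      kerB γ b ε p.1 p.2.1 p.2.2 *
        (h (post p.1 p.2.1 p.2.2) * h (post' p.1 p.2.1 p.2.2)) * entB_X φ p) (mu3 d) := by
  obtain ⟨K, B, hB0, hB⟩ := entB_X_le hφ
  obtain ⟨A1, hA1, hA1'⟩ := post_prod_le hh (d + 1 + (d + 5) + K)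
  have mpost := (continuous_post (d := d)).measurable
  have mpost' := (continuous_post' (d := d)).measurable
  exact int_piece (P := fun p : Vec d × Vec d × Vec d =>
      h (post p.1 p.2.1 p.2.2) * h (post' p.1 p.2.1 p.2.2)) (Φ := entB_X φ)
    H.hd H.g1 H.g2 H.bm H.bd H.β0 hε
    ((hhc.measurable.comp mpost).mul (hhc.measurable.comp mpost')) (entB_X_meas hφm) hA1 hB0
    (fun v w σ hσ => hA1' v w σ hσ)
    (fun v w σ hσ => hB v w σ hσ)

private theorem entB_weak (H : Hyp d γ s b C Ca) {ε : ℝ} (hε : 0 < ε) {h : Vec d → ℝ} (hh : RD h)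
    (hhc : Continuous h) {φ : Vec d → ℝ} (hφ : PG φ) (hφm : Measurable φ) :
    ∫ v, boltzCut γ b ε h v * φ v = (1 / 2) * ∫ p : Vec d × Vec d × Vec d,
      kerB γ b ε p.1 p.2.1 p.2.2 * (h p.2.1 * h p.1) * entB_X φ p ∂(mu3 d) :=
  weak_cut H.hd H.g1 H.g2 H.bm H.bd H.β0 hε hh hhc hφ hφm

private theorem entB_gau_pos (v : Vec d) : 0 < gau v := Real.exp_pos _

private theorem entB_gau_le_one (v : Vec d) : gau v ≤ 1 := by
  unfold gau
  exact Real.exp_le_one_iff.2 (neg_nonpos.2 (sq_nonneg' v))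

private theorem entB_nice_add {g : Vec d → ℝ} (hg : Nice g) (δ : ℝ) :
    Nice fun v => g v + δ * gau v := by
  have hm := nice_gau (d := d)
  have e1 : fderiv ℝ (fun v => g v + δ * gau v) = fun v => fderiv ℝ g v + δ • fderiv ℝ gau v := by
    funext v
    exact ((hg.diff v).hasFDerivAt.add ((hm.diff v).hasFDerivAt.const_mul δ)).fderiv
  have e2 : fderiv ℝ (fderiv ℝ (fun v => g v + δ * gau v)) =
      fun v => fderiv ℝ (fderiv ℝ g) v + δ • fderiv ℝ (fderiv ℝ gau) v := by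
    rw [e1]
    funext v
    exact ((hg.diff1 v).hasFDerivAt.add ((hm.diff1 v).hasFDerivAt.const_smul δ)).fderiv
  have r : ∀ {E : Type} [NormedAddCommGroup E] [NormedSpace ℝ E] (h : Vec d → E), RD h →
      RD fun v => δ • h v := by
    intro E _ _ h hh
    refine hh.mono |δ| fun v => ?_
    rw [norm_smul, Real.norm_eq_abs]
  refine ⟨hg.smooth.add (contDiff_const.mul hm.smooth), ?_, ?_, ?_⟩
  · exact hg.rd.add (r _ hm.rd)
  · rw [e1]; exact hg.rd1.add (r _ hm.rd1)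
  · rw [e2]; exact hg.rd2.add (r _ hm.rd2)

private theorem entB_fd1 {g : Vec d → ℝ} (hg : Nice g) (δ : ℝ) (v : Vec d) :
    fderiv ℝ (fun v => g v + δ * gau v) v = fderiv ℝ g v + δ • fderiv ℝ gau v :=
  ((hg.diff v).hasFDerivAt.add (((nice_gau (d := d)).diff v).hasFDerivAt.const_mul δ)).fderiv

private theorem entB_fd2 {g : Vec d → ℝ} (hg : Nice g) (δ : ℝ) (v : Vec d) :
    fderiv ℝ (fderiv ℝ (fun v => g v + δ * gau v)) v =
      fderiv ℝ (fderiv ℝ g) v + δ • fderiv ℝ (fderiv ℝ gau) v := by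
  have e1 : fderiv ℝ (fun v => g v + δ * gau v) = fun v => fderiv ℝ g v + δ • fderiv ℝ gau v :=
    funext fun v => entB_fd1 hg δ v
  rw [e1]
  exact ((hg.diff1 v).hasFDerivAt.add
    (((nice_gau (d := d)).diff1 v).hasFDerivAt.const_smul δ)).fderiv

private theorem entB_unice {Cl : ℕ → ℝ} : ∃ C' : ℕ → ℝ, ∀ g : Vec d → ℝ, UNice Cl g →
    ∀ δ ∈ Ioc (0 : ℝ) 1, UNice C' fun v => g v + δ * gau v := by
  have hm := nice_gau (d := d)
  have h0 : ∀ N, ∃ a, ∀ v : Vec d, (1 + ‖v‖) ^ N * ‖gau v‖ ≤ a := hm.rd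
  have h1 : ∀ N, ∃ a, ∀ v : Vec d, (1 + ‖v‖) ^ N * ‖fderiv ℝ gau v‖ ≤ a := hm.rd1
  have h2 : ∀ N, ∃ a, ∀ v : Vec d, (1 + ‖v‖) ^ N * ‖fderiv ℝ (fderiv ℝ gau) v‖ ≤ a := hm.rd2
  choose a0 ha0 using h0
  choose a1 ha1 using h1
  choose a2 ha2 using h2
  refine ⟨fun N => Cl N + (a0 N + a1 N + a2 N), fun g hg δ hδ => ?_⟩
  have hδ0 : 0 < δ := hδ.1
  have hδ1 : δ ≤ 1 := hδ.2
  refine ⟨entB_nice_add hg.nice δ, fun v => add_nonneg (hg.nonneg v)
    (mul_nonneg hδ0.le (entB_gau_pos v).le), fun N v => ?_⟩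
  have hw : 0 ≤ (1 + ‖v‖) ^ N := pow_nonneg (w_pos v).le _
  rw [entB_fd1 hg.nice, entB_fd2 hg.nice]
  have b0 : δ * gau v ≤ ‖gau v‖ := by
    rw [Real.norm_eq_abs, abs_of_pos (entB_gau_pos v)]
    have := mul_le_mul_of_nonneg_right hδ1 (entB_gau_pos v).le
    rwa [one_mul] at this
  have b1 : ‖fderiv ℝ g v + δ • fderiv ℝ gau v‖ ≤ ‖fderiv ℝ g v‖ + ‖fderiv ℝ gau v‖ := by
    refine (norm_add_le _ _).trans (add_le_add le_rfl ?_)
    rw [norm_smul, Real.norm_eq_abs, abs_of_pos hδ0]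
    have := mul_le_mul_of_nonneg_right hδ1 (norm_nonneg (fderiv ℝ (gau (d := d)) v))
    rwa [one_mul] at this
  have b2 : ‖fderiv ℝ (fderiv ℝ g) v + δ • fderiv ℝ (fderiv ℝ gau) v‖ ≤
      ‖fderiv ℝ (fderiv ℝ g) v‖ + ‖fderiv ℝ (fderiv ℝ gau) v‖ := by
    refine (norm_add_le (fderiv ℝ (fderiv ℝ g) v)
      (δ • fderiv ℝ (fderiv ℝ gau) v)).trans (add_le_add le_rfl ?_)
    have hs : ‖δ • fderiv ℝ (fderiv ℝ (gau (d := d))) v‖ ≤
        ‖δ‖ * ‖fderiv ℝ (fderiv ℝ (gau (d := d))) v‖ :=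
      ContinuousLinearMap.opNorm_smul_le δ (fderiv ℝ (fderiv ℝ (gau (d := d))) v)
    refine hs.trans ?_
    rw [Real.norm_eq_abs, abs_of_pos hδ0]
    have hn : 0 ≤ ‖fderiv ℝ (fderiv ℝ (gau (d := d))) v‖ :=
      (fderiv ℝ (fderiv ℝ (gau (d := d))) v).opNorm_nonneg
    have := mul_le_mul_of_nonneg_right hδ1 hn
    rwa [one_mul] at this
  have hgl := hg.le N v
  have := ha0 N v
  have := ha1 N v
  have := ha2 N v
  calc (1 + ‖v‖) ^ N * (g v + δ * gau v + ‖fderiv ℝ g v + δ • fderiv ℝ gau v‖ +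
        ‖fderiv ℝ (fderiv ℝ g) v + δ • fderiv ℝ (fderiv ℝ gau) v‖)
      ≤ (1 + ‖v‖) ^ N * (g v + ‖gau v‖ + (‖fderiv ℝ g v‖ + ‖fderiv ℝ gau v‖) +
        (‖fderiv ℝ (fderiv ℝ g) v‖ + ‖fderiv ℝ (fderiv ℝ gau) v‖)) := by
        refine mul_le_mul_of_nonneg_left ?_ hw
        linarith
    _ = (1 + ‖v‖) ^ N * (g v + ‖fderiv ℝ g v‖ + ‖fderiv ℝ (fderiv ℝ g) v‖) +
        ((1 + ‖v‖) ^ N * ‖gau v‖ + (1 + ‖v‖) ^ N * ‖fderiv ℝ gau v‖ +
          (1 + ‖v‖) ^ N * ‖fderiv ℝ (fderiv ℝ gau) v‖) := by ring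
    _ ≤ Cl N + (a0 N + a1 N + a2 N) := by linarith

private theorem entB_small {D L c ε : ℝ} (hε : 0 < ε) :
    ∃ δ₀ > 0, δ₀ ≤ 1 / 2 ∧ ∀ δ ∈ Ioc (0 : ℝ) δ₀, δ * D * (-Real.log δ + c) * L ≤ ε := by
  have h1 : Tendsto (fun δ : ℝ => δ * D * (-Real.log δ + c) * L) (𝓝[>] 0) (𝓝 0) := by
    have h2 : Tendsto (fun δ : ℝ => Real.log δ * δ) (𝓝[>] 0) (𝓝 0) := by
      have := tendsto_log_mul_rpow_nhdsGT_zero (r := 1) one_pos
      simpa using this
    have h3 : Tendsto (fun δ : ℝ => δ) (𝓝[>] 0) (𝓝 0) := tendsto_nhdsWithin_of_tendsto_nhds tendsto_id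
    have h4 : Tendsto (fun δ : ℝ => (-(Real.log δ * δ) + c * δ) * (D * L)) (𝓝[>] 0)
        (𝓝 ((-0 + c * 0) * (D * L))) := ((h2.neg.add (h3.const_mul c)).mul_const _)
    have e : (-0 + c * 0) * (D * L) = 0 := by ring
    rw [e] at h4
    refine h4.congr fun δ => ?_
    ring
  have h5 : ∀ᶠ δ : ℝ in 𝓝[>] 0, δ * D * (-Real.log δ + c) * L < ε := (tendsto_order.1 h1).2 ε hε
  rw [eventually_nhdsWithin_iff, Metric.eventually_nhds_iff] at h5
  obtain ⟨r, hr, h6⟩ := h5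
  refine ⟨min (r / 2) (1 / 2), lt_min (by linarith) (by norm_num), min_le_right _ _,
    fun δ hδ => ?_⟩
  refine (h6 (y := δ) ?_ hδ.1).le
  rw [Real.dist_eq, sub_zero, abs_of_pos hδ.1]
  have := hδ.2.trans (min_le_left _ _)
  linarith

private theorem entB_gau_cut (ε : ℝ) (v : Vec d) : boltzCut γ b ε (gau (d := d)) v = 0 := by
  unfold boltzCut
  refine integral_eq_zero_of_ae (Eventually.of_forall fun w => ?_)
  refine integral_eq_zero_of_ae ?_
  filter_upwards [surf_ae (d := d)] with σ hσ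
  have h : gau (post' v w σ) * gau (post v w σ) = gau w * gau v := by
    unfold gau
    rw [← Real.exp_add, ← Real.exp_add]
    have := energy_post (v := v) (w := w) hσ
    congr 1
    linarith
  rw [h, sub_self, mul_zero]
  rfl

private theorem entB_decomp (H : Hyp d γ s b C Ca) {ε : ℝ} (hε : 0 < ε) {g : Vec d → ℝ} (hg : Nice g)
    (δ : ℝ) {φ : Vec d → ℝ} (hφ : PG φ) (hφm : Measurable φ) :
    ∫ v, boltzCut γ b ε (fun v => g v + δ * gau v) v * φ v =
      (1 - δ) * (∫ v, boltzCut γ b ε g v * φ v) +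
        δ * ∫ v, boltzCut γ b ε (fun v => g v + 1 * gau v) v * φ v := by
  have hG := entB_nice_add hg δ
  have hG1 := entB_nice_add hg 1
  have hM := nice_gau (d := d)
  have z : ∫ v, boltzCut γ b ε (gau (d := d)) v * φ v = 0 := by
    simp_rw [entB_gau_cut, zero_mul]
    exact integral_zero _ _
  rw [entB_weak H hε hM.rd hM.cont hφ hφm] at z
  have i0 := entB_int H hε hg.rd hg.cont hφ hφm
  have i1 := entB_int H hε hG1.rd hG1.cont hφ hφm
  have i2 := entB_int H hε hM.rd hM.cont hφ hφm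
  rw [entB_weak H hε hG.rd hG.cont hφ hφm, entB_weak H hε hg.rd hg.cont hφ hφm,
    entB_weak H hε hG1.rd hG1.cont hφ hφm]
  have e : ∫ p : Vec d × Vec d × Vec d, kerB γ b ε p.1 p.2.1 p.2.2 *
      ((g p.2.1 + δ * gau p.2.1) * (g p.1 + δ * gau p.1)) * entB_X φ p ∂(mu3 d) =
      (1 - δ) * (∫ p : Vec d × Vec d × Vec d, kerB γ b ε p.1 p.2.1 p.2.2 *
        (g p.2.1 * g p.1) * entB_X φ p ∂(mu3 d)) +
      δ * (∫ p : Vec d × Vec d × Vec d, kerB γ b ε p.1 p.2.1 p.2.2 *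
        ((g p.2.1 + 1 * gau p.2.1) * (g p.1 + 1 * gau p.1)) * entB_X φ p ∂(mu3 d)) +
      (δ ^ 2 - δ) * ∫ p : Vec d × Vec d × Vec d, kerB γ b ε p.1 p.2.1 p.2.2 *
        (gau p.2.1 * gau p.1) * entB_X φ p ∂(mu3 d) := by
    have i01 : Integrable (fun p : Vec d × Vec d × Vec d =>
        (1 - δ) * (kerB γ b ε p.1 p.2.1 p.2.2 * (g p.2.1 * g p.1) * entB_X φ p) +
        δ * (kerB γ b ε p.1 p.2.1 p.2.2 *
          ((g p.2.1 + 1 * gau p.2.1) * (g p.1 + 1 * gau p.1)) * entB_X φ p)) (mu3 d) :=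
      (i0.const_mul _).add (i1.const_mul _)
    rw [← integral_const_mul, ← integral_const_mul, ← integral_const_mul,
      ← integral_add (i0.const_mul _) (i1.const_mul _),
      ← integral_add i01 (i2.const_mul _)]
    refine integral_congr_ae (Eventually.of_forall fun p => ?_)
    simp only
    ring
  rw [e]
  have z' : ∫ p : Vec d × Vec d × Vec d, kerB γ b ε p.1 p.2.1 p.2.2 *
        (gau p.2.1 * gau p.1) * entB_X φ p ∂(mu3 d) = 0 := by linarith
  rw [z']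
  ring

private theorem entB_loglog {Cl : ℕ → ℝ} {g : Vec d → ℝ} (hg : UNice Cl g) {δ : ℝ}
    (hδI : δ ∈ Ioc (0 : ℝ) 1) (v : Vec d) : |Real.log (g v + δ * gau v)| ≤
      -Real.log δ + nsq v + Real.log (max (Cl 0) 0 + 1) := by
  have hδ0 : 0 < δ := hδI.1
  have hGpos : 0 < g v + δ * gau v :=
    add_pos_of_nonneg_of_pos (hg.nonneg v) (mul_pos hδ0 (entB_gau_pos v))
  have hlog0 : 0 ≤ Real.log (max (Cl 0) 0 + 1) := Real.log_nonneg (by
    have := le_max_right (Cl 0) 0; linarith)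
  have hlδ : Real.log δ ≤ 0 := Real.log_nonpos hδ0.le hδI.2
  have hn := sq_nonneg' v
  rw [abs_le]
  constructor
  · have h3 : Real.log (δ * gau v) ≤ Real.log (g v + δ * gau v) :=
      Real.log_le_log (mul_pos hδ0 (entB_gau_pos v)) (by linarith [hg.nonneg v])
    have h4 : Real.log (δ * gau v) = Real.log δ - nsq v := by
      rw [Real.log_mul hδ0.ne' (entB_gau_pos v).ne']
      unfold gau
      rw [Real.log_exp]
      ring
    rw [h4] at h3
    linarith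
  · have h3 : g v + δ * gau v ≤ max (Cl 0) 0 + 1 := by
      have h4 : g v ≤ Cl 0 := by
        have := hg.le 0 v
        rw [pow_zero, one_mul] at this
        have := norm_nonneg (fderiv ℝ g v)
        have := norm_nonneg (fderiv ℝ (fderiv ℝ g) v)
        linarith
      have h5 : δ * gau v ≤ 1 := by
        have := mul_le_mul hδI.2 (entB_gau_le_one v) (entB_gau_pos v).le zero_le_one
        linarith
      have := le_max_left (Cl 0) 0
      linarith
    have h6 := Real.log_le_log hGpos h3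
    linarith

lemma reg_props {Cl : ℕ → ℝ} {g : Vec d → ℝ} (hg : UNice Cl g) {δ : ℝ} (hδ : 0 < δ) (hδ1 : δ ≤ 1) :
    RD (fun v => g v + δ * gau v) ∧ Continuous (fun v => g v + δ * gau v) ∧
      (∀ v, 0 < g v + δ * gau v) ∧ PG fun v => Real.log (g v + δ * gau v) := by
  have hG := entB_nice_add hg.nice δ
  have hGpos : ∀ v, 0 < g v + δ * gau v := fun v =>
    add_pos_of_nonneg_of_pos (hg.nonneg v) (mul_pos hδ (entB_gau_pos v))
  refine ⟨hG.rd, hG.cont, hGpos, ?_⟩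
  have hlogle := entB_loglog hg ⟨hδ, hδ1⟩
  have hp : PG fun v : Vec d => -Real.log δ + nsq v + Real.log (max (Cl 0) 0 + 1) :=
    ((PG.const (-Real.log δ)).add PG.nsq).add (PG.const _)
  obtain ⟨N, K, hK⟩ := hp
  refine ⟨N, K, fun v => ?_⟩
  rw [Real.norm_eq_abs]
  refine (hlogle v).trans ((le_abs_self _).trans ?_)
  have := hK v
  rwa [Real.norm_eq_abs] at this

theorem cut_decomp (H : Hyp d γ s b C Ca) (Cl : ℕ → ℝ) {η : ℝ} (hη : 0 < η) :
    ∃ δ₀ > 0, δ₀ ≤ 1 / 2 ∧ ∀ δ ∈ Ioc (0 : ℝ) δ₀, ∀ g : Vec d → ℝ, UNice Cl g → ∀ ε : ℝ, 0 < ε →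
      -∫ v, boltzCut γ b ε (fun v => g v + δ * gau v) v * Real.log (g v + δ * gau v) ≤
        -((1 - δ) * ∫ v, boltzCut γ b ε g v * Real.log (g v + δ * gau v)) + η := by
  obtain ⟨C1, hC1⟩ := entB_unice (d := d) (Cl := Cl)
  obtain ⟨A, hA0, hA⟩ := boltzCut_decay_unif H C1 (d + 3)
  have hI0 : 0 ≤ ∫ z, wt d z := integral_nonneg fun z => wt_nonneg z
  have hlog0 : 0 ≤ Real.log (max (Cl 0) 0 + 1) := Real.log_nonneg (by
    have := le_max_right (Cl 0) 0; linarith)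
  obtain ⟨δ₀, hδ₀, hδ₀1, hsm⟩ := entB_small (D := 2 * A) (L := ∫ z, wt d z)
    (c := (d : ℝ) + Real.log (max (Cl 0) 0 + 1)) hη
  refine ⟨δ₀, hδ₀, hδ₀1, fun δ hδ g hg ε' hε'0 => ?_⟩
  have hδ0 : 0 < δ := hδ.1
  have hδh : δ ≤ 1 / 2 := hδ.2.trans hδ₀1
  have hδI : δ ∈ Ioc (0 : ℝ) 1 := ⟨hδ.1, by linarith⟩
  have hlogle := entB_loglog hg hδI
  obtain ⟨_, hGc, hGpos, hlPG⟩ := reg_props hg hδ0 hδI.2
  have hlm : Measurable fun v => Real.log (g v + δ * gau v) := hGc.measurable.log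
  rw [entB_decomp H hε'0 hg.nice δ hlPG hlm]
  set J := ∫ v, boltzCut γ b ε' g v * Real.log (g v + δ * gau v) with hJ
  have e2 : |∫ v, boltzCut γ b ε' (fun v => g v + 1 * gau v) v * Real.log (g v + δ * gau v)| ≤
        ∫ v, A * (-Real.log δ + ((d : ℝ) + Real.log (max (Cl 0) 0 + 1))) * wt d v := by
    rw [← Real.norm_eq_abs]
    refine norm_integral_le_of_norm_le (integrable_wt.const_mul _)
      (Eventually.of_forall fun v => ?_)
    rw [norm_mul, Real.norm_eq_abs, Real.norm_eq_abs]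
    have hw := w_pos v
    have h3 := hA _ (hC1 g hg 1 ⟨one_pos, le_refl _⟩) ε' hε'0 v
    have h4 := hlogle v
    have hlδ : 0 ≤ -Real.log δ := neg_nonneg.2 (Real.log_nonpos hδ0.le hδI.2)
    have h5 : -Real.log δ + nsq v + Real.log (max (Cl 0) 0 + 1) ≤
        (-Real.log δ + ((d : ℝ) + Real.log (max (Cl 0) 0 + 1))) * (1 + ‖v‖) ^ 2 := by
      have h6 := sq_le v
      have h7 : (1 : ℝ) ≤ (1 + ‖v‖) ^ 2 := one_le_pow₀ (one_le_w v)
      have h8 : ‖v‖ ^ 2 ≤ (1 + ‖v‖) ^ 2 :=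
        pow_le_pow_left₀ (norm_nonneg v) (by linarith [norm_nonneg v]) 2
      have hd : (0 : ℝ) ≤ d := Nat.cast_nonneg d
      have h9 : nsq v ≤ d * (1 + ‖v‖) ^ 2 := h6.trans (mul_le_mul_of_nonneg_left h8 hd)
      have h10 := mul_le_mul_of_nonneg_left h7 hlδ
      have h11 := mul_le_mul_of_nonneg_left h7 hlog0
      have h12 : (-Real.log δ + ((d : ℝ) + Real.log (max (Cl 0) 0 + 1))) * (1 + ‖v‖) ^ 2 =
          -Real.log δ * (1 + ‖v‖) ^ 2 + d * (1 + ‖v‖) ^ 2 +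
            Real.log (max (Cl 0) 0 + 1) * (1 + ‖v‖) ^ 2 := by ring
      rw [h12]
      linarith only [h9, h10, h11]
    have hwt : ((1 + ‖v‖) ^ (d + 3))⁻¹ * (1 + ‖v‖) ^ 2 = wt d v := by
      unfold wt
      have e7 : (1 + ‖v‖) ^ (d + 3) = (1 + ‖v‖) ^ (d + 1) * (1 + ‖v‖) ^ 2 := by ring
      have hne : (1 + ‖v‖) ^ 2 ≠ 0 := (pow_pos hw _).ne'
      rw [e7, mul_inv, mul_assoc, inv_mul_cancel₀ hne, mul_one]
    calc |boltzCut γ b ε' (fun v => g v + 1 * gau v) v| * |Real.log (g v + δ * gau v)|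
        ≤ (A * ((1 + ‖v‖) ^ (d + 3))⁻¹) *
          ((-Real.log δ + ((d : ℝ) + Real.log (max (Cl 0) 0 + 1))) * (1 + ‖v‖) ^ 2) :=
          mul_le_mul h3 (h4.trans h5) (abs_nonneg _) (by positivity)
      _ = A * (-Real.log δ + ((d : ℝ) + Real.log (max (Cl 0) 0 + 1))) *
          (((1 + ‖v‖) ^ (d + 3))⁻¹ * (1 + ‖v‖) ^ 2) := by ring
      _ = A * (-Real.log δ + ((d : ℝ) + Real.log (max (Cl 0) 0 + 1))) * wt d v := by rw [hwt]
  rw [integral_const_mul] at e2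
  set U := A * (-Real.log δ + ((d : ℝ) + Real.log (max (Cl 0) 0 + 1))) * ∫ v, wt d v with hU
  have e5 := (abs_le.1 e2).1
  have hsm' := hsm δ hδ
  have hlδ : 0 ≤ -Real.log δ := neg_nonneg.2 (Real.log_nonpos hδ0.le hδI.2)
  have hU0 : 0 ≤ U := by positivity
  have hU2 : δ * (2 * A) * (-Real.log δ + ((d : ℝ) + Real.log (max (Cl 0) 0 + 1))) *
      ∫ v, wt d v = 2 * δ * U := by rw [hU]; ring
  rw [hU2] at hsm'
  have h6 := mul_le_mul_of_nonneg_left e5 hδ0.le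
  have h7 : 0 ≤ δ * U := mul_nonneg hδ0.le hU0
  linarith

theorem XS_reg (ha : 0 ≤ a) (ha1 : a ≤ 1) (Cl : ℕ → ℝ) {η : ℝ} (hη : 0 < η) :
    ∃ δ₀ > 0, ∀ δ ∈ Ioc (0 : ℝ) δ₀, ∀ g : Vec d → ℝ, UNice Cl g → ∀ A : Set (Vec d × Vec d),
      MeasurableSet A → XS a (fun v => g v + δ * gau v) A ≤ XS a g A + η := by
  obtain ⟨cg, hcg⟩ : ∃ c, ∀ v : Vec d, (1 + ‖v‖) ^ (d + 4) * ‖gau v‖ ≤ c := (nice_gau (d := d)).rd (d + 4)
  set M : ℝ := max (max (Cl (d + 4)) cg) 0 with hM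
  have hM0 : 0 ≤ M := le_max_right _ _
  have hMC : Cl (d + 4) ≤ M := (le_max_left _ _).trans (le_max_left _ _)
  have hMg : cg ≤ M := (le_max_right _ _).trans (le_max_left _ _)
  set W : ℝ := 4 * (2 * ((d : ℝ) + 1) ^ 2) ^ 3 with hW
  have hd0 : (0 : ℝ) ≤ d := Nat.cast_nonneg d
  have hW0 : 0 ≤ W := by positivity
  set I : ℝ := (∫ z, wt d z) * ∫ z, wt d z with hI
  have hI1 : 0 ≤ ∫ z, wt d z := integral_nonneg fun z => wt_nonneg z
  have hI0 : 0 ≤ I := mul_nonneg hI1 hI1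
  set K : ℝ := 3 * (M * M) * W with hK
  have hK0 : 0 ≤ K := by positivity
  have hKI : 0 ≤ K * I := mul_nonneg hK0 hI0
  refine ⟨min 1 (η / (K * I + 1)), lt_min one_pos (div_pos hη (by linarith)), fun δ hδ g hg A hA => ?_⟩
  have hδ0 : 0 < δ := hδ.1
  have hδ1 : δ ≤ 1 := hδ.2.trans (min_le_left _ _)
  have hδ2 : δ * (K * I) ≤ η := by
    have h1 : δ ≤ η / (K * I + 1) := hδ.2.trans (min_le_right _ _)
    rw [le_div_iff₀ (by linarith)] at h1
    have h2 : δ * (K * I) ≤ δ * (K * I + 1) := mul_le_mul_of_nonneg_left (by linarith) hδ0.le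
    linarith
  obtain ⟨hGrd, hGc, hGpos, -⟩ := reg_props hg hδ0 hδ1
  have iG := dens_integrable ha ha1 hGrd hGc
  have ig := dens_integrable ha ha1 hg.nice.rd hg.nice.cont
  have iw : Integrable fun p : Vec d × Vec d => wt d p.1 * wt d p.2 :=
    (integrable_wt (d := d)).mul_prod integrable_wt
  have bw : ∀ (h : Vec d → ℝ), (∀ v, 0 ≤ h v) → (∀ v, (1 + ‖v‖) ^ (d + 4) * h v ≤ M) →
      ∀ v, h v * (1 + ‖v‖) ^ 3 ≤ M * wt d v := by
    intro h _ hb v
    have hw := w_pos v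
    unfold wt
    rw [← div_eq_mul_inv, le_div_iff₀ (pow_pos hw _)]
    have := hb v
    calc h v * (1 + ‖v‖) ^ 3 * (1 + ‖v‖) ^ (d + 1) = (1 + ‖v‖) ^ (d + 4) * h v := by ring
      _ ≤ M := this
  have bg := bw g hg.nonneg fun v => by
    have h1 := hg.le (d + 4) v
    have h2 : 0 ≤ (1 + ‖v‖) ^ (d + 4) := pow_nonneg (w_pos v).le _
    have h3 : (1 + ‖v‖) ^ (d + 4) * g v ≤
        (1 + ‖v‖) ^ (d + 4) * (g v + ‖fderiv ℝ g v‖ + ‖fderiv ℝ (fderiv ℝ g) v‖) :=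
      mul_le_mul_of_nonneg_left (by
        have := norm_nonneg (fderiv ℝ g v)
        have := norm_nonneg (fderiv ℝ (fderiv ℝ g) v)
        linarith) h2
    linarith
  have bm := bw gau (fun v => (entB_gau_pos v).le) fun v => by
    have h1 := hcg v
    rw [Real.norm_eq_abs, abs_of_pos (entB_gau_pos v)] at h1
    linarith
  have key : ∀ p : Vec d × Vec d, dens a (fun v => g v + δ * gau v) p ≤
      dens a g p + δ * K * (wt d p.1 * wt d p.2) := by
    rintro ⟨v, w⟩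
    have hR1 := one_le_RR v w
    have hwv := w_pos v
    have hww := w_pos w
    have gv := hg.nonneg v
    have gw := hg.nonneg w
    have mv := (entB_gau_pos v).le
    have mw := (entB_gau_pos w).le
    have hl0 : 0 ≤ len (v - w) := Real.sqrt_nonneg _
    -- the weight
    have hwt0 : 0 ≤ len (v - w) ^ (1 + a) * RR v w ^ a :=
      mul_nonneg (Real.rpow_nonneg hl0 _) (Real.rpow_nonneg (by linarith) _)
    have hwt : len (v - w) ^ (1 + a) * RR v w ^ a ≤ W * ((1 + ‖v‖) ^ 3 * (1 + ‖w‖) ^ 3) := by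
      have h1 : len (v - w) ^ (1 + a) ≤ (2 * RR v w) ^ (1 + a) :=
        Real.rpow_le_rpow hl0 (len_le_RR v w) (by linarith)
      have h2 : (2 * RR v w) ^ (1 + a) ≤ 4 * RR v w ^ (1 + a) := by
        rw [Real.mul_rpow (by norm_num) (by linarith)]
        refine mul_le_mul_of_nonneg_right ?_ (Real.rpow_nonneg (by linarith) _)
        calc (2 : ℝ) ^ (1 + a) ≤ 2 ^ (2 : ℝ) :=
              Real.rpow_le_rpow_of_exponent_le (by norm_num) (by linarith)
          _ = 4 := by norm_num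
      have h3 : RR v w ^ (1 + a) * RR v w ^ a ≤ RR v w ^ 3 := by
        rw [← Real.rpow_add (by linarith)]
        calc RR v w ^ (1 + a + a) ≤ RR v w ^ (3 : ℝ) :=
              Real.rpow_le_rpow_of_exponent_le hR1 (by linarith)
          _ = RR v w ^ 3 := by
              rw [show (3 : ℝ) = ((3 : ℕ) : ℝ) by norm_num, Real.rpow_natCast]
      have h4 : RR v w ≤ 2 * ((d : ℝ) + 1) ^ 2 * ((1 + ‖v‖) * (1 + ‖w‖)) := by
        have q1 := RR_le v w
        have q2 := jb_le_w v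
        have q3 := jb_le_w w
        have q4 := one_le_w v
        have q5 := one_le_w w
        have q6 : 1 + ‖v‖ ≤ (1 + ‖v‖) * (1 + ‖w‖) := le_mul_of_one_le_right hwv.le q5
        have q7 : 1 + ‖w‖ ≤ (1 + ‖v‖) * (1 + ‖w‖) := le_mul_of_one_le_left hww.le q4
        have q8 : (d : ℝ) + 1 ≤ ((d : ℝ) + 1) ^ 2 :=
          le_self_pow₀ (by linarith only [hd0]) two_ne_zero
        have q9 : 0 ≤ (1 + ‖v‖) * (1 + ‖w‖) := by positivity
        have q10 : ((d : ℝ) + 1) * (1 + ‖v‖) ≤ ((d : ℝ) + 1) ^ 2 * ((1 + ‖v‖) * (1 + ‖w‖)) :=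
          mul_le_mul q8 q6 hwv.le (by positivity)
        have q11 : ((d : ℝ) + 1) * (1 + ‖w‖) ≤ ((d : ℝ) + 1) ^ 2 * ((1 + ‖v‖) * (1 + ‖w‖)) :=
          mul_le_mul q8 q7 hww.le (by positivity)
        linarith
      have h5 : RR v w ^ 3 ≤ (2 * ((d : ℝ) + 1) ^ 2 * ((1 + ‖v‖) * (1 + ‖w‖))) ^ 3 :=
        pow_le_pow_left₀ (by linarith) h4 3
      have hRa : 0 ≤ RR v w ^ a := Real.rpow_nonneg (by linarith) _
      calc len (v - w) ^ (1 + a) * RR v w ^ a
          ≤ (4 * RR v w ^ (1 + a)) * RR v w ^ a :=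
            mul_le_mul_of_nonneg_right (h1.trans h2) hRa
        _ = 4 * (RR v w ^ (1 + a) * RR v w ^ a) := by ring
        _ ≤ 4 * (2 * ((d : ℝ) + 1) ^ 2 * ((1 + ‖v‖) * (1 + ‖w‖))) ^ 3 := by linarith
        _ = W * ((1 + ‖v‖) ^ 3 * (1 + ‖w‖) ^ 3) := by rw [hW]; ring
    have hS0 : 0 ≤ g v * gau w + gau v * g w + gau v * gau w := by positivity
    have hprod : (g v + δ * gau v) * (g w + δ * gau w) ≤
        g v * g w + δ * (g v * gau w + gau v * g w + gau v * gau w) := by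
      have h1 : δ * δ * (gau v * gau w) ≤ δ * (gau v * gau w) := by
        exact mul_le_mul_of_nonneg_right (mul_le_of_le_one_right hδ0.le hδ1) (mul_nonneg mv mw)
      have h2 : (g v + δ * gau v) * (g w + δ * gau w) =
          g v * g w + δ * (g v * gau w) + δ * (gau v * g w) + δ * δ * (gau v * gau w) := by ring
      have h3 : g v * g w + δ * (g v * gau w + gau v * g w + gau v * gau w) =
          g v * g w + δ * (g v * gau w) + δ * (gau v * g w) + δ * (gau v * gau w) := by ring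
      rw [h2, h3]
      linarith only [h1]
    have hterm : ∀ x y : ℝ, 0 ≤ x → 0 ≤ y → x * (1 + ‖v‖) ^ 3 ≤ M * wt d v →
        y * (1 + ‖w‖) ^ 3 ≤ M * wt d w →
        x * y * ((1 + ‖v‖) ^ 3 * (1 + ‖w‖) ^ 3) ≤ M * M * (wt d v * wt d w) := by
      intro x y hx hy h1 h2
      have h3 : 0 ≤ M * wt d v := mul_nonneg hM0 (wt_nonneg v)
      have := mul_le_mul h1 h2 (mul_nonneg hy (pow_nonneg hww.le _)) h3
      calc x * y * ((1 + ‖v‖) ^ 3 * (1 + ‖w‖) ^ 3)
          = x * (1 + ‖v‖) ^ 3 * (y * (1 + ‖w‖) ^ 3) := by ring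
        _ ≤ M * wt d v * (M * wt d w) := this
        _ = M * M * (wt d v * wt d w) := by ring
    have t1 := hterm (g v) (gau w) gv mw (bg v) (bm w)
    have t2 := hterm (gau v) (g w) mv gw (bm v) (bg w)
    have t3 := hterm (gau v) (gau w) mv mw (bm v) (bm w)
    have hsum : (g v * gau w + gau v * g w + gau v * gau w) *
        (len (v - w) ^ (1 + a) * RR v w ^ a) ≤ K * (wt d v * wt d w) := by
      have h1 := mul_le_mul_of_nonneg_left hwt hS0
      have h2 : (g v * gau w + gau v * g w + gau v * gau w) *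
          ((1 + ‖v‖) ^ 3 * (1 + ‖w‖) ^ 3) ≤ 3 * (M * M * (wt d v * wt d w)) := by linarith
      have h3 := mul_le_mul_of_nonneg_left h2 hW0
      calc (g v * gau w + gau v * g w + gau v * gau w) *
            (len (v - w) ^ (1 + a) * RR v w ^ a)
          ≤ (g v * gau w + gau v * g w + gau v * gau w) *
            (W * ((1 + ‖v‖) ^ 3 * (1 + ‖w‖) ^ 3)) := h1
        _ = W * ((g v * gau w + gau v * g w + gau v * gau w) *
            ((1 + ‖v‖) ^ 3 * (1 + ‖w‖) ^ 3)) := by ring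
        _ ≤ W * (3 * (M * M * (wt d v * wt d w))) := h3
        _ = K * (wt d v * wt d w) := by rw [hK]; ring
    have h1 := mul_le_mul_of_nonneg_right hprod hwt0
    have h2 := mul_le_mul_of_nonneg_left hsum hδ0.le
    simp only [dens]
    calc (g v + δ * gau v) * (g w + δ * gau w) * (len (v - w) ^ (1 + a) * RR v w ^ a)
        ≤ (g v * g w + δ * (g v * gau w + gau v * g w + gau v * gau w)) *
          (len (v - w) ^ (1 + a) * RR v w ^ a) := h1
      _ = g v * g w * (len (v - w) ^ (1 + a) * RR v w ^ a) +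
          δ * ((g v * gau w + gau v * g w + gau v * gau w) *
            (len (v - w) ^ (1 + a) * RR v w ^ a)) := by ring
      _ ≤ g v * g w * (len (v - w) ^ (1 + a) * RR v w ^ a) + δ * K * (wt d v * wt d w) := by
          linarith
  have hmono : XS a (fun v => g v + δ * gau v) A ≤
      ∫ p in A, (dens a g p + δ * K * (wt d p.1 * wt d p.2)) := by
    unfold XS
    exact setIntegral_mono iG.integrableOn (ig.add (iw.const_mul _)).integrableOn key
  have hsplit : ∫ p in A, (dens a g p + δ * K * (wt d p.1 * wt d p.2)) =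
      XS a g A + δ * K * ∫ p in A, wt d p.1 * wt d p.2 := by
    unfold XS
    rw [integral_add ig.integrableOn (iw.const_mul _).integrableOn, integral_const_mul]
  have hwI : ∫ p in A, wt d p.1 * wt d p.2 ≤ I := by
    have h1 : ∫ p in A, wt d p.1 * wt d p.2 ≤ ∫ p : Vec d × Vec d, wt d p.1 * wt d p.2 :=
      setIntegral_le_integral iw (Eventually.of_forall fun p => mul_nonneg (wt_nonneg _) (wt_nonneg _))
    refine h1.trans (le_of_eq ?_)
    rw [hI]
    exact integral_prod_mul (wt d) (wt d)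
  have h3 : δ * K * ∫ p in A, wt d p.1 * wt d p.2 ≤ δ * K * I :=
    mul_le_mul_of_nonneg_left hwI (mul_nonneg hδ0.le hK0)
  have h4 : δ * K * I = δ * (K * I) := by ring
  linarith

end Pool.Agent.H48.PL
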