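import Pool.Agent.H48.PL.Wgt

/-!
# Module ThH: `w ↦ Th(v,w)` is Holder

`m(w) = min(jb v, jb w)`, 1-Lipschitz (w.r.t. `len`), `1 ≤ m ≤ jb v`. Let `jb w ≤ jb w'` (otherwise exchange), so
`m(w) ≤ m(w') ≤ jb w'`.
`Th v w - Th v w' = m(w')^Q (h(v_e-w_e) - h(v_e-w'_e)) + (m(w)^Q - m(w')^Q) h(v_e-w_e)`, `h = sp α`, `Q = q + (a-α)`.
-/

set_option autoImplicit false

open MeasureTheory Set Filter Topology Pool.Agent.H25.Kin

namespace Pool.Agent.H48.PL

variable {d : ℕ} {s a α : ℝ}

/-- Bernoulli -/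
private lemma rpow_sub_le {x y Q : ℝ} (hx : 0 ≤ x) (hxy : x ≤ y) (hy : 0 < y) (hQ : 1 ≤ Q) :
    y ^ Q - x ^ Q ≤ Q * (y ^ (Q - 1) * (y - x)) := by
  have h1 : -1 ≤ x / y - 1 := by
    have : 0 ≤ x / y := div_nonneg hx hy.le
    linarith
  have h2 := one_add_mul_self_le_rpow_one_add h1 hQ
  have h3 : 1 + (x / y - 1) = x / y := by ring
  rw [h3, Real.div_rpow hx hy.le] at h2
  have h4 : 0 < y ^ Q := Real.rpow_pos_of_pos hy Q
  have h5 : y ^ Q * (1 + Q * (x / y - 1)) ≤ y ^ Q * (x ^ Q / y ^ Q) :=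
    mul_le_mul_of_nonneg_left h2 h4.le
  have h6 : y ^ Q * (x ^ Q / y ^ Q) = x ^ Q := by field_simp
  have h7 : y ^ Q = y ^ (Q - 1) * y := by
    rw [← Real.rpow_add_one hy.ne' (Q - 1)]
    congr 1
    ring
  have h8 : y ^ Q * (Q * (x / y - 1)) = - (Q * (y ^ (Q - 1) * (y - x))) := by
    rw [h7]
    field_simp
    ring
  rw [h6, mul_add, h8] at h5
  linarith

private lemma Th_holder_aux (P : PP s a α) (e : Fin d) (v w w' : Vec d) (hw : jb w ≤ jb w') :
    |Th e s a α v w - Th e s a α v w'| ≤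
      8 * jb v ^ qq s a α * (jb w' ^ (a - α) * len (w - w') ^ α) := by
  obtain ⟨hα0, ha0, ha1, -⟩ := P.hs0
  obtain ⟨hq1, hq2, hQ1, hQq⟩ := P.hq1
  have hαa := P.hαa
  have hα1 : α ≤ 1 := by linarith
  have hv1 := one_le_jb v
  have hw1 := one_le_jb w
  have hw'1 := one_le_jb w'
  have hv0 := jb_pos v
  have hw'0 := jb_pos w'
  set J := jb v with hJ
  set W := jb w' with hW
  set q := qq s a α with hq
  set Q := QQ s a α with hQ
  set L := len (w - w') with hL
  have hL0 : 0 ≤ L := len_nonneg _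
  set m := min J (jb w) with hm
  set m' := min J W with hm'
  have hm1 : 1 ≤ m := le_min hv1 hw1
  have hmm' : m ≤ m' := min_le_min_left J hw
  have hm'J : m' ≤ J := min_le_left _ _
  have hm'W : m' ≤ W := min_le_right _ _
  have hm'0 : 0 < m' := by linarith
  -- powers of `m'`
  have hpow : ∀ r : ℝ, 0 ≤ r → m' ^ (r + (a - α)) ≤ J ^ r * W ^ (a - α) := by
    intro r hr
    rw [Real.rpow_add hm'0]
    exact mul_le_mul (Real.rpow_le_rpow hm'0.le hm'J hr)
      (Real.rpow_le_rpow hm'0.le hm'W (by linarith)) (Real.rpow_nonneg hm'0.le _)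
      (Real.rpow_nonneg hv0.le _)
  have hLα : 0 ≤ L ^ α := Real.rpow_nonneg hL0 _
  have hWa : 0 ≤ W ^ (a - α) := Real.rpow_nonneg hw'0.le _
  have hJq : 0 ≤ J ^ q := Real.rpow_nonneg hv0.le _
  -- the decomposition
  have hdec : Th e s a α v w - Th e s a α v w' =
      m' ^ Q * (sp α (v e - w e) - sp α (v e - w' e)) + (m ^ Q - m' ^ Q) * sp α (v e - w e) := by
    unfold Th
    ring
  -- first term
  have h1 : |m' ^ Q * (sp α (v e - w e) - sp α (v e - w' e))| ≤
      2 * (J ^ q * (W ^ (a - α) * L ^ α)) := by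
    rw [abs_mul, abs_of_nonneg (Real.rpow_nonneg hm'0.le Q)]
    have h2 : |sp α (v e - w e) - sp α (v e - w' e)| ≤ 2 * L ^ α := by
      refine (sp_holder hα0 hα1 _ _).trans ?_
      have h3 : |v e - w e - (v e - w' e)| ≤ L := by
        have h4 : v e - w e - (v e - w' e) = -((w - w') e) := by
          simp only [Pi.sub_apply]
          ring
        rw [h4, abs_neg]
        exact abs_coord_le _ _
      have h5 := Real.rpow_le_rpow (abs_nonneg _) h3 hα0.le
      linarith
    have h3 : m' ^ Q ≤ J ^ q * W ^ (a - α) := by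
      rw [hQq]
      exact hpow q (by linarith)
    calc m' ^ Q * |sp α (v e - w e) - sp α (v e - w' e)|
        ≤ (J ^ q * W ^ (a - α)) * (2 * L ^ α) :=
          mul_le_mul h3 h2 (abs_nonneg _) (mul_nonneg hJq hWa)
      _ = 2 * (J ^ q * (W ^ (a - α) * L ^ α)) := by ring
  -- second term
  have h2 : |(m ^ Q - m' ^ Q) * sp α (v e - w e)| ≤ 6 * (J ^ q * (W ^ (a - α) * L ^ α)) := by
    have hR : 0 ≤ 6 * (J ^ q * (W ^ (a - α) * L ^ α)) :=
      mul_nonneg (by norm_num) (mul_nonneg hJq (mul_nonneg hWa hLα))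
    rcases le_or_gt J (jb w) with hc | hc
    · have h3 : m = m' := by
        rw [hm, hm', min_eq_left hc, min_eq_left (hc.trans hw)]
      rw [h3, sub_self, zero_mul, abs_zero]
      exact hR
    · have hmw : m = jb w := min_eq_right hc.le
      have hsp : |sp α (v e - w e)| ≤ 2 * J ^ α := by
        rw [abs_sp]
        have h4 : |v e - w e| ≤ 2 * J := by
          have h5 : |(v - w) e| ≤ len (v - w) := abs_coord_le _ _
          have h6 := len_sub_le v w
          have h7 := len_le_jb v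
          have h8 := len_le_jb w
          have h9 : (v - w) e = v e - w e := rfl
          rw [h9] at h5
          linarith
        have h5 := Real.rpow_le_rpow (abs_nonneg _) h4 hα0.le
        rw [Real.mul_rpow (by norm_num) hv0.le] at h5
        have h6 : (2 : ℝ) ^ α ≤ 2 := by
          have := Real.rpow_le_rpow_of_exponent_le (by norm_num : (1 : ℝ) ≤ 2) hα1
          rwa [Real.rpow_one] at this
        have h7 : 0 ≤ J ^ α := Real.rpow_nonneg hv0.le _
        nlinarith
      have hdiff : |m ^ Q - m' ^ Q| ≤ 3 * ((J ^ (q - 1) * W ^ (a - α)) * (L ^ α * J ^ (1 - α))) := by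
        have h4 : m ^ Q ≤ m' ^ Q := Real.rpow_le_rpow (by linarith) hmm' (by linarith)
        rw [abs_sub_comm, abs_of_nonneg (by linarith)]
        have h5 := rpow_sub_le (by linarith : 0 ≤ m) hmm' hm'0 hQ1
        have h6 : m' ^ (Q - 1) ≤ J ^ (q - 1) * W ^ (a - α) := by
          have h7 : Q - 1 = (q - 1) + (a - α) := by rw [hQq]; ring
          rw [h7]
          exact hpow (q - 1) (by linarith)
        have ht0 : 0 ≤ m' - m := by linarith
        have ht1 : m' - m ≤ L := by
          have h7 := jb_lip w' w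
          have h8 : len (w' - w) = L := by rw [hL, len_comm]
          have h9 := le_abs_self (jb w' - jb w)
          rw [h8] at h7
          rw [hmw]
          linarith
        have ht2 : m' - m ≤ J := by linarith
        have h7 : m' - m ≤ L ^ α * J ^ (1 - α) := by
          rcases ht0.eq_or_lt with h8 | h8
          · rw [← h8]
            exact mul_nonneg hLα (Real.rpow_nonneg hv0.le _)
          · have h9 : m' - m = (m' - m) ^ α * (m' - m) ^ (1 - α) := by
              rw [← Real.rpow_add h8]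
              have : α + (1 - α) = 1 := by ring
              rw [this, Real.rpow_one]
            rw [h9]
            exact mul_le_mul (Real.rpow_le_rpow ht0 ht1 hα0.le)
              (Real.rpow_le_rpow ht0 ht2 (by linarith)) (Real.rpow_nonneg ht0 _) hLα
        have h8 : m' ^ (Q - 1) * (m' - m) ≤
            (J ^ (q - 1) * W ^ (a - α)) * (L ^ α * J ^ (1 - α)) :=
          mul_le_mul h6 h7 ht0 (mul_nonneg (Real.rpow_nonneg hv0.le _) hWa)
        have h9 : 0 ≤ m' ^ (Q - 1) * (m' - m) :=
          mul_nonneg (Real.rpow_nonneg hm'0.le _) ht0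
        have h10 : Q ≤ 3 := by linarith
        calc m' ^ Q - m ^ Q ≤ Q * (m' ^ (Q - 1) * (m' - m)) := h5
          _ ≤ 3 * (m' ^ (Q - 1) * (m' - m)) := mul_le_mul_of_nonneg_right h10 h9
          _ ≤ _ := by linarith
      rw [abs_mul]
      have hfin : (J ^ (q - 1) * J ^ (1 - α)) * J ^ α = J ^ q := by
        rw [← Real.rpow_add hv0, ← Real.rpow_add hv0]
        congr 1
        ring
      calc |m ^ Q - m' ^ Q| * |sp α (v e - w e)|
          ≤ (3 * ((J ^ (q - 1) * W ^ (a - α)) * (L ^ α * J ^ (1 - α)))) * (2 * J ^ α) :=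
            mul_le_mul hdiff hsp (abs_nonneg _) (by
              have h3 := Real.rpow_nonneg hv0.le (q - 1)
              have h4 := Real.rpow_nonneg hv0.le (1 - α)
              positivity)
        _ = 6 * (((J ^ (q - 1) * J ^ (1 - α)) * J ^ α) * (W ^ (a - α) * L ^ α)) := by ring
        _ = 6 * (J ^ q * (W ^ (a - α) * L ^ α)) := by rw [hfin]
  rw [hdec]
  refine (abs_add_le _ _).trans ?_
  have h3 : 8 * J ^ q * (W ^ (a - α) * L ^ α) = 2 * (J ^ q * (W ^ (a - α) * L ^ α)) +
      6 * (J ^ q * (W ^ (a - α) * L ^ α)) := by ring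
  rw [h3]
  exact add_le_add h1 h2

lemma Th_holder (P : PP s a α) (e : Fin d) (v w w' : Vec d) :
    |Th e s a α v w - Th e s a α v w'| ≤
      8 * jb v ^ qq s a α * (max (jb w) (jb w') ^ (a - α) * len (w - w') ^ α) := by
  rcases le_total (jb w) (jb w') with h | h
  · rw [max_eq_right h]
    exact Th_holder_aux P e v w w' h
  · rw [max_eq_left h, abs_sub_comm, len_comm w w']
    exact Th_holder_aux P e v w' w h

end Pool.Agent.H48.PL
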