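import Pool.Agent.H48.PL.JB

/-!
# Module PovG: geometry of a collision with a slow partner

`δ ≤ 1/100`, `jb w ≤ δ R` (or the same for `v`), `0 ≤ x = cosTh ≤ 1/2`. Then `1 ≤ jb w ≤ δR`, `jb v² = R² - jb w² ≥ (1-δ²)R²`,
`len v ≥ jb v - 1 ≥ (√(1-δ²) - δ) R ≥ .9899 R`, `len w ≤ δR`, `|V| ∈ [.9798 R, 1.01 R]`. `nsq (post - v) = |V|²(1-x)/2 ∈ [|V|²/4, |V|²/2]`
(`nsq_post_sub`), so `len(post - v) ≤ .7142 R` and `len (post' - w) ≥ |V|/2 ≥ .4899 R`:
`len post ≥ len v - len(post-v) ≥ .275 R`, `len post' ≥ len(post'-w) - len w ≥ .47 R`. And `jb ≥ len`. The second case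
(`jb v ≤ δR`) is the same with the roles exchanged.
-/

set_option autoImplicit false

open MeasureTheory Set Filter Topology Pool.Agent.H25.Kin

namespace Pool.Agent.H48.PL

variable {d : ℕ}

private lemma pov_nn (z : Vec d) : 0 ≤ len z := Real.sqrt_nonneg _

private lemma pov_sub (u v : Vec d) : len (u - v) = len (v - u) := by
  rw [← len_neg (u - v), neg_sub]

private lemma pov_core {δ : ℝ} (hδ1 : δ ≤ 1 / 100) {v w p q : Vec d} {c : ℝ}
    (hw : jb w ≤ δ * RR v w) (hp : nsq (p - v) = nsq (v - w) * c) (hq : nsq (q - w) = nsq (v - w) * c)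
    (hc0 : 1 / 4 ≤ c) (hc1 : c ≤ 1 / 2) : RR v w / 4 ≤ jb p ∧ RR v w / 4 ≤ jb q := by
  have hR := RR_pos v w
  have hw1 := one_le_jb w
  have hwR : jb w ≤ 1 / 100 * RR v w := hw.trans (mul_le_mul_of_nonneg_right hδ1 hR.le)
  have hR100 : 100 ≤ RR v w := by linarith
  have hsq := RR_sq v w
  have hvj := one_le_jb v
  have hjv : 9999 / 10000 * RR v w ≤ jb v := by
    by_contra h
    push Not at h
    nlinarith
  have hjvs := jb_sq v
  rw [← len_sq] at hjvs
  have hlv0 := pov_nn v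
  have hlv : jb v - 1 ≤ len v := by
    by_contra h
    push Not at h
    nlinarith
  have hlw := len_le_jb w
  have hlvR : len v ≤ RR v w := (len_le_jb v).trans (jb_le_RR_left v w)
  have hL1 : len (v - w) ≤ 101 / 100 * RR v w := (len_sub_le v w).trans (by linarith)
  have hL2 : 9798 / 10000 * RR v w ≤ len (v - w) := by
    have := len_le_add_sub v w
    linarith
  have ha0 := pov_nn (p - v)
  have hb0 := pov_nn (q - w)
  have hV0 := pov_nn (v - w)
  rw [← len_sq, ← len_sq] at hp hq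
  have ha : len (p - v) ≤ 7143 / 10000 * RR v w := by
    by_contra h
    push Not at h
    have h1 : len (v - w) ^ 2 * c ≤ (101 / 100 * RR v w) ^ 2 * (1 / 2) := by
      apply mul_le_mul _ hc1 (by linarith) (by positivity)
      exact pow_le_pow_left₀ hV0 hL1 2
    have h2 : (7143 / 10000 * RR v w) ^ 2 ≤ len (p - v) ^ 2 := pow_le_pow_left₀ (by positivity) h.le 2
    nlinarith [mul_pos hR hR]
  have hb : 4899 / 10000 * RR v w ≤ len (q - w) := by
    by_contra h
    push Not at h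
    have h1 : (9798 / 10000 * RR v w) ^ 2 * (1 / 4) ≤ len (v - w) ^ 2 * c := by
      apply mul_le_mul _ hc0 (by norm_num) (by positivity)
      exact pow_le_pow_left₀ (by positivity) hL2 2
    have h2 : len (q - w) ^ 2 < (4899 / 10000 * RR v w) ^ 2 := pow_lt_pow_left₀ h hb0 (by norm_num)
    nlinarith [mul_pos hR hR]
  have h3 := len_le_add_sub v p
  rw [pov_sub v p] at h3
  have h4 := len_sub_le q w
  have h5 := len_le_jb p
  have h6 := len_le_jb q
  constructor <;> linarith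

lemma pov_geo {δ : ℝ} (hδ : 0 < δ) (hδ1 : δ ≤ 1 / 100) {v w σ : Vec d} (hvw : v ≠ w)
    (hσ : nsq σ = 1) (hm : jb v ≤ δ * RR v w ∨ jb w ≤ δ * RR v w)
    (h0 : 0 ≤ cosTh v w σ) (h1 : cosTh v w σ ≤ 1 / 2) :
    RR v w / 4 ≤ jb (post v w σ) ∧ RR v w / 4 ≤ jb (post' v w σ) := by
  have _ := hδ
  rcases hm with hm | hm
  · have hs : nsq (v - w) = nsq (w - v) := by rw [← len_sq, ← len_sq, pov_sub]
    have h := pov_core (v := w) (w := v) (p := post' v w σ) (q := post v w σ)
      (c := (1 - cosTh v w σ) / 2) hδ1 (by rw [RR_comm w v]; exact hm)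
      (by rw [← hs]; exact nsq_post'_sub hvw hσ) (by rw [← hs]; exact nsq_post_sub hvw hσ)
      (by linarith) (by linarith)
    rw [RR_comm w v] at h
    exact ⟨h.2, h.1⟩
  · exact pov_core hδ1 hm (nsq_post_sub hvw hσ) (nsq_post'_sub hvw hσ) (by linarith) (by linarith)

end Pool.Agent.H48.PL
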