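import Pool.Agent.H48.PL.Defs

/-!
# Module Ker1: the kernel `k(z) = sgn(z)/2 - z/l` on `(-l/2, l/2)`

`kl_ibp`: split `Ioo (-(l/2)) (l/2)` at `0` (interval integrals; a point is a null set). On `(0,l/2)`: `k = 1/2 - z/l`, antiderivative of `z ↦ F'(ξ-z)` is `-F(ξ-z)`; integration by parts
(`intervalIntegral.integral_mul_deriv_eq_deriv_mul` or: the derivative of `-(1/2 - z/l) F(ξ-z)` is `k F'(ξ-z) + (1/l) F(ξ-z)`) gives `∫ k F' = F(ξ)/2 - (1/l)∫ F(ξ-z)`,
because `k(l/2) = 0`. On `(-l/2,0)`: `k = -1/2 - z/l`, `k(-l/2) = 0`: again `F(ξ)/2 - (1/l)∫ F(ξ-z)`.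
-/

set_option autoImplicit false

open MeasureTheory Set Filter Topology Pool.Agent.H25.Kin

namespace Pool.Agent.H48.PL

lemma kl_meas (l : ℝ) : Measurable (kl l) := by
  unfold kl
  exact (Measurable.ite measurableSet_Iio measurable_const measurable_const).sub
    (measurable_id.div_const l)

lemma kl_abs {l : ℝ} (hl : 0 < l) {z : ℝ} (hz : z ∈ Ioo (-(l / 2)) (l / 2)) : |kl l z| ≤ 1 / 2 := by
  unfold kl
  obtain ⟨h1, h2⟩ := hz
  have e1 : z / l < 1 / 2 := by
    rw [div_lt_iff₀ hl]
    linarith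
  have e2 : -(1 / 2) < z / l := by
    rw [lt_div_iff₀ hl]
    linarith
  rw [abs_le]
  by_cases hz0 : z < 0
  · rw [if_pos hz0]
    have e3 : z / l < 0 := div_neg_of_neg_of_pos hz0 hl
    constructor <;> linarith
  · rw [if_neg hz0]
    have e3 : 0 ≤ z / l := div_nonneg (not_lt.mp hz0) hl.le
    constructor <;> linarith

/-- integration by parts on an interval where the kernel is affine -/
private lemma ibp_aff {l c u w : ℝ} {F F' : ℝ → ℝ} (hF : ∀ x, HasDerivAt F (F' x) x)
    (hF' : Continuous F') (ξ : ℝ) :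
    ∫ z in u..w, (c - z / l) * F' (ξ - z) =
      (-(c - w / l) * F (ξ - w) + (c - u / l) * F (ξ - u)) - (1 / l) * ∫ z in u..w, F (ξ - z) := by
  have hFc : Continuous F := continuous_iff_continuousAt.mpr fun x => (hF x).continuousAt
  have h1 : ∀ z, HasDerivAt (fun z => -(c - z / l) * F (ξ - z))
      ((c - z / l) * F' (ξ - z) + (1 / l) * F (ξ - z)) z := by
    intro z
    have a1 : HasDerivAt (fun z : ℝ => -(c - z / l)) (1 / l) z := by
      have h := (((hasDerivAt_id z).div_const l).const_sub c).fun_neg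
      simp only [id_eq, neg_neg] at h
      exact h
    have a2 : HasDerivAt (fun z : ℝ => F (ξ - z)) (F' (ξ - z) * (-1)) z := by
      have b1 : HasDerivAt (fun z : ℝ => ξ - z) (-1) z := by
        simpa using (hasDerivAt_id z).const_sub ξ
      exact (hF (ξ - z)).comp z b1
    have h := a1.fun_mul a2
    refine h.congr_deriv ?_
    ring
  have c1 : Continuous fun z => (c - z / l) * F' (ξ - z) := by fun_prop
  have c2 : Continuous fun z => (1 / l) * F (ξ - z) := by fun_prop
  have h2 := intervalIntegral.integral_eq_sub_of_hasDerivAt (a := u) (b := w) (fun z _ => h1 z)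
    ((c1.add c2).intervalIntegrable _ _)
  rw [intervalIntegral.integral_add (c1.intervalIntegrable _ _) (c2.intervalIntegrable _ _),
    intervalIntegral.integral_const_mul] at h2
  linarith

lemma kl_ibp {l : ℝ} (hl : 0 < l) {F F' : ℝ → ℝ} (hF : ∀ x, HasDerivAt F (F' x) x)
    (hF' : Continuous F') (ξ : ℝ) :
    ∫ z in Ioo (-(l / 2)) (l / 2), kl l z * F' (ξ - z) =
      F ξ - (1 / l) * ∫ z in Ioo (-(l / 2)) (l / 2), F (ξ - z) := by
  have hFc : Continuous F := continuous_iff_continuousAt.mpr fun x => (hF x).continuousAt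
  have hc2 : Continuous fun z => F (ξ - z) := by fun_prop
  have hle : -(l / 2) ≤ l / 2 := by linarith
  have hl0 : l ≠ 0 := hl.ne'
  -- the two halves
  have hneg : ∀ᵐ z, z ∈ uIoc (-(l / 2)) 0 → kl l z * F' (ξ - z) = (-(1 / 2) - z / l) * F' (ξ - z) := by
    have h0 : ∀ᵐ z : ℝ, z ≠ 0 := by
      simp [ae_iff, measure_singleton]
    filter_upwards [h0] with z hz hz'
    rw [uIoc_of_le (by linarith)] at hz'
    unfold kl
    rw [if_pos (lt_of_le_of_ne hz'.2 hz)]
  have hpos : ∀ z ∈ uIcc 0 (l / 2), kl l z * F' (ξ - z) = (1 / 2 - z / l) * F' (ξ - z) := by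
    intro z hz
    rw [uIcc_of_le (by linarith)] at hz
    unfold kl
    rw [if_neg (not_lt.mpr hz.1)]
  have I1 : ∫ z in (-(l / 2))..0, kl l z * F' (ξ - z) =
      F ξ / 2 - (1 / l) * ∫ z in (-(l / 2))..0, F (ξ - z) := by
    rw [intervalIntegral.integral_congr_ae hneg, ibp_aff hF hF' ξ]
    have e1 : -(1 / 2) - -(l / 2) / l = (0 : ℝ) := by
      field_simp
      ring
    rw [e1]
    simp
    ring
  have I2 : ∫ z in (0 : ℝ)..(l / 2), kl l z * F' (ξ - z) =
      F ξ / 2 - (1 / l) * ∫ z in (0 : ℝ)..(l / 2), F (ξ - z) := by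
    rw [intervalIntegral.integral_congr hpos, ibp_aff hF hF' ξ]
    have e1 : (1 : ℝ) / 2 - l / 2 / l = 0 := by
      field_simp
      ring
    rw [e1]
    simp
    ring
  have J1 : IntervalIntegrable (fun z => kl l z * F' (ξ - z)) volume (-(l / 2)) 0 := by
    have c1 : Continuous fun z => (-(1 / 2) - z / l) * F' (ξ - z) := by fun_prop
    refine (c1.intervalIntegrable _ _).congr_ae ?_
    rw [Filter.EventuallyEq, ae_restrict_iff' measurableSet_uIoc]
    filter_upwards [hneg] with z hz hz'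
    exact (hz hz').symm
  have J2 : IntervalIntegrable (fun z => kl l z * F' (ξ - z)) volume 0 (l / 2) := by
    have c1 : Continuous fun z => (1 / 2 - z / l) * F' (ξ - z) := by fun_prop
    refine (c1.intervalIntegrable _ _).congr_ae ?_
    rw [Filter.EventuallyEq, ae_restrict_iff' measurableSet_uIoc]
    refine Eventually.of_forall fun z hz => ?_
    exact (hpos z (uIoc_subset_uIcc hz)).symm
  rw [← integral_Ioc_eq_integral_Ioo, ← integral_Ioc_eq_integral_Ioo,
    ← intervalIntegral.integral_of_le hle, ← intervalIntegral.integral_of_le hle,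
    ← intervalIntegral.integral_add_adjacent_intervals J1 J2, I1, I2,
    ← intervalIntegral.integral_add_adjacent_intervals (hc2.intervalIntegrable (-(l / 2)) 0)
      (hc2.intervalIntegrable 0 (l / 2))]
  ring

end Pool.Agent.H48.PL
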