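import Pool.Agent.H48.PL.PotA
import Pool.Agent.H48.PL.Ker1

/-!
# Module PotC: continuity, periodicity and growth of the potential and of its derivative

`pot`, `dpot` are combinations of `avg_cont`, `zint_cont` (with `k = kl l`, `B = 1/2` by `kl_abs`; with `k = 1` for the middle term) for the weights `Φ` and
`(v,w) ↦ (v e - w e) Φ v w` (`PGW.vmul`). Bounds: `avg_le` inside the `z` integral over a set of measure `l`.
-/

set_option autoImplicit false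

open MeasureTheory Set Filter Topology Pool.Agent.H25.Kin

namespace Pool.Agent.H48.PL

variable {d : ℕ} {T l : ℝ} {Q f : ℝ → Vec d → Vec d → ℝ} {Φ : Vec d → Vec d → ℝ}

private lemma UC.mono {I J : Set ℝ} {A : ℝ → Vec d → Vec d → ℝ} (hA : UC I A) (h : J ⊆ I) :
    UC J A := by
  refine ⟨hA.cont.mono (prod_mono h subset_rfl), fun t ht => ?_⟩
  obtain ⟨U, hU, hd⟩ := hA.dec t (h ht)
  exact ⟨U, nhdsWithin_mono t h hU, hd⟩

lemma PGW.vmul (hΦ : PGW Φ) (e : Fin d) : PGW fun v w => (v e - w e) * Φ v w := by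
  obtain ⟨N, C, hC0, hC⟩ := hΦ.le
  refine ⟨?_, N + 1, C, hC0, fun v w => ?_⟩
  · have h1 : Continuous fun p : Vec d × Vec d => p.1 e - p.2 e := by fun_prop
    exact h1.mul hΦ.cont
  · have hv := norm_nonneg v
    have hw := norm_nonneg w
    have h1 : |v e - w e| ≤ (1 + ‖v‖) * (1 + ‖w‖) := by
      have a1 := norm_le_pi_norm v e
      have a2 := norm_le_pi_norm w e
      rw [Real.norm_eq_abs] at a1 a2
      have a3 : |v e - w e| ≤ |v e| + |w e| := abs_sub _ _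
      nlinarith [mul_nonneg hv hw]
    rw [abs_mul]
    calc |v e - w e| * |Φ v w| ≤ ((1 + ‖v‖) * (1 + ‖w‖)) * (C * ((1 + ‖v‖) ^ N * (1 + ‖w‖) ^ N)) := by
          gcongr
          exact hC v w
      _ = C * ((1 + ‖v‖) ^ (N + 1) * (1 + ‖w‖) ^ (N + 1)) := by ring

theorem pot_cont (hf : IsClassicalSol T Q f) (hΦ : PGW Φ) (e : Fin d) (hl : 0 < l) :
    ContinuousOn (unc fun t x v => pot e l Φ (f t) x v) (Ico 0 T ×ˢ univ) := by
  exact zint_cont (uc_sol hf) hΦ e hl (kl_meas l) (fun z hz => kl_abs hl hz)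

theorem dpot_cont (hf : IsClassicalSol T Q f) (hΦ : PGW Φ) (e : Fin d) (hl : 0 < l) :
    ContinuousOn (unc fun t x v => dpot e l Φ (f t) (Q t) x v) (Ioo 0 T ×ˢ univ) := by
  have hu : UC (Ioo 0 T) f := (uc_sol hf).mono Ioo_subset_Ico_self
  have h1 := avg_cont hu (hΦ.vmul e)
  have h2 := zint_cont hu (hΦ.vmul e) e hl (k := fun _ => 1) measurable_const (B := 1)
    (fun z _ => by simp)
  have h3 := zint_cont (uc_src hf) hΦ e hl (kl_meas l) (fun z hz => kl_abs hl hz)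
  simp only [one_mul] at h2
  exact (h1.sub (continuousOn_const.mul h2)).add h3

private lemma shift_per {F : Vec d → Vec d → ℝ} (hF : ∀ x v i, F (x + Pi.single i 1) v = F x v)
    (e : Fin d) (x : Vec d) (i : Fin d) (z : ℝ) (w : Vec d) :
    F (x + Pi.single i 1 - Pi.single e z) w = F (x - Pi.single e z) w := by
  rw [add_sub_right_comm, hF]

lemma pot_per {F : Vec d → Vec d → ℝ} (hF : ∀ x v i, F (x + Pi.single i 1) v = F x v) (e : Fin d)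
    (x v : Vec d) (i : Fin d) : pot e l Φ F (x + Pi.single i 1) v = pot e l Φ F x v := by
  unfold pot
  simp only [shift_per hF]

lemma dpot_per {F G : Vec d → Vec d → ℝ} (hF : ∀ x v i, F (x + Pi.single i 1) v = F x v)
    (hG : ∀ x v i, G (x + Pi.single i 1) v = G x v) (e : Fin d) (x v : Vec d) (i : Fin d) :
    dpot e l Φ F G (x + Pi.single i 1) v = dpot e l Φ F G x v := by
  unfold dpot
  simp only [shift_per hF, shift_per hG, hF]

private lemma zint_bd (hl : 0 < l) {k h : ℝ → ℝ} {B D : ℝ} (hB : ∀ z ∈ Ioo (-(l / 2)) (l / 2), |k z| ≤ B)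
    (hD : ∀ z, |h z| ≤ D) : |∫ z in Ioo (-(l / 2)) (l / 2), k z * h z| ≤ B * D * l := by
  have hB0 : 0 ≤ B := le_trans (abs_nonneg _) (hB 0 ⟨by linarith, by linarith⟩)
  have h1 : ‖∫ z in Ioo (-(l / 2)) (l / 2), k z * h z‖ ≤
      B * D * volume.real (Ioo (-(l / 2)) (l / 2)) := by
    refine norm_setIntegral_le_of_norm_le_const measure_Ioo_lt_top fun z hz => ?_
    rw [norm_mul, Real.norm_eq_abs, Real.norm_eq_abs]
    exact mul_le_mul (hB z hz) (hD z) (abs_nonneg _) hB0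
  rw [Real.norm_eq_abs] at h1
  have h2 : volume.real (Ioo (-(l / 2)) (l / 2)) = l := by
    rw [Real.volume_real_Ioo_of_le (by linarith)]; ring
  rwa [h2] at h1

theorem pot_bd (hf : IsClassicalSol T Q f) (hΦ : PGW Φ) (e : Fin d) (hl : 0 < l) : ∃ N : ℕ,
    ∀ T₁ < T, ∃ C : ℝ, ∀ t ∈ Icc 0 T₁, ∀ x v, |pot e l Φ (f t) x v| ≤ C * (1 + ‖v‖) ^ N := by
  obtain ⟨N, M, K, hK0, hK⟩ := avg_le hΦ
  refine ⟨N, fun T₁ h1 => ?_⟩
  obtain ⟨C, hC⟩ := hf.decay T₁ h1 M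
  have hC' : ∀ t ∈ Icc 0 T₁, ∀ x w, (1 + ‖w‖) ^ M * |f t x w| ≤ C := fun t ht x w => by
    rw [abs_of_nonneg (hf.nonneg t ⟨ht.1, ht.2.trans_lt h1⟩ x w)]
    exact hC t ht x w
  refine ⟨1 / 2 * (K * C) * l, fun t ht x v => ?_⟩
  have h2 := zint_bd hl (k := kl l) (B := 1 / 2) (fun z hz => kl_abs hl hz)
    (h := fun z => ∫ w, Φ v w * f t (x - Pi.single e z) w)
    (fun z => hK (fun w => f t (x - Pi.single e z) w) C (fun w => hC' t ht _ w) v)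
  unfold pot
  refine h2.trans (le_of_eq ?_)
  ring

theorem dpot_bd (hf : IsClassicalSol T Q f) (hΦ : PGW Φ) (e : Fin d) (hl : 0 < l) : ∃ N : ℕ,
    ∀ T₀ > 0, ∀ T₁ < T, ∃ C : ℝ, ∀ t ∈ Icc T₀ T₁, ∀ x v,
      |dpot e l Φ (f t) (Q t) x v| ≤ C * (1 + ‖v‖) ^ N := by
  obtain ⟨N₁, M₁, K₁, hK₁0, hK₁⟩ := avg_le (hΦ.vmul e)
  obtain ⟨N₂, M₂, K₂, hK₂0, hK₂⟩ := avg_le hΦ
  refine ⟨N₁ + N₂, fun T₀ h0 T₁ h1 => ?_⟩
  obtain ⟨C₁, hC₁⟩ := hf.decay T₁ h1 M₁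
  obtain ⟨C₂, hC₂0, hC₂⟩ := hf.Q_le h0 h1 M₂
  by_cases hne : T₀ ≤ T₁
  swap
  · exact ⟨0, fun t ht => absurd (ht.1.trans ht.2) hne⟩
  have hC₁' : ∀ t ∈ Icc T₀ T₁, ∀ x w, (1 + ‖w‖) ^ M₁ * |f t x w| ≤ C₁ := fun t ht x w => by
    have ht0 : 0 ≤ t := (le_of_lt h0).trans ht.1
    rw [abs_of_nonneg (hf.nonneg t ⟨ht0, ht.2.trans_lt h1⟩ x w)]
    exact hC₁ t ⟨ht0, ht.2⟩ x w
  have hC₁0 : 0 ≤ C₁ := le_trans (by positivity) (hC₁' T₀ ⟨le_rfl, hne⟩ 0 0)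
  have hC₂' : ∀ t ∈ Icc T₀ T₁, ∀ x w, (1 + ‖w‖) ^ M₂ * |Q t x w| ≤ C₂ := fun t ht x w => by
    have h2 := hC₂ t ht x w
    rw [← div_eq_mul_inv, le_div_iff₀ (pow_pos (w_pos w) _)] at h2
    linarith
  refine ⟨K₁ * C₁ + |1 / l| * (1 * (K₁ * C₁) * l) + 1 / 2 * (K₂ * C₂) * l, fun t ht x v => ?_⟩
  have hv := one_le_w v
  have hv0 := w_pos v
  have e1 : (1 + ‖v‖) ^ N₁ ≤ (1 + ‖v‖) ^ (N₁ + N₂) := pow_le_pow_right₀ hv (by omega)
  have e2 : (1 + ‖v‖) ^ N₂ ≤ (1 + ‖v‖) ^ (N₁ + N₂) := pow_le_pow_right₀ hv (by omega)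
  have a1 := hK₁ (fun w => f t x w) C₁ (fun w => hC₁' t ht x w) v
  have a2 := zint_bd hl (k := fun _ => 1) (B := 1) (fun z _ => by simp)
    (h := fun z => ∫ w, ((v e - w e) * Φ v w) * f t (x - Pi.single e z) w)
    (fun z => hK₁ (fun w => f t (x - Pi.single e z) w) C₁ (fun w => hC₁' t ht _ w) v)
  have a3 := zint_bd hl (k := kl l) (B := 1 / 2) (fun z hz => kl_abs hl hz)
    (h := fun z => ∫ w, Φ v w * Q t (x - Pi.single e z) w)
    (fun z => hK₂ (fun w => Q t (x - Pi.single e z) w) C₂ (fun w => hC₂' t ht _ w) v)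
  simp only [one_mul] at a2
  unfold dpot
  refine (abs_add_le _ _).trans ?_
  refine (add_le_add_left (abs_sub _ _) _).trans ?_
  rw [abs_mul]
  have b1 : |∫ w, (v e - w e) * Φ v w * f t x w| ≤ K₁ * C₁ * (1 + ‖v‖) ^ (N₁ + N₂) := by
    refine a1.trans ?_
    gcongr
  have b2 : |∫ z in Ioo (-(l / 2)) (l / 2), ∫ w, (v e - w e) * Φ v w * f t (x - Pi.single e z) w| ≤
      K₁ * C₁ * (1 + ‖v‖) ^ (N₁ + N₂) * l := by
    refine a2.trans ?_
    gcongr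
  have b3 : |∫ z in Ioo (-(l / 2)) (l / 2), kl l z * ∫ w, Φ v w * Q t (x - Pi.single e z) w| ≤
      1 / 2 * (K₂ * C₂ * (1 + ‖v‖) ^ (N₁ + N₂)) * l := by
    refine a3.trans ?_
    gcongr
  have b4 := mul_le_mul_of_nonneg_left b2 (abs_nonneg (1 / l))
  calc _ ≤ K₁ * C₁ * (1 + ‖v‖) ^ (N₁ + N₂) + |1 / l| * (K₁ * C₁ * (1 + ‖v‖) ^ (N₁ + N₂) * l) +
        1 / 2 * (K₂ * C₂ * (1 + ‖v‖) ^ (N₁ + N₂)) * l := add_le_add (add_le_add b1 b4) b3
    _ = _ := by ring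

end Pool.Agent.H48.PL
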