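import Pool.Agent.H48.PL.Defs
import Pool.Agent.H25.Kin.Trans

/-!
# Module PotA: velocity averages with a weight of polynomial growth

For `T₁ < T`, `hf.f_le h1 N`: `|f t x w| ≤ C ((1+‖w‖)^N)⁻¹` on `[0,T₁]`; `Q_le` for the source on `[T₀,T₁]`. With `|Φ v w| ≤ C_Φ (1+‖v‖)^N (1+‖w‖)^N` the integrand is dominated by `C (1+‖v‖)^N wt w`
(locally uniformly in `v`): continuity by `continuousOn_of_dominated` / `tendsto_integral_of_dominated_convergence`. State once for an abstract function `A t x w`: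
continuous on `I × univ × univ` and `∀ N`, locally (in `t ∈ I`) `|A| ≤ C ((1+‖w‖)^N)⁻¹`. The `z`-integral over `(-l/2,l/2)` is over a finite measure and the integrand is bounded there.
-/

set_option autoImplicit false

open MeasureTheory Set Filter Topology Pool.Agent.H25.Kin

namespace Pool.Agent.H48.PL

variable {d : ℕ}

/-- continuous on `I × ℝ^d × ℝ^d`, rapidly decaying in the last variable, locally uniformly in the first -/
structure UC (I : Set ℝ) (A : ℝ → Vec d → Vec d → ℝ) : Prop where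
  cont : ContinuousOn (unc A) (I ×ˢ univ)
  dec : ∀ t ∈ I, ∃ U ∈ 𝓝[I] t, ∀ N : ℕ, ∃ C : ℝ, ∀ r ∈ U, ∀ x w, (1 + ‖w‖) ^ N * |A r x w| ≤ C

private lemma sol_nonneg_le {T : ℝ} {Q f : ℝ → Vec d → Vec d → ℝ} (hf : IsClassicalSol T Q f)
    {T₁ : ℝ} (h1 : T₁ < T) (N : ℕ) :
    ∃ C, ∀ r ∈ Icc 0 T₁, ∀ x w, (1 + ‖w‖) ^ N * |f r x w| ≤ C := by
  obtain ⟨C, hC⟩ := hf.decay T₁ h1 N
  refine ⟨C, fun r hr x w => ?_⟩
  rw [abs_of_nonneg (hf.nonneg r ⟨hr.1, hr.2.trans_lt h1⟩ x w)]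
  exact hC r hr x w

lemma uc_sol {T : ℝ} {Q f : ℝ → Vec d → Vec d → ℝ} (hf : IsClassicalSol T Q f) : UC (Ico 0 T) f := by
  refine ⟨hf.cont, fun t ht => ⟨Icc 0 ((t + T) / 2), ?_, fun N => ?_⟩⟩
  · have h1 : Iio ((t + T) / 2) ∈ 𝓝 t := Iio_mem_nhds (by linarith [ht.2])
    refine mem_of_superset (inter_mem_nhdsWithin (Ico 0 T) h1) fun r hr => ?_
    exact ⟨hr.1.1, (mem_Iio.1 hr.2).le⟩
  · exact sol_nonneg_le hf (by linarith [ht.2]) N

private lemma src_cont {T : ℝ} {Q f : ℝ → Vec d → Vec d → ℝ} (hf : IsClassicalSol T Q f) :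
    ContinuousOn (unc Q) (Ioo 0 T ×ˢ univ) := by
  have hopen : IsOpen (Ioo 0 T ×ˢ (univ : Set (Vec d × Vec d))) := isOpen_Ioo.prod isOpen_univ
  have h1 : ContinuousOn (fderiv ℝ (unc f)) (Ioo 0 T ×ˢ univ) :=
    hf.smooth.continuousOn_fderiv_of_isOpen hopen (by norm_num)
  have h2 : Continuous fun q : ℝ × Vec d × Vec d => ((1 : ℝ), q.2.2, (0 : Vec d)) := by fun_prop
  have h3 := h1.clm_apply h2.continuousOn
  refine h3.congr fun q hq => ?_
  obtain ⟨t, x, v⟩ := q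
  exact (hf.eqn t hq.1 x v).symm

lemma uc_src {T : ℝ} {Q f : ℝ → Vec d → Vec d → ℝ} (hf : IsClassicalSol T Q f) : UC (Ioo 0 T) Q := by
  refine ⟨src_cont hf, fun t ht => ⟨Icc (t / 2) ((t + T) / 2), ?_, fun N => ?_⟩⟩
  · exact mem_nhdsWithin_of_mem_nhds (Icc_mem_nhds (by linarith [ht.1]) (by linarith [ht.2]))
  · obtain ⟨C, hC0, hC⟩ := hf.Q_le (T₀ := t / 2) (T₁ := (t + T) / 2) (by linarith [ht.1])
      (by linarith [ht.2]) N
    refine ⟨C, fun r hr x w => ?_⟩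
    have h1 := hC r hr x w
    rw [← div_eq_mul_inv, le_div_iff₀ (pow_pos (w_pos w) _)] at h1
    linarith

private lemma avg_bound {Φ : Vec d → Vec d → ℝ} {N : ℕ} {K : ℝ} (hK : 0 ≤ K)
    (hΦ : ∀ v w, |Φ v w| ≤ K * ((1 + ‖v‖) ^ N * (1 + ‖w‖) ^ N)) {v w : Vec d} {a C R : ℝ}
    (ha : (1 + ‖w‖) ^ (N + (d + 1)) * |a| ≤ C) (hR : (1 + ‖v‖) ^ N ≤ R) :
    |Φ v w * a| ≤ K * C * R * wt d w := by
  have hw := w_pos w
  have hv := w_pos v
  have hvN : 0 ≤ (1 + ‖v‖) ^ N := (pow_pos hv N).le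
  have hC0 : 0 ≤ C := le_trans (by positivity) ha
  have h1 : |a| ≤ C * ((1 + ‖w‖) ^ (N + (d + 1)))⁻¹ := by
    rw [← div_eq_mul_inv, le_div_iff₀ (pow_pos hw _)]
    linarith
  rw [abs_mul]
  calc |Φ v w| * |a| ≤ (K * ((1 + ‖v‖) ^ N * (1 + ‖w‖) ^ N)) * (C * ((1 + ‖w‖) ^ (N + (d + 1)))⁻¹) := by
        gcongr
        exact hΦ v w
    _ = K * C * (1 + ‖v‖) ^ N * wt d w := by
        unfold wt
        rw [pow_add]
        field_simp
    _ ≤ K * C * R * wt d w := by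
        have := wt_nonneg (d := d) w
        gcongr

private lemma UC.slice {I : Set ℝ} {A : ℝ → Vec d → Vec d → ℝ} (hA : UC I A) {t : ℝ} (ht : t ∈ I)
    (x : Vec d) : Continuous (A t x) := by
  have h1 : Continuous fun w : Vec d => (t, x, w) := by fun_prop
  have h2 := hA.cont.comp h1.continuousOn (s := univ) fun w _ => ⟨ht, mem_univ _⟩
  exact continuousOn_univ.1 h2

private lemma pow_ball {v₀ v : Vec d} (h : ‖v - v₀‖ < 1) (N : ℕ) :
    (1 + ‖v‖) ^ N ≤ (2 + ‖v₀‖) ^ N := by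
  have h1 : ‖v‖ ≤ ‖v₀‖ + ‖v - v₀‖ := by
    calc ‖v‖ = ‖v₀ + (v - v₀)‖ := by rw [add_sub_cancel]
      _ ≤ _ := norm_add_le _ _
  have h2 := norm_nonneg v
  exact pow_le_pow_left₀ (by linarith) (by linarith) N

private lemma near_mem {I : Set ℝ} {q₀ : ℝ × Vec d × Vec d} {U : Set ℝ} (hU : U ∈ 𝓝[I] q₀.1) :
    ∀ᶠ q : ℝ × Vec d × Vec d in 𝓝[I ×ˢ univ] q₀, q.1 ∈ I ∧ q.1 ∈ U ∧ ‖q.2.2 - q₀.2.2‖ < 1 := by
  have h1 : Tendsto (fun q : ℝ × Vec d × Vec d => q.1) (𝓝[I ×ˢ univ] q₀) (𝓝[I] q₀.1) := by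
    refine tendsto_nhdsWithin_iff.2 ⟨?_, ?_⟩
    · exact (continuous_fst.tendsto q₀).mono_left nhdsWithin_le_nhds
    · filter_upwards [self_mem_nhdsWithin] with q hq using hq.1
  have h2 := h1.eventually hU
  have h3 : Continuous fun q : ℝ × Vec d × Vec d => ‖q.2.2 - q₀.2.2‖ := by fun_prop
  have h4 : ∀ᶠ q : ℝ × Vec d × Vec d in 𝓝 q₀, ‖q.2.2 - q₀.2.2‖ < 1 := by
    have := h3.tendsto q₀
    simp only [sub_self, norm_zero] at this
    exact this.eventually (gt_mem_nhds zero_lt_one)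
  filter_upwards [h2, self_mem_nhdsWithin, nhdsWithin_le_nhds h4] with q a b c
  exact ⟨b.1, a, c⟩

/-- the velocity average is continuous in `(t, x, v)` -/
lemma avg_cont {I : Set ℝ} {A : ℝ → Vec d → Vec d → ℝ} (hA : UC I A) {Φ : Vec d → Vec d → ℝ}
    (hΦ : PGW Φ) :
    ContinuousOn (fun q : ℝ × Vec d × Vec d => ∫ w, Φ q.2.2 w * A q.1 q.2.1 w) (I ×ˢ univ) := by
  obtain ⟨N, K, hK0, hK⟩ := hΦ.le
  intro q₀ hq₀
  obtain ⟨U, hU, hdec⟩ := hA.dec q₀.1 hq₀.1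
  obtain ⟨C, hC⟩ := hdec (N + (d + 1))
  have hev := near_mem (q₀ := q₀) hU
  refine tendsto_integral_filter_of_dominated_convergence
    (fun w => K * C * (2 + ‖q₀.2.2‖) ^ N * wt d w) ?_ ?_ ?_ ?_
  · filter_upwards [hev] with q hq
    have h1 : Continuous fun w => Φ q.2.2 w := hΦ.cont.comp (by fun_prop : Continuous fun w : Vec d => (q.2.2, w))
    exact (h1.mul (hA.slice hq.1 q.2.1)).aestronglyMeasurable
  · filter_upwards [hev] with q hq
    refine Eventually.of_forall fun w => ?_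
    rw [Real.norm_eq_abs]
    exact avg_bound hK0 hK (hC q.1 hq.2.1 q.2.1 w) (pow_ball hq.2.2 N)
  · exact integrable_wt.const_mul _
  · refine Eventually.of_forall fun w => ?_
    have h1 : Continuous fun q : ℝ × Vec d × Vec d => Φ q.2.2 w :=
      hΦ.cont.comp (by fun_prop : Continuous fun q : ℝ × Vec d × Vec d => (q.2.2, w))
    have h2 : Continuous fun q : ℝ × Vec d × Vec d => (q.1, q.2.1, w) := by fun_prop
    have h3 := hA.cont.comp h2.continuousOn (s := I ×ˢ univ) fun q hq => ⟨hq.1, mem_univ _⟩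
    exact (h1.continuousOn.mul h3) q₀ hq₀

/-- bound of the velocity average for a rapidly decaying slice -/
lemma avg_le {Φ : Vec d → Vec d → ℝ} (hΦ : PGW Φ) : ∃ (N M : ℕ) (K : ℝ), 0 ≤ K ∧
    ∀ (A : Vec d → ℝ) (C : ℝ), (∀ w, (1 + ‖w‖) ^ M * |A w| ≤ C) → ∀ v,
      |∫ w, Φ v w * A w| ≤ K * C * (1 + ‖v‖) ^ N := by
  obtain ⟨N, K, hK0, hK⟩ := hΦ.le
  have hI : 0 ≤ ∫ w, wt d w := integral_nonneg fun w => wt_nonneg w
  refine ⟨N, N + (d + 1), K * ∫ w, wt d w, mul_nonneg hK0 hI, fun A C hC v => ?_⟩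
  rw [← Real.norm_eq_abs]
  have h1 : ‖∫ w, Φ v w * A w‖ ≤ ∫ w, K * C * (1 + ‖v‖) ^ N * wt d w := by
    refine norm_integral_le_of_norm_le (integrable_wt.const_mul _) (Eventually.of_forall fun w => ?_)
    rw [Real.norm_eq_abs]
    exact avg_bound hK0 hK (hC w) le_rfl
  refine h1.trans (le_of_eq ?_)
  rw [integral_const_mul]
  ring

lemma avg_int {Φ : Vec d → Vec d → ℝ} (hΦ : PGW Φ) {A : Vec d → ℝ} (hA : RD A) (hAc : Continuous A)
    (v : Vec d) : Integrable fun w => Φ v w * A w := by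
  obtain ⟨N, K, hK0, hK⟩ := hΦ.le
  have h1 : PG (Φ v) := ⟨N, K * (1 + ‖v‖) ^ N, fun w => by
    rw [Real.norm_eq_abs, mul_assoc]; exact hK v w⟩
  have h2 : Continuous (Φ v) := hΦ.cont.comp (by fun_prop : Continuous fun w : Vec d => (v, w))
  have h3 := (hA.mul_PG h1).integrable (hAc.mul h2).aestronglyMeasurable
  refine h3.congr (Eventually.of_forall fun w => ?_)
  simp only
  ring

/-- the kernel integral in `z` of a velocity average is continuous; `k` bounded and measurable -/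
lemma zint_cont {I : Set ℝ} {A : ℝ → Vec d → Vec d → ℝ} (hA : UC I A) {Φ : Vec d → Vec d → ℝ}
    (hΦ : PGW Φ) (e : Fin d) {l : ℝ} (hl : 0 < l) {k : ℝ → ℝ} (hk : Measurable k) {B : ℝ}
    (hB : ∀ z ∈ Ioo (-(l / 2)) (l / 2), |k z| ≤ B) :
    ContinuousOn (fun q : ℝ × Vec d × Vec d =>
      ∫ z in Ioo (-(l / 2)) (l / 2), k z * ∫ w, Φ q.2.2 w * A q.1 (q.2.1 - Pi.single e z) w)
      (I ×ˢ univ) := by
  have hG := avg_cont hA hΦ
  obtain ⟨N, M, K, hK0, hK⟩ := avg_le hΦ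
  have hB0 : 0 ≤ B := le_trans (abs_nonneg _) (hB 0 ⟨by linarith, by linarith⟩)
  intro q₀ hq₀
  obtain ⟨U, hU, hdec⟩ := hA.dec q₀.1 hq₀.1
  obtain ⟨C, hC⟩ := hdec M
  have hev := near_mem (q₀ := q₀) hU
  have hC0 : 0 ≤ C := by
    have h1 : q₀.1 ∈ U := mem_of_mem_nhdsWithin hq₀.1 hU
    exact le_trans (by positivity) (hC q₀.1 h1 q₀.2.1 0)
  refine tendsto_integral_filter_of_dominated_convergence
    (fun _ => B * (K * C * (2 + ‖q₀.2.2‖) ^ N)) ?_ ?_ ?_ ?_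
  · filter_upwards [hev] with q hq
    have h1 : Continuous fun z : ℝ => (q.1, q.2.1 - Pi.single e z, q.2.2) := by
      have h2 : Continuous fun z : ℝ => (Pi.single e z : Vec d) := continuous_single (A := fun _ : Fin d => ℝ) e
      fun_prop
    have h3 := hG.comp h1.continuousOn (s := univ) fun z _ => ⟨hq.1, mem_univ _⟩
    have h4 := continuousOn_univ.1 h3
    exact (hk.mul h4.measurable).aestronglyMeasurable
  · filter_upwards [hev] with q hq
    refine (ae_restrict_iff' measurableSet_Ioo).2 (Eventually.of_forall fun z hz => ?_)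
    rw [norm_mul, Real.norm_eq_abs, Real.norm_eq_abs]
    have h1 := hK (fun w => A q.1 (q.2.1 - Pi.single e z) w) C
      (fun w => hC q.1 hq.2.1 (q.2.1 - Pi.single e z) w) q.2.2
    have h2 := pow_ball hq.2.2 N
    refine mul_le_mul (hB z hz) (h1.trans ?_) (abs_nonneg _) hB0
    gcongr
  · exact integrable_const _
  · refine Eventually.of_forall fun z => ?_
    have h2 : Continuous fun q : ℝ × Vec d × Vec d => (q.1, q.2.1 - Pi.single e z, q.2.2) := by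
      fun_prop
    have h3 := hG.comp h2.continuousOn (s := I ×ˢ univ) fun q hq => ⟨hq.1, mem_univ _⟩
    exact (continuousOn_const.mul h3) q₀ hq₀

end Pool.Agent.H48.PL
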