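import Pool.Agent.H48.PL.PlI
import Pool.Agent.H48.PL.Ker1
import Pool.Agent.H48.PL.Wgt
import Pool.Agent.H48.PL.PotA

/-!
# Module SliA: the two collision terms of the pair functional, for one time slice

`FS e F G`; `Φ` antisymmetric `PGW`, `|∫w Φ v w G x w| ≤ K jb v^q X x`, `X ≥ 0` planar continuous, `loc (∫ F jb^q) ≤ η`.
* `sli_third`: `|∫ F(x,v) ∫z k ∫w Φ G(x-ze,w) dν| ≤ ∫x ∫v F ∫z (1/2) K jb v^q X(x-ze) = (K/2) ∫x (∫v F jb^q)(x) loc X (x) = (K/2) ∫x X loc(∫ F jb^q) ≤ (K/2) η ∫ X` (`kl_abs`, `pl_swap`).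
* `sli_first`: `∫v G(x,v) pot(x,v) = ∫z k(z) ∫w F(x-ze,w) (∫v Φ v w G x v)` (Fubini: everything is rapidly decaying in `v`, `w` and bounded in `z`), `Φ v w = -Φ w v`,
  so `|.| ≤ ∫z (1/2) ∫w F(x-ze,w) K jb w^q X x = (K/2) X(x) loc(∫ F jb^q)(x) ≤ (K/2) η X(x)`. Integrate over `x`.
-/

set_option autoImplicit false

open MeasureTheory Set Filter Topology Pool.Agent.H25.Kin

namespace Pool.Agent.H48.PL

variable {d : ℕ} {e : Fin d} {F G : Vec d → Vec d → ℝ} {Φ : Vec d → Vec d → ℝ} {l K q η : ℝ}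
  {X : Vec d → ℝ}

/-- rapid decay with the dominating weight -/
private lemma rx_wt {A : Vec d → Vec d → ℝ} (hA : RX A) (N : ℕ) :
    ∃ C, 0 ≤ C ∧ ∀ x v, (1 + ‖v‖) ^ N * |A x v| ≤ C * wt d v := by
  obtain ⟨C, hC⟩ := hA (N + (d + 1))
  refine ⟨C, le_trans (by positivity) (hC 0 0), fun x v => ?_⟩
  have hw := w_pos v
  unfold wt
  rw [← div_eq_mul_inv, le_div_iff₀ (pow_pos hw _)]
  calc (1 + ‖v‖) ^ N * |A x v| * (1 + ‖v‖) ^ (d + 1)
      = (1 + ‖v‖) ^ (N + (d + 1)) * |A x v| := by rw [pow_add]; ring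
    _ ≤ C := hC x v

/-- rapid decay times a power of `jb` -/
private lemma rx_jb {A : Vec d → Vec d → ℝ} (hA : RX A) (r : ℝ) :
    ∃ C, 0 ≤ C ∧ ∀ x v, |A x v * jb v ^ r| ≤ C * wt d v := by
  obtain ⟨N, C₁, hC₁, h1⟩ := (PG_jb (d := d) (r := r)).pos
  obtain ⟨C₂, hC₂, h2⟩ := rx_wt hA N
  refine ⟨C₁ * C₂, by positivity, fun x v => ?_⟩
  have a := h1 v
  rw [Real.norm_eq_abs] at a
  rw [abs_mul]
  calc |A x v| * |jb v ^ r| ≤ |A x v| * (C₁ * (1 + ‖v‖) ^ N) :=
        mul_le_mul_of_nonneg_left a (abs_nonneg _)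
    _ = C₁ * ((1 + ‖v‖) ^ N * |A x v|) := by ring
    _ ≤ C₁ * (C₂ * wt d v) := mul_le_mul_of_nonneg_left (h2 x v) hC₁
    _ = C₁ * C₂ * wt d v := by ring

private lemma jbr_cont (r : ℝ) : Continuous fun v : Vec d => jb v ^ r :=
  jb_cont.rpow_const fun v => Or.inl (jb_pos v).ne'

private lemma kl_integrable (hl : 0 < l) :
    Integrable (fun z => |kl l z|) (volume.restrict (Ioo (-(l / 2)) (l / 2))) := by
  have hfin : IsFiniteMeasure (volume.restrict (Ioo (-(l / 2)) (l / 2))) :=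
    ⟨by rw [Measure.restrict_apply_univ]; exact measure_Ioo_lt_top⟩
  refine (integrable_const (1 / 2 : ℝ)).mono' (kl_meas l).abs.aestronglyMeasurable ?_
  filter_upwards [ae_restrict_mem measurableSet_Ioo] with z hz
  rw [Real.norm_eq_abs, abs_abs]
  exact kl_abs hl hz

private lemma single_cont (e : Fin d) : Continuous fun z : ℝ => (Pi.single e z : Vec d) := by
  refine continuous_pi fun i => ?_
  by_cases hi : i = e
  · subst hi
    simpa using (continuous_id' : Continuous fun a : ℝ => a)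
  · simpa [Pi.single_apply, hi] using continuous_const

/-- the inequality of `sli_first` for fixed `x` -/
private lemma first_x (h : FS e F G) (hΦ : PGW Φ) (hanti : ∀ v w, Φ w v = -Φ v w) (hl : 0 < l)
    (hX0 : ∀ x, 0 ≤ X x) (hK : 0 ≤ K)
    (hG : ∀ x v, |∫ w, Φ v w * G x w| ≤ K * (jb v ^ q * X x))
    (hη : ∀ x, loc e l (fun y => ∫ v, F y v * jb v ^ q) x ≤ η) (x : Vec d) :
    |∫ v, G x v * pot e l Φ F x v| ≤ K / 2 * η * X x := by
  obtain ⟨N, C₀, hC₀, hΦb⟩ := hΦ.le
  obtain ⟨C₁, hC₁, hF1⟩ := rx_wt h.decF N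
  obtain ⟨C₂, hC₂, hG1⟩ := rx_wt h.decG N
  set ρ : Measure (ℝ × Vec d) := (volume.restrict (Ioo (-(l / 2)) (l / 2))).prod volume with hρ
  set J : Vec d → ℝ × Vec d → ℝ := fun v r =>
    G x v * (kl l r.1 * (Φ v r.2 * F (x - Pi.single e r.1) r.2)) with hJdef
  have hm : Measurable fun p : Vec d × (ℝ × Vec d) => J p.1 p.2 := by
    have m1 : Measurable fun p : Vec d × (ℝ × Vec d) => G x p.1 :=
      (h.contG.comp (continuous_const.prodMk continuous_fst)).measurable
    have m2 : Measurable fun p : Vec d × (ℝ × Vec d) => kl l p.2.1 :=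
      (kl_meas l).comp (measurable_fst.comp measurable_snd)
    have m3 : Measurable fun p : Vec d × (ℝ × Vec d) => Φ p.1 p.2.2 :=
      (hΦ.cont.comp (continuous_fst.prodMk (continuous_snd.comp continuous_snd))).measurable
    have c4 : Continuous fun p : Vec d × (ℝ × Vec d) => x - (Pi.single e p.2.1 : Vec d) :=
      continuous_const.sub ((single_cont e).comp (continuous_fst.comp continuous_snd))
    have m4 : Measurable fun p : Vec d × (ℝ × Vec d) => F (x - Pi.single e p.2.1) p.2.2 :=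
      (h.contF.comp (c4.prodMk (continuous_snd.comp continuous_snd))).measurable
    exact m1.mul (m2.mul (m3.mul m4))
  have hD : Integrable (fun p : Vec d × (ℝ × Vec d) => wt d p.1 * (|kl l p.2.1| * wt d p.2.2))
      ((volume : Measure (Vec d)).prod ρ) :=
    integrable_wt.mul_prod ((kl_integrable hl).mul_prod integrable_wt)
  have hJ : Integrable (Function.uncurry J) ((volume : Measure (Vec d)).prod ρ) := by
    refine (hD.const_mul (C₀ * C₁ * C₂)).mono' hm.aestronglyMeasurable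
      (Eventually.of_forall fun p => ?_)
    obtain ⟨v, z, w⟩ := p
    have a1 := hΦb v w
    have a2 := hF1 (x - Pi.single e z) w
    have a3 := hG1 x v
    simp only [Function.uncurry, hJdef, Real.norm_eq_abs, abs_mul]
    have hw1 := wt_nonneg (d := d) v
    have hw2 := wt_nonneg (d := d) w
    calc |G x v| * (|kl l z| * (|Φ v w| * |F (x - Pi.single e z) w|))
        ≤ |G x v| * (|kl l z| * (C₀ * ((1 + ‖v‖) ^ N * (1 + ‖w‖) ^ N) *
            |F (x - Pi.single e z) w|)) := by gcongr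
      _ = C₀ * |kl l z| * (((1 + ‖v‖) ^ N * |G x v|) *
            ((1 + ‖w‖) ^ N * |F (x - Pi.single e z) w|)) := by ring
      _ ≤ C₀ * |kl l z| * ((C₂ * wt d v) * (C₁ * wt d w)) := by gcongr
      _ = C₀ * C₁ * C₂ * (wt d v * (|kl l z| * wt d w)) := by ring
  have e1 : ∫ v, G x v * pot e l Φ F x v = ∫ v, ∫ r, J v r ∂ρ := by
    refine integral_congr_ae ?_
    filter_upwards [hJ.prod_right_ae] with v hv
    have e2 : ∫ r, J v r ∂ρ = ∫ z in Ioo (-(l / 2)) (l / 2), ∫ w, J v (z, w) :=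
      integral_prod _ hv
    rw [e2]
    unfold pot
    rw [← integral_const_mul]
    refine integral_congr_ae (Eventually.of_forall fun z => ?_)
    simp only [hJdef]
    rw [integral_const_mul, integral_const_mul]
  rw [e1, integral_integral_swap hJ]
  -- the dominating function
  obtain ⟨C₃, hC₃, hF3⟩ := rx_jb h.decF q
  have hfin : IsFiniteMeasure (volume.restrict (Ioo (-(l / 2)) (l / 2))) :=
    ⟨by rw [Measure.restrict_apply_univ]; exact measure_Ioo_lt_top⟩
  have hE : Integrable (fun r : ℝ × Vec d => F (x - Pi.single e r.1) r.2 * jb r.2 ^ q) ρ := by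
    have hD2 : Integrable (fun r : ℝ × Vec d => (1 : ℝ) * wt d r.2) ρ :=
      (integrable_const (1 : ℝ)).mul_prod integrable_wt
    refine (hD2.const_mul C₃).mono' ?_ (Eventually.of_forall fun r => ?_)
    · have c4 : Continuous fun r : ℝ × Vec d => x - (Pi.single e r.1 : Vec d) :=
        continuous_const.sub ((single_cont e).comp continuous_fst)
      exact ((h.contF.comp (c4.prodMk continuous_snd)).mul
        ((jbr_cont q).comp continuous_snd)).aestronglyMeasurable
    · rw [Real.norm_eq_abs, one_mul]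
      exact hF3 _ _
  have hb : ∀ᵐ r ∂ρ, ‖∫ v, J v r‖ ≤
      K / 2 * X x * (F (x - Pi.single e r.1) r.2 * jb r.2 ^ q) := by
    have hz : ∀ᵐ r ∂ρ, r.1 ∈ Ioo (-(l / 2)) (l / 2) :=
      Measure.quasiMeasurePreserving_fst.ae (ae_restrict_mem measurableSet_Ioo)
    filter_upwards [hz] with r hr
    have e3 : ∫ v, J v r = -(kl l r.1 * F (x - Pi.single e r.1) r.2) *
        ∫ v, Φ r.2 v * G x v := by
      rw [← integral_const_mul]
      refine integral_congr_ae (Eventually.of_forall fun v => ?_)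
      simp only [hJdef]
      rw [hanti r.2 v]
      ring
    rw [e3, Real.norm_eq_abs, abs_mul, abs_neg, abs_mul, abs_of_nonneg (h.nonneg _ _)]
    have a1 := kl_abs hl hr
    have a2 := hG x r.2
    have a3 := h.nonneg (x - Pi.single e r.1) r.2
    have a4 : 0 ≤ jb r.2 ^ q := Real.rpow_nonneg (jb_pos _).le _
    have a5 := hX0 x
    calc |kl l r.1| * F (x - Pi.single e r.1) r.2 * |∫ v, Φ r.2 v * G x v|
        ≤ 1 / 2 * F (x - Pi.single e r.1) r.2 * (K * (jb r.2 ^ q * X x)) := by gcongr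
      _ = K / 2 * X x * (F (x - Pi.single e r.1) r.2 * jb r.2 ^ q) := by ring
  have h1 := norm_integral_le_of_norm_le (hE.const_mul (K / 2 * X x)) hb
  rw [Real.norm_eq_abs] at h1
  refine h1.trans ?_
  rw [integral_const_mul]
  have e4 : ∫ r, F (x - Pi.single e r.1) r.2 * jb r.2 ^ q ∂ρ =
      loc e l (fun y => ∫ v, F y v * jb v ^ q) x := by
    rw [hρ, integral_prod _ hE]
    rfl
  rw [e4]
  have a5 := hX0 x
  calc K / 2 * X x * loc e l (fun y => ∫ v, F y v * jb v ^ q) x ≤ K / 2 * X x * η :=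
        mul_le_mul_of_nonneg_left (hη x) (by positivity)
    _ = K / 2 * η * X x := by ring

private lemma eta_nonneg (h : FS e F G) (hη : ∀ x, loc e l (fun y => ∫ v, F y v * jb v ^ q) x ≤ η) :
    0 ≤ η := by
  refine le_trans (loc_nonneg e l (fun x => ?_) 0) (hη 0)
  exact integral_nonneg fun v => mul_nonneg (h.nonneg x v) (Real.rpow_nonneg (jb_pos _).le _)

theorem sli_first (h : FS e F G) (hΦ : PGW Φ) (hanti : ∀ v w, Φ w v = -Φ v w) (hl : 0 < l)
    (hX : PlF e X) (hX0 : ∀ x, 0 ≤ X x) (hK : 0 ≤ K)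
    (hG : ∀ x v, |∫ w, Φ v w * G x w| ≤ K * (jb v ^ q * X x))
    (hη : ∀ x, loc e l (fun y => ∫ v, F y v * jb v ^ q) x ≤ η) :
    |∫ p, G p.2 p.1 * pot e l Φ F p.2 p.1 ∂(nu d)| ≤ K / 2 * η * ∫ x, X x ∂(muD d) := by
  have hη0 := eta_nonneg h hη
  by_cases hint : Integrable (fun p : Vec d × Vec d => G p.2 p.1 * pot e l Φ F p.2 p.1) (nu d)
  · unfold nu at hint ⊢
    rw [integral_prod_symm _ hint, ← integral_const_mul, ← Real.norm_eq_abs]
    refine norm_integral_le_of_norm_le ((pl_int hX).const_mul _) (Eventually.of_forall fun x => ?_)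
    rw [Real.norm_eq_abs]
    exact first_x h hΦ hanti hl hX0 hK hG hη x
  · rw [integral_undef hint, abs_zero]
    exact mul_nonneg (by positivity) (integral_nonneg hX0)

theorem sli_third (h : FS e F G) (hΦ : PGW Φ) (hl : 0 < l)
    (hX : PlF e X) (hX0 : ∀ x, 0 ≤ X x) (hK : 0 ≤ K)
    (hG : ∀ x v, |∫ w, Φ v w * G x w| ≤ K * (jb v ^ q * X x))
    (hη : ∀ x, loc e l (fun y => ∫ v, F y v * jb v ^ q) x ≤ η) :
    |∫ p, F p.2 p.1 * (∫ z in Ioo (-(l / 2)) (l / 2), kl l z *
      ∫ w, Φ p.1 w * G (p.2 - Pi.single e z) w) ∂(nu d)| ≤ K / 2 * η * ∫ x, X x ∂(muD d) := by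
  have hfin : IsFiniteMeasure (volume.restrict (Ioo (-(l / 2)) (l / 2))) :=
    ⟨by rw [Measure.restrict_apply_univ]; exact measure_Ioo_lt_top⟩
  obtain ⟨CX, hCX⟩ := pl_bdd hX
  have hXl : PlF e (loc e l X) := pl_loc_cont hX l
  obtain ⟨CL, hCL⟩ := pl_bdd hXl
  obtain ⟨C₃, hC₃, hF3⟩ := rx_jb h.decF q
  have hCL0 : 0 ≤ CL := (abs_nonneg _).trans (hCL 0)
  -- pointwise bound
  have hb : ∀ p : Vec d × Vec d, ‖F p.2 p.1 * (∫ z in Ioo (-(l / 2)) (l / 2), kl l z *
      ∫ w, Φ p.1 w * G (p.2 - Pi.single e z) w)‖ ≤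
      K / 2 * (F p.2 p.1 * jb p.1 ^ q * loc e l X p.2) := by
    intro p
    have a4 : 0 ≤ jb p.1 ^ q := Real.rpow_nonneg (jb_pos _).le _
    have a3 := h.nonneg p.2 p.1
    have hI : Integrable (fun z => X (p.2 - Pi.single e z))
        (volume.restrict (Ioo (-(l / 2)) (l / 2))) := by
      refine (integrable_const CX).mono' ?_ (Eventually.of_forall fun z => ?_)
      · exact (hX.cont.comp (continuous_const.sub (single_cont e))).aestronglyMeasurable
      · rw [Real.norm_eq_abs]; exact hCX _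
    have h1 : ‖∫ z in Ioo (-(l / 2)) (l / 2), kl l z *
        ∫ w, Φ p.1 w * G (p.2 - Pi.single e z) w‖ ≤
        ∫ z in Ioo (-(l / 2)) (l / 2), K / 2 * jb p.1 ^ q * X (p.2 - Pi.single e z) := by
      refine norm_integral_le_of_norm_le (hI.const_mul _) ?_
      filter_upwards [ae_restrict_mem measurableSet_Ioo] with z hz
      rw [Real.norm_eq_abs, abs_mul]
      have a1 := kl_abs hl hz
      have a2 := hG (p.2 - Pi.single e z) p.1
      have a5 := hX0 (p.2 - Pi.single e z)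
      calc |kl l z| * |∫ w, Φ p.1 w * G (p.2 - Pi.single e z) w|
          ≤ 1 / 2 * (K * (jb p.1 ^ q * X (p.2 - Pi.single e z))) := by gcongr
        _ = K / 2 * jb p.1 ^ q * X (p.2 - Pi.single e z) := by ring
    rw [integral_const_mul] at h1
    rw [norm_mul, Real.norm_eq_abs, abs_of_nonneg a3]
    calc F p.2 p.1 * ‖∫ z in Ioo (-(l / 2)) (l / 2), kl l z *
          ∫ w, Φ p.1 w * G (p.2 - Pi.single e z) w‖
        ≤ F p.2 p.1 * (K / 2 * jb p.1 ^ q * ∫ z in Ioo (-(l / 2)) (l / 2),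
            X (p.2 - Pi.single e z)) := mul_le_mul_of_nonneg_left h1 a3
      _ = K / 2 * (F p.2 p.1 * jb p.1 ^ q * loc e l X p.2) := by unfold loc; ring
  have hint : Integrable (fun p : Vec d × Vec d => F p.2 p.1 * jb p.1 ^ q * loc e l X p.2) (nu d) := by
    refine integrable_nu (C := C₃ * CL) ?_ fun p => ?_
    · exact (((h.contF.comp (continuous_snd.prodMk continuous_fst)).mul
        ((jbr_cont q).comp continuous_fst)).mul
        (hXl.cont.comp continuous_snd)).aestronglyMeasurable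
    · rw [abs_mul]
      calc |F p.2 p.1 * jb p.1 ^ q| * |loc e l X p.2| ≤ (C₃ * wt d p.1) * CL :=
            mul_le_mul (hF3 _ _) (hCL _) (abs_nonneg _)
              (mul_nonneg hC₃ (wt_nonneg _))
        _ = C₃ * CL * wt d p.1 := by ring
  have h2 := norm_integral_le_of_norm_le (hint.const_mul (K / 2)) (Eventually.of_forall hb)
  rw [Real.norm_eq_abs] at h2
  refine h2.trans ?_
  rw [integral_const_mul]
  have e1 : ∫ p, F p.2 p.1 * jb p.1 ^ q * loc e l X p.2 ∂(nu d) =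
      ∫ x, (∫ v, F x v * jb v ^ q) * loc e l X x ∂(muD d) := by
    unfold nu at hint ⊢
    rw [integral_prod_symm _ hint]
    refine integral_congr_ae (Eventually.of_forall fun x => ?_)
    simp only
    rw [integral_mul_const]
  have hA := pl_avg h (r := q)
  have e2 := pl_swap (l := l) hX hA
  have hAl := pl_loc_cont hA l
  have hprod : PlF e fun x => X x * loc e l (fun y => ∫ v, F y v * jb v ^ q) x :=
    ⟨hX.cont.mul hAl.cont, fun x i => by rw [hX.per, hAl.per], fun x y hxy => by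
      rw [hX.pl x y hxy, hAl.pl x y hxy]⟩
  rw [e1, e2]
  have h3 : ∫ x, X x * loc e l (fun y => ∫ v, F y v * jb v ^ q) x ∂(muD d) ≤
      ∫ x, η * X x ∂(muD d) := by
    refine integral_mono (pl_int hprod) ((pl_int hX).const_mul η) fun x => ?_
    show X x * loc e l (fun y => ∫ v, F y v * jb v ^ q) x ≤ η * X x
    rw [mul_comm η]
    exact mul_le_mul_of_nonneg_left (hη x) (hX0 x)
  rw [integral_const_mul] at h3
  calc K / 2 * ∫ x, X x * loc e l (fun y => ∫ v, F y v * jb v ^ q) x ∂(muD d)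
      ≤ K / 2 * (η * ∫ x, X x ∂(muD d)) := mul_le_mul_of_nonneg_left h3 (by positivity)
    _ = K / 2 * η * ∫ x, X x ∂(muD d) := by ring

end Pool.Agent.H48.PL
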