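import Pool.Agent.H48.PL.EntL
import Pool.Agent.H48.PL.PlI

/-!
# Module Equi: (E), local equi-integrability of the moment of order `q < 2`

`0 ≤ q < 2`, `l ≤ 1`. For every `ρ ≥ 1`, `κ > 1`: `F jb^q ≤ ρ^(q-2) F jb² + ρ^q (κ + F max(log F) 0 / log κ) 1[jb v ≤ ρ]` (if `jb v > ρ` the first term; if `jb v ≤ ρ` and `F ≤ κ`; if `F > κ`: `F ≤ F log F/log κ`).
Integrate over `v` and `z ∈ (-l/2,l/2)`, and use `loc_le` for `∫ F jb²` (`≤ 2M`: mass + energy) and for `∫ F max(log F) 0` (`≤ C` by `ent_lower`; planar function: continuity by dominated convergence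
as in `pl_avg`, or bound the iterated integral directly): `≤ ρ^(q-2) 2M + ρ^q (κ l vol{jb ≤ ρ} + C/log κ)`. Choose `ρ`, then `κ`, then `l₀`.
-/

set_option autoImplicit false

open MeasureTheory Set Filter Topology Pool.Agent.H25.Kin

namespace Pool.Agent.H48.PL

variable {d : ℕ}

private lemma eq_pt {y j q ρ K : ℝ} (hy : 0 ≤ y) (hj : 1 ≤ j) (hq0 : 0 ≤ q) (hq : q < 2)
    (hρ : 1 ≤ ρ) (hK : 0 < K) {w : ℝ} (hw : 0 ≤ w) (hw1 : j ≤ ρ → 1 ≤ w) :
    y * j ^ q ≤ ρ ^ (q - 2) * (y * j ^ (2 : ℝ)) + (ρ ^ q * Real.exp K) * w +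
      (ρ ^ q / K) * (y * max (Real.log y) 0) := by
  have hj0 : 0 < j := lt_of_lt_of_le one_pos hj
  have hρ0 : 0 < ρ := lt_of_lt_of_le one_pos hρ
  have p1 : 0 ≤ ρ ^ (q - 2) * (y * j ^ (2 : ℝ)) := by positivity
  have p2 : 0 ≤ (ρ ^ q * Real.exp K) * w := by positivity
  have p3 : 0 ≤ (ρ ^ q / K) * (y * max (Real.log y) 0) :=
    mul_nonneg (by positivity) (mul_nonneg hy (le_max_right _ _))
  rcases lt_or_ge ρ j with h | h
  · have e1 : j ^ q = j ^ (q - 2) * j ^ (2 : ℝ) := by
      rw [← Real.rpow_add hj0]; congr 1; ring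
    have e2 : j ^ (q - 2) ≤ ρ ^ (q - 2) :=
      Real.rpow_le_rpow_of_nonpos hρ0 h.le (by linarith)
    have e3 : y * j ^ q ≤ ρ ^ (q - 2) * (y * j ^ (2 : ℝ)) := by
      rw [e1]
      calc y * (j ^ (q - 2) * j ^ (2 : ℝ)) = j ^ (q - 2) * (y * j ^ (2 : ℝ)) := by ring
        _ ≤ _ := mul_le_mul_of_nonneg_right e2 (by positivity)
    linarith
  · have e1 : y * j ^ q ≤ y * ρ ^ q :=
      mul_le_mul_of_nonneg_left (Real.rpow_le_rpow hj0.le h hq0) hy
    rcases le_or_gt y (Real.exp K) with h2 | h2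
    · have e2 : y * ρ ^ q ≤ (ρ ^ q * Real.exp K) * w := by
        calc y * ρ ^ q ≤ Real.exp K * ρ ^ q := mul_le_mul_of_nonneg_right h2 (by positivity)
          _ = (ρ ^ q * Real.exp K) * 1 := by ring
          _ ≤ _ := mul_le_mul_of_nonneg_left (hw1 h) (by positivity)
      linarith
    · have hl : K ≤ Real.log y := by
        rw [← Real.log_exp K]
        exact Real.log_le_log (Real.exp_pos K) h2.le
      have e2 : y * ρ ^ q ≤ (ρ ^ q / K) * (y * max (Real.log y) 0) := by
        have : (ρ ^ q / K) * (y * K) ≤ (ρ ^ q / K) * (y * max (Real.log y) 0) :=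
          mul_le_mul_of_nonneg_left (mul_le_mul_of_nonneg_left (hl.trans (le_max_left _ _)) hy)
            (by positivity)
        calc y * ρ ^ q = (ρ ^ q / K) * (y * K) := by field_simp
          _ ≤ _ := this
      linarith

private lemma ind_le {ρ : ℝ} (hρ : 1 ≤ ρ) (v : Vec d) (h : jb v ≤ ρ) :
    1 ≤ (1 + ρ) ^ (d + 1) * wt d v := by
  have h1 : ‖v‖ ≤ ρ := by
    refine le_trans ?_ h
    have h2 := w_le_jb v
    rw [pi_norm_le_iff_of_nonneg (jb_pos v).le]
    intro i
    rw [Real.norm_eq_abs]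
    exact (abs_coord_le v i).trans (len_le_jb v)
  have h3 : (1 + ‖v‖) ^ (d + 1) ≤ (1 + ρ) ^ (d + 1) :=
    pow_le_pow_left₀ (by positivity) (by linarith) _
  have h4 : 0 < (1 + ‖v‖) ^ (d + 1) := by positivity
  unfold wt
  rw [← div_eq_mul_inv, le_div_iff₀ h4, one_mul]
  exact h3

private lemma int_symm {H : Vec d → Vec d → ℝ}
    (hH : Integrable (fun q : Vec d × Vec d => H q.2 q.1) (nu d)) :
    ∫ q, H q.2 q.1 ∂(nu d) = ∫ x, (∫ v, H x v) ∂(muD d) := integral_prod_symm _ hH

private lemma int3 {α : Type*} [MeasurableSpace α] {μ : Measure α} {f g h : α → ℝ}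
    (hf : Integrable f μ) (hg : Integrable g μ) (hh : Integrable h μ) :
    ∫ x, (f x + g x + h x) ∂μ = ∫ x, f x ∂μ + ∫ x, g x ∂μ + ∫ x, h x ∂μ := by
  have h1 := integral_add (hf.add hg) hh
  have h2 := integral_add hf hg
  simp only [Pi.add_apply] at h1 h2
  rw [h1, h2]

private lemma RX_wt {F : Vec d → Vec d → ℝ} (hd : RX F) (k : ℕ) :
    ∃ C, 0 ≤ C ∧ ∀ x v, (1 + ‖v‖) ^ k * |F x v| ≤ C * wt d v := by
  obtain ⟨C, hC⟩ := hd (k + (d + 1))
  refine ⟨C, le_trans (mul_nonneg (by positivity) (abs_nonneg _)) (hC 0 0), fun x v => ?_⟩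
  have h := hC x v
  have h4 : 0 < (1 + ‖v‖) ^ (d + 1) := by positivity
  unfold wt
  rw [← div_eq_mul_inv, le_div_iff₀ h4]
  calc (1 + ‖v‖) ^ k * |F x v| * (1 + ‖v‖) ^ (d + 1) = (1 + ‖v‖) ^ (k + (d + 1)) * |F x v| := by
        rw [pow_add]; ring
    _ ≤ C := h

private lemma flog_le {y : ℝ} (hy : 0 ≤ y) : 0 ≤ y * max (Real.log y) 0 ∧
    y * max (Real.log y) 0 ≤ y * y := by
  refine ⟨mul_nonneg hy (le_max_right _ _), mul_le_mul_of_nonneg_left (max_le ?_ hy) hy⟩
  rcases hy.eq_or_lt with h | h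
  · rw [← h, Real.log_zero]
  · linarith [Real.log_le_sub_one_of_pos h]

private lemma flog_cont : Continuous fun y : ℝ => max (y * Real.log y) 0 :=
  Real.continuous_mul_log.max continuous_const

private lemma flog_eq {y : ℝ} (hy : 0 ≤ y) : y * max (Real.log y) 0 = max (y * Real.log y) 0 := by
  rw [mul_max_of_nonneg _ _ hy, mul_zero]

private lemma pl_ent {e : Fin d} {F G : Vec d → Vec d → ℝ} (h : FS e F G) :
    PlF e fun x => ∫ v, F x v * max (Real.log (F x v)) 0 := by
  have cF : Continuous fun p : Vec d × Vec d => F p.1 p.2 * max (Real.log (F p.1 p.2)) 0 := by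
    have : (fun p : Vec d × Vec d => F p.1 p.2 * max (Real.log (F p.1 p.2)) 0) =
        fun p => max (F p.1 p.2 * Real.log (F p.1 p.2)) 0 := by
      funext p
      exact flog_eq (h.nonneg _ _)
    rw [this]
    exact flog_cont.comp h.contF
  refine ⟨?_, ?_, ?_⟩
  · obtain ⟨C0, -, h0⟩ := RX_wt h.decF 0
    obtain ⟨B, hB⟩ := h.decF 0
    have hB0 : 0 ≤ B := le_trans (mul_nonneg (by positivity) (abs_nonneg _)) (hB 0 0)
    refine continuous_of_dominated (bound := fun v => B * (C0 * wt d v)) ?_ ?_ ?_ ?_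
    · intro x
      exact (cF.comp (Continuous.prodMk_right x)).aestronglyMeasurable
    · intro x
      refine Eventually.of_forall fun v => ?_
      have hf := flog_le (h.nonneg x v)
      rw [Real.norm_eq_abs, abs_of_nonneg hf.1]
      refine hf.2.trans ?_
      have a1 : F x v ≤ B := by
        have := hB x v
        rw [pow_zero, one_mul] at this
        exact (le_abs_self _).trans this
      have a2 : F x v ≤ C0 * wt d v := by
        have := h0 x v
        rw [pow_zero, one_mul] at this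
        exact (le_abs_self _).trans this
      exact mul_le_mul a1 a2 (h.nonneg x v) hB0
    · exact (integrable_wt.const_mul C0).const_mul B
    · refine Eventually.of_forall fun v => ?_
      exact cF.comp (Continuous.prodMk_left v)
  · intro x i
    simp only [h.perF]
  · intro x y hxy
    have : ∀ v, F x v = F y v := fun v => h.plF x y v hxy
    simp only [this]

private lemma int_jb {e : Fin d} {F G : Vec d → Vec d → ℝ} (h : FS e F G) (r : ℝ) :
    Integrable (fun q : Vec d × Vec d => F q.2 q.1 * jb q.1 ^ r) (nu d) ∧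
      ∀ x, Integrable fun v => F x v * jb v ^ r := by
  obtain ⟨N, hN⟩ := exists_nat_ge r
  obtain ⟨C, hC0, hC⟩ := RX_wt h.decF N
  have hb : ∀ x v, |F x v * jb v ^ r| ≤ (((d : ℝ) + 1) ^ N * C) * wt d v := by
    intro x v
    have j0 := jb_pos v
    have e1 : jb v ^ r ≤ (((d : ℝ) + 1) * (1 + ‖v‖)) ^ N := by
      calc jb v ^ r ≤ jb v ^ (N : ℝ) := Real.rpow_le_rpow_of_exponent_le (one_le_jb v) hN
        _ = jb v ^ N := Real.rpow_natCast _ _
        _ ≤ _ := pow_le_pow_left₀ j0.le (jb_le_w v) N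
    rw [abs_mul, abs_of_nonneg (Real.rpow_nonneg j0.le r)]
    calc |F x v| * jb v ^ r ≤ |F x v| * (((d : ℝ) + 1) * (1 + ‖v‖)) ^ N :=
          mul_le_mul_of_nonneg_left e1 (abs_nonneg _)
      _ = ((d : ℝ) + 1) ^ N * ((1 + ‖v‖) ^ N * |F x v|) := by rw [mul_pow]; ring
      _ ≤ ((d : ℝ) + 1) ^ N * (C * wt d v) := mul_le_mul_of_nonneg_left (hC x v) (by positivity)
      _ = _ := by ring
  have cj : Continuous fun v : Vec d => jb v ^ r :=
    jb_cont.rpow_const fun v => Or.inl (jb_pos v).ne'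
  constructor
  · have hc : Continuous fun q : Vec d × Vec d => F q.2 q.1 * jb q.1 ^ r :=
      (h.contF.comp (continuous_snd.prodMk continuous_fst)).mul (cj.comp continuous_fst)
    exact integrable_nu hc.aestronglyMeasurable fun q => hb q.2 q.1
  · intro x
    have hc : Continuous fun v : Vec d => F x v * jb v ^ r :=
      (h.contF.comp (Continuous.prodMk_right x)).mul cj
    exact (integrable_wt.const_mul _).mono' hc.aestronglyMeasurable
      (Eventually.of_forall fun v => hb x v)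

private lemma int_flog {e : Fin d} {F G : Vec d → Vec d → ℝ} (h : FS e F G) (x : Vec d) :
    Integrable fun v => F x v * max (Real.log (F x v)) 0 := by
  have cF : Continuous fun v : Vec d => F x v * max (Real.log (F x v)) 0 := by
    have : (fun v : Vec d => F x v * max (Real.log (F x v)) 0) =
        fun v => max (F x v * Real.log (F x v)) 0 := by
      funext v
      exact flog_eq (h.nonneg _ _)
    rw [this]
    exact flog_cont.comp (h.contF.comp (Continuous.prodMk_right x))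
  obtain ⟨C0, -, h0⟩ := RX_wt h.decF 0
  obtain ⟨B, hB⟩ := h.decF 0
  have hB0 : 0 ≤ B := le_trans (mul_nonneg (by positivity) (abs_nonneg _)) (hB 0 0)
  refine ((integrable_wt.const_mul C0).const_mul B).mono' cF.aestronglyMeasurable
    (Eventually.of_forall fun v => ?_)
  have hf := flog_le (h.nonneg x v)
  rw [Real.norm_eq_abs, abs_of_nonneg hf.1]
  refine hf.2.trans ?_
  have a1 : F x v ≤ B := by
    have := hB x v
    rw [pow_zero, one_mul] at this
    exact (le_abs_self _).trans this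
  have a2 : F x v ≤ C0 * wt d v := by
    have := h0 x v
    rw [pow_zero, one_mul] at this
    exact (le_abs_self _).trans this
  exact mul_le_mul a1 a2 (h.nonneg x v) hB0

private lemma loc_int {e : Fin d} {A : Vec d → ℝ} (hA : PlF e A) (l : ℝ) (x : Vec d) :
    IntegrableOn (fun z => A (x - Pi.single e z)) (Ioo (-(l / 2)) (l / 2)) := by
  have hc : Continuous fun z : ℝ => A (x - Pi.single e z) := by
    refine hA.cont.comp (continuous_const.sub ?_)
    exact continuous_single (A := fun _ : Fin d => ℝ) e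
  exact (hc.integrableOn_Icc).mono_set Ioo_subset_Icc_self

theorem equi (e : Fin d) (M : ℝ) {q : ℝ} (hq0 : 0 ≤ q) (hq : q < 2) {η : ℝ} (hη : 0 < η) :
    ∃ l₀ : ℝ, 0 < l₀ ∧ l₀ ≤ 1 ∧ ∀ l : ℝ, 0 < l → l ≤ l₀ → ∀ F G : Vec d → Vec d → ℝ, FS e F G →
      ∫ q, F q.2 q.1 ∂(nu d) ≤ M → ∫ q, F q.2 q.1 * nsq q.1 ∂(nu d) ≤ M →
      ∫ q, F q.2 q.1 * Real.log (F q.2 q.1) ∂(nu d) ≤ M →
      ∀ x, loc e l (fun y => ∫ v, F y v * jb v ^ q) x ≤ η := by
  obtain ⟨C, hC0, hC⟩ := ent_lower d M
  -- choice of ρ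
  obtain ⟨ρ, hρ1, hρ⟩ : ∃ ρ : ℝ, 1 ≤ ρ ∧ ρ ^ (q - 2) * (2 * |M|) ≤ η / 3 := by
    have ht : Tendsto (fun ρ : ℝ => ρ ^ (q - 2) * (2 * |M|)) atTop (𝓝 (0 * (2 * |M|))) := by
      have := tendsto_rpow_neg_atTop (y := 2 - q) (by linarith)
      have h2 : (fun ρ : ℝ => ρ ^ (-(2 - q))) = fun ρ => ρ ^ (q - 2) := by
        funext ρ; congr 1; ring
      rw [h2] at this
      exact this.mul_const _
    rw [zero_mul] at ht
    have h3 := (ht.eventually (gt_mem_nhds (show (0 : ℝ) < η / 3 by positivity))).and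
      (eventually_ge_atTop (1 : ℝ))
    obtain ⟨ρ, h4, h5⟩ := h3.exists
    exact ⟨ρ, h5, h4.le⟩
  have hρ0 : 0 < ρ := lt_of_lt_of_le one_pos hρ1
  have hρq : 0 < ρ ^ q := Real.rpow_pos_of_pos hρ0 q
  -- choice of K
  set K : ℝ := 3 * ρ ^ q * C / η + 1 with hKdef
  have hK : 0 < K := by positivity
  have hKC : ρ ^ q / K * C ≤ η / 3 := by
    rw [div_mul_eq_mul_div, div_le_iff₀ hK, hKdef]
    have : η / 3 * (3 * ρ ^ q * C / η + 1) = ρ ^ q * C + η / 3 := by field_simp
    rw [this]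
    linarith
  -- the constant
  set W : ℝ := (ρ ^ q * Real.exp K) * ((1 + ρ) ^ (d + 1) * ∫ v, wt d v) with hWdef
  have hW : 0 ≤ W := by
    have : 0 ≤ ∫ v, wt d v := integral_nonneg fun v => wt_nonneg v
    positivity
  refine ⟨min 1 (η / (3 * (W + 1))), lt_min one_pos (by positivity), min_le_left _ _, ?_⟩
  intro l hl hl0 F G hF hm hen hent x
  have hl1 : l ≤ 1 := hl0.trans (min_le_left _ _)
  have hlW : W * l ≤ η / 3 := by
    have h1 : l ≤ η / (3 * (W + 1)) := hl0.trans (min_le_right _ _)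
    have h2 : l * (3 * (W + 1)) ≤ η := by rwa [le_div_iff₀ (by positivity)] at h1
    nlinarith
  -- planar functions
  have pA := pl_avg hF (r := q)
  have pE := pl_avg hF (r := 2)
  have pH := pl_ent hF
  -- pointwise bound
  have hpt : ∀ y, ∫ v, F y v * jb v ^ q ≤ ρ ^ (q - 2) * (∫ v, F y v * jb v ^ (2 : ℝ)) + W +
      ρ ^ q / K * ∫ v, F y v * max (Real.log (F y v)) 0 := by
    intro y
    have i1 := ((int_jb hF 2).2 y).const_mul (ρ ^ (q - 2))
    have i2 : Integrable fun v : Vec d => (ρ ^ q * Real.exp K) * ((1 + ρ) ^ (d + 1) * wt d v) :=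
      (integrable_wt.const_mul _).const_mul _
    have i3 := (int_flog hF y).const_mul (ρ ^ q / K)
    have key : ∫ v, F y v * jb v ^ q ≤ ∫ v, (ρ ^ (q - 2) * (F y v * jb v ^ (2 : ℝ)) +
        (ρ ^ q * Real.exp K) * ((1 + ρ) ^ (d + 1) * wt d v) +
        ρ ^ q / K * (F y v * max (Real.log (F y v)) 0)) := by
      refine integral_mono ((int_jb hF q).2 y) ((i1.add i2).add i3) fun v => ?_
      refine eq_pt (hF.nonneg y v) (one_le_jb v) hq0 hq hρ1 hK
        (mul_nonneg (by positivity) (wt_nonneg v)) ?_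
      intro hv
      exact ind_le hρ1 v hv
    have e1 : ∫ v, (ρ ^ (q - 2) * (F y v * jb v ^ (2 : ℝ)) +
        (ρ ^ q * Real.exp K) * ((1 + ρ) ^ (d + 1) * wt d v) +
        ρ ^ q / K * (F y v * max (Real.log (F y v)) 0)) =
        ρ ^ (q - 2) * (∫ v, F y v * jb v ^ (2 : ℝ)) + W +
        ρ ^ q / K * ∫ v, F y v * max (Real.log (F y v)) 0 := by
      rw [int3 i1 i2 i3, integral_const_mul, integral_const_mul, integral_const_mul,
        integral_const_mul]
    rw [e1] at key
    exact key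
  -- the planar majorant
  have pB : PlF e fun y => ρ ^ (q - 2) * (∫ v, F y v * jb v ^ (2 : ℝ)) + W +
      ρ ^ q / K * ∫ v, F y v * max (Real.log (F y v)) 0 := by
    refine ⟨((continuous_const.mul pE.cont).add continuous_const).add
      (continuous_const.mul pH.cont), ?_, ?_⟩
    · intro y i
      have a := pE.per y i
      have b := pH.per y i
      rw [a, b]
    · intro y z hyz
      have a := pE.pl y z hyz
      have b := pH.pl y z hyz
      rw [a, b]
  have h1 := loc_mono pA pB hpt l x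
  have h2 : loc e l (fun y => ρ ^ (q - 2) * (∫ v, F y v * jb v ^ (2 : ℝ)) + W +
      ρ ^ q / K * ∫ v, F y v * max (Real.log (F y v)) 0) x =
      ρ ^ (q - 2) * loc e l (fun y => ∫ v, F y v * jb v ^ (2 : ℝ)) x + W * l +
      ρ ^ q / K * loc e l (fun y => ∫ v, F y v * max (Real.log (F y v)) 0) x := by
    unfold loc
    have j1 := (loc_int pE l x).const_mul (ρ ^ (q - 2))
    have j3 := (loc_int pH l x).const_mul (ρ ^ q / K)
    have j2 : IntegrableOn (fun _ : ℝ => W) (Ioo (-(l / 2)) (l / 2)) :=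
      integrableOn_const (by simp)
    have e2 : ∫ _ in Ioo (-(l / 2)) (l / 2), W = W * l := by
      rw [setIntegral_const, Real.volume_real_Ioo_of_le (by linarith), smul_eq_mul]
      ring
    rw [int3 j1 j2 j3, e2, integral_const_mul, integral_const_mul]
  rw [h2] at h1
  have h3 : loc e l (fun y => ∫ v, F y v * jb v ^ (2 : ℝ)) x ≤ 2 * M := by
    refine (loc_le pE ?_ hl hl1 x).trans ?_
    · intro y
      exact integral_nonneg fun v => mul_nonneg (hF.nonneg y v) (Real.rpow_nonneg (jb_pos v).le _)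
    · rw [← int_symm (H := fun x v => F x v * jb v ^ (2 : ℝ)) (int_jb hF 2).1]
      have a1 : ∀ p : Vec d × Vec d, F p.2 p.1 * jb p.1 ^ (2 : ℝ) =
          F p.2 p.1 + F p.2 p.1 * nsq p.1 := by
        intro p
        have : jb p.1 ^ (2 : ℝ) = 1 + nsq p.1 := by
          rw [show (2 : ℝ) = ((2 : ℕ) : ℝ) by norm_num, Real.rpow_natCast, jb_sq]
        rw [this]; ring
      have b1 : Integrable (fun p : Vec d × Vec d => F p.2 p.1) (nu d) := by
        have := (int_jb hF 0).1
        simpa using this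
      have b2 : Integrable (fun p : Vec d × Vec d => F p.2 p.1 * nsq p.1) (nu d) := by
        have := (int_jb hF 2).1.sub b1
        refine this.congr (Eventually.of_forall fun p => ?_)
        simp only [Pi.sub_apply, a1]
        ring
      simp_rw [a1]
      rw [integral_add b1 b2]
      linarith
  have h4 : loc e l (fun y => ∫ v, F y v * max (Real.log (F y v)) 0) x ≤ C := by
    refine (loc_le pH ?_ hl hl1 x).trans ?_
    · intro y
      exact integral_nonneg fun v => (flog_le (hF.nonneg y v)).1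
    · rw [← int_symm (H := fun x v => F x v * max (Real.log (F x v)) 0)
        (ent_int hF.nonneg hF.contF hF.decF).1]
      exact (hC F hF.nonneg hF.contF hF.decF hen).2 hent
  have h5 : ρ ^ (q - 2) * loc e l (fun y => ∫ v, F y v * jb v ^ (2 : ℝ)) x ≤ η / 3 := by
    refine le_trans (mul_le_mul_of_nonneg_left (h3.trans ?_) (Real.rpow_nonneg hρ0.le _)) hρ
    linarith [le_abs_self M]
  have h6 : ρ ^ q / K * loc e l (fun y => ∫ v, F y v * max (Real.log (F y v)) 0) x ≤ η / 3 :=
    le_trans (mul_le_mul_of_nonneg_left h4 (by positivity)) hKC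
  linarith

end Pool.Agent.H48.PL
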