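import Pool.Agent.H48.PL.JB
import Pool.Agent.H25.Kin.Per
import Pool.Agent.H25.Kin.Close

/-!
# Module EntL: bounds for the entropy from mass and energy

Elementary: for `0 ≤ y`, `c ≥ 0`: `y (log y)⁻ ≤ y c + 2 exp(-c/2)` (`(log y)⁻ = max (-log y) 0`): if `y ≥ 1` trivial; if `e^(-c) ≤ y ≤ 1`: `-log y ≤ c`; if `y < e^(-c)`: `-y log y ≤ √y · (√y (-log y))`,
`√y(-log y) = 2 √y (-log √y) ≤ 2/e·.. ≤ 2` hence `≤ 2√y ≤ 2e^(-c/2)`. Use `c = nsq v`: `∫∫ F (log F)⁻ ≤ ∫∫ F nsq + 2 ∫∫ exp(-nsq/2) =: M + C_d` (the cube has measure 1).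
So `∫∫ F log F ≥ -(M + C_d)` and `∫∫ F (log F)⁺ = ∫∫ F log F + ∫∫ F (log F)⁻ ≤ 2M + C_d`. Integrability: `F` is rapidly decaying (bounds `F |log F| ≤ F² + 2√F`, as `ent_abs` in H15/AV/Ent.lean) and continuous.
-/

set_option autoImplicit false

open MeasureTheory Set Filter Topology Pool.Agent.H25.Kin

namespace Pool.Agent.H48.PL

variable {d : ℕ}

private lemma el_neg {y c : ℝ} (hy : 0 ≤ y) (hc : 0 ≤ c) :
    y * max (-Real.log y) 0 ≤ y * c + 2 * Real.exp (-c / 2) := by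
  have he := Real.exp_pos (-c / 2)
  rcases hy.eq_or_lt with h0 | h0
  · rw [← h0]; simp; positivity
  · rcases le_total 1 y with h1 | h1
    · rw [max_eq_right (by linarith [Real.log_nonneg h1]), mul_zero]
      positivity
    · rw [max_eq_left (by linarith [Real.log_nonpos hy h1])]
      rcases le_total (-Real.log y) c with h2 | h2
      · have := mul_le_mul_of_nonneg_left h2 hy
        linarith
      · have hr : 0 < √y := Real.sqrt_pos.2 h0
        have h3 : Real.log (√y)⁻¹ ≤ (√y)⁻¹ - 1 := Real.log_le_sub_one_of_pos (inv_pos.2 hr)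
        rw [Real.log_inv, Real.log_sqrt hy] at h3
        have h4 : -Real.log y ≤ 2 * (√y)⁻¹ := by linarith
        have h5 : y * (√y)⁻¹ = √y := by
          nth_rw 1 [← Real.mul_self_sqrt hy]
          rw [mul_assoc, mul_inv_cancel₀ hr.ne', mul_one]
        have h6 : √y ≤ Real.exp (-c / 2) := by
          have h7 : Real.log (√y) ≤ -c / 2 := by
            rw [Real.log_sqrt hy]; linarith
          rwa [Real.log_le_iff_le_exp hr] at h7
        have h8 := mul_le_mul_of_nonneg_left h4 hy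
        have h9 : 0 ≤ y * c := mul_nonneg hy hc
        have h10 : y * (2 * (√y)⁻¹) = 2 * √y := by
          calc y * (2 * (√y)⁻¹) = 2 * (y * (√y)⁻¹) := by ring
            _ = 2 * √y := by rw [h5]
        linarith

private lemma el_abs {a : ℝ} (ha : 0 ≤ a) : a * |Real.log a| ≤ a ^ 2 + 2 * √a := by
  rcases ha.eq_or_lt with h0 | h0
  · rw [← h0]
    simp
  · rcases le_total 1 a with h | h
    · rw [abs_of_nonneg (Real.log_nonneg h)]
      have h1 := mul_le_mul_of_nonneg_left (Real.log_le_self ha) ha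
      have h2 := Real.sqrt_nonneg a
      nlinarith
    · have h1 := el_neg ha le_rfl
      have h2 := Real.log_nonpos ha h
      rw [max_eq_left (by linarith)] at h1
      rw [abs_of_nonpos h2]
      have hr : 0 < √a := Real.sqrt_pos.2 h0
      have h3 : Real.log (√a)⁻¹ ≤ (√a)⁻¹ - 1 := Real.log_le_sub_one_of_pos (inv_pos.2 hr)
      rw [Real.log_inv, Real.log_sqrt ha] at h3
      have h4 : -Real.log a ≤ 2 * (√a)⁻¹ := by linarith
      have h5 : a * (√a)⁻¹ = √a := by
        nth_rw 1 [← Real.mul_self_sqrt ha]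
        rw [mul_assoc, mul_inv_cancel₀ hr.ne', mul_one]
      have h8 := mul_le_mul_of_nonneg_left h4 ha
      have h10 : a * (2 * (√a)⁻¹) = 2 * √a := by
        calc a * (2 * (√a)⁻¹) = 2 * (a * (√a)⁻¹) := by ring
          _ = 2 * √a := by rw [h5]
      nlinarith [sq_nonneg a]

private lemma el_dec {F : Vec d → Vec d → ℝ} (h0 : ∀ x v, 0 ≤ F x v) (hd : RX F) :
    ∃ K, ∀ x v, F x v * |Real.log (F x v)| ≤ K * wt d v := by
  obtain ⟨C, hC⟩ := hd (2 * (d + 1))
  have hC0 : 0 ≤ C := le_trans (mul_nonneg (pow_nonneg (w_pos _).le _) (abs_nonneg _)) (hC 0 0)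
  refine ⟨C ^ 2 + 2 * √C, fun x v => ?_⟩
  have h2 := hC x v
  rw [abs_of_nonneg (h0 x v)] at h2
  have hw0 := wt_nonneg (d := d) v
  have hw1 : wt d v ≤ 1 := by
    unfold wt
    exact inv_le_one_of_one_le₀ (one_le_pow₀ (one_le_w v))
  have hp : 0 < (1 + ‖v‖) ^ (d + 1) := pow_pos (w_pos v) _
  have e : F x v ≤ C * wt d v ^ 2 := by
    unfold wt
    rw [mul_comm 2, pow_mul] at h2
    rw [inv_pow, ← div_eq_mul_inv, le_div_iff₀ (by positivity)]
    linarith
  have hs := Real.sqrt_nonneg C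
  have hw2 : wt d v ^ 2 ≤ wt d v := by nlinarith
  have h3 : F x v ≤ C * wt d v := e.trans (mul_le_mul_of_nonneg_left hw2 hC0)
  have h4 : F x v ^ 2 ≤ C ^ 2 * wt d v := by
    have h5 : F x v ^ 2 ≤ (C * wt d v) ^ 2 := pow_le_pow_left₀ (h0 x v) h3 2
    rw [mul_pow] at h5
    exact h5.trans (mul_le_mul_of_nonneg_left hw2 (by positivity))
  have h6 : √(F x v) ≤ √C * wt d v := by
    refine (Real.sqrt_le_sqrt e).trans (le_of_eq ?_)
    rw [Real.sqrt_mul hC0, Real.sqrt_sq hw0]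
  have h7 := el_abs (h0 x v)
  linarith

private lemma el_cont {F : Vec d → Vec d → ℝ}
    (hc : Continuous fun p : Vec d × Vec d => F p.1 p.2) :
    Continuous fun q : Vec d × Vec d => F q.2 q.1 :=
  hc.comp (by fun_prop : Continuous fun q : Vec d × Vec d => (q.2, q.1))

private lemma el_pos_eq (y : ℝ) : y * max (Real.log y) 0 =
    y * Real.log y + y * max (-Real.log y) 0 := by
  rw [← mul_add]
  congr 1
  rcases le_total 0 (Real.log y) with h | h
  · rw [max_eq_left h, max_eq_right (by linarith), add_zero]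
  · rw [max_eq_right h, max_eq_left (by linarith)]; ring

private lemma el_log {F : Vec d → Vec d → ℝ} (h0 : ∀ x v, 0 ≤ F x v)
    (hc : Continuous fun p : Vec d × Vec d => F p.1 p.2) (hd : RX F) :
    Integrable (fun q : Vec d × Vec d => F q.2 q.1 * Real.log (F q.2 q.1)) (nu d) := by
  obtain ⟨K, hK⟩ := el_dec h0 hd
  refine integrable_nu (C := K) (Real.continuous_mul_log.comp (el_cont hc)).aestronglyMeasurable
    fun q => ?_
  rw [abs_mul, abs_of_nonneg (h0 _ _)]
  exact hK _ _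

private lemma el_negint {F : Vec d → Vec d → ℝ} (h0 : ∀ x v, 0 ≤ F x v)
    (hc : Continuous fun p : Vec d × Vec d => F p.1 p.2) (hd : RX F) :
    Integrable (fun q : Vec d × Vec d => F q.2 q.1 * max (-Real.log (F q.2 q.1)) 0) (nu d) := by
  obtain ⟨K, hK⟩ := el_dec h0 hd
  have e : (fun q : Vec d × Vec d => F q.2 q.1 * max (-Real.log (F q.2 q.1)) 0) =
      fun q : Vec d × Vec d => max (-(F q.2 q.1 * Real.log (F q.2 q.1))) 0 := by
    funext q
    rw [← mul_neg, mul_max_of_nonneg _ _ (h0 _ _), mul_zero]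
  have hcc : Continuous fun q : Vec d × Vec d => max (-(F q.2 q.1 * Real.log (F q.2 q.1))) 0 :=
    ((Real.continuous_mul_log.comp (el_cont hc)).neg).max continuous_const
  refine integrable_nu (C := K) (by rw [e]; exact hcc.aestronglyMeasurable) fun q => ?_
  rw [abs_mul, abs_of_nonneg (h0 _ _), abs_of_nonneg (le_max_right _ _)]
  refine le_trans (mul_le_mul_of_nonneg_left ?_ (h0 _ _)) (hK q.2 q.1)
  exact max_le (neg_le_abs _) (abs_nonneg _)

lemma ent_int {F : Vec d → Vec d → ℝ} (h0 : ∀ x v, 0 ≤ F x v)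
    (hc : Continuous fun p : Vec d × Vec d => F p.1 p.2) (hd : RX F) :
    Integrable (fun q : Vec d × Vec d => F q.2 q.1 * max (Real.log (F q.2 q.1)) 0) (nu d) ∧
    Integrable (fun q : Vec d × Vec d => F q.2 q.1 * Real.log (F q.2 q.1)) (nu d) := by
  refine ⟨?_, el_log h0 hc hd⟩
  simp_rw [el_pos_eq]
  exact (el_log h0 hc hd).add (el_negint h0 hc hd)

private lemma el_muD : (muD d).real univ = 1 := by
  unfold muD Measure.real
  rw [Measure.restrict_apply_univ, Real.volume_Icc_pi]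
  simp

theorem ent_lower (d : ℕ) (M : ℝ) : ∃ C : ℝ, 0 ≤ C ∧ ∀ F : Vec d → Vec d → ℝ, (∀ x v, 0 ≤ F x v) →
    (Continuous fun p : Vec d × Vec d => F p.1 p.2) → RX F →
    ∫ q, F q.2 q.1 * nsq q.1 ∂(nu d) ≤ M →
      -C ≤ ∫ q, F q.2 q.1 * Real.log (F q.2 q.1) ∂(nu d) ∧
      (∫ q, F q.2 q.1 * Real.log (F q.2 q.1) ∂(nu d) ≤ M →
        ∫ q, F q.2 q.1 * max (Real.log (F q.2 q.1)) 0 ∂(nu d) ≤ C) := by
  set D : ℝ := ∫ q : Vec d × Vec d, 2 * Real.exp (-(1 / 2) * nsq q.1) ∂(nu d) with hD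
  have hD0 : 0 ≤ D := integral_nonneg fun q => by positivity
  refine ⟨2 * |M| + D, by positivity, fun F h0 hc hd hM => ?_⟩
  have i1 : Integrable (fun q : Vec d × Vec d => F q.2 q.1 * nsq q.1) (nu d) := by
    obtain ⟨C, hC⟩ := hd (2 + (d + 1))
    refine integrable_nu (C := d * C)
      ((el_cont hc).mul (continuous_sq.comp continuous_fst)).aestronglyMeasurable fun q => ?_
    have h1 := hC q.2 q.1
    rw [abs_of_nonneg (h0 _ _)] at h1
    rw [abs_of_nonneg (mul_nonneg (h0 _ _) (sq_nonneg' _))]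
    have hp : 0 < (1 + ‖q.1‖) ^ (d + 1) := pow_pos (w_pos _) _
    unfold wt
    rw [← div_eq_mul_inv, le_div_iff₀ hp]
    have h2 := sq_le q.1
    have h3 : ‖q.1‖ ^ 2 ≤ (1 + ‖q.1‖) ^ 2 :=
      pow_le_pow_left₀ (norm_nonneg _) (by linarith) 2
    have h4 : nsq q.1 ≤ d * (1 + ‖q.1‖) ^ 2 :=
      h2.trans (mul_le_mul_of_nonneg_left h3 (Nat.cast_nonneg d))
    calc F q.2 q.1 * nsq q.1 * (1 + ‖q.1‖) ^ (d + 1)
        ≤ F q.2 q.1 * (d * (1 + ‖q.1‖) ^ 2) * (1 + ‖q.1‖) ^ (d + 1) := by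
          gcongr
          exact h0 _ _
      _ = d * ((1 + ‖q.1‖) ^ (2 + (d + 1)) * F q.2 q.1) := by rw [pow_add]; ring
      _ ≤ d * C := mul_le_mul_of_nonneg_left h1 (Nat.cast_nonneg d)
  have i2 : Integrable (fun q : Vec d × Vec d => 2 * Real.exp (-(1 / 2) * nsq q.1)) (nu d) := by
    obtain ⟨C, hC0, hC⟩ := (exp_RD (d := d) (by norm_num : (0 : ℝ) < 1 / 2)).bound (d + 1)
    refine integrable_nu (C := 2 * C) (continuous_const.mul (Real.continuous_exp.comp
      (continuous_const.mul (continuous_sq.comp continuous_fst)))).aestronglyMeasurable fun q => ?_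
    have h1 := hC q.1
    rw [Real.norm_eq_abs, abs_of_pos (Real.exp_pos _)] at h1
    rw [abs_of_nonneg (by positivity)]
    unfold wt
    linarith
  have hneg : ∫ q, F q.2 q.1 * max (-Real.log (F q.2 q.1)) 0 ∂(nu d) ≤ |M| + D := by
    have h1 : ∫ q, F q.2 q.1 * max (-Real.log (F q.2 q.1)) 0 ∂(nu d) ≤
        ∫ q, (F q.2 q.1 * nsq q.1 + 2 * Real.exp (-(1 / 2) * nsq q.1)) ∂(nu d) := by
      refine integral_mono (el_negint h0 hc hd) (i1.add i2) fun q => ?_
      have h2 := el_neg (h0 q.2 q.1) (sq_nonneg' q.1)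
      have e : -nsq q.1 / 2 = -(1 / 2) * nsq q.1 := by ring
      rw [e] at h2
      exact h2
    rw [integral_add i1 i2] at h1
    have h3 := le_abs_self M
    linarith
  have e1 : ∫ q, F q.2 q.1 * max (Real.log (F q.2 q.1)) 0 ∂(nu d) =
      ∫ q, F q.2 q.1 * Real.log (F q.2 q.1) ∂(nu d) +
      ∫ q, F q.2 q.1 * max (-Real.log (F q.2 q.1)) 0 ∂(nu d) := by
    rw [← integral_add (el_log h0 hc hd) (el_negint h0 hc hd)]
    refine integral_congr_ae (Eventually.of_forall fun q => ?_)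
    exact el_pos_eq _
  have e2 : 0 ≤ ∫ q, F q.2 q.1 * max (Real.log (F q.2 q.1)) 0 ∂(nu d) :=
    integral_nonneg fun q => mul_nonneg (h0 _ _) (le_max_right _ _)
  have h4 := abs_nonneg M
  have h5 := le_abs_self M
  refine ⟨by linarith, fun h => by linarith⟩

end Pool.Agent.H48.PL
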