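import Pool.Agent.H48.PL.EntF
import Pool.Agent.H48.PL.XC
import Pool.Agent.H48.PL.Glob
import Pool.Agent.H48.PL.EntL
import Pool.Agent.H15.AV.Ent

/-!
# Module TimB: (A2), the entropy production in time

Copy the private lemmas of H15/AV/Ent.lean (`ebt`, `eh`, `eS`, `ent_tsol`, `ent_step`, `ent_lim`). With `ε₁, C₂` of `ent_fiber`; fix `0 < r ≤ t < T`, `Cl` of `sol_unice` on `[r,t]`. For `η > 0`, `δ' ≤ δ₀(Cl, η)`, `τ ∈ [r,t]`, every `x`:
`XS TH ≤ C₂ XS NT - C₂ ∫v Q log (f + δ' gau) + η`. Integrate over `x` (`muD`, mass 1) and `τ`: `∫_r^t ∫x ∫v Q log(f+δ'gau) = ∫_r^t ∫ eS dν` (mass conservation kills `1·Q`, as in `ent_step`) `= ∫ eh δ' f t - ∫ eh δ' f r` (`TSol.ftc`).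
Let `δ' → 0` (`ent_lim`): `∫∫ XS TH ≤ C₂ ∫∫ XS NT + C₂ (H(r) - H(t)) + η (t-r)`, `H(t) = ∫ f log f dν`; then `η → 0`. `H(r) ≤ M` (`glob_bounds`), `H(t) ≥ -C_M` (`ent_lower`; `f t` is `RX`, continuous). `C = C₂ (|M| + C_M)`.
-/

set_option autoImplicit false

open MeasureTheory Set Filter Topology Pool.Agent.H25.Kin Pool.Agent.H82.BK Pool.Agent.H82.CM
open Pool.Agent.H15.AV (TSol pair gau UNice sol_unice nu_integral)

namespace Pool.Agent.H48.PL

variable {d : ℕ} {s a C Ca cb : ℝ} {b : ℝ → ℝ}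

section Aux

variable {T : ℝ} {f : ℝ → Vec d → Vec d → ℝ} {Q : (Vec d → ℝ) → Vec d → ℝ}

/-! ### the function `a log a` -/

private noncomputable def tebt (a : ℝ) : ℝ := a * Real.log a

private theorem tebt_cont : Continuous tebt := Real.continuous_mul_log

private theorem tebt_zero : tebt 0 = 0 := by simp [tebt]

private theorem tb_log {c y : ℝ} (hc : 0 < c) (hcy : c ≤ y) :
    |Real.log y| ≤ |Real.log c| + y := by
  have hy : 0 < y := hc.trans_le hcy
  rcases le_total 1 y with h | h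
  · rw [abs_of_nonneg (Real.log_nonneg h)]
    have h1 := Real.log_le_self hy.le
    have h2 := abs_nonneg (Real.log c)
    linarith
  · have h1 : Real.log y ≤ 0 := Real.log_nonpos hy.le h
    have h2 := Real.log_le_log hc hcy
    rw [abs_of_nonpos h1]
    have h3 := neg_abs_le (Real.log c)
    linarith

private theorem tb_abs {a : ℝ} (ha : 0 ≤ a) : |tebt a| ≤ a ^ 2 + 2 * √a := by
  rcases ha.eq_or_lt with h0 | h0
  · rw [← h0, tebt_zero]
    simp
  · unfold tebt
    rw [abs_mul, abs_of_pos h0]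
    rcases le_total 1 a with h | h
    · rw [abs_of_nonneg (Real.log_nonneg h)]
      have h1 := mul_le_mul_of_nonneg_left (Real.log_le_self ha) ha
      have h2 := Real.sqrt_nonneg a
      nlinarith
    · rw [abs_of_nonpos (Real.log_nonpos ha h)]
      have hr : 0 < √a := Real.sqrt_pos.2 h0
      have h1 : Real.log (√a)⁻¹ ≤ (√a)⁻¹ - 1 := Real.log_le_sub_one_of_pos (inv_pos.2 hr)
      rw [Real.log_inv, Real.log_sqrt ha] at h1
      have h2 : -Real.log a ≤ 2 * (√a)⁻¹ := by linarith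
      have h3 : a * (√a)⁻¹ = √a := by
        nth_rw 1 [← Real.mul_self_sqrt ha]
        rw [mul_assoc, mul_inv_cancel₀ hr.ne', mul_one]
      calc a * -Real.log a ≤ a * (2 * (√a)⁻¹) := mul_le_mul_of_nonneg_left h2 ha
        _ = 2 * (a * (√a)⁻¹) := by ring
        _ = 2 * √a := by rw [h3]
        _ ≤ a ^ 2 + 2 * √a := by nlinarith [sq_nonneg a]

private theorem tb_diff {a b : ℝ} (ha : 0 ≤ a) (hb : 0 < b) (hb1 : b ≤ 1) :
    |tebt (a + b) - tebt b| ≤ 2 * a ^ 2 + 2 * a + 2 * √a := by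
  rcases ha.eq_or_lt with h0 | h0
  · rw [← h0, zero_add, sub_self, abs_zero]
    positivity
  · have hab : 0 < a + b := by linarith
    have e : tebt (a + b) - tebt b = a * Real.log (a + b) + b * (Real.log (a + b) - Real.log b) := by
      unfold tebt; ring
    have h1 : 0 ≤ Real.log (a + b) - Real.log b :=
      sub_nonneg.2 (Real.log_le_log hb (by linarith))
    have h2 : Real.log (a + b) - Real.log b ≤ a / b := by
      rw [← Real.log_div hab.ne' hb.ne']
      refine (Real.log_le_sub_one_of_pos (div_pos hab hb)).trans (le_of_eq ?_)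
      field_simp
      ring
    have h3 : b * (Real.log (a + b) - Real.log b) ≤ a := by
      calc b * (Real.log (a + b) - Real.log b) ≤ b * (a / b) :=
            mul_le_mul_of_nonneg_left h2 hb.le
        _ = a := by field_simp
    have h4 := tb_log h0 (by linarith : a ≤ a + b)
    have h5 := tb_abs ha
    have h6 : |a * Real.log (a + b)| ≤ |tebt a| + a * (a + b) := by
      unfold tebt
      rw [abs_mul, abs_mul, abs_of_pos h0, ← mul_add]
      exact mul_le_mul_of_nonneg_left h4 ha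
    rw [e]
    refine (abs_add_le _ _).trans ?_
    rw [abs_of_nonneg (mul_nonneg hb.le h1)]
    nlinarith

/-! ### the regularized entropy -/

private theorem tgau_pos (v : Vec d) : 0 < gau v := Real.exp_pos _

private theorem tgau_le (v : Vec d) : gau v ≤ 1 := by
  unfold gau
  rw [← Real.exp_zero]
  exact Real.exp_le_exp.2 (by linarith [sq_nonneg' v])

private theorem tgau_smooth : ContDiff ℝ 1 (gau : Vec d → ℝ) := by
  unfold gau nsq
  fun_prop

private theorem tb_wt_le (v : Vec d) : wt d v ≤ 1 := by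
  unfold wt
  exact inv_le_one_of_one_le₀ (one_le_pow₀ (one_le_w v))

private noncomputable def teh (δ : ℝ) (f : ℝ → Vec d → Vec d → ℝ) (t : ℝ) (x v : Vec d) : ℝ :=
  tebt (f t x v + δ * gau v) - tebt (δ * gau v)

private noncomputable def teS (δ : ℝ) (Q' f : ℝ → Vec d → Vec d → ℝ) (t : ℝ) (x v : Vec d) : ℝ :=
  (1 + Real.log (f t x v + δ * gau v)) * Q' t x v

private theorem tb_bd {Q' : ℝ → Vec d → Vec d → ℝ} (hf : IsClassicalSol T Q' f) {T₁ : ℝ}
    (h1 : T₁ < T) : ∃ K, 0 ≤ K ∧ ∀ t ∈ Icc 0 T₁, ∀ x v, f t x v ≤ K * wt d v ∧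
      f t x v ^ 2 ≤ K * wt d v ∧ √(f t x v) ≤ K * wt d v := by
  obtain ⟨C, hC0, hC⟩ := hf.f_le h1 (2 * (d + 1))
  refine ⟨C + C ^ 2 + √C, by positivity, fun t ht x v => ?_⟩
  have h2 := hC t ht x v
  have h0 := hf.nonneg t ⟨ht.1, ht.2.trans_lt h1⟩ x v
  rw [abs_of_nonneg h0] at h2
  have hw0 := wt_nonneg (d := d) v
  have hw1 := tb_wt_le v
  have e : ((1 + ‖v‖) ^ (2 * (d + 1)))⁻¹ = wt d v ^ 2 := by
    unfold wt
    rw [mul_comm 2, pow_mul, inv_pow]
  rw [e] at h2
  have hs := Real.sqrt_nonneg C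
  have hw2 : wt d v ^ 2 ≤ wt d v := by nlinarith
  have h3 : f t x v ≤ C * wt d v := h2.trans (mul_le_mul_of_nonneg_left hw2 hC0)
  have h4 : f t x v ^ 2 ≤ C ^ 2 * wt d v := by
    have h5 : f t x v ^ 2 ≤ (C * wt d v) ^ 2 := pow_le_pow_left₀ h0 h3 2
    rw [mul_pow] at h5
    exact h5.trans (mul_le_mul_of_nonneg_left hw2 (by positivity))
  have h6 : √(f t x v) ≤ √C * wt d v := by
    refine (Real.sqrt_le_sqrt h2).trans (le_of_eq ?_)
    rw [Real.sqrt_mul hC0, Real.sqrt_sq hw0]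
  refine ⟨?_, ?_, ?_⟩ <;> nlinarith [mul_nonneg hC0 hw0, mul_nonneg (sq_nonneg C) hw0,
    mul_nonneg hs hw0]

private theorem tb_tsol {Q' : ℝ → Vec d → Vec d → ℝ} (hf : IsClassicalSol T Q' f) {δ : ℝ}
    (h0 : 0 < δ) (h1 : δ ≤ 1) : TSol T (teS δ Q' f) (teh δ f) where
  per := by
    intro t ht x v i
    unfold teh
    rw [hf.periodic t ht x v i]
  cont := by
    have hg : Continuous fun p : ℝ × Vec d × Vec d => δ * gau p.2.2 :=
      continuous_const.mul (tgau_smooth.continuous.comp (by fun_prop))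
    have h2 : unc (teh δ f) = fun p => tebt (unc f p + δ * gau p.2.2) - tebt (δ * gau p.2.2) := rfl
    rw [h2]
    exact (tebt_cont.comp_continuousOn (hf.cont.add hg.continuousOn)).sub
      (tebt_cont.comp hg).continuousOn
  smooth := by
    have hg : ContDiff ℝ 1 fun p : ℝ × Vec d × Vec d => δ * gau p.2.2 :=
      contDiff_const.mul (tgau_smooth.comp (by fun_prop))
    have h2 : unc (teh δ f) = fun p => (unc f p + δ * gau p.2.2) *
        Real.log (unc f p + δ * gau p.2.2) - (δ * gau p.2.2) * Real.log (δ * gau p.2.2) := rfl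
    rw [h2]
    have h3 : ContDiffOn ℝ 1 (fun p => unc f p + δ * gau p.2.2) (Ioo 0 T ×ˢ univ) :=
      (hf.smooth.of_le (by norm_num)).add hg.contDiffOn
    refine (h3.mul (h3.log fun p hp => ?_)).sub (hg.contDiffOn.mul (hg.contDiffOn.log fun p _ => ?_))
    · have := hf.nonneg p.1 ⟨hp.1.1.le, hp.1.2⟩ p.2.1 p.2.2
      have h5 := mul_pos h0 (tgau_pos p.2.2)
      exact (by unfold unc; linarith : 0 < unc f p + δ * gau p.2.2).ne'
    · exact (mul_pos h0 (tgau_pos p.2.2)).ne'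
  dec := by
    intro T₁ hT₁
    obtain ⟨K, hK0, hK⟩ := tb_bd hf hT₁
    refine ⟨6 * K, fun t ht x v => ?_⟩
    obtain ⟨a1, a2, a3⟩ := hK t ht x v
    have h2 := tb_diff (hf.nonneg t ⟨ht.1, ht.2.trans_lt hT₁⟩ x v) (mul_pos h0 (tgau_pos v))
      (by have := tgau_le v; have := tgau_pos v; nlinarith)
    unfold teh
    linarith
  decS := by
    intro T₀ hT₀ T₁ hT₁
    obtain ⟨D, hD0, hD⟩ := hf.Q_le hT₀ hT₁ (2 + (d + 1))
    obtain ⟨K, hK0, hK⟩ := tb_bd hf hT₁
    refine ⟨(2 + |Real.log δ| + d + K) * D, fun t ht x v => ?_⟩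
    have ht' : t ∈ Icc 0 T₁ := ⟨hT₀.le.trans ht.1, ht.2⟩
    obtain ⟨a1, -, -⟩ := hK t ht' x v
    have hn := hf.nonneg t ⟨ht'.1, ht'.2.trans_lt hT₁⟩ x v
    have hb := mul_pos h0 (tgau_pos v)
    have h2 := tb_log hb (by linarith : δ * gau v ≤ f t x v + δ * gau v)
    have h3 : |Real.log (δ * gau v)| ≤ |Real.log δ| + nsq v := by
      rw [Real.log_mul h0.ne' (tgau_pos v).ne']
      refine (abs_add_le _ _).trans ?_
      unfold gau
      rw [Real.log_exp, abs_neg, abs_of_nonneg (sq_nonneg' v)]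
    have h4 := sq_le v
    have hw1 := tb_wt_le v
    have hw0 := wt_nonneg (d := d) v
    have hb1 : δ * gau v ≤ 1 := by have := tgau_le v; have := tgau_pos v; nlinarith
    have hv := norm_nonneg v
    have h5 : f t x v ≤ K := a1.trans (by nlinarith)
    have h6 : |1 + Real.log (f t x v + δ * gau v)| ≤
        (2 + |Real.log δ| + d + K) * (1 + ‖v‖) ^ 2 := by
      have h7 : |1 + Real.log (f t x v + δ * gau v)| ≤ 1 + |Real.log (f t x v + δ * gau v)| := by
        refine (abs_add_le _ _).trans ?_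
        rw [abs_one]
      have h8 : |1 + Real.log (f t x v + δ * gau v)| ≤
          1 + (|Real.log δ| + d * ‖v‖ ^ 2) + (K + 1) := by linarith
      refine h8.trans ?_
      have h9 : (1 : ℝ) ≤ (1 + ‖v‖) ^ 2 := one_le_pow₀ (one_le_w v)
      have h10 : ‖v‖ ^ 2 ≤ (1 + ‖v‖) ^ 2 := pow_le_pow_left₀ hv (by linarith) 2
      have h11 := abs_nonneg (Real.log δ)
      have h12 : (d : ℝ) * ‖v‖ ^ 2 ≤ d * (1 + ‖v‖) ^ 2 :=
        mul_le_mul_of_nonneg_left h10 (Nat.cast_nonneg d)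
      nlinarith
    unfold teS
    rw [abs_mul]
    calc |1 + Real.log (f t x v + δ * gau v)| * |Q' t x v| ≤
        ((2 + |Real.log δ| + d + K) * (1 + ‖v‖) ^ 2) * (D * ((1 + ‖v‖) ^ (2 + (d + 1)))⁻¹) :=
          mul_le_mul h6 (hD t ht x v) (abs_nonneg _) (by positivity)
      _ = _ := wt_bound (by positivity) hD0 v 2
  solves := by
    intro t ht x v
    have hn := hf.nonneg t ⟨ht.1.le, ht.2⟩ x v
    have hb := mul_pos h0 (tgau_pos v)
    have hF : HasFDerivAt (unc f) (fderiv ℝ (unc f) (t, x, v)) (t, x, v) :=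
      ((hf.cda ht x v).differentiableAt (by norm_num)).hasFDerivAt
    have hG : HasFDerivAt (fun p : ℝ × Vec d × Vec d => δ * gau p.2.2)
        (δ • (fderiv ℝ gau v).comp ((ContinuousLinearMap.snd ℝ (Vec d) (Vec d)).comp
          (ContinuousLinearMap.snd ℝ ℝ (Vec d × Vec d)))) (t, x, v) := by
      have h2 : HasFDerivAt (gau : Vec d → ℝ) (fderiv ℝ gau v) v :=
        (tgau_smooth.differentiable one_ne_zero v).hasFDerivAt
      have h3 : HasFDerivAt (fun p : ℝ × Vec d × Vec d => p.2.2)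
          ((ContinuousLinearMap.snd ℝ (Vec d) (Vec d)).comp
          (ContinuousLinearMap.snd ℝ ℝ (Vec d × Vec d))) (t, x, v) :=
        ((ContinuousLinearMap.snd ℝ (Vec d) (Vec d)).comp
          (ContinuousLinearMap.snd ℝ ℝ (Vec d × Vec d))).hasFDerivAt
      have h4 : HasFDerivAt (fun p : ℝ × Vec d × Vec d => gau p.2.2)
          ((fderiv ℝ gau v).comp ((ContinuousLinearMap.snd ℝ (Vec d) (Vec d)).comp
          (ContinuousLinearMap.snd ℝ ℝ (Vec d × Vec d)))) (t, x, v) :=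
        HasFDerivAt.comp (g := (gau : Vec d → ℝ)) (t, x, v) h2 h3
      exact h4.const_mul δ
    have hA := hF.add hG
    have d1 : HasDerivAt tebt (Real.log (f t x v + δ * gau v) + 1) (f t x v + δ * gau v) :=
      Real.hasDerivAt_mul_log (by linarith [hb] : 0 < f t x v + δ * gau v).ne'
    have d2 : HasDerivAt tebt (Real.log (δ * gau v) + 1) (δ * gau v) :=
      Real.hasDerivAt_mul_log hb.ne'
    have e1 := HasDerivAt.comp_hasFDerivAt (h₂ := tebt)
      (f := fun p : ℝ × Vec d × Vec d => unc f p + δ * gau p.2.2) (t, x, v) d1 hA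
    have e2 := HasDerivAt.comp_hasFDerivAt (h₂ := tebt)
      (f := fun p : ℝ × Vec d × Vec d => δ * gau p.2.2) (t, x, v) d2 hG
    have e3 := e1.sub e2
    have e4 : unc (teh δ f) = (tebt ∘ fun p : ℝ × Vec d × Vec d => unc f p + δ * gau p.2.2) -
        (tebt ∘ fun p : ℝ × Vec d × Vec d => δ * gau p.2.2) := rfl
    unfold transport
    rw [e4, e3.fderiv]
    simp only [sub_apply, smul_apply, add_apply, ContinuousLinearMap.comp_apply,
      ContinuousLinearMap.coe_snd', map_zero, smul_eq_mul]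
    rw [hf.eqn t ht x v]
    unfold teS
    ring

private theorem tb_muD : (muD d).real univ = 1 := by
  unfold muD Measure.real
  rw [Measure.restrict_apply_univ, Real.volume_Icc_pi]
  simp

private theorem tb_lim {Q' : ℝ → Vec d → Vec d → ℝ} (hf : IsClassicalSol T Q' f) {t : ℝ}
    (ht : t ∈ Ico 0 T) : Tendsto (fun δ => ∫ q, teh δ f t q.2 q.1 ∂(nu d)) (𝓝[>] 0)
      (𝓝 (∫ q, tebt (f t q.2 q.1) ∂(nu d))) := by
  obtain ⟨K, hK0, hK⟩ := tb_bd hf ht.2
  have cf : Continuous fun q : Vec d × Vec d => f t q.2 q.1 :=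
    (hf.cont_slice ht).comp (by fun_prop : Continuous fun q : Vec d × Vec d => (q.2, q.1))
  have cg : Continuous fun q : Vec d × Vec d => gau q.1 := tgau_smooth.continuous.comp continuous_fst
  have hev : ∀ᶠ δ : ℝ in 𝓝[>] 0, δ ∈ Ioo (0 : ℝ) 1 := Ioo_mem_nhdsGT one_pos
  refine tendsto_integral_filter_of_dominated_convergence (fun q => 6 * K * wt d q.1) ?_ ?_ ?_ ?_
  · refine Eventually.of_forall fun δ => ?_
    exact ((tebt_cont.comp (cf.add (continuous_const.mul cg))).sub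
      (tebt_cont.comp (continuous_const.mul cg))).aestronglyMeasurable
  · filter_upwards [hev] with δ hδ
    refine Eventually.of_forall fun q => ?_
    obtain ⟨a1, a2, a3⟩ := hK t ⟨ht.1, le_rfl⟩ q.2 q.1
    have h2 := tb_diff (hf.nonneg t ht q.2 q.1) (mul_pos hδ.1 (tgau_pos q.1))
      (by have := tgau_le q.1; have := tgau_pos q.1; nlinarith [hδ.1, hδ.2])
    rw [Real.norm_eq_abs]
    unfold teh
    linarith
  · exact ((integrable_wt (d := d)).comp_fst (muD d)).const_mul _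
  · refine Eventually.of_forall fun q => ?_
    have hc : Continuous fun δ : ℝ => teh δ f t q.2 q.1 := by
      unfold teh
      exact (tebt_cont.comp (continuous_const.add (continuous_id.mul continuous_const))).sub
        (tebt_cont.comp (continuous_id.mul continuous_const))
    have h2 : teh 0 f t q.2 q.1 = tebt (f t q.2 q.1) := by
      unfold teh
      rw [zero_mul, add_zero, tebt_zero, sub_zero]
    rw [← h2]
    exact (hc.tendsto 0).mono_left nhdsWithin_le_nhds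


private theorem tb_XSx (ha : 0 ≤ a) (ha1 : a ≤ 1) {Q' : ℝ → Vec d → Vec d → ℝ}
    (hf : IsClassicalSol T Q' f) (A : Set (Vec d × Vec d)) {τ : ℝ} (hτ : τ ∈ Ico 0 T) :
    Integrable (fun x => XS a (f τ x) A) (muD d) := by
  have hX := XS_cont ha ha1 hf A
  have h1 : Continuous fun x : Vec d => (τ, x) := by fun_prop
  have h2 : Continuous fun x : Vec d => XS a (f τ x) A :=
    hX.comp_continuous h1 fun x => ⟨hτ, mem_univ _⟩
  unfold muD
  exact h2.continuousOn.integrableOn_compact isCompact_Icc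

private theorem tb_int {X Y J : Vec d → ℝ} {C₂ η : ℝ} (iX : Integrable X (muD d))
    (iY : Integrable Y (muD d)) (iJ : Integrable J (muD d))
    (h : ∀ x, X x ≤ C₂ * Y x - C₂ * J x + η) :
    ∫ x, X x ∂(muD d) ≤ C₂ * (∫ x, Y x ∂(muD d)) - C₂ * (∫ x, J x ∂(muD d)) + η := by
  have i1 : Integrable (fun x => C₂ * Y x - C₂ * J x) (muD d) :=
    (iY.const_mul C₂).sub (iJ.const_mul C₂)
  have h2 : ∫ x, X x ∂(muD d) ≤ ∫ x, (C₂ * Y x - C₂ * J x + η) ∂(muD d) :=
    integral_mono iX (i1.add (integrable_const η)) h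
  rw [integral_add i1 (integrable_const η), integral_sub (iY.const_mul C₂) (iJ.const_mul C₂),
    integral_const_mul, integral_const_mul, integral_const, tb_muD, one_smul] at h2
  exact h2

private theorem tb_intt {X Y J : ℝ → ℝ} {C₂ η r t : ℝ} (hrt : r ≤ t)
    (iX : IntervalIntegrable X volume r t)
    (iY : IntervalIntegrable Y volume r t) (iJ : IntervalIntegrable J volume r t)
    (h : ∀ x ∈ Icc r t, X x ≤ C₂ * Y x - C₂ * J x + η) :
    ∫ x in r..t, X x ≤ C₂ * (∫ x in r..t, Y x) - C₂ * (∫ x in r..t, J x) + η * (t - r) := by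
  have i1 : IntervalIntegrable (fun x => C₂ * Y x - C₂ * J x) volume r t :=
    (iY.const_mul C₂).sub (iJ.const_mul C₂)
  have h2 : ∫ x in r..t, X x ≤ ∫ x in r..t, (C₂ * Y x - C₂ * J x + η) :=
    intervalIntegral.integral_mono_on hrt iX (i1.add intervalIntegrable_const) h
  rw [intervalIntegral.integral_add i1 intervalIntegrable_const,
    intervalIntegral.integral_sub (iY.const_mul C₂) (iJ.const_mul C₂),
    intervalIntegral.integral_const_mul, intervalIntegral.integral_const_mul,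
    intervalIntegral.integral_const, smul_eq_mul] at h2
  linarith

private theorem tb_step (ha : 0 ≤ a) (ha1 : a ≤ 1)
    (hf' : IsClassicalSol T (fun t x => Q (f t x)) f)
    (hI : HasInvariants T fun t x => Q (f t x)) {A B : Set (Vec d × Vec d)} {C₂ : ℝ} (hC₂ : 0 ≤ C₂)
    (hfib : ∀ Cl : ℕ → ℝ, ∀ η > 0, ∃ δ₀ > 0, ∀ δ' ∈ Ioc (0 : ℝ) δ₀, ∀ g : Vec d → ℝ, UNice Cl g →
      XS a g A ≤ C₂ * XS a g B -
        C₂ * (∫ v, Q g v * Real.log (g v + δ' * gau v)) + η)
    {r t : ℝ} (hr : 0 < r) (hrt : r ≤ t) (ht : t < T) {η : ℝ} (hη : 0 < η) :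
    ∃ δ₀ > 0, ∀ δ' ∈ Ioc (0 : ℝ) δ₀,
      ∫ τ in r..t, (∫ x, XS a (f τ x) A ∂(muD d)) ≤
        C₂ * (∫ τ in r..t, (∫ x, XS a (f τ x) B ∂(muD d))) -
          C₂ * ((∫ q, teh δ' f t q.2 q.1 ∂(nu d)) - ∫ q, teh δ' f r q.2 q.1 ∂(nu d)) +
          η * (t - r) := by
  obtain ⟨Cl, hCl⟩ := sol_unice hf' hr ht
  obtain ⟨δ₀, hδ₀, hh⟩ := hfib Cl η hη
  refine ⟨min δ₀ 1, lt_min hδ₀ one_pos, fun δ hδ => ?_⟩
  have hδ1 : δ ≤ 1 := hδ.2.trans (min_le_right _ _)
  have hδ2 : δ ∈ Ioc (0 : ℝ) δ₀ := ⟨hδ.1, hδ.2.trans (min_le_left _ _)⟩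
  have H := tb_tsol hf' hδ.1 hδ1
  have hφ : Continuous fun _ : Vec d × Vec d => (1 : ℝ) := continuous_const
  have hb : ∀ q : Vec d × Vec d, |(fun _ : Vec d × Vec d => (1 : ℝ)) q| ≤ 1 := fun _ => by simp
  have hp : ∀ v : Vec d, Per fun y => (fun _ : Vec d × Vec d => (1 : ℝ)) (v, y) :=
    fun _ _ _ => rfl
  have h1 := H.ftc hφ hb hp hr hrt ht
  have hpair : ∀ (h : ℝ → Vec d → Vec d → ℝ) (τ : ℝ),
      pair (fun _ => 1) h τ = ∫ q, h τ q.2 q.1 ∂(nu d) := by
    intro h τ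
    unfold pair
    simp only [one_mul]
  have hS : ∀ τ ∈ Icc r t, ∫ x, XS a (f τ x) A ∂(muD d) ≤
      C₂ * (∫ x, XS a (f τ x) B ∂(muD d)) -
        C₂ * pair (fun _ => 1) (teS δ (fun t x => Q (f t x)) f) τ + η := by
    intro τ hτ
    have hτ' : τ ∈ Ioo 0 T := ⟨hr.trans_le hτ.1, hτ.2.trans_lt ht⟩
    have hτ'' : τ ∈ Ico 0 T := ⟨hτ'.1.le, hτ'.2⟩
    obtain ⟨K, hK⟩ := H.decS r hr t ht
    obtain ⟨D, hD0, hD⟩ := hf'.Q_le hr ht (d + 1)
    have cQ := hf'.cont_Q hτ'
    have cf := hf'.cont_slice hτ''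
    have cL : Continuous fun q : Vec d × Vec d => Real.log (f τ q.1 q.2 + δ * gau q.2) := by
      refine Continuous.log ?_ fun q => ?_
      · exact cf.add (continuous_const.mul (tgau_smooth.continuous.comp continuous_snd))
      · have h2 := hf'.nonneg τ hτ'' q.1 q.2
        have h3 := mul_pos hδ.1 (tgau_pos q.2)
        exact (by linarith : 0 < f τ q.1 q.2 + δ * gau q.2).ne'
    have cS : Continuous fun q : Vec d × Vec d =>
        teS δ (fun t x => Q (f t x)) f τ q.2 q.1 := by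
      have h2 : Continuous fun q : Vec d × Vec d => (1 + Real.log (f τ q.1 q.2 + δ * gau q.2)) *
          Q (f τ q.1) q.2 := (continuous_const.add cL).mul cQ
      exact h2.comp (by fun_prop : Continuous fun q : Vec d × Vec d => (q.2, q.1))
    have iS : Integrable (fun q : Vec d × Vec d =>
        teS δ (fun t x => Q (f t x)) f τ q.2 q.1)
        (nu d) := integrable_nu cS.aestronglyMeasurable fun q => hK τ hτ q.2 q.1
    rw [hpair, nu_integral iS]
    have hin : ∀ x : Vec d, XS a (f τ x) A ≤ C₂ * XS a (f τ x) B -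
        C₂ * (∫ v, teS δ (fun t x => Q (f t x)) f τ x v) + η := by
      intro x
      have c1 : Continuous fun v : Vec d => Q (f τ x) v :=
        cQ.comp (by fun_prop : Continuous fun v : Vec d => (x, v))
      have c2 : Continuous fun v : Vec d => Real.log (f τ x v + δ * gau v) :=
        cL.comp (by fun_prop : Continuous fun v : Vec d => (x, v))
      have i1 : Integrable fun v : Vec d => Q (f τ x) v := by
        refine (integrable_wt.const_mul D).mono' c1.aestronglyMeasurable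
          (Eventually.of_forall fun v => ?_)
        exact hD τ hτ x v
      have i2 : Integrable fun v : Vec d =>
          teS δ (fun t x => Q (f t x)) f τ x v := by
        refine (integrable_wt.const_mul K).mono' ((continuous_const.add c2).mul
          c1).aestronglyMeasurable (Eventually.of_forall fun v => ?_)
        exact hK τ hτ x v
      have i3 : Integrable fun v : Vec d =>
          Q (f τ x) v * Real.log (f τ x v + δ * gau v) := by
        refine (i2.sub i1).congr (Eventually.of_forall fun v => ?_)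
        simp only [Pi.sub_apply, teS]
        ring
      have e1 : ∫ v, teS δ (fun t x => Q (f t x)) f τ x v =
          (∫ v, Q (f τ x) v) +
            ∫ v, Q (f τ x) v * Real.log (f τ x v + δ * gau v) := by
        rw [← integral_add i1 i3]
        refine integral_congr_ae (Eventually.of_forall fun v => ?_)
        simp only [teS]
        ring
      rw [e1, (hI τ hτ' x).1, zero_add]
      exact hh δ hδ2 (f τ x) (hCl τ hτ x)
    have hint : Integrable (fun x : Vec d =>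
        ∫ v, teS δ (fun t x => Q (f t x)) f τ x v) (muD d) := by
      have := iS
      unfold nu at this
      exact this.integral_prod_right
    have iA := tb_XSx ha ha1 hf' A hτ''
    have iB := tb_XSx ha ha1 hf' B hτ''
    exact tb_int iA iB hint hin
  have hcS := H.pairS_cont hφ hb hp
  have hsub : ∀ τ ∈ Icc r t, τ ∈ Ioo 0 T := fun τ hτ => ⟨hr.trans_le hτ.1, hτ.2.trans_lt ht⟩
  have hii : IntervalIntegrable
      (pair (fun _ => 1) (teS δ (fun t x => Q (f t x)) f)) volume r t :=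
    ContinuousOn.intervalIntegrable_of_Icc hrt (hcS.mono hsub)
  have hiA : IntervalIntegrable (fun τ => ∫ x, XS a (f τ x) A ∂(muD d)) volume r t :=
    ContinuousOn.intervalIntegrable_of_Icc hrt
      ((XSt_cont ha ha1 hf' A).mono fun τ hτ => ⟨(hsub τ hτ).1.le, (hsub τ hτ).2⟩)
  have hiB : IntervalIntegrable (fun τ => ∫ x, XS a (f τ x) B ∂(muD d)) volume r t :=
    ContinuousOn.intervalIntegrable_of_Icc hrt
      ((XSt_cont ha ha1 hf' B).mono fun τ hτ => ⟨(hsub τ hτ).1.le, (hsub τ hτ).2⟩)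
  have h2 := tb_intt hrt hiA hiB hii hS
  rw [← h1, hpair, hpair] at h2
  exact h2

private theorem tb_all (ha : 0 ≤ a) (ha1 : a ≤ 1)
    (hf' : IsClassicalSol T (fun t x => Q (f t x)) f)
    (hI : HasInvariants T fun t x => Q (f t x)) {A B : Set (Vec d × Vec d)} {C₂ : ℝ} (hC₂ : 0 ≤ C₂)
    (hfib : ∀ Cl : ℕ → ℝ, ∀ η > 0, ∃ δ₀ > 0, ∀ δ' ∈ Ioc (0 : ℝ) δ₀, ∀ g : Vec d → ℝ, UNice Cl g →
      XS a g A ≤ C₂ * XS a g B -
        C₂ * (∫ v, Q g v * Real.log (g v + δ' * gau v)) + η)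
    {r t : ℝ} (hr : 0 < r) (hrt : r ≤ t) (ht : t < T) :
    ∫ τ in r..t, (∫ x, XS a (f τ x) A ∂(muD d)) ≤
      C₂ * (∫ τ in r..t, (∫ x, XS a (f τ x) B ∂(muD d))) +
        C₂ * ((∫ q, f r q.2 q.1 * Real.log (f r q.2 q.1) ∂(nu d)) -
          ∫ q, f t q.2 q.1 * Real.log (f t q.2 q.1) ∂(nu d)) := by
  refine le_of_forall_pos_le_add fun ε hε => ?_
  have hts : 0 < t - r + 1 := by linarith
  obtain ⟨δ₀, hδ₀, h⟩ := tb_step ha ha1 hf' hI hC₂ hfib hr hrt ht (div_pos hε hts)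
  have h1 := tb_lim hf' (t := t) ⟨hr.le.trans hrt, ht⟩
  have h2 := tb_lim hf' (t := r) ⟨hr.le, hrt.trans_lt ht⟩
  have h3 : ε / (t - r + 1) * (t - r) ≤ ε := by
    rw [div_mul_eq_mul_div, div_le_iff₀ hts]
    nlinarith
  have h4 := (((h1.sub h2).const_mul C₂).const_sub
    (C₂ * (∫ τ in r..t, (∫ x, XS a (f τ x) B ∂(muD d))))).add_const (ε / (t - r + 1) * (t - r))
  have h5 := ge_of_tendsto h4 (by
    filter_upwards [Ioc_mem_nhdsGT hδ₀] with δ hδ
    exact h δ hδ)
  unfold tebt at h5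
  linarith

end Aux

theorem ent_time (HL : HypL d (1 + a) s b C Ca cb) (ha : 0 < a) (ha1 : a ≤ 1) (e : Fin d) {δ : ℝ}
    (hδ : 0 < δ) (hδ1 : δ < 1) : ∃ ε₁ C₂ : ℝ, 0 < ε₁ ∧ 0 ≤ C₂ ∧ ∀ M : ℝ, ∃ C₃ : ℝ, 0 ≤ C₃ ∧
    ∀ (T : ℝ) (f : ℝ → Vec d → Vec d → ℝ), IsBoltzmannSol (1 + a) b T f → GB M (f 0) →
      ∀ r t : ℝ, 0 < r → r ≤ t → t < T →
      ∫ τ in r..t, (∫ x, XS a (f τ x) (CmpS δ ∩ (NtS e ε₁ (kpa s a))ᶜ) ∂(muD d)) ≤
        C₂ * (∫ τ in r..t, (∫ x, XS a (f τ x) (CmpS (δ / 2) ∩ NtS e ε₁ (kpa s a)) ∂(muD d))) + C₃ := by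
  obtain ⟨ε₁, C₂, hε₁, hC₂, hfib⟩ := ent_fiber HL ha ha1 e hδ hδ1
  refine ⟨ε₁, C₂, hε₁, hC₂, fun M => ?_⟩
  obtain ⟨CM, hCM0, hCM⟩ := ent_lower d M
  refine ⟨C₂ * (|M| + CM), by positivity, fun T f hf hM r t hr hrt ht => ?_⟩
  have hf' : IsClassicalSol T (fun t x => boltzQ (1 + a) b (f t x)) f := hf
  have hI := boltz_HasInvariants HL.H hf
  have hrT : r ∈ Ico 0 T := ⟨hr.le, hrt.trans_lt ht⟩
  have htT : t ∈ Ico 0 T := ⟨hr.le.trans hrt, ht⟩
  have h1 := (glob_bounds HL.H hf hM hrT).entropy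
  have h2 := (glob_bounds HL.H hf hM htT).energy
  have hRX : RX (f t) := by
    intro N
    obtain ⟨C, hC⟩ := hf'.decay t ht N
    refine ⟨C, fun x v => ?_⟩
    rw [abs_of_nonneg (hf'.nonneg t htT x v)]
    exact hC t ⟨htT.1, le_rfl⟩ x v
  have h3 := (hCM (f t) (hf'.nonneg t htT) (IsClassicalSol.cont_slice hf' htT) hRX h2).1
  have key := tb_all (Q := boltzQ (1 + a) b) ha.le ha1 hf' hI (A := CmpS δ ∩ (NtS e ε₁ (kpa s a))ᶜ)
    (B := CmpS (δ / 2) ∩ NtS e ε₁ (kpa s a)) hC₂ hfib hr hrt ht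
  have h4 : (∫ q, f r q.2 q.1 * Real.log (f r q.2 q.1) ∂(nu d)) -
      ∫ q, f t q.2 q.1 * Real.log (f t q.2 q.1) ∂(nu d) ≤ |M| + CM := by
    have := le_abs_self M
    linarith
  have h5 := mul_le_mul_of_nonneg_left h4 hC₂
  linarith

end Pool.Agent.H48.PL
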