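import Pool.Agent.H48.PL.Wgt

/-!
# Module PhH: Holder continuity of `Ph`

`Ph v w = μ(v,w)² h(v_e-w_e)`, `μ = min(1, jb w/jb v)`, `h = sp a`, `|h(x)-h(y)| ≤ 2|x-y|^a`.
* in `w`: let `jb w ≤ jb w'`. `|Ph v w - Ph v w'| ≤ μ(v,w')² |h-h'| + (μ(v,w')² - μ(v,w)²)|h(v_e-w_e)|`. First `≤ 2 len^a`. Second: zero unless
  `jb w < jb v`, then `|h| ≤ (2 jb v)^a ≤ 2 jb v^a`, `μ'²-μ² ≤ 2(μ'-μ) ≤ 2 min(1, len/jb v) ≤ 2 (len/jb v)^a`. Total `≤ 6 len^a`.
* in `v` (`u` against `v`): if `len(u-v) ≥ jb v/2` then `min(1, len/jb v)^a ≥ 1/2` and `|Ph u w|+|Ph v w| ≤ 4 jb w^a`. If `len(u-v) < jb v/2`: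
  `jb u ∈ [jb v/2, 3jb v/2]` (`jb_lip`). `|Ph u w - Ph v w| ≤ μ(u,w)²|h-h'| + |μ(u,w)²-μ(v,w)²||h(v_e-w_e)|`.
  First: `μ(u,w)² ≤ μ(u,w)^a ≤ (jb w/jb u)^a ≤ 2 (jb w/jb v)^a`, times `2 len^a`. Second: zero if `jb w ≥ max(jb u, jb v)`; otherwise `jb w < 1.5 jb v`,
  `|h| ≤ (2.5 jb v)^a ≤ 2.5 jb v^a`, `|μ_u²-μ_v²| ≤ 2|μ_u-μ_v|`, `|μ_u-μ_v| ≤ jb w |1/jb u - 1/jb v| ≤ 2 (jb w/jb v)(len/jb v)`; and
  `jb v^a (jb w/jb v) (len/jb v) = jb w^a (jb w/jb v)^(1-a) (len/jb v) ≤ 1.5 jb w^a (len/jb v)^a`. Total `≤ 4 + 15 ≤ 32`.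
-/

set_option autoImplicit false

open MeasureTheory Set Filter Topology Pool.Agent.H25.Kin

namespace Pool.Agent.H48.PL

variable {d : ℕ} {a : ℝ}

private lemma phh_min_le {a t : ℝ} (ha : 0 < a) (ha1 : a ≤ 1) (ht : 0 ≤ t) : min 1 t ≤ t ^ a := by
  rcases le_total t 1 with h | h
  · rw [min_eq_right h]
    rcases eq_or_lt_of_le ht with h0 | h0
    · rw [← h0]
      rw [Real.zero_rpow ha.ne']
    · calc t = t ^ (1 : ℝ) := (Real.rpow_one t).symm
        _ ≤ t ^ a := Real.rpow_le_rpow_of_exponent_ge h0 h ha1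
  · rw [min_eq_left h]
    exact Real.one_le_rpow h ha.le

private lemma phh_two {a c x : ℝ} (ha : 0 < a) (ha1 : a ≤ 1) (hc : 1 ≤ c) (hx : 0 ≤ x) :
    (c * x) ^ a ≤ c * x ^ a := by
  have hc0 : 0 ≤ c := zero_le_one.trans hc
  rw [Real.mul_rpow hc0 hx]
  have h1 : c ^ a ≤ c ^ (1 : ℝ) := Real.rpow_le_rpow_of_exponent_le hc ha1
  rw [Real.rpow_one] at h1
  exact mul_le_mul_of_nonneg_right h1 (Real.rpow_nonneg hx a)

private lemma phh_len_symm (u v : Vec d) : len (u - v) = len (v - u) := by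
  unfold len nsq
  congr 1
  apply Finset.sum_congr rfl
  intro i _
  simp only [Pi.sub_apply]
  ring

private lemma phh_len_nonneg (u : Vec d) : 0 ≤ len u := Real.sqrt_nonneg _

private lemma phh_coord (e : Fin d) (v w : Vec d) : |v e - w e| ≤ jb v + jb w := by
  have h1 := abs_coord_le (v - w) e
  rw [Pi.sub_apply] at h1
  have h2 := len_sub_le v w
  have h3 := len_le_jb v
  have h4 := len_le_jb w
  linarith

private lemma phh_sub (e : Fin d) (v w : Vec d) : |v e - w e| ≤ len (v - w) := by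
  have h1 := abs_coord_le (v - w) e
  rwa [Pi.sub_apply] at h1

private lemma phh_aux (ha : 0 < a) (ha1 : a ≤ 1) (e : Fin d) (v w w' : Vec d)
    (hww : jb w ≤ jb w') :
    |Ph e a v w - Ph e a v w'| ≤ 8 * len (w - w') ^ a := by
  unfold Ph
  have hv := jb_pos v
  have hw := jb_pos w
  have hw' := jb_pos w'
  set h := sp a (v e - w e) with hh
  set h' := sp a (v e - w' e) with hh'
  set μ := min 1 (jb w / jb v) with hμ
  set μ' := min 1 (jb w' / jb v) with hμ'
  have hL : 0 ≤ len (w - w') := phh_len_nonneg _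
  have hLa : 0 ≤ len (w - w') ^ a := Real.rpow_nonneg hL a
  have hμ0 : 0 < μ := lt_min one_pos (div_pos hw hv)
  have hμ'0 : 0 < μ' := lt_min one_pos (div_pos hw' hv)
  have hμ'1 : μ' ≤ 1 := min_le_left _ _
  have hμμ : μ ≤ μ' := min_le_min le_rfl (div_le_div_of_nonneg_right hww hv.le)
  have hdiff : |h - h'| ≤ 2 * len (w - w') ^ a := by
    have h1 := sp_holder ha ha1 (v e - w e) (v e - w' e)
    have h2 : |v e - w e - (v e - w' e)| ≤ len (w - w') := by
      have h3 := phh_sub e w w'
      have h4 : v e - w e - (v e - w' e) = -(w e - w' e) := by ring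
      rw [h4, abs_neg]
      exact h3
    have h5 := Real.rpow_le_rpow (abs_nonneg _) h2 ha.le
    linarith
  have e1 : μ ^ 2 * h - μ' ^ 2 * h' = μ' ^ 2 * (h - h') - (μ' ^ 2 - μ ^ 2) * h := by ring
  rw [e1]
  have hsq : μ' ^ 2 ≤ 1 := by nlinarith
  have b1 : |μ' ^ 2 * (h - h')| ≤ 2 * len (w - w') ^ a := by
    rw [abs_mul, abs_of_nonneg (sq_nonneg μ')]
    calc μ' ^ 2 * |h - h'| ≤ 1 * |h - h'| := mul_le_mul_of_nonneg_right hsq (abs_nonneg _)
      _ ≤ 2 * len (w - w') ^ a := by rw [one_mul]; exact hdiff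
  have b2 : |(μ' ^ 2 - μ ^ 2) * h| ≤ 4 * len (w - w') ^ a := by
    rcases le_total (jb v) (jb w) with hc | hc
    · have h1 : μ = 1 := min_eq_left ((one_le_div hv).2 hc)
      have h2 : μ' = 1 := le_antisymm hμ'1 (h1 ▸ hμμ)
      rw [h1, h2]
      simp only [sub_self, zero_mul, abs_zero]
      positivity
    · have h3 : |h| ≤ 2 * jb v ^ a := by
        rw [hh, abs_sp]
        have h4 : |v e - w e| ≤ 2 * jb v := by
          have := phh_coord e v w
          linarith
        exact (Real.rpow_le_rpow (abs_nonneg _) h4 ha.le).trans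
          (phh_two ha ha1 one_le_two hv.le)
      have h5 : μ = jb w / jb v := min_eq_right ((div_le_one hv).2 hc)
      have h6 : μ' - μ ≤ min 1 (len (w - w') / jb v) := by
        apply le_min
        · linarith
        · rw [h5]
          have h7 : μ' ≤ jb w' / jb v := min_le_right _ _
          have h8 : jb w' - jb w ≤ len (w - w') := by
            have h9 := jb_lip w w'
            rw [abs_sub_comm] at h9
            exact (le_abs_self _).trans h9
          have h10 : jb w' / jb v - jb w / jb v ≤ len (w - w') / jb v := by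
            rw [← sub_div]
            exact div_le_div_of_nonneg_right h8 hv.le
          linarith
      have h11 := h6.trans (phh_min_le ha ha1 (div_nonneg hL hv.le))
      have h12 : |μ' ^ 2 - μ ^ 2| ≤ 2 * (len (w - w') / jb v) ^ a := by
        have h13 : μ' ^ 2 - μ ^ 2 = (μ' - μ) * (μ' + μ) := by ring
        rw [h13, abs_of_nonneg (mul_nonneg (by linarith) (by linarith))]
        have h14 : μ' + μ ≤ 2 := by linarith
        calc (μ' - μ) * (μ' + μ) ≤ (μ' - μ) * 2 :=
              mul_le_mul_of_nonneg_left h14 (by linarith)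
          _ ≤ 2 * (len (w - w') / jb v) ^ a := by linarith
      rw [abs_mul]
      have h15 : (len (w - w') / jb v) ^ a * jb v ^ a = len (w - w') ^ a := by
        rw [Real.div_rpow hL hv.le, div_mul_cancel₀]
        exact (Real.rpow_pos_of_pos hv a).ne'
      calc |μ' ^ 2 - μ ^ 2| * |h| ≤ (2 * (len (w - w') / jb v) ^ a) * (2 * jb v ^ a) :=
            mul_le_mul h12 h3 (abs_nonneg _)
              (mul_nonneg zero_le_two (Real.rpow_nonneg (div_nonneg hL hv.le) a))
        _ = 4 * ((len (w - w') / jb v) ^ a * jb v ^ a) := by ring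
        _ = 4 * len (w - w') ^ a := by rw [h15]
  calc |μ' ^ 2 * (h - h') - (μ' ^ 2 - μ ^ 2) * h|
      ≤ |μ' ^ 2 * (h - h')| + |(μ' ^ 2 - μ ^ 2) * h| := abs_sub _ _
    _ ≤ 8 * len (w - w') ^ a := by linarith

lemma Ph_holder (ha : 0 < a) (ha1 : a ≤ 1) (e : Fin d) (v w w' : Vec d) :
    |Ph e a v w - Ph e a v w'| ≤ 8 * len (w - w') ^ a := by
  rcases le_total (jb w) (jb w') with h | h
  · exact phh_aux ha ha1 e v w w' h
  · rw [abs_sub_comm, phh_len_symm]
    exact phh_aux ha ha1 e v w' w h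

lemma Ph_holder_v (ha : 0 < a) (ha1 : a ≤ 1) (e : Fin d) (u v w : Vec d) :
    |Ph e a u w - Ph e a v w| ≤ 32 * (jb w ^ a * min 1 (len (u - v) / jb v) ^ a) := by
  have hu := jb_pos u
  have hv := jb_pos v
  have hw := jb_pos w
  have hwa : 0 < jb w ^ a := Real.rpow_pos_of_pos hw a
  have hL : 0 ≤ len (u - v) := phh_len_nonneg _
  rcases le_or_gt (jb v / 2) (len (u - v)) with hc | hc
  · have h1 : (1 / 2 : ℝ) ≤ min 1 (len (u - v) / jb v) := by
      apply le_min (by norm_num)
      rw [le_div_iff₀ hv]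
      linarith
    have h2 : (1 / 2 : ℝ) ≤ min 1 (len (u - v) / jb v) ^ a := by
      calc (1 / 2 : ℝ) = (1 / 2 : ℝ) ^ (1 : ℝ) := (Real.rpow_one _).symm
        _ ≤ (1 / 2 : ℝ) ^ a :=
          Real.rpow_le_rpow_of_exponent_ge (by norm_num) (by norm_num) ha1
        _ ≤ min 1 (len (u - v) / jb v) ^ a := Real.rpow_le_rpow (by norm_num) h1 ha.le
    have h3 := Ph_abs ha ha1 e u w
    have h4 := Ph_abs ha ha1 e v w
    have h5 : jb w ^ a * (1 / 2) ≤ jb w ^ a * min 1 (len (u - v) / jb v) ^ a :=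
      mul_le_mul_of_nonneg_left h2 hwa.le
    calc |Ph e a u w - Ph e a v w| ≤ |Ph e a u w| + |Ph e a v w| := abs_sub _ _
      _ ≤ 32 * (jb w ^ a * min 1 (len (u - v) / jb v) ^ a) := by linarith
  · have hlip := jb_lip u v
    have hl1 := (abs_le.1 hlip).1
    have hl2 := (abs_le.1 hlip).2
    have hu1 : jb v / 2 ≤ jb u := by linarith
    have hu2 : jb u ≤ 3 / 2 * jb v := by linarith
    set L := len (u - v) with hLdef
    set t := L / jb v with ht
    have ht0 : 0 ≤ t := div_nonneg hL hv.le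
    have ht1 : t ≤ 1 := by
      rw [ht, div_le_one hv]
      linarith
    rw [min_eq_right ht1]
    have hta : t ≤ t ^ a := by
      have := phh_min_le ha ha1 ht0
      rwa [min_eq_right ht1] at this
    have hta0 : 0 ≤ t ^ a := Real.rpow_nonneg ht0 a
    unfold Ph
    set hu' := sp a (u e - w e) with hhu
    set hv' := sp a (v e - w e) with hhv
    set μu := min 1 (jb w / jb u) with hμu
    set μv := min 1 (jb w / jb v) with hμv
    have hμu0 : 0 < μu := lt_min one_pos (div_pos hw hu)
    have hμv0 : 0 < μv := lt_min one_pos (div_pos hw hv)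
    have hμu1 : μu ≤ 1 := min_le_left _ _
    have hμv1 : μv ≤ 1 := min_le_left _ _
    have hρ0 : 0 < jb w / jb v := div_pos hw hv
    have hdiff : |hu' - hv'| ≤ 2 * L ^ a := by
      have h1 := sp_holder ha ha1 (u e - w e) (v e - w e)
      have h2 : |u e - w e - (v e - w e)| ≤ L := by
        have h4 : u e - w e - (v e - w e) = u e - v e := by ring
        rw [h4]
        exact phh_sub e u v
      have h5 := Real.rpow_le_rpow (abs_nonneg _) h2 ha.le
      linarith
    have hLt : L ^ a = t ^ a * jb v ^ a := by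
      rw [ht, Real.div_rpow hL hv.le, div_mul_cancel₀]
      exact (Real.rpow_pos_of_pos hv a).ne'
    have hρw : (jb w / jb v) ^ a * jb v ^ a = jb w ^ a := by
      rw [Real.div_rpow hw.le hv.le, div_mul_cancel₀]
      exact (Real.rpow_pos_of_pos hv a).ne'
    have e1 : μu ^ 2 * hu' - μv ^ 2 * hv' = μu ^ 2 * (hu' - hv') + (μu ^ 2 - μv ^ 2) * hv' := by
      ring
    rw [e1]
    have b1 : |μu ^ 2 * (hu' - hv')| ≤ 4 * (jb w ^ a * t ^ a) := by
      rw [abs_mul, abs_of_nonneg (sq_nonneg μu)]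
      have h1 : μu ^ 2 ≤ 2 * (jb w / jb v) ^ a := by
        have h2 : μu ^ 2 ≤ μu := by nlinarith
        have h3 : μu ≤ (jb w / jb u) ^ a := phh_min_le ha ha1 (div_pos hw hu).le
        have h4 : jb w / jb u ≤ 2 * (jb w / jb v) := by
          rw [div_le_iff₀ hu]
          have h5 : 2 * (jb w / jb v) * jb u = jb w * (2 * jb u / jb v) := by
            field_simp
          rw [h5]
          have h6 : 1 ≤ 2 * jb u / jb v := by
            rw [le_div_iff₀ hv]
            linarith
          nlinarith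
        have h7 := (Real.rpow_le_rpow (div_pos hw hu).le h4 ha.le).trans
          (phh_two ha ha1 one_le_two hρ0.le)
        linarith
      calc μu ^ 2 * |hu' - hv'| ≤ (2 * (jb w / jb v) ^ a) * (2 * L ^ a) :=
            mul_le_mul h1 hdiff (abs_nonneg _)
              (mul_nonneg zero_le_two (Real.rpow_nonneg hρ0.le a))
        _ = 4 * (((jb w / jb v) ^ a * jb v ^ a) * t ^ a) := by rw [hLt]; ring
        _ = 4 * (jb w ^ a * t ^ a) := by rw [hρw]
    have b2 : |(μu ^ 2 - μv ^ 2) * hv'| ≤ 15 * (jb w ^ a * t ^ a) := by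
      rcases le_or_gt (max (jb u) (jb v)) (jb w) with hm | hm
      · have h1 : μu = 1 := min_eq_left ((one_le_div hu).2 ((le_max_left _ _).trans hm))
        have h2 : μv = 1 := min_eq_left ((one_le_div hv).2 ((le_max_right _ _).trans hm))
        rw [h1, h2]
        simp only [sub_self, zero_mul, abs_zero]
        positivity
      · have hwv : jb w ≤ 3 / 2 * jb v := by
          have h1 : max (jb u) (jb v) ≤ 3 / 2 * jb v := max_le hu2 (by linarith)
          linarith
        have h3 : |hv'| ≤ 5 / 2 * jb v ^ a := by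
          rw [hhv, abs_sp]
          have h4 : |v e - w e| ≤ 5 / 2 * jb v := by
            have := phh_coord e v w
            linarith
          exact (Real.rpow_le_rpow (abs_nonneg _) h4 ha.le).trans
            (phh_two ha ha1 (by norm_num) hv.le)
        have h5 : |μu - μv| ≤ 2 * (jb w / jb v) * t := by
          have h6 : |μu - μv| ≤ |jb w / jb u - jb w / jb v| := by
            have h7 := abs_min_sub_min_le_max (1 : ℝ) (jb w / jb u) 1 (jb w / jb v)
            rw [sub_self, abs_zero, max_eq_right (abs_nonneg _)] at h7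
            exact h7
          have h8 : jb w / jb u - jb w / jb v = (jb w / jb v) * ((jb v - jb u) / jb u) := by
            field_simp
          rw [h8, abs_mul, abs_of_pos hρ0, abs_div, abs_of_pos hu] at h6
          have h9 : |jb v - jb u| / jb u ≤ 2 * t := by
            rw [abs_sub_comm, div_le_iff₀ hu]
            have h10 : 2 * t * jb u = L * (2 * jb u / jb v) := by
              rw [ht]
              field_simp
            rw [h10]
            have h11 : 1 ≤ 2 * jb u / jb v := by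
              rw [le_div_iff₀ hv]
              linarith
            nlinarith
          calc |μu - μv| ≤ jb w / jb v * (|jb v - jb u| / jb u) := h6
            _ ≤ jb w / jb v * (2 * t) := mul_le_mul_of_nonneg_left h9 hρ0.le
            _ = 2 * (jb w / jb v) * t := by ring
        have h12 : |μu ^ 2 - μv ^ 2| ≤ 4 * (jb w / jb v) * t := by
          have h13 : μu ^ 2 - μv ^ 2 = (μu - μv) * (μu + μv) := by ring
          rw [h13, abs_mul, abs_of_nonneg (by linarith : (0 : ℝ) ≤ μu + μv)]
          have h14 : μu + μv ≤ 2 := by linarith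
          calc |μu - μv| * (μu + μv) ≤ |μu - μv| * 2 :=
                mul_le_mul_of_nonneg_left h14 (abs_nonneg _)
            _ ≤ 4 * (jb w / jb v) * t := by linarith
        have h15 : jb w / jb v ≤ 3 / 2 * (jb w / jb v) ^ a := by
          rcases le_total (jb w / jb v) 1 with h16 | h16
          · have h17 := phh_min_le ha ha1 hρ0.le
            rw [min_eq_right h16] at h17
            have h18 : 0 ≤ (jb w / jb v) ^ a := Real.rpow_nonneg hρ0.le a
            linarith
          · have h17 : 1 ≤ (jb w / jb v) ^ a := Real.one_le_rpow h16 ha.le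
            have h18 : jb w / jb v ≤ 3 / 2 := by
              rw [div_le_iff₀ hv]
              exact hwv
            linarith
        rw [abs_mul]
        have hva : 0 ≤ jb v ^ a := (Real.rpow_pos_of_pos hv a).le
        have hρa : 0 ≤ (jb w / jb v) ^ a := Real.rpow_nonneg hρ0.le a
        calc |μu ^ 2 - μv ^ 2| * |hv'| ≤ (4 * (jb w / jb v) * t) * (5 / 2 * jb v ^ a) :=
              mul_le_mul h12 h3 (abs_nonneg _) (by positivity)
          _ = 10 * ((jb w / jb v) * (t * jb v ^ a)) := by ring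
          _ ≤ 10 * ((3 / 2 * (jb w / jb v) ^ a) * (t ^ a * jb v ^ a)) := by
              apply mul_le_mul_of_nonneg_left _ (by norm_num)
              exact mul_le_mul h15 (mul_le_mul_of_nonneg_right hta hva)
                (mul_nonneg ht0 hva) (by positivity)
          _ = 15 * (((jb w / jb v) ^ a * jb v ^ a) * t ^ a) := by ring
          _ = 15 * (jb w ^ a * t ^ a) := by rw [hρw]
    calc |μu ^ 2 * (hu' - hv') + (μu ^ 2 - μv ^ 2) * hv'|
        ≤ |μu ^ 2 * (hu' - hv')| + |(μu ^ 2 - μv ^ 2) * hv'| := abs_add_le _ _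
      _ ≤ 32 * (jb w ^ a * t ^ a) := by
        have : 0 ≤ jb w ^ a * t ^ a := mul_nonneg hwa.le hta0
        linarith

end Pool.Agent.H48.PL
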