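import Pool.Agent.H48.PL.Hw
import Pool.Agent.H48.PL.ThH
import Pool.Agent.H48.PL.PhH

/-!
# Module Fib: F3 and F4

`hw_bound` with `ψ = Th v ·` (`Th_holder`, `A = 8 jb v^q`) and with `ψ = Ph v ·`, `α = a` (`Ph_holder`, `max^(a-a) = 1`, `A = 8`).
-/

set_option autoImplicit false

open MeasureTheory Set Filter Topology Pool.Agent.H25.Kin Pool.Agent.H82.BK Pool.Agent.H82.CM

namespace Pool.Agent.H48.PL

variable {d : ℕ} {s a α C Ca cb : ℝ} {b : ℝ → ℝ}

theorem fib_Th (HL : HypL d (1 + a) s b C Ca cb) (P : PP s a α) (e : Fin d) :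
    ∃ K : ℝ, 0 ≤ K ∧ ∀ g : Vec d → ℝ, Nice g → (∀ v, 0 ≤ g v) → ∀ v : Vec d,
      |∫ w, Th e s a α v w * boltzQ (1 + a) b g w| ≤ K * (jb v ^ qq s a α * XS a g univ) := by
  obtain ⟨-, -, ha1, -⟩ := P.hs0
  obtain ⟨K, hK, hk⟩ := hw_bound (α := α) HL P.hα P.hαa (by linarith)
  refine ⟨8 * K, by positivity, fun g hg hg0 v => ?_⟩
  have h0 : 0 ≤ 8 * jb v ^ qq s a α :=
    mul_nonneg (by norm_num) (Real.rpow_nonneg (jb_pos v).le _)
  have h1 := hk (fun w => Th e s a α v w) (8 * jb v ^ qq s a α) h0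
    (fun w w' => Th_holder P e v w w') g hg hg0
  have h2 : ∀ w, Th e s a α v w * boltzQ (1 + a) b g w =
      boltzQ (1 + a) b g w * Th e s a α v w := fun w => mul_comm _ _
  simp only [h2]
  calc |∫ w, boltzQ (1 + a) b g w * Th e s a α v w|
      ≤ K * (8 * jb v ^ qq s a α * XS a g univ) := h1
    _ = 8 * K * (jb v ^ qq s a α * XS a g univ) := by ring

theorem fib_Ph (HL : HypL d (1 + a) s b C Ca cb) (h1 : 2 * s < a) (ha1 : a ≤ 1) (e : Fin d) :
    ∃ K : ℝ, 0 ≤ K ∧ ∀ g : Vec d → ℝ, Nice g → (∀ v, 0 ≤ g v) → ∀ v : Vec d,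
      |∫ w, Ph e a v w * boltzQ (1 + a) b g w| ≤ K * XS a g univ := by
  have ha : 0 < a := by
    have := HL.H.hs
    linarith
  obtain ⟨K, hK, hk⟩ := hw_bound (α := a) HL h1 le_rfl ha1
  refine ⟨8 * K, by positivity, fun g hg hg0 v => ?_⟩
  have h2 := hk (fun w => Ph e a v w) 8 (by norm_num)
    (fun w w' => by
      have h3 := Ph_holder ha ha1 e v w w'
      have h4 : max (jb w) (jb w') ^ (a - a) = 1 := by rw [sub_self, Real.rpow_zero]
      rw [h4, one_mul]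
      exact h3) g hg hg0
  have h5 : ∀ w, Ph e a v w * boltzQ (1 + a) b g w =
      boltzQ (1 + a) b g w * Ph e a v w := fun w => mul_comm _ _
  simp only [h5]
  calc |∫ w, boltzQ (1 + a) b g w * Ph e a v w| ≤ K * (8 * XS a g univ) := h2
    _ = 8 * K * XS a g univ := by ring

end Pool.Agent.H48.PL
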