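import Pool.Agent.H48.PL.SliB
import Pool.Agent.H48.PL.CSolP
import Pool.Agent.H48.PL.XC
import Pool.Agent.H48.PL.Glob
import Pool.Agent.H48.PL.Fib

/-!
# Module TimC: (A3), the pair functional in time

`csol_pair` with `Φ = Th` (`Th_PGW`), `CSol.ftc`: `B(t) - B(r) = ∫_r^t ∫ S dν`, `|B| ≤ (2M)²` (`pair_abs`, `jb2_bound`, `glob_bounds`; `fs_of` for the slices at `t, r > 0`). For `τ ∈ [r,t]`: `pair_slice` with `X x = XS a (f τ x) univ`, `K` from `fib_Th`,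
`Y x = XS a (f τ x) (CmpS (δ/2) ∩ NtS ..)`, `c` from `VTh_low`: `c XS(A) ≤ ∫∫ g g_* V_e Th` (integral over the product, `VTh_nonneg`, Fubini). `X`, `Y` are `PlF` (continuity `XS_cont`; periodic and planar because `f τ x` is). Integrate over `τ ∈ [r,t]`:
`c ∫∫ Y ≤ 2 (2M)² + 4 (2M)² (t-r)/l + K η ∫∫ X`.
-/

set_option autoImplicit false

open MeasureTheory Set Filter Topology Pool.Agent.H25.Kin Pool.Agent.H82.BK Pool.Agent.H82.CM

namespace Pool.Agent.H48.PL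

variable {d : ℕ} {s a α C Ca cb : ℝ} {b : ℝ → ℝ}

/-- the lower bound of the quadratic form with weight `V_e Th` -/
private lemma timC_low (P : PP s a α) (e : Fin d) {c : ℝ} {A : Set (Vec d × Vec d)}
    (hA : MeasurableSet A)
    (hc : ∀ v w : Vec d, (v, w) ∈ A →
      c * (len (v - w) ^ (1 + a) * RR v w ^ a) ≤ (v e - w e) * Th e s a α v w)
    {g : Vec d → ℝ} (hg : RD g) (hgc : Continuous g) (hg0 : ∀ v, 0 ≤ g v) :
    c * XS a g A ≤ ∫ v, g v * ∫ w, (v e - w e) * Th e s a α v w * g w := by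
  have hs0 := P.hs0
  have ha0 : 0 ≤ a := hs0.2.1.le
  have ha1 : a ≤ 1 := by linarith [hs0.2.2.1]
  obtain ⟨Ψ, hΨ⟩ : ∃ Ψ : Vec d × Vec d → ℝ, ∀ p,
      Ψ p = g p.1 * ((p.1 e - p.2 e) * Th e s a α p.1 p.2 * g p.2) := ⟨_, fun _ => rfl⟩
  have hΨc : Continuous Ψ := by
    have h1 : Continuous fun p : Vec d × Vec d => (p.1 e - p.2 e) * Th e s a α p.1 p.2 :=
      ((Th_PGW P e).vmul e).cont
    have h2 : Continuous fun p : Vec d × Vec d => g p.1 := hgc.comp continuous_fst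
    have h3 : Continuous fun p : Vec d × Vec d => g p.2 := hgc.comp continuous_snd
    have h4 : Ψ = fun p : Vec d × Vec d =>
        g p.1 * ((p.1 e - p.2 e) * Th e s a α p.1 p.2 * g p.2) := funext hΨ
    rw [h4]
    exact h2.mul (h1.mul h3)
  have hΨ0 : ∀ p, 0 ≤ Ψ p := fun p => by
    rw [hΨ]
    exact mul_nonneg (hg0 _) (mul_nonneg (VTh_nonneg P e _ _) (hg0 _))
  have hj : Integrable (fun v => g v * jb v ^ 2) := by
    have h1 : PG (fun v : Vec d => jb v ^ 2) := by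
      have h2 : (fun v : Vec d => jb v ^ 2) = fun v => 1 + nsq v := funext jb_sq
      rw [h2]
      exact (PG.const (1 : ℝ)).add PG.nsq
    exact (hg.mul_PG h1).integrable (hgc.mul (jb_cont.pow 2)).aestronglyMeasurable
  have hb : Integrable (fun p : Vec d × Vec d =>
      4 * ((g p.1 * jb p.1 ^ 2) * (g p.2 * jb p.2 ^ 2))) := (hj.mul_prod hj).const_mul 4
  have hΨi : Integrable Ψ := by
    refine hb.mono' hΨc.aestronglyMeasurable (Eventually.of_forall fun p => ?_)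
    rw [Real.norm_eq_abs, abs_of_nonneg (hΨ0 p), hΨ]
    have h1 := VTh_le P e p.1 p.2
    calc g p.1 * ((p.1 e - p.2 e) * Th e s a α p.1 p.2 * g p.2)
        = g p.1 * g p.2 * ((p.1 e - p.2 e) * Th e s a α p.1 p.2) := by ring
      _ ≤ g p.1 * g p.2 * (4 * (jb p.1 ^ 2 * jb p.2 ^ 2)) :=
          mul_le_mul_of_nonneg_left h1 (mul_nonneg (hg0 _) (hg0 _))
      _ = _ := by ring
  have e1 : ∫ p, Ψ p = ∫ v, g v * ∫ w, (v e - w e) * Th e s a α v w * g w := by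
    have h1 : ∫ p, Ψ p ∂((volume : Measure (Vec d)).prod (volume : Measure (Vec d))) =
        ∫ v, ∫ w, Ψ (v, w) := integral_prod _ hΨi
    rw [Measure.volume_eq_prod, h1]
    refine integral_congr_ae (Eventually.of_forall fun v => ?_)
    simp only [hΨ]
    rw [integral_const_mul]
  rw [← e1]
  have hd := dens_integrable ha0 ha1 hg hgc
  have h1 : c * XS a g A = ∫ p in A, c * dens a g p := (integral_const_mul _ _).symm
  rw [h1]
  refine (setIntegral_mono_on (hd.integrableOn.const_mul c) hΨi.integrableOn hA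
    (fun p hp => ?_)).trans (setIntegral_le_integral hΨi (Eventually.of_forall hΨ0))
  have h2 := hc p.1 p.2 hp
  rw [hΨ]
  show c * (g p.1 * g p.2 * (len (p.1 - p.2) ^ (1 + a) * RR p.1 p.2 ^ a)) ≤ _
  calc c * (g p.1 * g p.2 * (len (p.1 - p.2) ^ (1 + a) * RR p.1 p.2 ^ a))
      = g p.1 * g p.2 * (c * (len (p.1 - p.2) ^ (1 + a) * RR p.1 p.2 ^ a)) := by ring
    _ ≤ g p.1 * g p.2 * ((p.1 e - p.2 e) * Th e s a α p.1 p.2) :=
        mul_le_mul_of_nonneg_left h2 (mul_nonneg (hg0 _) (hg0 _))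
    _ = _ := by ring

/-- the slices `x ↦ X_A(f τ x)` are planar periodic continuous functions -/
private lemma timC_pl (ha0 : 0 ≤ a) (ha1 : a ≤ 1) {T : ℝ} {Q f : ℝ → Vec d → Vec d → ℝ}
    (hf : IsClassicalSol T Q f) {e : Fin d} (hpl : Planar e T f) {τ : ℝ} (hτ : τ ∈ Ioo 0 T)
    (A : Set (Vec d × Vec d)) : PlF e fun x => XS a (f τ x) A := by
  have hτ' : τ ∈ Ico 0 T := ⟨hτ.1.le, hτ.2⟩
  refine ⟨?_, ?_, ?_⟩
  · have h1 := XS_cont ha0 ha1 hf A
    have h2 : ContinuousOn (fun x : Vec d => ((τ, x) : ℝ × Vec d)) univ :=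
      (Continuous.prodMk continuous_const continuous_id).continuousOn
    have h3 := h1.comp h2 (fun x _ => ⟨hτ', mem_univ _⟩)
    exact continuousOn_univ.1 h3
  · intro x i
    have h1 : f τ (x + Pi.single i 1) = f τ x := funext fun v => hf.periodic τ hτ' x v i
    simp only [h1]
  · intro x y hxy
    have h1 : f τ x = f τ y := funext fun v => hpl τ hτ' x y v hxy
    simp only [h1]

theorem pair_time (HL : HypL d (1 + a) s b C Ca cb) (P : PP s a α) (e : Fin d) {δ ε₁ : ℝ}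
    (hδ : 0 < δ) (hε₁ : 0 < ε₁) : ∃ c K : ℝ, 0 < c ∧ 0 ≤ K ∧
    ∀ (M T : ℝ) (f : ℝ → Vec d → Vec d → ℝ), IsBoltzmannSol (1 + a) b T f → Planar e T f → GB M (f 0) →
      ∀ l η : ℝ, 0 < l → l ≤ 1 →
      (∀ t ∈ Ioo 0 T, ∀ x, loc e l (fun y => ∫ v, f t y v * jb v ^ qq s a α) x ≤ η) →
      ∀ r t : ℝ, 0 < r → r ≤ t → t < T →
      c * ∫ τ in r..t, (∫ x, XS a (f τ x) (CmpS (δ / 2) ∩ NtS e ε₁ (kpa s a)) ∂(muD d)) ≤
        8 * M ^ 2 + 16 * M ^ 2 / l * (t - r) +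
          K * η * ∫ τ in r..t, (∫ x, XS a (f τ x) univ ∂(muD d)) := by
  obtain ⟨K, hK, hKf⟩ := fib_Th HL P e
  obtain ⟨c, hc, hcf⟩ := VTh_low P e hδ hε₁
  refine ⟨c, K, hc, hK, ?_⟩
  intro M T f hf hpl h0 l η hl hl1 hη r t hr hrt htT
  have hs0 := P.hs0
  have ha0 : 0 ≤ a := hs0.2.1.le
  have ha1 : a ≤ 1 := by linarith [hs0.2.2.1]
  have hfc : IsClassicalSol T (fun t x => boltzQ (1 + a) b (f t x)) f := hf
  have hC := csol_pair hfc hpl (Th_PGW P e) hl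
  have hIco : ∀ τ ∈ Ioo 0 T, τ ∈ Ico 0 T := fun τ hτ => ⟨hτ.1.le, hτ.2⟩
  have hj2 : ∀ τ ∈ Ioo 0 T, ∫ q, f τ q.2 q.1 * jb q.1 ^ 2 ∂(nu d) ≤ 2 * M := fun τ hτ =>
    jb2_bound hf (hIco τ hτ) (glob_bounds HL.H hf h0 (hIco τ hτ))
  have hab : ∀ τ ∈ Ioo 0 T,
      |∫ p, f τ p.2 p.1 * pot e l (Th e s a α) (f τ) p.2 p.1 ∂(nu d)| ≤ (2 * M) ^ 2 := fun τ hτ =>
    pair_abs P (fs_of hf hpl hτ) hl hl1 (hj2 τ hτ)
  have hA1 : MeasurableSet (CmpS (δ / 2) ∩ NtS e ε₁ (kpa s a) : Set (Vec d × Vec d)) :=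
    (measurableSet_CmpS _).inter (measurableSet_NtS _ _ _)
  have hsl : ∀ τ ∈ Ioo 0 T,
      c * ∫ x, XS a (f τ x) (CmpS (δ / 2) ∩ NtS e ε₁ (kpa s a)) ∂(muD d) ≤
      (∫ p, (boltzQ (1 + a) b (f τ p.2) p.1 * pot e l (Th e s a α) (f τ) p.2 p.1 +
        f τ p.2 p.1 * dpot e l (Th e s a α) (f τ) (fun x => boltzQ (1 + a) b (f τ x)) p.2 p.1)
          ∂(nu d)) +
      4 * (2 * M) ^ 2 / l + K * η * ∫ x, XS a (f τ x) univ ∂(muD d) := by
    intro τ hτ
    have hn : ∀ x, Nice (f τ x) := fun x => hfc.nice hτ x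
    have hn0 : ∀ x v, 0 ≤ f τ x v := hfc.nonneg τ (hIco τ hτ)
    exact pair_slice P (fs_of hf hpl hτ) hl hl1 (timC_pl ha0 ha1 hfc hpl hτ univ)
      (fun x => XS_nonneg (hn0 x) _) hK (fun x v => hKf (f τ x) (hn x) (hn0 x) v) (hη τ hτ)
      (hj2 τ hτ) (pl_int (timC_pl ha0 ha1 hfc hpl hτ _))
      (fun x => timC_low P e hA1 hcf (hn x).rd (hn x).cont (hn0 x))
  have hsub : Icc r t ⊆ Ioo 0 T := fun τ hτ => ⟨lt_of_lt_of_le hr hτ.1, lt_of_le_of_lt hτ.2 htT⟩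
  have hsub' : Icc r t ⊆ Ico 0 T := fun τ hτ => hIco τ (hsub hτ)
  have iXS : ∀ A : Set (Vec d × Vec d),
      IntervalIntegrable (fun τ => ∫ x, XS a (f τ x) A ∂(muD d)) volume r t := by
    intro A
    apply ContinuousOn.intervalIntegrable
    rw [uIcc_of_le hrt]
    exact (XSt_cont ha0 ha1 hfc A).mono hsub'
  have iS : IntervalIntegrable (fun τ => ∫ p, (boltzQ (1 + a) b (f τ p.2) p.1 *
      pot e l (Th e s a α) (f τ) p.2 p.1 + f τ p.2 p.1 * dpot e l (Th e s a α) (f τ)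
        (fun x => boltzQ (1 + a) b (f τ x)) p.2 p.1) ∂(nu d)) volume r t := by
    apply ContinuousOn.intervalIntegrable
    rw [uIcc_of_le hrt]
    exact hC.contI.mono hsub
  have hftc := hC.ftc hr hrt htT
  have hr' : r ∈ Ioo 0 T := ⟨hr, lt_of_le_of_lt hrt htT⟩
  have ht' : t ∈ Ioo 0 T := ⟨lt_of_lt_of_le hr hrt, htT⟩
  have b1 := abs_le.1 (hab r hr')
  have b2 := abs_le.1 (hab t ht')
  have hint : c * ∫ τ in r..t, (∫ x, XS a (f τ x) (CmpS (δ / 2) ∩ NtS e ε₁ (kpa s a)) ∂(muD d)) ≤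
      (∫ τ in r..t, ((∫ p, (boltzQ (1 + a) b (f τ p.2) p.1 * pot e l (Th e s a α) (f τ) p.2 p.1 +
        f τ p.2 p.1 * dpot e l (Th e s a α) (f τ) (fun x => boltzQ (1 + a) b (f τ x)) p.2 p.1)
          ∂(nu d)) + 4 * (2 * M) ^ 2 / l + K * η * ∫ x, XS a (f τ x) univ ∂(muD d))) := by
    rw [← intervalIntegral.integral_const_mul]
    exact intervalIntegral.integral_mono_on hrt ((iXS _).const_mul c)
      ((iS.add intervalIntegrable_const).add ((iXS univ).const_mul (K * η)))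
      (fun τ hτ => hsl τ (hsub hτ))
  rw [intervalIntegral.integral_add (iS.add intervalIntegrable_const) ((iXS univ).const_mul (K * η)),
    intervalIntegral.integral_add iS intervalIntegrable_const, intervalIntegral.integral_const,
    intervalIntegral.integral_const_mul, smul_eq_mul] at hint
  have e2 : (t - r) * (4 * (2 * M) ^ 2 / l) = 16 * M ^ 2 / l * (t - r) := by ring
  rw [e2] at hint
  rw [← hftc] at hint
  have e3 : (2 * M) ^ 2 = 4 * M ^ 2 := by ring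
  rw [e3] at b1 b2
  linarith [b1.1, b2.2]

end Pool.Agent.H48.PL
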