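import Pool.Agent.H48.PL.TimA
import Pool.Agent.H48.PL.TimB
import Pool.Agent.H48.PL.TimC
import Pool.Agent.H48.PL.Equi

/-!
# Module Clos: the closure, `∫_r^t ∫_x X ≤ K (1 + (t - r))`

`δ, c₁, C₁` from `pov_time`; `ε₁, C₂, C₃(M)` from `ent_time` with this `δ`; `c, K` from `pair_time` (`Th_..`). Put (time and space integrals over `[r,t]`) `X = XS univ`, `Xh = XS (CmpS δ)ᶜ`, `Xc = XS (CmpS δ)`, `Xt = XS (thin)`, `Xn = XS (CmpS (δ/2) ∩ NtS)`:
`X ≤ Xh + Xt + Xn` (`XS_univ_le`), `Xc ≤ Xt + Xn` (`XS_cmp_le`), `c₁ Xh ≤ 2M + C₁ Xc`, `Xt ≤ C₂ Xn + C₃`, `c Xn ≤ 8M² + 16M²(t-r)/l + K η X`. So `X ≤ A + B (t-r)/l + D η X` with constants depending on `M` and the operator;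
take `η = 1/(2D+1)` and `l = l₀` from `equi` (`q = qq s a α ∈ [0,2)`, `fs_of`, `glob_bounds`), absorb (`X < ∞`: it is a real number, interval integral of a continuous function).
-/

set_option autoImplicit false

open MeasureTheory Set Filter Topology Pool.Agent.H25.Kin Pool.Agent.H82.BK Pool.Agent.H82.CM

namespace Pool.Agent.H48.PL

variable {d : ℕ} {s a α C Ca cb : ℝ} {b : ℝ → ℝ}

private noncomputable def IX (a : ℝ) (f : ℝ → Vec d → Vec d → ℝ) (A : Set (Vec d × Vec d))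
    (t : ℝ) : ℝ := ∫ x, XS a (f t x) A ∂(muD d)

private lemma xs_int (ha : 0 ≤ a) (ha1 : a ≤ 1) {T γ : ℝ} {f : ℝ → Vec d → Vec d → ℝ}
    (hf : IsBoltzmannSol γ b T f) {t : ℝ} (ht : t ∈ Ico 0 T) (A : Set (Vec d × Vec d)) :
    Integrable (fun x => XS a (f t x) A) (muD d) := by
  have h : Continuous (fun x : Vec d => XS a (f t x) A) :=
    (XS_cont ha ha1 hf A).comp_continuous (by fun_prop : Continuous fun x : Vec d => (t, x))
      (fun x => ⟨ht, mem_univ _⟩)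
  exact h.integrableOn_Icc

private lemma ix_nonneg {T γ : ℝ} {f : ℝ → Vec d → Vec d → ℝ}
    (hf : IsBoltzmannSol γ b T f) {t : ℝ} (ht : t ∈ Ico 0 T) (A : Set (Vec d × Vec d)) :
    0 ≤ IX a f A t :=
  integral_nonneg fun x => XS_nonneg (fun v => hf.nonneg t ht x v) A

private lemma ix_ii (ha : 0 ≤ a) (ha1 : a ≤ 1) {T γ : ℝ} {f : ℝ → Vec d → Vec d → ℝ}
    (hf : IsBoltzmannSol γ b T f) {r t : ℝ} (hr : 0 ≤ r) (hrt : r ≤ t) (htT : t < T)
    (A : Set (Vec d × Vec d)) : IntervalIntegrable (IX a f A) volume r t := by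
  refine ContinuousOn.intervalIntegrable_of_Icc hrt ((XSt_cont ha ha1 hf A).mono ?_)
  intro x hx
  exact ⟨hr.trans hx.1, hx.2.trans_lt htT⟩

private lemma time_split {r t : ℝ} (hrt : r ≤ t) {F G H : ℝ → ℝ}
    (hF : IntervalIntegrable F volume r t) (hG : IntervalIntegrable G volume r t)
    (hH : IntervalIntegrable H volume r t) (h : ∀ x ∈ Icc r t, F x ≤ G x + H x) :
    ∫ τ in r..t, F τ ≤ (∫ τ in r..t, G τ) + ∫ τ in r..t, H τ := by
  rw [← intervalIntegral.integral_add hG hH]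
  exact intervalIntegral.integral_mono_on hrt hF (hG.add hH) h

private lemma split_sol (ha : 0 ≤ a) (ha1 : a ≤ 1) {T γ : ℝ} {f : ℝ → Vec d → Vec d → ℝ}
    (hf : IsBoltzmannSol γ b T f) {r t : ℝ} (hr : 0 < r) (hrt : r ≤ t) (htT : t < T)
    {δ : ℝ} (hδ : 0 ≤ δ) (e : Fin d) (ε κ : ℝ) :
    (∫ τ in r..t, IX a f univ τ) ≤ (∫ τ in r..t, IX a f (CmpS δ)ᶜ τ) +
      ((∫ τ in r..t, IX a f (CmpS δ ∩ (NtS e ε κ)ᶜ) τ) +
        ∫ τ in r..t, IX a f (CmpS (δ / 2) ∩ NtS e ε κ) τ) ∧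
    (∫ τ in r..t, IX a f (CmpS δ) τ) ≤
      (∫ τ in r..t, IX a f (CmpS δ ∩ (NtS e ε κ)ᶜ) τ) +
        ∫ τ in r..t, IX a f (CmpS (δ / 2) ∩ NtS e ε κ) τ := by
  have hii := fun A => ix_ii ha ha1 hf hr.le hrt htT A
  have hmem : ∀ τ ∈ Icc r t, τ ∈ Ioo 0 T := fun τ hτ => ⟨hr.trans_le hτ.1, hτ.2.trans_lt htT⟩
  constructor
  · rw [← intervalIntegral.integral_add (hii _) (hii _)]
    refine time_split hrt (hii _) (hii _) ((hii _).add (hii _)) fun τ hτ => ?_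
    have hτ1 := hmem τ hτ
    have hτ0 : τ ∈ Ico 0 T := ⟨hτ1.1.le, hτ1.2⟩
    have hi := fun A => xs_int ha ha1 hf hτ0 A
    simp only [IX]
    rw [← integral_add (hi _) (hi _)]
    have h2 : Integrable (fun x => XS a (f τ x) (CmpS δ ∩ (NtS e ε κ)ᶜ) +
      XS a (f τ x) (CmpS (δ / 2) ∩ NtS e ε κ)) (muD d) := (hi _).add (hi _)
    rw [← integral_add (hi _) h2]
    refine integral_mono (hi _) ((hi _).add h2) fun x => ?_
    exact XS_univ_le ha ha1 (hf.nice hτ1 x).rd (hf.nice hτ1 x).cont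
      (fun v => hf.nonneg τ hτ0 x v) hδ e ε κ
  · refine time_split hrt (hii _) (hii _) (hii _) fun τ hτ => ?_
    have hτ1 := hmem τ hτ
    have hτ0 : τ ∈ Ico 0 T := ⟨hτ1.1.le, hτ1.2⟩
    have hi := fun A => xs_int ha ha1 hf hτ0 A
    simp only [IX]
    rw [← integral_add (hi _) (hi _)]
    refine integral_mono (hi _) ((hi _).add (hi _)) fun x => ?_
    exact XS_cmp_le ha ha1 (hf.nice hτ1 x).rd (hf.nice hτ1 x).cont
      (fun v => hf.nonneg τ hτ0 x v) hδ e ε κ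

private lemma absorb {Xu Xh Xc Xt Xn M c₁ C₁ C₂ C₃ c K η l τ : ℝ} (hc₁ : 0 < c₁) (hC₁ : 0 ≤ C₁)
    (hC₂ : 0 ≤ C₂) (hC₃ : 0 ≤ C₃) (hc : 0 < c) (hK : 0 ≤ K) (hl : 0 < l) (hτ : 0 ≤ τ)
    (hXu : 0 ≤ Xu)
    (hη : η = 1 / (2 * ((C₁ / c₁ + 1) * (C₂ + 1) / c * K + 1)))
    (h1 : Xu ≤ Xh + (Xt + Xn)) (h2 : Xc ≤ Xt + Xn) (h3 : c₁ * Xh ≤ 2 * M + C₁ * Xc)
    (h4 : Xt ≤ C₂ * Xn + C₃) (h5 : c * Xn ≤ 8 * M ^ 2 + 16 * M ^ 2 / l * τ + K * η * Xu) :
    Xu ≤ (|2 * (2 * M / c₁ + (C₁ / c₁ + 1) * C₃)| +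
      2 * ((C₁ / c₁ + 1) * (C₂ + 1) / c) * (8 * M ^ 2) +
      2 * ((C₁ / c₁ + 1) * (C₂ + 1) / c) * (16 * M ^ 2 / l)) * (1 + τ) := by
  set B : ℝ := C₁ / c₁ + 1 with hB
  have hB0 : 0 < B := by positivity
  set D : ℝ := B * (C₂ + 1) / c with hD
  have hD0 : 0 ≤ D := by positivity
  have g1 : Xh ≤ 2 * M / c₁ + C₁ / c₁ * (Xt + Xn) := by
    have : Xh ≤ (2 * M + C₁ * Xc) / c₁ := by
      rw [le_div_iff₀ hc₁]; linarith
    refine this.trans ?_
    rw [add_div]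
    have h6 : C₁ * Xc / c₁ ≤ C₁ / c₁ * (Xt + Xn) := by
      rw [div_mul_eq_mul_div]
      gcongr
    linarith
  have g2 : Xu ≤ 2 * M / c₁ + B * (Xt + Xn) := by
    have : B * (Xt + Xn) = C₁ / c₁ * (Xt + Xn) + (Xt + Xn) := by rw [hB]; ring
    linarith
  have g3 : B * (Xt + Xn) ≤ B * (C₃ + (C₂ + 1) * Xn) := by
    refine mul_le_mul_of_nonneg_left ?_ hB0.le
    nlinarith
  have g4 : Xn ≤ (8 * M ^ 2 + 16 * M ^ 2 / l * τ + K * η * Xu) / c := by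
    rw [le_div_iff₀ hc]; linarith
  have g5 : B * ((C₂ + 1) * Xn) ≤ D * (8 * M ^ 2 + 16 * M ^ 2 / l * τ + K * η * Xu) := by
    have : B * ((C₂ + 1) * Xn) ≤ B * ((C₂ + 1) *
        ((8 * M ^ 2 + 16 * M ^ 2 / l * τ + K * η * Xu) / c)) := by gcongr
    refine this.trans (le_of_eq ?_)
    rw [hD]
    ring
  have g6 : D * (K * η * Xu) ≤ Xu / 2 := by
    have h6 : D * K * η ≤ 1 / 2 := by
      rw [hη]
      rw [mul_one_div, div_le_div_iff₀ (by positivity) (by norm_num)]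
      nlinarith [mul_nonneg hD0 hK]
    have h7 : D * K * η * Xu ≤ 1 / 2 * Xu := mul_le_mul_of_nonneg_right h6 hXu
    calc D * (K * η * Xu) = D * K * η * Xu := by ring
      _ ≤ 1 / 2 * Xu := h7
      _ = Xu / 2 := by ring
  have g7 : Xu ≤ 2 * (2 * M / c₁ + B * C₃) + 2 * D * (8 * M ^ 2) +
      2 * D * (16 * M ^ 2 / l) * τ := by
    have e1 : B * (C₃ + (C₂ + 1) * Xn) = B * C₃ + B * ((C₂ + 1) * Xn) := by ring
    have e2 : D * (8 * M ^ 2 + 16 * M ^ 2 / l * τ + K * η * Xu) =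
      D * (8 * M ^ 2) + D * (16 * M ^ 2 / l) * τ + D * (K * η * Xu) := by ring
    nlinarith
  have a1 := le_abs_self (2 * (2 * M / c₁ + B * C₃))
  have a2 := abs_nonneg (2 * (2 * M / c₁ + B * C₃))
  have a3 : 0 ≤ 2 * D * (8 * M ^ 2) := by positivity
  have a4 : 0 ≤ 2 * D * (16 * M ^ 2 / l) := by positivity
  have a5 := mul_nonneg (add_nonneg a2 a3) hτ
  nlinarith

private lemma pp_facts (P : PP s a α) : 2 * s < a ∧ a ≤ 1 ∧ 0 < a ∧ 0 ≤ qq s a α ∧ qq s a α < 2 := by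
  have h1 := P.hs
  have h2 := P.hα
  have h3 := P.hαa
  have h4 := P.hq
  have ha : 2 * s < a := by linarith
  have hk : 1 ≤ kpa s a := by
    unfold kpa
    rw [one_le_div (by positivity)]
    exact ha.le
  have h5 : 1 * (1 + α) ≤ kpa s a * (1 + α) := mul_le_mul_of_nonneg_right hk (by linarith)
  refine ⟨ha, by linarith, by linarith, ?_, h4⟩
  unfold qq
  linarith

theorem X_bound (HL : HypL d (1 + a) s b C Ca cb) (P : PP s a α) (e : Fin d) (M : ℝ) :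
    ∃ K : ℝ, 0 ≤ K ∧ ∀ (T : ℝ) (f : ℝ → Vec d → Vec d → ℝ), IsBoltzmannSol (1 + a) b T f →
      Planar e T f → GB M (f 0) → ∀ r t : ℝ, 0 < r → r ≤ t → t < T →
      ∫ τ in r..t, (∫ x, XS a (f τ x) univ ∂(muD d)) ≤ K * (1 + (t - r)) := by
  obtain ⟨has, ha1, ha, hq0, hq2⟩ := pp_facts P
  obtain ⟨δ, c₁, C₁, hδ, hδ1, hc₁, hC₁, hA⟩ := pov_time HL has ha1
  obtain ⟨ε₁, C₂, hε₁, hC₂, hB⟩ := ent_time HL ha ha1 e hδ hδ1
  obtain ⟨C₃, hC₃, hB⟩ := hB M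
  obtain ⟨c, K, hc, hK, hD⟩ := pair_time HL P e hδ hε₁
  set η : ℝ := 1 / (2 * ((C₁ / c₁ + 1) * (C₂ + 1) / c * K + 1)) with hη
  have hη0 : 0 < η := by positivity
  obtain ⟨l, hl, hl1, hE⟩ := equi e M hq0 hq2 hη0
  refine ⟨|2 * (2 * M / c₁ + (C₁ / c₁ + 1) * C₃)| +
      2 * ((C₁ / c₁ + 1) * (C₂ + 1) / c) * (8 * M ^ 2) +
      2 * ((C₁ / c₁ + 1) * (C₂ + 1) / c) * (16 * M ^ 2 / l), by positivity, ?_⟩
  intro T f hf hpl h0 r t hr hrt htT
  obtain ⟨s1, s2⟩ := split_sol ha.le ha1 hf hr hrt htT hδ.le e ε₁ (kpa s a)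
  have h3 := hA M T f hf h0 r t hr hrt htT
  have h4 := hB T f hf h0 r t hr hrt htT
  have h5 := hD M T f hf hpl h0 l η hl hl1 (fun t' ht' x => by
    have hg := glob_bounds HL.H hf h0 (t := t') ⟨ht'.1.le, ht'.2⟩
    exact hE l hl le_rfl (f t') _ (fs_of hf hpl ht') hg.mass hg.energy hg.entropy x) r t hr hrt htT
  have hXu : 0 ≤ ∫ τ in r..t, IX a f univ τ :=
    intervalIntegral.integral_nonneg hrt fun τ hτ =>
      ix_nonneg hf ⟨hr.le.trans hτ.1, hτ.2.trans_lt htT⟩ _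
  exact absorb hc₁ hC₁ hC₂ hC₃ hc hK hl (sub_nonneg.2 hrt) hXu hη s1 s2 h3 h4 h5

/-- integrability up to `t < T` and the bound from time `0` -/
theorem X_bound0 (HL : HypL d (1 + a) s b C Ca cb) (P : PP s a α) (e : Fin d) (M : ℝ) :
    ∃ K : ℝ, 0 ≤ K ∧ ∀ (T : ℝ) (f : ℝ → Vec d → Vec d → ℝ), IsBoltzmannSol (1 + a) b T f →
      Planar e T f → GB M (f 0) →
      IntegrableOn (fun τ => ∫ x, XS a (f τ x) univ ∂(muD d)) (Ioo 0 T) ∧
      ∀ t ∈ Ico 0 T, ∫ τ in Ioc 0 t, (∫ x, XS a (f τ x) univ ∂(muD d)) ≤ K * (1 + t) := by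
  obtain ⟨has, ha1, ha, hq0, hq2⟩ := pp_facts P
  obtain ⟨K, hK, hX⟩ := X_bound HL P e M
  refine ⟨K, hK, fun T f hf hpl h0 => ?_⟩
  have key : ∀ t ∈ Ico 0 T, ∫ τ in Ioc 0 t, (∫ x, XS a (f τ x) univ ∂(muD d)) ≤ K * (1 + t) := by
    intro t ht
    rcases ht.1.eq_or_lt with h | h
    · rw [← h]
      simp only [Ioc_self, Measure.restrict_empty, integral_zero_measure, add_zero, mul_one]
      exact hK
    · rw [← intervalIntegral.integral_of_le ht.1]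
      have hcont : ContinuousOn (IX a f univ) (Icc 0 t) :=
        (XSt_cont ha.le ha1 hf univ).mono fun x hx => ⟨hx.1, hx.2.trans_lt ht.2⟩
      obtain ⟨Cb, hCb⟩ := isCompact_Icc.exists_bound_of_continuousOn hcont
      have hCb0 : 0 ≤ Cb := (norm_nonneg _).trans (hCb 0 ⟨le_rfl, ht.1⟩)
      refine le_of_forall_pos_le_add fun ε hε => ?_
      obtain ⟨r, hr0, hrt, hre⟩ : ∃ r, 0 < r ∧ r ≤ t ∧ Cb * r ≤ ε := by
        refine ⟨min t (ε / (Cb + 1)), by positivity, min_le_left _ _, ?_⟩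
        have h1 : Cb * min t (ε / (Cb + 1)) ≤ Cb * (ε / (Cb + 1)) :=
          mul_le_mul_of_nonneg_left (min_le_right _ _) hCb0
        refine h1.trans ?_
        rw [mul_div_assoc', div_le_iff₀ (by positivity)]
        nlinarith
      have h1 := hX T f hf hpl h0 r t hr0 hrt ht.2
      have h2 : ∫ τ in (0 : ℝ)..r, IX a f univ τ ≤ Cb * r := by
        have h3 : ∫ τ in (0 : ℝ)..r, IX a f univ τ ≤ ∫ _ in (0 : ℝ)..r, Cb := by
          refine intervalIntegral.integral_mono_on hr0.le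
            (ix_ii ha.le ha1 hf le_rfl hr0.le (hrt.trans_lt ht.2) _) intervalIntegrable_const ?_
          intro x hx
          exact (le_abs_self _).trans (hCb x ⟨hx.1, hx.2.trans hrt⟩)
        rwa [intervalIntegral.integral_const, sub_zero, smul_eq_mul, mul_comm] at h3
      have h4 : (∫ τ in (0 : ℝ)..t, IX a f univ τ) =
          (∫ τ in (0 : ℝ)..r, IX a f univ τ) + ∫ τ in r..t, IX a f univ τ :=
        (intervalIntegral.integral_add_adjacent_intervals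
          (ix_ii ha.le ha1 hf le_rfl hr0.le (hrt.trans_lt ht.2) _)
          (ix_ii ha.le ha1 hf hr0.le hrt ht.2 _)).symm
      have h5 : K * (1 + (t - r)) ≤ K * (1 + t) :=
        mul_le_mul_of_nonneg_left (by linarith) hK
      have h6 : (∫ τ in r..t, IX a f univ τ) ≤ K * (1 + (t - r)) := h1
      show (∫ τ in (0 : ℝ)..t, IX a f univ τ) ≤ _
      linarith
  refine ⟨?_, key⟩
  rcases le_or_gt T 0 with hT | hT
  · rw [Ioo_eq_empty (not_lt.2 hT)]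
    exact integrableOn_empty
  · refine IntegrableOn.mono_set (t := Ioc 0 T) ?_ Ioo_subset_Ioc_self
    have hbt : Tendsto (fun n : ℕ => T - T / (n + 1)) atTop (𝓝 T) := by
      have h1 : Tendsto (fun n : ℕ => T * (1 / ((n : ℝ) + 1))) atTop (𝓝 (T * 0)) :=
        tendsto_one_div_add_atTop_nhds_zero_nat.const_mul T
      have h2 := h1.const_sub T
      simpa [div_eq_mul_inv] using h2
    have hlt : ∀ n : ℕ, T - T / ((n : ℝ) + 1) ∈ Ico 0 T := by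
      intro n
      have h1 : 0 < T / ((n : ℝ) + 1) := by positivity
      have h2 : T / ((n : ℝ) + 1) ≤ T := by
        apply div_le_self hT.le
        have : (0 : ℝ) ≤ n := Nat.cast_nonneg n
        linarith
      exact ⟨by linarith, by linarith⟩
    have hfi : ∀ n : ℕ, IntegrableOn (IX a f univ) (Ioc 0 (T - T / ((n : ℝ) + 1))) := fun n =>
      (intervalIntegrable_iff_integrableOn_Ioc_of_le (hlt n).1).1
        (ix_ii ha.le ha1 hf le_rfl (hlt n).1 (hlt n).2 univ)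
    refine integrableOn_Ioc_of_intervalIntegral_norm_bounded (l := atTop) (a := fun _ : ℕ => (0 : ℝ))
      (b := fun n : ℕ => T - T / ((n : ℝ) + 1)) (I := K * (1 + T)) hfi tendsto_const_nhds hbt
      (Eventually.of_forall fun n => ?_)
    have h1 : ∫ x in Ioc 0 (T - T / ((n : ℝ) + 1)), ‖IX a f univ x‖ =
        ∫ x in Ioc 0 (T - T / ((n : ℝ) + 1)), IX a f univ x := by
      refine setIntegral_congr_fun measurableSet_Ioc fun x hx => ?_
      exact Real.norm_of_nonneg (ix_nonneg hf ⟨hx.1.le, hx.2.trans_lt (hlt n).2⟩ _)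
    show ∫ x in Ioc 0 (T - T / ((n : ℝ) + 1)), ‖IX a f univ x‖ ≤ K * (1 + T)
    rw [h1]
    refine (key _ (hlt n)).trans ?_
    exact mul_le_mul_of_nonneg_left (by linarith [(hlt n).2]) hK

end Pool.Agent.H48.PL
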