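import Pool.Agent.H48.PL.PlI
import Pool.Agent.H48.PL.PotC
import Pool.Agent.H48.PL.PhH

/-!
# Module BarE: the potential of the barrier, one time slice

* `bar_abs`: `|pot| ≤ ∫z (1/2) ∫w 2 jb w^a F(x-ze,w)` (`kl_abs`, `Ph_abs`).
* `bar_osc`: `pot x u - pot x v = ∫z k ∫w (Ph u w - Ph v w) F`, `Ph_holder_v`: `≤ (1/2)·32·min^a ∫z ∫w jb w^a F`.
* `bar_dpot`: `dpot = I₁ - (1/l) I₂ + I₃`, `0 ≤ I₂ ≤ 4 loc(∫ F jb²) ≤ 4 ∫x∫v F jb² ≤ 4M'` (`VPh_le`, `loc_le`, `nu_integral`), `|I₃| ≤ (1/2) K loc X ≤ (K/2) ∫ X`.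
-/

set_option autoImplicit false

open MeasureTheory Set Filter Topology Pool.Agent.H25.Kin

namespace Pool.Agent.H48.PL

variable {d : ℕ} {a : ℝ} {e : Fin d} {F G : Vec d → Vec d → ℝ} {l K M' : ℝ} {X : Vec d → ℝ}

private lemma be_add_one (e : Fin d) (x : Vec d) (i : Fin d) (z : ℝ) :
    x + Pi.single i 1 - Pi.single e z = (x - Pi.single e z) + Pi.single i 1 := by abel

private lemma be_single_cont (e : Fin d) : Continuous fun r : ℝ => (Pi.single e r : Vec d) :=
  continuous_single (A := fun _ : Fin d => ℝ) e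

/-- averages with a weight of polynomial growth -/
private lemma be_avg {Φ : Vec d → Vec d → ℝ} (hΦ : PGW Φ) {H : Vec d → Vec d → ℝ}
    (hc : Continuous fun p : Vec d × Vec d => H p.1 p.2) (hd : RX H)
    (hper : ∀ x v i, H (x + Pi.single i 1) v = H x v) (hpl : ∀ x y v, x e = y e → H x v = H y v)
    (v : Vec d) : PlF e (fun x => ∫ w, Φ v w * H x w) := by
  obtain ⟨N, C₀, hC₀, hb⟩ := hΦ.le
  obtain ⟨C, hC⟩ := hd (N + (d + 1))
  refine ⟨?_, ?_, ?_⟩
  · refine continuous_of_dominated (bound := fun w => (C₀ * (1 + ‖v‖) ^ N * C) * wt d w) ?_ ?_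
      (integrable_wt.const_mul _) ?_
    · intro x
      exact ((hΦ.cont.comp (continuous_const.prodMk continuous_id)).mul
        (hc.comp (continuous_const.prodMk continuous_id))).aestronglyMeasurable
    · intro x
      refine Eventually.of_forall fun w => ?_
      have h2 := hC x w
      rw [norm_mul, Real.norm_eq_abs, Real.norm_eq_abs]
      unfold wt
      rw [← div_eq_mul_inv, le_div_iff₀ (by positivity)]
      calc |Φ v w| * |H x w| * (1 + ‖w‖) ^ (d + 1)
          ≤ (C₀ * ((1 + ‖v‖) ^ N * (1 + ‖w‖) ^ N)) * |H x w| * (1 + ‖w‖) ^ (d + 1) := by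
            gcongr
            exact hb v w
        _ = C₀ * (1 + ‖v‖) ^ N * ((1 + ‖w‖) ^ (N + (d + 1)) * |H x w|) := by
          rw [pow_add]; ring
        _ ≤ C₀ * (1 + ‖v‖) ^ N * C := by
            refine mul_le_mul_of_nonneg_left h2 ?_
            positivity
    · refine Eventually.of_forall fun w => ?_
      exact continuous_const.mul (hc.comp (continuous_id.prodMk continuous_const))
  · intro x i
    congr 1
    funext w
    rw [hper]
  · intro x y hxy
    congr 1
    funext w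
    rw [hpl x y w hxy]

private lemma be_kint {A : Vec d → ℝ} (hA : PlF e A) (hl : 0 < l) (x : Vec d) :
    IntegrableOn (fun z => kl l z * A (x - Pi.single e z)) (Ioo (-(l / 2)) (l / 2)) := by
  obtain ⟨C, hC⟩ := pl_bdd hA
  have hC0 : 0 ≤ C := (abs_nonneg _).trans (hC 0)
  have hfin : IsFiniteMeasure ((volume : Measure ℝ).restrict (Ioo (-(l / 2)) (l / 2))) := by
    refine ⟨?_⟩
    rw [Measure.restrict_apply_univ]
    exact measure_Ioo_lt_top
  refine Integrable.of_bound ?_ (1 / 2 * C) ?_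
  · exact ((kl_meas l).aestronglyMeasurable).mul
      (hA.cont.comp (continuous_const.sub (be_single_cont e))).aestronglyMeasurable
  · refine (ae_restrict_iff' measurableSet_Ioo).2 (Eventually.of_forall fun z hz => ?_)
    rw [norm_mul, Real.norm_eq_abs, Real.norm_eq_abs]
    exact mul_le_mul (kl_abs hl hz) (hC _) (abs_nonneg _) (by norm_num)

private lemma be_lint {A : Vec d → ℝ} (hA : PlF e A) (x : Vec d) :
    IntegrableOn (fun z => A (x - Pi.single e z)) (Ioo (-(l / 2)) (l / 2)) := by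
  obtain ⟨C, hC⟩ := pl_bdd hA
  have hfin : IsFiniteMeasure ((volume : Measure ℝ).restrict (Ioo (-(l / 2)) (l / 2))) := by
    refine ⟨?_⟩
    rw [Measure.restrict_apply_univ]
    exact measure_Ioo_lt_top
  exact Integrable.of_bound (hA.cont.comp (continuous_const.sub (be_single_cont e))).aestronglyMeasurable C
    (Eventually.of_forall fun z => hC _)

/-- the integral against the kernel -/
private lemma be_kle {A B : Vec d → ℝ} (hB : PlF e B) {c : ℝ} (hAB : ∀ x, |A x| ≤ c * B x)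
    (hl : 0 < l) (x : Vec d) :
    |∫ z in Ioo (-(l / 2)) (l / 2), kl l z * A (x - Pi.single e z)| ≤ c / 2 * loc e l B x := by
  have h1 : |∫ z in Ioo (-(l / 2)) (l / 2), kl l z * A (x - Pi.single e z)| ≤
      ∫ z in Ioo (-(l / 2)) (l / 2), c / 2 * B (x - Pi.single e z) := by
    rw [← Real.norm_eq_abs]
    refine norm_integral_le_of_norm_le ((be_lint hB x).const_mul _) ?_
    refine (ae_restrict_iff' measurableSet_Ioo).2 (Eventually.of_forall fun z hz => ?_)
    rw [norm_mul, Real.norm_eq_abs, Real.norm_eq_abs]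
    have h2 := hAB (x - Pi.single e z)
    calc |kl l z| * |A (x - Pi.single e z)| ≤ 1 / 2 * (c * B (x - Pi.single e z)) :=
          mul_le_mul (kl_abs hl hz) h2 (abs_nonneg _) (by norm_num)
      _ = c / 2 * B (x - Pi.single e z) := by ring
  refine h1.trans_eq ?_
  unfold loc
  rw [integral_const_mul]

private lemma be_wint {Φ : Vec d → Vec d → ℝ} (hΦ : PGW Φ) (h : FS e F G) (v x : Vec d) :
    Integrable fun w => Φ v w * F x w := by
  refine avg_int hΦ ?_ (h.contF.comp (continuous_const.prodMk continuous_id)) v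
  intro N
  obtain ⟨C, hC⟩ := h.decF N
  exact ⟨C, fun w => hC x w⟩

private lemma be_jint (h : FS e F G) (x : Vec d) (r : ℝ) : Integrable fun w => F x w * jb w ^ r := by
  obtain ⟨N, hN⟩ := exists_nat_ge r
  obtain ⟨C, hC⟩ := h.decF (N + (d + 1))
  have hjc : Continuous fun v : Vec d => jb v ^ r :=
    jb_cont.rpow_const fun v => Or.inl (jb_pos v).ne'
  refine (integrable_wt.const_mul (((d : ℝ) + 1) ^ N * C)).mono'
    ((h.contF.comp (continuous_const.prodMk continuous_id)).mul hjc).aestronglyMeasurable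
    (Eventually.of_forall fun v => ?_)
  have h1 : jb v ^ r ≤ (((d : ℝ) + 1) * (1 + ‖v‖)) ^ N := by
    calc jb v ^ r ≤ jb v ^ (N : ℝ) := Real.rpow_le_rpow_of_exponent_le (one_le_jb v) hN
      _ = jb v ^ N := Real.rpow_natCast _ _
      _ ≤ _ := pow_le_pow_left₀ (jb_pos v).le (jb_le_w v) N
  have h2 := hC x v
  rw [norm_mul, Real.norm_eq_abs, Real.norm_of_nonneg (Real.rpow_nonneg (jb_pos v).le r)]
  unfold wt
  rw [← div_eq_mul_inv, le_div_iff₀ (by positivity)]
  calc |F x v| * jb v ^ r * (1 + ‖v‖) ^ (d + 1)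
      ≤ |F x v| * (((d : ℝ) + 1) * (1 + ‖v‖)) ^ N * (1 + ‖v‖) ^ (d + 1) := by gcongr
    _ = ((d : ℝ) + 1) ^ N * ((1 + ‖v‖) ^ (N + (d + 1)) * |F x v|) := by
      rw [mul_pow, pow_add]; ring
    _ ≤ ((d : ℝ) + 1) ^ N * C := by gcongr

theorem bar_abs (ha : 0 < a) (ha1 : a ≤ 1) (h : FS e F G) (hl : 0 < l) (x v : Vec d) :
    |pot e l (Ph e a) F x v| ≤ loc e l (fun y => ∫ w, F y w * jb w ^ a) x := by
  have hΦ := Ph_PGW (d := d) ha e
  have h1 := be_kle (A := fun y => ∫ w, Ph e a v w * F y w) (pl_avg h (r := a)) (c := 2) (fun y => ?_) hl x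
  · unfold pot
    refine h1.trans_eq ?_
    ring
  · calc |∫ w, Ph e a v w * F y w| ≤ ∫ w, |Ph e a v w * F y w| := abs_integral_le_integral_abs
      _ ≤ ∫ w, 2 * (F y w * jb w ^ a) := by
          refine integral_mono (be_wint hΦ h v y).abs ((be_jint h y a).const_mul 2) fun w => ?_
          show |Ph e a v w * F y w| ≤ 2 * (F y w * jb w ^ a)
          rw [abs_mul, abs_of_nonneg (h.nonneg y w)]
          have h2 := mul_le_mul_of_nonneg_right (Ph_abs ha ha1 e v w) (h.nonneg y w)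
          linarith
      _ = 2 * ∫ w, F y w * jb w ^ a := integral_const_mul _ _

theorem bar_osc (ha : 0 < a) (ha1 : a ≤ 1) (h : FS e F G) (hl : 0 < l) (x u v : Vec d) :
    |pot e l (Ph e a) F x u - pot e l (Ph e a) F x v| ≤
      16 * (min 1 (len (u - v) / jb v) ^ a * loc e l (fun y => ∫ w, F y w * jb w ^ a) x) := by
  have hΦ := Ph_PGW (d := d) ha e
  have hu := be_avg hΦ h.contF h.decF h.perF h.plF u
  have hv := be_avg hΦ h.contF h.decF h.perF h.plF v
  set μ := min 1 (len (u - v) / jb v) ^ a with hμ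
  have h1 := be_kle (A := fun y => (∫ w, Ph e a u w * F y w) - ∫ w, Ph e a v w * F y w) (pl_avg h (r := a)) (c := 32 * μ) (fun y => ?_) hl x
  · have h2 : pot e l (Ph e a) F x u - pot e l (Ph e a) F x v =
        ∫ z in Ioo (-(l / 2)) (l / 2), kl l z * ((∫ w, Ph e a u w * F (x - Pi.single e z) w) -
          ∫ w, Ph e a v w * F (x - Pi.single e z) w) := by
      unfold pot
      rw [← integral_sub (be_kint hu hl x) (be_kint hv hl x)]
      congr 1
      funext z
      ring
    rw [h2]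
    refine h1.trans_eq ?_
    ring
  · have h3 : (∫ w, Ph e a u w * F y w) - ∫ w, Ph e a v w * F y w =
        ∫ w, (Ph e a u w - Ph e a v w) * F y w := by
      rw [← integral_sub (be_wint hΦ h u y) (be_wint hΦ h v y)]
      congr 1
      funext w
      ring
    have h4 : Integrable fun w => (Ph e a u w - Ph e a v w) * F y w := by
      refine ((be_wint hΦ h u y).sub (be_wint hΦ h v y)).congr (Eventually.of_forall fun w => ?_)
      simp only [Pi.sub_apply]
      ring
    show |(∫ w, Ph e a u w * F y w) - ∫ w, Ph e a v w * F y w| ≤ _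
    rw [h3]
    calc |∫ w, (Ph e a u w - Ph e a v w) * F y w| ≤ ∫ w, |(Ph e a u w - Ph e a v w) * F y w| :=
          abs_integral_le_integral_abs
      _ ≤ ∫ w, 32 * μ * (F y w * jb w ^ a) := by
          refine integral_mono h4.abs ((be_jint h y a).const_mul _) fun w => ?_
          show |(Ph e a u w - Ph e a v w) * F y w| ≤ 32 * μ * (F y w * jb w ^ a)
          rw [abs_mul, abs_of_nonneg (h.nonneg y w)]
          have h5 := mul_le_mul_of_nonneg_right (Ph_holder_v ha ha1 e u v w) (h.nonneg y w)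
          rw [← hμ] at h5
          linarith
      _ = 32 * μ * ∫ w, F y w * jb w ^ a := integral_const_mul _ _

theorem bar_dpot (ha : 0 < a) (ha1 : a ≤ 1) (h : FS e F G) (hl : 0 < l) (hl1 : l ≤ 1)
    (hX : PlF e X) (hX0 : ∀ x, 0 ≤ X x) (hK : 0 ≤ K)
    (hG : ∀ x v, |∫ w, Ph e a v w * G x w| ≤ K * X x)
    (hM : ∫ p, F p.2 p.1 * jb p.1 ^ 2 ∂(nu d) ≤ M') (x v : Vec d) :
    (∫ w, (v e - w e) * Ph e a v w * F x w) - (4 * M' / l + K / 2 * ∫ y, X y ∂(muD d)) ≤
      dpot e l (Ph e a) F G x v := by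
  have hΦ := Ph_PGW (d := d) ha e
  have hV := PGW.vmul hΦ e
  have hav := be_avg hV h.contF h.decF h.perF h.plF v
  -- the source
  have h3 := be_kle (A := fun y => ∫ w, Ph e a v w * G y w) hX (c := K) (fun y => hG y v) hl x
  have h3' : K / 2 * loc e l X x ≤ K / 2 * ∫ y, X y ∂(muD d) :=
    mul_le_mul_of_nonneg_left (loc_le hX hX0 hl hl1 x) (by positivity)
  -- the middle term
  have hA : PlF e (fun y => ∫ w, F y w * jb w ^ (2 : ℝ)) := pl_avg h
  have hA0 : ∀ y, 0 ≤ ∫ w, F y w * jb w ^ (2 : ℝ) := fun y =>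
    integral_nonneg fun w => mul_nonneg (h.nonneg y w) (Real.rpow_nonneg (jb_pos w).le _)
  have h2 : (∫ z in Ioo (-(l / 2)) (l / 2), ∫ w, (v e - w e) * Ph e a v w * F (x - Pi.single e z) w) ≤
      4 * loc e l (fun y => ∫ w, F y w * jb w ^ (2 : ℝ)) x := by
    unfold loc
    rw [← integral_const_mul]
    refine integral_mono (be_lint hav x) ((be_lint hA x).const_mul 4) fun z => ?_
    show (∫ w, (v e - w e) * Ph e a v w * F (x - Pi.single e z) w) ≤
      4 * ∫ w, F (x - Pi.single e z) w * jb w ^ (2 : ℝ)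
    rw [← integral_const_mul]
    refine integral_mono (be_wint hV h v _) ((be_jint h _ 2).const_mul 4) fun w => ?_
    show (v e - w e) * Ph e a v w * F (x - Pi.single e z) w ≤ 4 * (F (x - Pi.single e z) w * jb w ^ (2 : ℝ))
    have h5 := mul_le_mul_of_nonneg_right (VPh_le ha ha1 e v w) (h.nonneg (x - Pi.single e z) w)
    rw [Real.rpow_two]
    linarith
  have h4 : loc e l (fun y => ∫ w, F y w * jb w ^ (2 : ℝ)) x ≤ M' := by
    refine (loc_le hA hA0 hl hl1 x).trans (le_trans (le_of_eq ?_) hM)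
    obtain ⟨C, hC⟩ := h.decF (2 + (d + 1))
    have hint : Integrable (fun p : Vec d × Vec d => F p.2 p.1 * jb p.1 ^ 2) (nu d) := by
      refine integrable_nu (C := ((d : ℝ) + 1) ^ 2 * C) ?_ fun q => ?_
      · exact ((h.contF.comp continuous_swap).mul ((jb_cont.comp continuous_fst).pow 2)).aestronglyMeasurable
      · have h1 : jb q.1 ^ 2 ≤ (((d : ℝ) + 1) * (1 + ‖q.1‖)) ^ 2 :=
          pow_le_pow_left₀ (jb_pos _).le (jb_le_w _) 2
        have h6 := hC q.2 q.1
        rw [abs_mul, abs_of_nonneg (sq_nonneg (jb q.1))]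
        unfold wt
        rw [← div_eq_mul_inv, le_div_iff₀ (by positivity)]
        calc |F q.2 q.1| * jb q.1 ^ 2 * (1 + ‖q.1‖) ^ (d + 1)
            ≤ |F q.2 q.1| * (((d : ℝ) + 1) * (1 + ‖q.1‖)) ^ 2 * (1 + ‖q.1‖) ^ (d + 1) := by gcongr
          _ = ((d : ℝ) + 1) ^ 2 * ((1 + ‖q.1‖) ^ (2 + (d + 1)) * |F q.2 q.1|) := by
            rw [mul_pow, pow_add]; ring
          _ ≤ ((d : ℝ) + 1) ^ 2 * C := by gcongr
    unfold nu at hint ⊢
    rw [integral_prod_symm _ hint]
    congr 1
    funext y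
    congr 1
    funext w
    rw [Real.rpow_two]
  have h6 : (1 / l) * (∫ z in Ioo (-(l / 2)) (l / 2), ∫ w, (v e - w e) * Ph e a v w * F (x - Pi.single e z) w) ≤
      4 * M' / l := by
    have h7 : 0 ≤ 1 / l := by positivity
    calc (1 / l) * (∫ z in Ioo (-(l / 2)) (l / 2), ∫ w, (v e - w e) * Ph e a v w * F (x - Pi.single e z) w)
        ≤ (1 / l) * (4 * M') := mul_le_mul_of_nonneg_left (by linarith) h7
      _ = _ := by ring
  have h8 := (abs_le.1 h3).1
  unfold dpot
  linarith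

end Pool.Agent.H48.PL
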