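import Pool.Agent.H48.PL.Swap
import Pool.Agent.H48.PL.Wgt
import Pool.Agent.H82.CM.Op

/-!
# Module OpP: F5, the touching inequality

`gain_planar`. Constants: `θ` from `fast_pert`; `K₂` from `exc_pert` (with this `θ`); `L, ε₁` from `fast_pert` with `K₂`; `δ, a₀, κ` and `δ₁` from `slow_pert` (with `θ`); `τ, ε₂` from `thin_bound` with `L` and `K₃ = K₂`;
`K_s` from `swap_thin` with `Λ = 2+2L`; `ε₀` the minimum with `1/64`. `A = 1+nsq v`. `gain_splitg` with `S = RegS θ L v` (`measurableSet_RegS`) and `loss_eq`; for every `m ≠ 0`, `z = v-m`, weight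
`w(m) = ofReal (|m|^γ g z)`: `w (GMg + GEg) ≤ w g(v) BB + R(m)` with
* `z` slow or `LA < nsq z` (fast): `R = 0` (`slow_pert`, `fast_pert` + `exc_pert`);
* medium, `|m e| > len m/16`: `R = w ofReal (K g v)`, `K = K_M (3+2L)^s + K₂` (`med_pert`, `exc_pert`, `nsq m ≤ (2+2L)A`); `|m|^γ ≤ 16^γ |m e|^γ` (`γ ≥ 0`);
* medium, `|m e| ≤ len m/16`: `R = w TM` (`thin_bound`, `exc_pert`), and `g z ≤ C_z g v` because `z` is not slow: either `A < a₀ ≤ a₀(1+nsq z)` or `nsq z > δ²A`, and touching with factor `1+δ₁ ≤ 2`.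
Integrate; `swap_thin`: the last contribution is `≤ ofReal (C_z K_s g v) ∫⁻_{nsq m ≤ τ²(2+2L)A ≤ A/8, len m ≤ 2|m e|} ofReal (|m|^γ g(v-m))`, `|m|^γ ≤ 2^γ |m e|^γ`.
In both sets `min 1 (jb z/jb v) ≥ c > 0` (not slow: as above; `nsq m ≤ A/8`: `jb z ≥ jb v - len m ≥ jb v/2`).
`op_planar`: `cut_leg` (with `S = 0`) and `boltz_tendsto`, as `op_bound` in H82/CM/Op.lean; the integral on the right is finite (`g` is RD, weight `≤ |v e - z e|^γ`).
-/

set_option autoImplicit false

open MeasureTheory Set Filter Topology Pool.Agent.H25.Kin Pool.Agent.H82.BK Pool.Agent.H82.CM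
open scoped ENNReal

namespace Pool.Agent.H48.PL

variable {d : ℕ} {s a C Ca cb : ℝ} {b : ℝ → ℝ}

/-- lower bound of the weight -/
private lemma opp_wt (ha : 0 < a) {c : ℝ} (hc1 : c ≤ 1) {v z : Vec d}
    (h : c * (1 + nsq v) ≤ 1 + nsq z) (e : Fin d) :
    c * |v e - z e| ^ (1 + a) ≤ (v e - z e) * Ph e a v z := by
  rw [VPh_eq ha]
  refine mul_le_mul_of_nonneg_right ?_ (Real.rpow_nonneg (abs_nonneg _) _)
  have h1 := jb_pos v
  have h2 := jb_pos z
  rcases le_total 1 (jb z / jb v) with h3 | h3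
  · rw [min_eq_left h3]
    simpa using hc1
  · rw [min_eq_right h3, div_pow, le_div_iff₀ (by positivity), jb_sq, jb_sq]
    exact h

private lemma opp_len (ha : 0 < a) {M : ℝ} (hM : 0 ≤ M) {m : Vec d} {e : Fin d}
    (h : len m ≤ M * |m e|) : len m ^ (1 + a) ≤ M ^ (1 + a) * |m e| ^ (1 + a) := by
  rw [← Real.mul_rpow hM (abs_nonneg _)]
  exact Real.rpow_le_rpow (len_nonneg m) h (by linarith)

/-- not slow: comparable with `v` from below -/
private lemma opp_notslow {δ a₀ : ℝ} (_ha₀ : 1 ≤ a₀) {v z : Vec d} (h : ¬ SlowR δ a₀ v z) :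
    min (1 / a₀) (δ ^ 2) * (1 + nsq v) ≤ 1 + nsq z := by
  have hz := sq_nonneg' z
  have hv := sq_nonneg' v
  have ha : 0 < 1 + nsq v := by linarith
  by_cases h1 : a₀ ≤ 1 + nsq v
  · have h2 : δ ^ 2 * (1 + nsq v) < nsq z := by
      by_contra h3
      exact h ⟨h1, not_lt.1 h3⟩
    have h3 := mul_le_mul_of_nonneg_right (min_le_right (1 / a₀) (δ ^ 2)) ha.le
    linarith
  · have h2 : 1 / a₀ * (1 + nsq v) ≤ 1 := by
      rw [one_div, inv_mul_le_iff₀ (by linarith)]
      push Not at h1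
      linarith
    have h3 := mul_le_mul_of_nonneg_right (min_le_left (1 / a₀) (δ ^ 2)) ha.le
    linarith

/-- small `m`: comparable with `v` from below -/
private lemma opp_near {v m : Vec d} (h : nsq m ≤ 1 / 8 * (1 + nsq v)) :
    1 / 4 * (1 + nsq v) ≤ 1 + nsq (v - m) := by
  have h5 : nsq v ≤ 2 * nsq m + 2 * nsq (v - m) := by
    have h6 := nsq_par m (v - m)
    have e : m + (v - m) = v := by abel
    rw [e] at h6
    have h7 := sq_nonneg' (m - (v - m))
    linarith
  have hv := sq_nonneg' v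
  linarith

/-- touching: the values at the velocities which are not slow -/
private lemma opp_val {δ₁ c : ℝ} {p : ℕ} (ha : 0 < a) (hδ : 0 ≤ δ₁) (hδ1 : δ₁ ≤ 1) (hc : 0 < c)
    {g : Vec d → ℝ} (hg0 : ∀ u, 0 ≤ g u) {v z : Vec d} (ht : Touch δ₁ a p g v)
    (h : c * (1 + nsq v) ≤ 1 + nsq z) : g z ≤ 2 / c ^ p * g v := by
  have hz := sq_nonneg' z
  have hv := sq_nonneg' v
  have hgv := hg0 v
  have hA : 0 < 1 + nsq v := by linarith
  have hZ : 0 < 1 + nsq z := by linarith
  have h1 := ht z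
  have h2 : (1 + δ₁ * mm a v z) ≤ 2 := by
    have h3 := mm_le_one ha.le v z
    have h4 := mm_nonneg a v z
    nlinarith
  have h3 : (c * (1 + nsq v)) ^ p ≤ (1 + nsq z) ^ p := pow_le_pow_left₀ (by positivity) h p
  rw [mul_pow] at h3
  have hcp : 0 < c ^ p := pow_pos hc p
  have hAp : 0 < (1 + nsq v) ^ p := pow_pos hA p
  have h4 : g z * (c ^ p * (1 + nsq v) ^ p) ≤ g v * (1 + nsq v) ^ p * 2 := by
    calc g z * (c ^ p * (1 + nsq v) ^ p) ≤ g z * (1 + nsq z) ^ p :=
          mul_le_mul_of_nonneg_left h3 (hg0 z)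
      _ ≤ g v * (1 + nsq v) ^ p * (1 + δ₁ * mm a v z) := h1
      _ ≤ _ := mul_le_mul_of_nonneg_left h2 (by positivity)
  rw [div_mul_eq_mul_div, le_div_iff₀ hcp]
  have h5 : (g z * c ^ p) * (1 + nsq v) ^ p ≤ (2 * g v) * (1 + nsq v) ^ p := by linarith
  exact le_of_mul_le_mul_right h5 hAp

private lemma opp_BB {b : ℝ → ℝ} (hb : Measurable b) (ε : ℝ) :
    Measurable fun m : Vec d => BB b ε (dir m) := by
  have h1 : Measurable fun e : Vec d => BB b ε e := by
    unfold BB
    have h2 : Measurable fun q : Vec d × Vec d => ENNReal.ofReal (bt b ε (dot q.1 q.2)) := by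
      have h3 : Continuous fun q : Vec d × Vec d => dot q.1 q.2 := by unfold dot; fun_prop
      exact ((measurable_bt hb ε).comp h3.measurable).ennreal_ofReal
    exact h2.lintegral_prod_right'
  have h4 : Measurable fun m : Vec d => dir m := by
    unfold dir
    exact (continuous_len.measurable.inv).smul measurable_id
  exact h1.comp h4

private lemma opp_cont (ha : 0 < a) (e : Fin d) (v : Vec d) :
    Continuous fun z : Vec d => Ph e a v z := by
  have h1 := (Ph_PGW (d := d) ha e).cont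
  have h2 : Continuous fun z : Vec d => ((v, z) : Vec d × Vec d) :=
    continuous_const.prodMk continuous_id
  have h3 := h1.comp h2
  exact h3

private lemma opp_wcont (ha : 0 < a) (e : Fin d) (v : Vec d) :
    Continuous fun z : Vec d => (v e - z e) * Ph e a v z := by
  have h1 : Continuous fun z : Vec d => v e - z e := continuous_const.sub (continuous_apply e)
  exact h1.mul (opp_cont ha e v)

/-- the weight has polynomial growth -/
private lemma opp_PG (ha : 0 < a) (ha1 : a ≤ 1) (e : Fin d) (v : Vec d) :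
    PG fun z : Vec d => (v e - z e) * Ph e a v z := by
  refine ⟨2, 4 * ((d : ℝ) + 1) ^ 2, fun z => ?_⟩
  rw [Real.norm_eq_abs, abs_of_nonneg (VPh_nonneg ha e v z)]
  refine (VPh_le ha ha1 e v z).trans ?_
  have h1 := jb_le_w z
  have h2 := jb_pos z
  have h3 : jb z ^ 2 ≤ (((d : ℝ) + 1) * (1 + ‖z‖)) ^ 2 := pow_le_pow_left₀ h2.le h1 2
  rw [mul_pow] at h3
  linarith

theorem gain_planar (HL : HypL d (1 + a) s b C Ca cb) (h1 : 2 * s < a) (ha1 : a ≤ 1) {p : ℕ}
    (hp : (d : ℝ) + (1 + a) + 4 ≤ 2 * p) (e : Fin d) :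
    ∃ K δ₁ ε₀ : ℝ, 0 ≤ K ∧ 0 < δ₁ ∧ δ₁ ≤ 1 ∧ 0 < ε₀ ∧ ∀ g : Vec d → ℝ, Measurable g → (∀ u, 0 ≤ g u) →
      ∀ v : Vec d, Touch δ₁ a p g v → ∀ ε : ℝ, 0 < ε → ε ≤ ε₀ →
      Gn (1 + a) b ε g v ≤ Ls (1 + a) b ε g v +
        ∫⁻ z, ENNReal.ofReal (K * g v * (g z * ((v e - z e) * Ph e a v z))) := by
  classical
  have H := HL.H
  have hs := H.hs
  have ha : 0 < a := by linarith
  obtain ⟨θ, hθ, hθ4, hfast⟩ := fast_pert HL h1 ha1 p
  obtain ⟨K₂, hK₂, hexc⟩ := exc_pert H ha.le hp hθ
  obtain ⟨L, hL, ε₁, hε₁, hfast'⟩ := hfast K₂ hK₂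
  obtain ⟨δ, hδ, hδ1, a₀, ha₀, κ, hκ, hslow⟩ := slow_pert HL h1 ha1 hp
  obtain ⟨δ₁, hδ₁, hδ₁1, hslow'⟩ := hslow θ hθ
  obtain ⟨KM, hKM, hmed⟩ := med_pert H h1 ha1 p
  obtain ⟨τ, ε₂, hτ, hτ4, hτL, hε₂, hthin⟩ := thin_bound HL h1 ha1 p e hL hK₂
  obtain ⟨Ks, hKs, hswap⟩ := swap_thin H e hτ (by linarith : τ ≤ 1) (Λ := 2 + 2 * L) (by linarith)
  set c₁ : ℝ := min (1 / a₀) (δ ^ 2) with hc₁
  have hc₁0 : 0 < c₁ := lt_min (by positivity) (by positivity)
  have hc₁1 : c₁ ≤ 1 := (min_le_right _ _).trans (pow_le_one₀ hδ.le hδ1)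
  set K₁ : ℝ := KM * (3 + 2 * L) ^ s + K₂ with hK₁
  have hK₁0 : 0 ≤ K₁ := by positivity
  set Cz : ℝ := 2 / c₁ ^ p with hCz
  have hCz0 : 0 ≤ Cz := by positivity
  set Ka : ℝ := K₁ * (16 ^ (1 + a) / c₁) with hKa
  set Kb : ℝ := Ks * Cz * (4 * 2 ^ (1 + a)) with hKb
  have hKa0 : 0 ≤ Ka := by positivity
  have hKb0 : 0 ≤ Kb := by positivity
  refine ⟨Ka + Kb, δ₁, min (min ε₁ ε₂) (1 / 64), by positivity, hδ₁, hδ₁1,
    lt_min (lt_min hε₁ hε₂) (by norm_num), fun g hg hg0 v ht ε hε hεle => ?_⟩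
  have hεa : ε ≤ ε₁ := hεle.trans ((min_le_left _ _).trans (min_le_left _ _))
  have hεb : ε ≤ ε₂ := hεle.trans ((min_le_left _ _).trans (min_le_right _ _))
  have hεc : ε ≤ 1 / 64 := hεle.trans (min_le_right _ _)
  have hgv := hg0 v
  have hv0 : 0 ≤ nsq v := sq_nonneg' v
  have hA : 0 < 1 + nsq v := by linarith
  have hsub : ∀ m : Vec d, v - (v - m) = m := fun m => sub_sub_cancel v m
  -- the weight
  set w : Vec d → ℝ := fun z => (v e - z e) * Ph e a v z with hw
  have hw0 : ∀ z, 0 ≤ w z := fun z => VPh_nonneg ha e v z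
  have hwm : Measurable w := (opp_wcont ha e v).measurable
  -- the medium velocities
  set Med : Set (Vec d) := {m | MedR δ a₀ L v (v - m)} with hMed
  have hMedm : MeasurableSet Med :=
    (measurableSet_MedR δ a₀ L v).preimage (measurable_const.sub measurable_id)
  set Wt : Vec d → ℝ≥0∞ := fun m => ENNReal.ofReal (len m ^ (1 + a) * g (v - m)) with hWt
  have hlm : Measurable fun m : Vec d => len m ^ (1 + a) :=
    continuous_len.measurable.pow_const _
  have hgm : Measurable fun m : Vec d => g (v - m) := hg.comp (measurable_const.sub measurable_id)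
  have hWtm : Measurable Wt := (hlm.mul hgm).ennreal_ofReal
  set Th' : Set (Vec d) := {m | |m e| ≤ len m / 16} with hTh'
  have hThm : MeasurableSet Th' := by
    have h2 : Continuous fun m : Vec d => |m e| := (continuous_apply e).abs
    have h3 : Continuous fun m : Vec d => len m / 16 := continuous_len.div_const _
    exact (isClosed_le h2 h3).measurableSet
  -- pointwise bound
  have hpt : ∀ m : Vec d, m ≠ 0 →
      GMg (1 + a) b ε g (RegS θ L v) v m + GEg (1 + a) b ε g (RegS θ L v) v m ≤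
        ENNReal.ofReal (g v) * BB b ε (dir m) +
          ((Med \ Th').indicator (fun _ => ENNReal.ofReal (K₁ * g v)) m +
            (Med ∩ Th').indicator (fun m => TM e τ (1 + a) b ε g v m) m) := by
    intro m hm
    have hE := hexc L hL δ₁ hδ₁.le hδ₁1 g hg0 v ht m ε hε
    by_cases hsl : SlowR δ a₀ v (v - m)
    · have h2 := hslow' L hL g hg hg0 v ht m hm hsl ε hε hεc
      exact (le_self_add.trans h2).trans le_self_add
    by_cases hfa : L * (1 + nsq v) < nsq (v - m)
    · have h2 := hfast' δ₁ hδ₁.le hδ₁1 g hg hg0 v ht m hm hfa ε hε hεa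
      exact ((add_le_add_right hE _).trans h2).trans le_self_add
    rw [not_lt] at hfa
    have hmed' : m ∈ Med := ⟨hfa, hsl⟩
    by_cases hth : m ∈ Th'
    · have h2 := hthin θ δ₁ hδ₁.le hδ₁1 g hg hg0 v ht m hm hfa hth ε hε hεb
      rw [indicator_of_mem (show m ∈ Med ∩ Th' from ⟨hmed', hth⟩)]
      refine ((add_le_add_right hE _).trans h2).trans ?_
      refine add_le_add_right ?_ _
      exact le_add_self
    · have h2 := hmed θ L δ₁ hδ₁.le hδ₁1 g hg hg0 v ht m hm ε hε
      rw [indicator_of_mem (show m ∈ Med \ Th' from ⟨hmed', hth⟩)]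
      have hm0 : 0 ≤ nsq m := sq_nonneg' m
      have hQ0 : 0 ≤ nsq m / (1 + nsq v) := by positivity
      have hQ : (1 + nsq m / (1 + nsq v)) ^ s ≤ (3 + 2 * L) ^ s := by
        refine Real.rpow_le_rpow (by positivity) ?_ hs.le
        have h5 : nsq m ≤ 2 * nsq v + 2 * nsq (v - m) := by
          have h6 := nsq_par v (v - m)
          rw [hsub m] at h6
          have h7 := sq_nonneg' (v + (v - m))
          linarith
        have h8 : nsq m / (1 + nsq v) ≤ 2 + 2 * L := by
          rw [div_le_iff₀ hA]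
          nlinarith
        linarith
      have hP0 : 0 ≤ (1 + nsq m / (1 + nsq v)) ^ s := Real.rpow_nonneg (by linarith) _
      refine (add_le_add h2 hE).trans ?_
      rw [add_assoc, ← ENNReal.ofReal_add (by positivity) (by positivity)]
      refine add_le_add_right ?_ _
      refine le_trans (ENNReal.ofReal_le_ofReal ?_) le_self_add
      have := mul_le_mul_of_nonneg_left hQ (mul_nonneg hKM hgv)
      rw [hK₁]
      linarith
  -- the first remainder
  have hRa : ∀ m : Vec d, Wt m * (Med \ Th').indicator (fun _ => ENNReal.ofReal (K₁ * g v)) m ≤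
      ENNReal.ofReal (Ka * g v * (g (v - m) * w (v - m))) := by
    intro m
    by_cases hm : m ∈ Med \ Th'
    · rw [indicator_of_mem hm, hWt]
      have hgz := hg0 (v - m)
      have hl0 : 0 ≤ len m ^ (1 + a) := Real.rpow_nonneg (len_nonneg m) _
      simp only
      rw [← ENNReal.ofReal_mul (mul_nonneg hl0 hgz)]
      refine ENNReal.ofReal_le_ofReal ?_
      have h2 : c₁ * (1 + nsq v) ≤ 1 + nsq (v - m) := opp_notslow ha₀ hm.1.2
      have h3 := opp_wt ha hc₁1 h2 e
      have h4 : v e - (v - m) e = m e := by simp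
      have h5 : len m ≤ 16 * |m e| := by
        have h6 : ¬ (|m e| ≤ len m / 16) := hm.2
        push Not at h6
        linarith
      have h6 := opp_len ha (by norm_num) h5
      rw [h4] at h3
      have h7 : len m ^ (1 + a) ≤ 16 ^ (1 + a) / c₁ * w (v - m) := by
        have h8 : w (v - m) = (v e - (v - m) e) * Ph e a v (v - m) := rfl
        rw [h4] at h8
        rw [h8]
        calc len m ^ (1 + a) ≤ 16 ^ (1 + a) * |m e| ^ (1 + a) := h6
          _ = 16 ^ (1 + a) / c₁ * (c₁ * |m e| ^ (1 + a)) := by field_simp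
          _ ≤ _ := mul_le_mul_of_nonneg_left h3 (by positivity)
      calc len m ^ (1 + a) * g (v - m) * (K₁ * g v)
          ≤ (16 ^ (1 + a) / c₁ * w (v - m)) * g (v - m) * (K₁ * g v) := by gcongr
        _ = _ := by rw [hKa]; ring
    · rw [indicator_of_notMem hm, mul_zero]
      exact zero_le
  -- the second remainder
  have hRb : ∀ m : Vec d, Wt m * (Med ∩ Th').indicator (fun m => TM e τ (1 + a) b ε g v m) m ≤
      ENNReal.ofReal (Cz * g v) * ({m : Vec d | nsq m ≤ (2 + 2 * L) * (1 + nsq v)}.indicator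
        (fun m => ENNReal.ofReal (len m ^ (1 + a)) * TM e τ (1 + a) b ε g v m) m) := by
    intro m
    by_cases hm : m ∈ Med ∩ Th'
    · have h2 : c₁ * (1 + nsq v) ≤ 1 + nsq (v - m) := opp_notslow ha₀ hm.1.2
      have h3 := opp_val ha hδ₁.le hδ₁1 hc₁0 hg0 ht h2
      have h4 : m ∈ {m : Vec d | nsq m ≤ (2 + 2 * L) * (1 + nsq v)} := by
        show nsq m ≤ (2 + 2 * L) * (1 + nsq v)
        have h5 : nsq m ≤ 2 * nsq v + 2 * nsq (v - m) := by
          have h6 := nsq_par v (v - m)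
          rw [hsub m] at h6
          have h7 := sq_nonneg' (v + (v - m))
          linarith
        have h6 : nsq (v - m) ≤ L * (1 + nsq v) := hm.1.1
        nlinarith
      have hl0 : 0 ≤ len m ^ (1 + a) := Real.rpow_nonneg (len_nonneg m) _
      rw [indicator_of_mem hm, indicator_of_mem h4, ← mul_assoc, hWt]
      refine mul_le_mul_left ?_ _
      rw [← ENNReal.ofReal_mul (by positivity)]
      refine ENNReal.ofReal_le_ofReal ?_
      calc len m ^ (1 + a) * g (v - m) ≤ len m ^ (1 + a) * (Cz * g v) :=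
            mul_le_mul_of_nonneg_left h3 hl0
        _ = _ := by ring
    · rw [indicator_of_notMem hm, mul_zero]
      exact zero_le
  have hBm : MeasurableSet {m : Vec d | nsq m ≤ (2 + 2 * L) * (1 + nsq v)} :=
    (isClosed_le continuous_sq continuous_const).measurableSet
  have hSm : MeasurableSet {m : Vec d | nsq m ≤ τ ^ 2 * (2 + 2 * L) * (1 + nsq v) ∧
      len m ≤ 2 * |m e|} := by
    refine (isClosed_le continuous_sq continuous_const).measurableSet.inter ?_
    have h2 : Continuous fun m : Vec d => 2 * |m e| := ((continuous_apply e).abs).const_mul 2 |>.congr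
      (fun _ => rfl)
    exact (isClosed_le continuous_len h2).measurableSet
  have hswap' : ∫⁻ m, Wt m * (Med ∩ Th').indicator (fun m => TM e τ (1 + a) b ε g v m) m ≤
      ∫⁻ m, ENNReal.ofReal (Kb * g v * (g (v - m) * w (v - m))) := by
    refine (lintegral_mono hRb).trans ?_
    rw [lintegral_const_mul' _ _ ENNReal.ofReal_ne_top, lintegral_indicator hBm]
    refine (mul_le_mul_right (hswap g hg hg0 v ε hε) _).trans ?_
    rw [← lintegral_indicator hSm, ← lintegral_const_mul' _ _ ENNReal.ofReal_ne_top,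
      ← lintegral_const_mul' _ _ ENNReal.ofReal_ne_top]
    refine lintegral_mono fun m => ?_
    by_cases hm : m ∈ {m : Vec d | nsq m ≤ τ ^ 2 * (2 + 2 * L) * (1 + nsq v) ∧ len m ≤ 2 * |m e|}
    · rw [indicator_of_mem hm, ← ENNReal.ofReal_mul hKs, ← ENNReal.ofReal_mul (by positivity)]
      refine ENNReal.ofReal_le_ofReal ?_
      have hgz := hg0 (v - m)
      have h2 : 1 / 4 * (1 + nsq v) ≤ 1 + nsq (v - m) := by
        refine opp_near (hm.1.trans ?_)
        exact mul_le_mul_of_nonneg_right hτL hA.le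
      have h3 := opp_wt ha (by norm_num : (1 / 4 : ℝ) ≤ 1) h2 e
      have h4 : v e - (v - m) e = m e := by simp
      have h6 := opp_len ha (by norm_num) hm.2
      rw [h4] at h3
      have h7 : len m ^ (1 + a) ≤ 4 * 2 ^ (1 + a) * w (v - m) := by
        have h8 : w (v - m) = (v e - (v - m) e) * Ph e a v (v - m) := rfl
        rw [h4] at h8
        rw [h8]
        calc len m ^ (1 + a) ≤ 2 ^ (1 + a) * |m e| ^ (1 + a) := h6
          _ = 4 * 2 ^ (1 + a) * (1 / 4 * |m e| ^ (1 + a)) := by ring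
          _ ≤ _ := mul_le_mul_of_nonneg_left h3 (by positivity)
      calc Cz * g v * (Ks * (len m ^ (1 + a) * g (v - m)))
          ≤ Cz * g v * (Ks * ((4 * 2 ^ (1 + a) * w (v - m)) * g (v - m))) := by gcongr
        _ = _ := by rw [hKb]; ring
    · rw [indicator_of_notMem hm, mul_zero, mul_zero]
      exact zero_le
  -- assembly
  have hAm : Measurable fun m : Vec d => Wt m * (ENNReal.ofReal (g v) * BB b ε (dir m)) :=
    hWtm.mul ((opp_BB H.bm ε).const_mul _)
  have hBm' : Measurable fun m : Vec d =>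
      Wt m * (Med \ Th').indicator (fun _ => ENNReal.ofReal (K₁ * g v)) m :=
    hWtm.mul (measurable_const.indicator (hMedm.diff hThm))
  have hKam : Measurable fun m : Vec d => ENNReal.ofReal (Ka * g v * (g (v - m) * w (v - m))) :=
    ((hgm.mul (hwm.comp (measurable_const.sub measurable_id))).const_mul _).ennreal_ofReal
  have e1 : ∫⁻ z, ENNReal.ofReal ((Ka + Kb) * g v * (g z * ((v e - z e) * Ph e a v z))) =
      ∫⁻ m, ENNReal.ofReal ((Ka + Kb) * g v * (g (v - m) * w (v - m))) :=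
    (lintegral_sub_left_eq_self
      (fun z => ENNReal.ofReal ((Ka + Kb) * g v * (g z * ((v e - z e) * Ph e a v z)))) v).symm
  have e2 : ∫⁻ m, ENNReal.ofReal ((Ka + Kb) * g v * (g (v - m) * w (v - m))) =
      (∫⁻ m, ENNReal.ofReal (Ka * g v * (g (v - m) * w (v - m)))) +
        ∫⁻ m, ENNReal.ofReal (Kb * g v * (g (v - m) * w (v - m))) := by
    rw [← lintegral_add_left hKam]
    refine lintegral_congr fun m => ?_
    have h2 : 0 ≤ g (v - m) * w (v - m) := mul_nonneg (hg0 _) (hw0 _)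
    rw [← ENNReal.ofReal_add (by positivity) (by positivity)]
    congr 1; ring
  rw [e1, e2, loss_eq H.hd (1 + a) H.bm H.bd hε hg hg0 v]
  refine (gain_splitg H.hd (1 + a) H.bm H.bd hε hg hg0 (measurableSet_RegS θ L v) v).trans ?_
  calc ∫⁻ m, ENNReal.ofReal (len m ^ (1 + a) * g (v - m)) *
        (GMg (1 + a) b ε g (RegS θ L v) v m + GEg (1 + a) b ε g (RegS θ L v) v m)
      ≤ ∫⁻ m, (Wt m * (ENNReal.ofReal (g v) * BB b ε (dir m)) +
          (Wt m * (Med \ Th').indicator (fun _ => ENNReal.ofReal (K₁ * g v)) m +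
            Wt m * (Med ∩ Th').indicator (fun m => TM e τ (1 + a) b ε g v m) m)) := by
        refine lintegral_mono_ae ?_
        filter_upwards [ae_ne H.hd1 (0 : Vec d)] with m hm
        rw [← mul_add, ← mul_add]
        exact mul_le_mul_right (hpt m hm.symm) _
    _ = (∫⁻ m, Wt m * (ENNReal.ofReal (g v) * BB b ε (dir m))) +
        ((∫⁻ m, Wt m * (Med \ Th').indicator (fun _ => ENNReal.ofReal (K₁ * g v)) m) +
          ∫⁻ m, Wt m * (Med ∩ Th').indicator (fun m => TM e τ (1 + a) b ε g v m) m) := by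
        rw [lintegral_add_left hAm, lintegral_add_left hBm']
    _ ≤ _ := by
        refine add_le_add_right (add_le_add (lintegral_mono hRa) hswap') _

theorem op_planar (HL : HypL d (1 + a) s b C Ca cb) (h1 : 2 * s < a) (ha1 : a ≤ 1) {p : ℕ}
    (hp : (d : ℝ) + (1 + a) + 4 ≤ 2 * p) (e : Fin d) :
    ∃ K δ₁ : ℝ, 0 ≤ K ∧ 0 < δ₁ ∧ δ₁ ≤ 1 ∧ ∀ g : Vec d → ℝ, Nice g → (∀ u, 0 ≤ g u) →
      ∀ v : Vec d, Touch δ₁ a p g v →
      boltzQ (1 + a) b g v ≤ K * (g v * ∫ z, (v e - z e) * Ph e a v z * g z) := by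
  have H := HL.H
  have hs := H.hs
  have ha : 0 < a := by linarith
  obtain ⟨K, δ₁, ε₀, hK, hδ₁, hδ₁1, hε₀, hgl⟩ := gain_planar HL h1 ha1 hp e
  refine ⟨K, δ₁, hK, hδ₁, hδ₁1, fun g hg hg0 v ht => ?_⟩
  have hgv := hg0 v
  have hw0 : ∀ z, 0 ≤ (v e - z e) * Ph e a v z := fun z => VPh_nonneg ha e v z
  have hnn : ∀ z, 0 ≤ (v e - z e) * Ph e a v z * g z := fun z => mul_nonneg (hw0 z) (hg0 z)
  have hint : Integrable fun z : Vec d => (v e - z e) * Ph e a v z * g z := by
    have h2 := hg.rd.mul_PG (opp_PG ha ha1 e v)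
    have h3 : Continuous fun z : Vec d => g z * ((v e - z e) * Ph e a v z) :=
      hg.cont.mul (opp_wcont ha e v)
    have h4 := h2.integrable h3.measurable.aestronglyMeasurable
    refine h4.congr (Eventually.of_forall fun z => ?_)
    simp only
    ring
  have key : ∫⁻ z, ENNReal.ofReal (K * g v * (g z * ((v e - z e) * Ph e a v z))) =
      ENNReal.ofReal (K * (g v * ∫ z, (v e - z e) * Ph e a v z * g z)) := by
    rw [← mul_assoc, ← integral_const_mul, ofReal_integral_eq_lintegral_ofReal (hint.const_mul _)]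
    · refine lintegral_congr fun z => ?_
      congr 1; ring
    · exact Eventually.of_forall fun z => mul_nonneg (mul_nonneg hK hgv) (hnn z)
  have hR : 0 ≤ K * (g v * ∫ z, (v e - z e) * Ph e a v z * g z) :=
    mul_nonneg hK (mul_nonneg hgv (integral_nonneg hnn))
  have hlim := boltz_tendsto H hg v
  refine le_of_tendsto hlim ?_
  filter_upwards [Ioc_mem_nhdsGT hε₀] with ε hε
  have h3 := cut_leg H hg hg0 hε.1 v hR (le_refl (0 : ℝ)) (by
    rw [ENNReal.ofReal_zero, add_zero, ← key]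
    exact hgl g hg.cont.measurable hg0 v ht ε hε.1 hε.2)
  simpa using h3

end Pool.Agent.H48.PL
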