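import Pool.Agent.H48.PL.Clos
import Pool.Agent.H48.PL.BarE
import Pool.Agent.H48.PL.MaxW
import Pool.Agent.H48.PL.OpP

/-!
# Module FinP: the pointwise bound for planar solutions

`K₅, δ₁` from `op_planar`, `K₄` from `fib_Ph`, `K₀` from `X_bound0`. `E t x v = K₅ pot e l (Ph e a) (f t) x v`, `DE = K₅ dpot ..` (`pot_char`, `pot_cont`, `pot_per`). `l ≤ 1` from `equi` (with exponent `a < 2`) such that `loc(∫ f jb^a) ≤ η`, `η = min 1 (δ₁/(64 (K₅+1)))`, for all `t ∈ (0,T)`; and by continuity at `t = 0`,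
or: `FS`-like bounds also hold for `t = 0` — use `bar_abs` only for `t > 0` and `|E 0 x v| ≤ 1` by continuity in `t` (`pot_cont`). So `|E| ≤ K₅ η ≤ 1`.
Touching: if `f u W_u exp(-E u) ≤ f v W_v exp(-E v)` for all `u`, then `f u W_u ≤ f v W_v exp(E u - E v)`, `|E u - E v| ≤ 16 K₅ η min(1, len(u-v)/jb v)^a ≤ (δ₁/4) mm` (`mm a v u = min(1,len/jb)^a`), `exp x ≤ 1 + 2|x|` for `|x| ≤ 1`: `Touch δ₁ a p`.
`op_planar`: `Q ≤ K₅ f ∫ V_e Ph f ≤ f (DE + m)`, `m t = K₅ (8M/l + K₄/2 ∫x X)` by `bar_dpot` (`M' = 2M`, `K = K₄`, `X x = XS a (f t x) univ`, `f ≥ 0`). `max_weight`; `∫_0^t m ≤ K (1+t)`.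
Result: `f W ≤ e·A₀ e·exp(K(1+t))`, i.e. `K' A₀ exp(K' t)`.
-/

set_option autoImplicit false

open MeasureTheory Set Filter Topology Pool.Agent.H25.Kin Pool.Agent.H82.BK Pool.Agent.H82.CM

namespace Pool.Agent.H48.PL

variable {d : ℕ} {s a α C Ca cb : ℝ} {b : ℝ → ℝ}

private lemma fmm_eq (v u : Vec d) :
    mm a v u = min 1 (len (u - v) / jb v) ^ a := by
  have hj := jb_pos v
  have hn : 0 ≤ nsq (u - v) := by
    unfold nsq
    exact Finset.sum_nonneg fun i _ => sq_nonneg _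
  have hl : 0 ≤ len (u - v) := Real.sqrt_nonneg _
  have h1 : nsq (u - v) / (1 + nsq v) = (len (u - v) / jb v) ^ 2 := by
    rw [div_pow, jb_sq]
    unfold len
    rw [Real.sq_sqrt hn]
  have hr : 0 ≤ len (u - v) / jb v := by positivity
  have h2 : min 1 ((len (u - v) / jb v) ^ 2) = (min 1 (len (u - v) / jb v)) ^ 2 := by
    rcases le_total (len (u - v) / jb v) 1 with h | h
    · rw [min_eq_right h, min_eq_right (by nlinarith)]
    · rw [min_eq_left h, min_eq_left (by nlinarith)]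
      norm_num
  have h3 : 0 ≤ min 1 (len (u - v) / jb v) := le_min zero_le_one hr
  unfold mm
  rw [h1, h2, ← Real.rpow_natCast, ← Real.rpow_mul h3]
  congr 1
  push_cast
  ring

private lemma exp_le_two {x : ℝ} (hx : |x| ≤ 1) : Real.exp x ≤ 1 + 2 * |x| := by
  have h := Real.abs_exp_sub_one_le hx
  have h2 := le_abs_self (Real.exp x - 1)
  linarith

private lemma fmm_le_one (ha : 0 < a) (v u : Vec d) : 0 ≤ mm a v u ∧ mm a v u ≤ 1 := by
  rw [fmm_eq]
  have hr : 0 ≤ min 1 (len (u - v) / jb v) :=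
    le_min zero_le_one (div_nonneg (Real.sqrt_nonneg _) (jb_pos v).le)
  exact ⟨Real.rpow_nonneg hr _, Real.rpow_le_one hr (min_le_left _ _) ha.le⟩

/-- the touching condition -/
private lemma touch_of {E : Vec d → ℝ} {g : Vec d → ℝ} {δ c : ℝ} {p : ℕ} (ha : 0 < a) (hδ : 0 < δ)
    (hδ1 : δ ≤ 1) (hg : ∀ v, 0 ≤ g v) {v : Vec d} (hc1 : c ≤ δ / 4)
    (hE : ∀ u, |E u - E v| ≤ c * mm a v u)
    (h : ∀ u, g u * (1 + nsq u) ^ p * Real.exp (-E u) ≤ g v * (1 + nsq v) ^ p * Real.exp (-E v)) :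
    Touch δ a p g v := by
  intro u
  have hm := fmm_le_one ha v u
  have hW : 0 ≤ g v * (1 + nsq v) ^ p := by
    have : 0 ≤ nsq v := by
      unfold nsq
      exact Finset.sum_nonneg fun i _ => sq_nonneg _
    exact mul_nonneg (hg v) (by positivity)
  have h1 : g u * (1 + nsq u) ^ p ≤ g v * (1 + nsq v) ^ p * Real.exp (E u - E v) := by
    have h2 := mul_le_mul_of_nonneg_right (h u) (Real.exp_pos (E u)).le
    have e1 : g u * (1 + nsq u) ^ p * Real.exp (-E u) * Real.exp (E u) = g u * (1 + nsq u) ^ p := by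
      rw [mul_assoc, ← Real.exp_add]
      simp
    have e2 : g v * (1 + nsq v) ^ p * Real.exp (-E v) * Real.exp (E u) =
        g v * (1 + nsq v) ^ p * Real.exp (E u - E v) := by
      rw [mul_assoc, ← Real.exp_add]
      congr 2
      ring
    rw [e1, e2] at h2
    exact h2
  have h3 := hE u
  have h4 : c * mm a v u ≤ δ / 4 * mm a v u := mul_le_mul_of_nonneg_right hc1 hm.1
  have h5 : |E u - E v| ≤ 1 := by
    have : δ / 4 * mm a v u ≤ 1 * 1 := mul_le_mul (by linarith) hm.2 hm.1 zero_le_one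
    linarith
  have h6 := exp_le_two h5
  have h7 : Real.exp (E u - E v) ≤ 1 + δ * mm a v u := by
    have : 0 ≤ δ * mm a v u := mul_nonneg hδ.le hm.1
    linarith
  exact h1.trans (mul_le_mul_of_nonneg_left h7 hW)

private lemma abs_closure {T : ℝ} {E : ℝ → Vec d → Vec d → ℝ} (hT : 0 < T)
    (hEc : ContinuousOn (unc E) (Ico 0 T ×ˢ univ))
    (hE1 : ∀ τ ∈ Ioo 0 T, ∀ y u, |E τ y u| ≤ 1) : ∀ τ ∈ Ico 0 T, ∀ y u, |E τ y u| ≤ 1 := by
  intro τ hτ y u
  rcases eq_or_lt_of_le hτ.1 with h2 | h2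
  · rw [← h2]
    have h4 : Continuous fun r : ℝ => (r, y, u) := by fun_prop
    have h3 : ContinuousOn (fun r : ℝ => E r y u) (Ico 0 T) :=
      ContinuousOn.comp (g := unc E) (f := fun r : ℝ => (r, y, u)) hEc h4.continuousOn
        (fun r hr => ⟨hr, mem_univ _⟩)
    have h5 : Tendsto (fun r : ℝ => |E r y u|) (𝓝[Ioo 0 T] 0) (𝓝 |E 0 y u|) :=
      ((h3 0 ⟨le_rfl, hT⟩).mono Ioo_subset_Ico_self).abs
    have h6 : (𝓝[Ioo 0 T] (0 : ℝ)).NeBot := by
      rw [nhdsWithin_Ioo_eq_nhdsGT hT]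
      infer_instance
    exact le_of_tendsto h5 (eventually_nhdsWithin_of_forall fun r hr => hE1 r hr y u)
  · exact hE1 τ ⟨h2, hτ.2⟩ y u

theorem planar_bound (HL : HypL d (1 + a) s b C Ca cb) (P : PP s a α) (e : Fin d) {p : ℕ}
    (hp : (d : ℝ) + (1 + a) + 4 ≤ 2 * p) (M : ℝ) :
    ∃ K : ℝ, 0 ≤ K ∧ ∀ (T : ℝ) (f : ℝ → Vec d → Vec d → ℝ), IsBoltzmannSol (1 + a) b T f →
      Planar e T f → GB M (f 0) → ∀ A₀ : ℝ, (∀ x v, f 0 x v * (1 + nsq v) ^ p ≤ A₀) →
      ∀ t ∈ Ico 0 T, ∀ x v, f t x v * (1 + nsq v) ^ p ≤ K * A₀ * Real.exp (K * t) := by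
  obtain ⟨hα0, ha, ha2, -⟩ := P.hs0
  have ha1 : a ≤ 1 := by linarith
  have h1 : 2 * s < a := lt_of_lt_of_le P.hα P.hαa
  obtain ⟨K₅, δ₁, hK5, hδ, hδ1, hop⟩ := op_planar HL h1 ha1 hp e
  obtain ⟨K₄, hK4, hfib⟩ := fib_Ph HL h1 ha1 e
  obtain ⟨K₀, hK0, hX⟩ := X_bound0 HL P e M
  set η : ℝ := min 1 (δ₁ / (64 * (K₅ + 1))) with hηdef
  have hη : 0 < η := lt_min one_pos (by positivity)
  have hK5η : K₅ * η ≤ δ₁ / 64 := by
    have h2 : η ≤ δ₁ / (64 * (K₅ + 1)) := min_le_right _ _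
    calc K₅ * η ≤ (K₅ + 1) * (δ₁ / (64 * (K₅ + 1))) := by
          apply mul_le_mul (by linarith) h2 hη.le (by linarith)
      _ = δ₁ / 64 := by
          have : K₅ + 1 ≠ 0 := by linarith
          field_simp
  obtain ⟨l, hl, hl1, heq⟩ := equi e M ha.le (by linarith : a < 2) hη
  have heq' := heq l hl le_rfl
  set K₆ : ℝ := K₅ * (4 * (2 * |M|) / l) + K₅ * (K₄ / 2) * K₀ with hK6def
  have hK6 : 0 ≤ K₆ := by positivity
  refine ⟨Real.exp (2 + K₆), (Real.exp_pos _).le, ?_⟩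
  intro T f hf hpl h0 A₀ hA₀ t ht x v
  have hT : 0 < T := ht.1.trans_lt ht.2
  have hz : (0 : ℝ) ∈ Ico 0 T := ⟨le_rfl, hT⟩
  have hfc : IsClassicalSol T (fun t x => boltzQ (1 + a) b (f t x)) f := hf
  have hgb : ∀ τ ∈ Ico 0 T, GB M (f τ) := fun τ hτ => glob_bounds HL.H hf h0 hτ
  have hM0 : 0 ≤ M := by
    have h2 := h0.mass
    have h3 : 0 ≤ ∫ q, f 0 q.2 q.1 ∂(nu d) := integral_nonneg fun q => hfc.nonneg 0 hz _ _
    linarith
  have hfs : ∀ τ ∈ Ioo 0 T, FS e (f τ) (fun x => boltzQ (1 + a) b (f τ x)) := fun τ hτ =>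
    fs_of hf hpl hτ
  have hPW : PGW (Ph e a : Vec d → Vec d → ℝ) := Ph_PGW ha e
  have hloc : ∀ τ ∈ Ioo 0 T, ∀ y, loc e l (fun y => ∫ w, f τ y w * jb w ^ a) y ≤ η := by
    intro τ hτ y
    have hg := hgb τ ⟨hτ.1.le, hτ.2⟩
    exact heq' _ _ (hfs τ hτ) hg.mass hg.energy hg.entropy y
  have hloc0 : ∀ τ ∈ Ioo 0 T, ∀ y, 0 ≤ loc e l (fun y => ∫ w, f τ y w * jb w ^ a) y := by
    intro τ hτ y
    refine loc_nonneg e l (fun y => integral_nonneg fun w => ?_) y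
    exact mul_nonneg (hfc.nonneg τ ⟨hτ.1.le, hτ.2⟩ _ _) (Real.rpow_nonneg (jb_pos w).le _)
  -- the exponent
  obtain ⟨E, hEdef⟩ : ∃ E : ℝ → Vec d → Vec d → ℝ,
    E = fun τ y u => K₅ * pot e l (Ph e a) (f τ) y u := ⟨_, rfl⟩
  obtain ⟨DE, hDEdef⟩ : ∃ DE : ℝ → Vec d → Vec d → ℝ, DE = fun τ y u =>
    K₅ * dpot e l (Ph e a) (f τ) (fun x => boltzQ (1 + a) b (f τ x)) y u := ⟨_, rfl⟩
  have hEc : ContinuousOn (unc E) (Ico 0 T ×ˢ univ) := by
    have h2 := (pot_cont hfc hPW e hl).const_smul K₅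
    rw [hEdef]
    exact h2
  have hE1 : ∀ τ ∈ Ioo 0 T, ∀ y u, |E τ y u| ≤ 1 := by
    intro τ hτ y u
    have h2 := bar_abs ha ha1 (hfs τ hτ) hl y u
    have h3 := hloc τ hτ y
    simp only [hEdef]
    rw [abs_mul, abs_of_nonneg hK5]
    calc K₅ * |pot e l (Ph e a) (f τ) y u| ≤ K₅ * η :=
          mul_le_mul_of_nonneg_left (h2.trans h3) hK5
      _ ≤ 1 := by linarith
  have hE0 : ∀ τ ∈ Ico 0 T, ∀ y u, |E τ y u| ≤ 1 := abs_closure hT hEc hE1
  -- the error term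
  obtain ⟨X, hXdef⟩ : ∃ X : ℝ → ℝ, X = fun τ => ∫ x, XS a (f τ x) univ ∂(muD d) := ⟨_, rfl⟩
  obtain ⟨m, hmdef⟩ : ∃ m : ℝ → ℝ, m = fun τ => K₅ * (4 * (2 * M) / l + K₄ / 2 * X τ) :=
    ⟨_, rfl⟩
  obtain ⟨hXi, hXb⟩ := hX T f hf hpl h0
  rw [← hXdef] at hXi
  have hXb' : ∀ t ∈ Ico 0 T, ∫ τ in Ioc 0 t, X τ ≤ K₀ * (1 + t) := by
    rw [hXdef]
    exact hXb
  have hXn : ∀ τ ∈ Ioo 0 T, 0 ≤ X τ := by
    intro τ hτ
    rw [hXdef]
    exact integral_nonneg fun x => XS_nonneg (fun v => hfc.nonneg τ ⟨hτ.1.le, hτ.2⟩ x v) _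
  have hmi : IntegrableOn m (Ioo 0 T) := by
    have h2 : IntegrableOn (fun _ : ℝ => 4 * (2 * M) / l) (Ioo 0 T) :=
      integrableOn_const (by simp)
    rw [hmdef]
    exact (h2.add (hXi.const_mul (K₄ / 2))).const_mul K₅
  have hm0 : ∀ τ ∈ Ioo 0 T, 0 ≤ m τ := by
    intro τ hτ
    have := hXn τ hτ
    simp only [hmdef]
    positivity
  have hED : ∀ τ ∈ Ioo 0 T, ∀ y u,
      HasDerivAt (fun r => E r (y + r • u) u) (DE τ (y + τ • u) u) τ := by
    intro τ hτ y u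
    rw [hEdef, hDEdef]
    exact (pot_char hfc hpl hPW hl hτ y u).const_mul K₅
  have hEp : ∀ τ ∈ Ico 0 T, ∀ y u i, E τ (y + Pi.single i 1) u = E τ y u := by
    intro τ hτ y u i
    simp only [hEdef]
    rw [pot_per (hfc.periodic τ hτ) e y u i]
  have hQ : ∀ τ ∈ Ioo 0 T, ∀ y u,
      (∀ w, f τ y w * (1 + nsq w) ^ p * Real.exp (-E τ y w) ≤
        f τ y u * (1 + nsq u) ^ p * Real.exp (-E τ y u)) →
      boltzQ (1 + a) b (f τ y) u ≤ f τ y u * (DE τ y u + m τ) := by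
    intro τ hτ y u htch
    have hτ' : τ ∈ Ico 0 T := ⟨hτ.1.le, hτ.2⟩
    have hT1 : Touch δ₁ a p (f τ y) u := by
      refine touch_of (E := E τ y) (c := K₅ * (16 * η)) ha hδ hδ1 (hfc.nonneg τ hτ' y)
        (by linarith) ?_ htch
      intro w
      have h2 := bar_osc ha ha1 (hfs τ hτ) hl y w u
      have h3 : 0 ≤ min 1 (len (w - u) / jb u) ^ a :=
        Real.rpow_nonneg (le_min zero_le_one (div_nonneg (Real.sqrt_nonneg _) (jb_pos u).le)) _
      simp only [hEdef]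
      rw [← mul_sub, abs_mul, abs_of_nonneg hK5, fmm_eq]
      calc K₅ * |pot e l (Ph e a) (f τ) y w - pot e l (Ph e a) (f τ) y u|
          ≤ K₅ * (16 * (min 1 (len (w - u) / jb u) ^ a * η)) := by
            refine mul_le_mul_of_nonneg_left (h2.trans ?_) hK5
            refine mul_le_mul_of_nonneg_left ?_ (by norm_num)
            exact mul_le_mul_of_nonneg_left (hloc τ hτ y) h3
        _ = K₅ * (16 * η) * min 1 (len (w - u) / jb u) ^ a := by ring
    have h2 := hop (f τ y) (hfc.nice hτ y) (hfc.nonneg τ hτ' y) u hT1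
    have hXP : PlF e (fun x => XS a (f τ x) univ) := by
      refine ⟨?_, ?_, ?_⟩
      · have h3 := XS_cont ha.le ha1 hfc univ
        have h4 : Continuous fun x : Vec d => (τ, x) := by fun_prop
        exact (h3.comp_continuous h4 fun x => ⟨hτ', mem_univ _⟩)
      · intro x i
        have : f τ (x + Pi.single i 1) = f τ x := funext fun v => hfc.periodic τ hτ' x v i
        simp only [this]
      · intro x y hxy
        have : f τ x = f τ y := funext fun v => hpl τ hτ' x y v hxy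
        simp only [this]
    have h5 := bar_dpot (K := K₄) (M' := 2 * M) (X := fun x => XS a (f τ x) univ) ha ha1
      (hfs τ hτ) hl hl1 hXP (fun x => XS_nonneg (hfc.nonneg τ hτ' x) _) hK4
      (fun x v => hfib (f τ x) (hfc.nice hτ x) (hfc.nonneg τ hτ' x) v)
      (jb2_bound hf hτ' (hgb τ hτ')) y u
    have h6 : (∫ w, (u e - w e) * Ph e a u w * f τ y w) ≤
        dpot e l (Ph e a) (f τ) (fun x => boltzQ (1 + a) b (f τ x)) y u +
          (4 * (2 * M) / l + K₄ / 2 * X τ) := by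
      simp only [hXdef]
      linarith
    have h7 : 0 ≤ f τ y u := hfc.nonneg τ hτ' y u
    calc boltzQ (1 + a) b (f τ y) u
        ≤ K₅ * (f τ y u * ∫ w, (u e - w e) * Ph e a u w * f τ y w) := h2
      _ ≤ K₅ * (f τ y u * (dpot e l (Ph e a) (f τ) (fun x => boltzQ (1 + a) b (f τ x)) y u +
          (4 * (2 * M) / l + K₄ / 2 * X τ))) :=
          mul_le_mul_of_nonneg_left (mul_le_mul_of_nonneg_left h6 h7) hK5
      _ = f τ y u * (DE τ y u + m τ) := by
          simp only [hDEdef, hmdef]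
          ring
  have hA₀n : 0 ≤ A₀ := by
    have h2 := hA₀ 0 0
    have h3 : 0 ≤ f 0 0 0 * (1 + nsq (0 : Vec d)) ^ p := by
      have h4 : 0 ≤ nsq (0 : Vec d) := by
        unfold nsq
        exact Finset.sum_nonneg fun i _ => sq_nonneg _
      exact mul_nonneg (hfc.nonneg 0 hz 0 0) (by positivity)
    linarith
  have hA₁ : ∀ y u, f 0 y u * (1 + nsq u) ^ p * Real.exp (-E 0 y u) ≤ A₀ * Real.exp 1 := by
    intro y u
    have h2 := hE0 0 hz y u
    have h3 : -E 0 y u ≤ 1 := by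
      have := neg_abs_le (E 0 y u)
      linarith
    exact mul_le_mul (hA₀ y u) (Real.exp_le_exp.mpr h3) (Real.exp_pos _).le hA₀n
  have key := max_weight hfc p hEc hEp (fun T₁ hT₁ => ⟨1, fun τ hτ y u =>
    hE0 τ ⟨hτ.1, hτ.2.trans_lt hT₁⟩ y u⟩) hED hmi hm0 hQ hA₁ t ht x v
  -- the integral of `m`
  have hint : ∫ τ in Ioc 0 t, m τ ≤ K₆ * (1 + t) := by
    have hsub : Ioc 0 t ⊆ Ioo 0 T := fun r hr => ⟨hr.1, hr.2.trans_lt ht.2⟩
    have hXi' : IntegrableOn X (Ioc 0 t) := hXi.mono_set hsub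
    have h2 : ∫ τ in Ioc 0 t, m τ =
        K₅ * (4 * (2 * M) / l * t + K₄ / 2 * ∫ τ in Ioc 0 t, X τ) := by
      have i1 : Integrable (fun _ : ℝ => 4 * (2 * M) / l) (volume.restrict (Ioc 0 t)) :=
        integrable_const _
      have i2 : Integrable (fun τ => K₄ / 2 * X τ) (volume.restrict (Ioc 0 t)) :=
        hXi'.const_mul _
      have hvol : (volume.restrict (Ioc (0 : ℝ) t)).real univ = t := by
        simp only [Measure.real, Measure.restrict_apply MeasurableSet.univ, univ_inter,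
          Real.volume_Ioc, sub_zero]
        exact ENNReal.toReal_ofReal ht.1
      have i3 : ∫ _ in Ioc (0 : ℝ) t, 4 * (2 * M) / l = 4 * (2 * M) / l * t := by
        rw [integral_const, hvol, smul_eq_mul]
        ring
      simp only [hmdef]
      rw [integral_const_mul, integral_add i1 i2, integral_const_mul, i3]
    have h3 := hXb' t ht
    have hMa : |M| = M := abs_of_nonneg hM0
    rw [h2, hK6def, hMa]
    have h4 : K₅ * (K₄ / 2) * ∫ τ in Ioc 0 t, X τ ≤ K₅ * (K₄ / 2) * (K₀ * (1 + t)) :=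
      mul_le_mul_of_nonneg_left h3 (by positivity)
    have h5 : 0 ≤ K₅ * (4 * (2 * M) / l) := by positivity
    nlinarith [ht.1]
  have hfin : f t x v * (1 + nsq v) ^ p ≤
      A₀ * Real.exp 1 * Real.exp (K₆ * (1 + t)) * Real.exp 1 := by
    have h2 : f t x v * (1 + nsq v) ^ p * Real.exp (-E t x v) ≤
        A₀ * Real.exp 1 * Real.exp (K₆ * (1 + t)) :=
      key.trans (mul_le_mul_of_nonneg_left (Real.exp_le_exp.mpr hint) (by positivity))
    have h3 := mul_le_mul_of_nonneg_right h2 (Real.exp_pos (E t x v)).le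
    have e1 : f t x v * (1 + nsq v) ^ p * Real.exp (-E t x v) * Real.exp (E t x v) =
        f t x v * (1 + nsq v) ^ p := by
      rw [mul_assoc, ← Real.exp_add]
      simp
    rw [e1] at h3
    refine h3.trans (mul_le_mul_of_nonneg_left (Real.exp_le_exp.mpr ?_) (by positivity))
    exact (le_abs_self _).trans (hE0 t ht x v)
  have h8 : A₀ * Real.exp 1 * Real.exp (K₆ * (1 + t)) * Real.exp 1 =
      Real.exp (2 + K₆) * A₀ * Real.exp (K₆ * t) := by
    have : Real.exp (2 + K₆) * A₀ * Real.exp (K₆ * t) =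
        A₀ * (Real.exp (2 + K₆) * Real.exp (K₆ * t)) := by ring
    rw [this, ← Real.exp_add, mul_assoc, mul_assoc, ← Real.exp_add, ← Real.exp_add]
    congr 2
    ring
  rw [h8] at hfin
  refine hfin.trans (mul_le_mul_of_nonneg_left (Real.exp_le_exp.mpr ?_) (by positivity))
  refine mul_le_mul_of_nonneg_right ?_ ht.1
  have := Real.add_one_le_exp (2 + K₆)
  linarith

end Pool.Agent.H48.PL
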