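import Pool.Agent.H48.PL.FinP
import Pool.Agent.H93.CM.Final

/-!
# Module Final: plane symmetric solutions of the Boltzmann equation, very hard potentials
-/

set_option autoImplicit false

open MeasureTheory Set Filter Topology Pool.Agent.H25.Kin Pool.Agent.H82.BK Pool.Agent.H82.CM
open Pool.Agent.H93.CM

namespace Pool.Agent.H48.PL

variable {d : ℕ}

/-- the exponent `α` exists -/
lemma exists_PP {s a : ℝ} (hs : 0 < s) (h1 : 2 * s < a) (h2 : a < 4 * s / (1 + 4 * s)) :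
    ∃ α : ℝ, PP s a α := by
  have h4 : 0 < 1 + 4 * s := by linarith
  have ha : 0 < a := by linarith
  have hk : 0 < kpa s a := by unfold kpa; positivity
  have h3 : kpa s a * (1 + 2 * s) + a < 2 := by
    have e1 : kpa s a * (1 + 2 * s) + a = a * (1 + 4 * s) / (2 * s) := by
      unfold kpa; field_simp; ring
    rw [e1, div_lt_iff₀ (by linarith)]
    rw [lt_div_iff₀ h4] at h2
    linarith
  have h5 : ∃ η > 0, kpa s a * (1 + (2 * s + η)) + a < 2 := by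
    refine ⟨(2 - (kpa s a * (1 + 2 * s) + a)) / (2 * kpa s a), by
      apply div_pos (by linarith) (by linarith), ?_⟩
    have e2 : kpa s a * (1 + (2 * s + (2 - (kpa s a * (1 + 2 * s) + a)) / (2 * kpa s a))) + a =
        (kpa s a * (1 + 2 * s) + a) + (2 - (kpa s a * (1 + 2 * s) + a)) / 2 := by
      field_simp; ring
    rw [e2]; linarith
  obtain ⟨η, hη, h6⟩ := h5
  refine ⟨min a (2 * s + η), hs, lt_min h1 (by linarith), min_le_left _ _, ?_⟩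
  have h7 : kpa s a * (1 + min a (2 * s + η)) ≤ kpa s a * (1 + (2 * s + η)) :=
    mul_le_mul_of_nonneg_left (by linarith [min_le_right a (2 * s + η)]) hk.le
  linarith

/-- the region of exponents -/
lemma region {s γ : ℝ} (hs : 0 < s) (h1 : 1 + 2 * s < γ) (h2 : γ < 1 + 4 * s / (1 + 4 * s)) :
    s < 1 / 4 ∧ γ + 2 * s < 2 := by
  have h4 : 0 < 1 + 4 * s := by linarith
  have h3 : 4 * s / (1 + 4 * s) = 1 - 1 / (1 + 4 * s) := by field_simp; ring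
  have h5 : 2 * s < 4 * s / (1 + 4 * s) := by linarith
  rw [lt_div_iff₀ h4] at h5
  have h6 : s < 1 / 4 := by nlinarith
  refine ⟨h6, ?_⟩
  have h7 : 4 * s / (1 + 4 * s) ≤ 1 - 2 * s := by
    rw [div_le_iff₀ h4]; nlinarith
  linarith

/-- the estimate -/
theorem planar_quant {s γ : ℝ} (hd : 2 ≤ d) (hs : 0 < s) (h1 : 1 + 2 * s < γ)
    (h2 : γ < 1 + 4 * s / (1 + 4 * s)) {b : ℝ → ℝ} (hb : IsKernel d s b) (e : Fin d) {p : ℕ}
    (hp : (d : ℝ) + γ + 4 ≤ 2 * p) (M : ℝ) :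
    ∃ K : ℝ, 0 ≤ K ∧ ∀ (T : ℝ) (f : ℝ → Vec d → Vec d → ℝ), IsBoltzmannSol γ b T f →
      Planar e T f → GB M (f 0) → ∀ A₀ : ℝ, (∀ x v, f 0 x v * (1 + nsq v) ^ p ≤ A₀) →
      ∀ t ∈ Ico 0 T, ∀ x v, f t x v * (1 + nsq v) ^ p ≤ K * A₀ * Real.exp (K * t) := by
  obtain ⟨a, rfl⟩ : ∃ a, γ = 1 + a := ⟨γ - 1, by ring⟩
  obtain ⟨hs4, hg⟩ := region hs h1 h2
  obtain ⟨α, P⟩ := exists_PP hs (by linarith : 2 * s < a) (by linarith)
  obtain ⟨C, Ca, cb, HL⟩ := exists_hypL hd hs (by linarith : s < 1) (by linarith) hg.le hb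
  exact planar_bound HL P e hp M

/-- every plane symmetric classical solution has rapid decay up to every finite time -/
theorem planar_rapid {s γ : ℝ} (hd : 2 ≤ d) (hs : 0 < s) (h1 : 1 + 2 * s < γ)
    (h2 : γ < 1 + 4 * s / (1 + 4 * s)) {b : ℝ → ℝ} (hb : IsKernel d s b) (e : Fin d) {T : ℝ}
    {f : ℝ → Vec d → Vec d → ℝ} (hf : IsBoltzmannSol γ b T f) (hpl : Planar e T f) :
    RapidUpTo T f := by
  intro N
  obtain ⟨hs4, hg⟩ := region hs h1 h2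
  rcases le_or_gt T 0 with hT | hT
  · exact ⟨0, fun t ht => absurd (ht.1.trans_lt ht.2) (not_lt.2 hT)⟩
  set M : ℝ := max (∫ q, f 0 q.2 q.1 ∂(nu d)) (max (∫ q, f 0 q.2 q.1 * nsq q.1 ∂(nu d))
    (∫ q, f 0 q.2 q.1 * Real.log (f 0 q.2 q.1) ∂(nu d))) with hM
  have hG : GB M (f 0) := ⟨le_max_left _ _, (le_max_left _ _).trans (le_max_right _ _),
    (le_max_right _ _).trans (le_max_right _ _)⟩
  obtain ⟨p, hp⟩ := exists_nat_ge (((d : ℝ) + γ + 4) / 2 + N)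
  have hp1 : (d : ℝ) + γ + 4 ≤ 2 * p := by
    have : (0 : ℝ) ≤ N := Nat.cast_nonneg N
    linarith
  have hpN : N ≤ p := by
    have h3 : (0 : ℝ) ≤ d := Nat.cast_nonneg d
    have h4 : (N : ℝ) ≤ p := by linarith
    exact_mod_cast h4
  obtain ⟨K, hK0, hK⟩ := planar_quant hd hs h1 h2 hb e hp1 M
  -- decay at time zero
  obtain ⟨C₀, hC₀⟩ := hf.decay 0 hT (2 * p)
  have hA : ∀ x v, f 0 x v * (1 + nsq v) ^ p ≤ (d + 1) ^ p * C₀ := by
    intro x v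
    have h5 : 0 ≤ f 0 x v := hf.nonneg 0 ⟨le_rfl, hT⟩ x v
    have h6 : (1 + nsq v) ^ p ≤ ((d + 1) * (1 + ‖v‖) ^ 2) ^ p :=
      pow_le_pow_left₀ (by linarith [sq_nonneg' v]) (one_add_nsq_le v) p
    have h7 : (1 + ‖v‖) ^ (2 * p) * f 0 x v ≤ C₀ := hC₀ 0 ⟨le_rfl, le_rfl⟩ x v
    calc f 0 x v * (1 + nsq v) ^ p ≤ f 0 x v * ((d + 1) * (1 + ‖v‖) ^ 2) ^ p :=
          mul_le_mul_of_nonneg_left h6 h5
      _ = (d + 1) ^ p * ((1 + ‖v‖) ^ (2 * p) * f 0 x v) := by rw [mul_pow, pow_mul]; ring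
      _ ≤ (d + 1) ^ p * C₀ := mul_le_mul_of_nonneg_left h7 (by positivity)
  set A₀ : ℝ := (d + 1) ^ p * C₀ with hA₀
  have hA0 : 0 ≤ A₀ := by
    refine le_trans ?_ (hA 0 0)
    exact mul_nonneg (hf.nonneg 0 ⟨le_rfl, hT⟩ 0 0) (pow_nonneg (by linarith [sq_nonneg' (0 : Vec d)]) p)
  refine ⟨2 ^ N * (K * A₀ * Real.exp (K * T)), fun t ht x v => ?_⟩
  have h8 := hK T f hf hpl hG A₀ hA t ht x v
  have h9 : Real.exp (K * t) ≤ Real.exp (K * T) :=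
    Real.exp_le_exp.2 (mul_le_mul_of_nonneg_left ht.2.le hK0)
  have h10 : f t x v * (1 + nsq v) ^ p ≤ K * A₀ * Real.exp (K * T) :=
    h8.trans (mul_le_mul_of_nonneg_left h9 (mul_nonneg hK0 hA0))
  have h11 : 0 ≤ f t x v := hf.nonneg t ht x v
  have h12 : (1 + ‖v‖) ^ N ≤ 2 ^ N * (1 + nsq v) ^ p := by
    have h13 : (1 : ℝ) ≤ 1 + ‖v‖ := by linarith [norm_nonneg v]
    calc (1 + ‖v‖) ^ N ≤ ((1 + ‖v‖) ^ 2) ^ N := by
          apply pow_le_pow_left₀ (by linarith)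
          nlinarith
      _ ≤ (2 * (1 + nsq v)) ^ N := pow_le_pow_left₀ (by positivity) (norm_le_nsq v) N
      _ = 2 ^ N * (1 + nsq v) ^ N := mul_pow _ _ _
      _ ≤ 2 ^ N * (1 + nsq v) ^ p := by
          apply mul_le_mul_of_nonneg_left _ (by positivity)
          exact pow_le_pow_right₀ (by linarith [sq_nonneg' v]) hpN
  calc (1 + ‖v‖) ^ N * f t x v ≤ (2 ^ N * (1 + nsq v) ^ p) * f t x v :=
        mul_le_mul_of_nonneg_right h12 h11
    _ = 2 ^ N * (f t x v * (1 + nsq v) ^ p) := by ring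
    _ ≤ 2 ^ N * (K * A₀ * Real.exp (K * T)) := mul_le_mul_of_nonneg_left h10 (by positivity)

/-- the main theorem -/
theorem planar_main {s γ : ℝ} (hd : 2 ≤ d) (hs : 0 < s) (h1 : 1 + 2 * s < γ)
    (h2 : γ < 1 + 4 * s / (1 + 4 * s)) {b : ℝ → ℝ} (hb : IsKernel d s b) (e : Fin d) {T : ℝ}
    {f : ℝ → Vec d → Vec d → ℝ} (hf : IsBoltzmannSol γ b T f) (hpl : Planar e T f) :
    RapidUpTo T f ∧ HydroUpper T f ∧ ((∀ x, 0 < ∫ v, f 0 x v) → HydroUpTo T f) := by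
  obtain ⟨hs4, hg⟩ := region hs h1 h2
  have hR := planar_rapid hd hs h1 h2 hb e hf hpl
  have h := boltz_equiv hd ⟨hs, by linarith⟩ (by linarith) hg.le hb (by norm_num : (0 : ℝ) < 2) hf
  exact ⟨hR, h.2.1 hR, h.2.2.1 hR⟩

end Pool.Agent.H48.PL
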