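import Pool.Agent.H25.Kin.BMain
import Pool.Agent.H25.Kin.Per

/-!
# Plane symmetric solutions of the non-cutoff Boltzmann equation: definitions (MP_c15324_an)

`γ = 1 + a` throughout. `e : Fin d` is the coordinate on which the solution depends. Paper proof:
/team-store/h48_planar_paper.md
-/

set_option autoImplicit false

open MeasureTheory Set Filter Topology Pool.Agent.H25.Kin

namespace Pool.Agent.H48.PL

variable {d : ℕ}

/-- `⟨v⟩ = (1+|v|²)^(1/2)` -/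
noncomputable def jb (v : Vec d) : ℝ := Real.sqrt (1 + nsq v)

/-- `R(v,w) = (2+|v|²+|w|²)^(1/2)`, conserved in collisions -/
noncomputable def RR (v w : Vec d) : ℝ := Real.sqrt (2 + nsq v + nsq w)

/-- `sgn(x) |x|^α` -/
noncomputable def sp (α x : ℝ) : ℝ := if x < 0 then -((-x) ^ α) else x ^ α

/-- the density `g(v) g(w) |v-w|^γ R^a`, `γ = 1 + a` -/
noncomputable def dens (a : ℝ) (g : Vec d → ℝ) (p : Vec d × Vec d) : ℝ :=
  g p.1 * g p.2 * (len (p.1 - p.2) ^ (1 + a) * RR p.1 p.2 ^ a)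

/-- `X_A(g) = ∫∫_A g(v) g(w) |v-w|^γ R^a` -/
noncomputable def XS (a : ℝ) (g : Vec d → ℝ) (A : Set (Vec d × Vec d)) : ℝ := ∫ p in A, dens a g p

/-- pairs of comparable velocities -/
def CmpS (δ : ℝ) : Set (Vec d × Vec d) := {p | δ * RR p.1 p.2 ≤ jb p.1 ∧ δ * RR p.1 p.2 ≤ jb p.2}

/-- transversal pairs: `|V_e| ≥ ε R^(-κ) |V|` -/
def NtS (e : Fin d) (ε κ : ℝ) : Set (Vec d × Vec d) :=
  {p | ε * RR p.1 p.2 ^ (-κ) * len (p.1 - p.2) ≤ |p.1 e - p.2 e|}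

/-- `κ = a/(2s)` -/
noncomputable def kpa (s a : ℝ) : ℝ := a / (2 * s)

/-- `q = κ(1+α) + a` -/
noncomputable def qq (s a α : ℝ) : ℝ := kpa s a * (1 + α) + a

/-- `Q = κ(1+α) + 2a - α` -/
noncomputable def QQ (s a α : ℝ) : ℝ := kpa s a * (1 + α) + 2 * a - α

/-- the conditions on the exponents -/
structure PP (s a α : ℝ) : Prop where
  hs : 0 < s
  hα : 2 * s < α
  hαa : α ≤ a
  hq : kpa s a * (1 + α) + a < 2

/-- the antisymmetric weight `min(⟨v⟩,⟨w⟩)^Q sgn(v_e-w_e)|v_e-w_e|^α` -/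
noncomputable def Th (e : Fin d) (s a α : ℝ) (v w : Vec d) : ℝ :=
  min (jb v) (jb w) ^ QQ s a α * sp α (v e - w e)

/-- the weight `min(1,⟨w⟩/⟨v⟩)² sgn(v_e-w_e)|v_e-w_e|^a` of the barrier -/
noncomputable def Ph (e : Fin d) (a : ℝ) (v w : Vec d) : ℝ :=
  min 1 (jb w / jb v) ^ 2 * sp a (v e - w e)

/-- the solution depends on `x` only through `x_e` -/
def Planar (e : Fin d) (T : ℝ) (f : ℝ → Vec d → Vec d → ℝ) : Prop :=
  ∀ t ∈ Ico 0 T, ∀ x y v, x e = y e → f t x v = f t y v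

/-- the kernel `sgn(z)/2 - z/l` -/
noncomputable def kl (l z : ℝ) : ℝ := (if z < 0 then -(1 / 2) else 1 / 2) - z / l

/-- local integral on the line `x + ℝ e` -/
noncomputable def loc (e : Fin d) (l : ℝ) (A : Vec d → ℝ) (x : Vec d) : ℝ :=
  ∫ z in Ioo (-(l / 2)) (l / 2), A (x - Pi.single e z)

/-- the potential `∫_{|z|<l/2} k(z) ∫ Φ(v,w) F(x - z e, w) dw dz` -/
noncomputable def pot (e : Fin d) (l : ℝ) (Φ : Vec d → Vec d → ℝ) (F : Vec d → Vec d → ℝ)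
    (x v : Vec d) : ℝ :=
  ∫ z in Ioo (-(l / 2)) (l / 2), kl l z * ∫ w, Φ v w * F (x - Pi.single e z) w

/-- the derivative of the potential along the characteristics; `G` is the source (the collision term) -/
noncomputable def dpot (e : Fin d) (l : ℝ) (Φ : Vec d → Vec d → ℝ) (F G : Vec d → Vec d → ℝ)
    (x v : Vec d) : ℝ :=
  (∫ w, (v e - w e) * Φ v w * F x w) -
    (1 / l) * (∫ z in Ioo (-(l / 2)) (l / 2), ∫ w, (v e - w e) * Φ v w * F (x - Pi.single e z) w) +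
    ∫ z in Ioo (-(l / 2)) (l / 2), kl l z * ∫ w, Φ v w * G (x - Pi.single e z) w

/-- the angular integral of the increment of `φ` in a collision -/
noncomputable def ainc (γ : ℝ) (b : ℝ → ℝ) (ε : ℝ) (φ : Vec d → ℝ) (v w : Vec d) : ℝ :=
  ∫ σ, kerB γ b ε v w σ * (φ (post v w σ) + φ (post' v w σ) - φ v - φ w) ∂(surf d)

/-- rapid decay in `v`, uniform in `x` -/
def RX (F : Vec d → Vec d → ℝ) : Prop := ∀ N : ℕ, ∃ C, ∀ x v, (1 + ‖v‖) ^ N * |F x v| ≤ C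

/-- continuous weight of polynomial growth -/
structure PGW (Φ : Vec d → Vec d → ℝ) : Prop where
  cont : Continuous fun p : Vec d × Vec d => Φ p.1 p.2
  le : ∃ (N : ℕ) (C : ℝ), 0 ≤ C ∧ ∀ v w, |Φ v w| ≤ C * ((1 + ‖v‖) ^ N * (1 + ‖w‖) ^ N)

/-- a time slice of a planar solution with its source -/
structure FS (e : Fin d) (F G : Vec d → Vec d → ℝ) : Prop where
  nonneg : ∀ x v, 0 ≤ F x v
  perF : ∀ x v i, F (x + Pi.single i 1) v = F x v
  perG : ∀ x v i, G (x + Pi.single i 1) v = G x v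
  plF : ∀ x y v, x e = y e → F x v = F y v
  plG : ∀ x y v, x e = y e → G x v = G y v
  contF : Continuous fun p : Vec d × Vec d => F p.1 p.2
  contG : Continuous fun p : Vec d × Vec d => G p.1 p.2
  decF : RX F
  decG : RX G

/-- functions with a derivative along the characteristics -/
structure CSol (T : ℝ) (S h : ℝ → Vec d → Vec d → ℝ) : Prop where
  per : ∀ t ∈ Ico 0 T, ∀ x v i, h t (x + Pi.single i 1) v = h t x v
  perS : ∀ t ∈ Ioo 0 T, ∀ x v i, S t (x + Pi.single i 1) v = S t x v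
  cont : ContinuousOn (unc h) (Ico 0 T ×ˢ univ)
  contS : ContinuousOn (unc S) (Ioo 0 T ×ˢ univ)
  dec : ∀ T₁ < T, ∃ C, ∀ t ∈ Icc 0 T₁, ∀ x v, |h t x v| ≤ C * wt d v
  decS : ∀ T₀ > 0, ∀ T₁ < T, ∃ C, ∀ t ∈ Icc T₀ T₁, ∀ x v, |S t x v| ≤ C * wt d v
  char : ∀ t ∈ Ioo 0 T, ∀ x v, HasDerivAt (fun r => h r (x + r • v) v) (S t (x + t • v) v) t

/-- `m(u) = min(1, |u-v|²/⟨v⟩²)^(a/2)` -/
noncomputable def mm (a : ℝ) (v u : Vec d) : ℝ := (min 1 (nsq (u - v) / (1 + nsq v))) ^ (a / 2)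

/-- the perturbed touching condition -/
def Touch (δ a : ℝ) (p : ℕ) (g : Vec d → ℝ) (v : Vec d) : Prop :=
  ∀ u, g u * (1 + nsq u) ^ p ≤ g v * (1 + nsq v) ^ p * (1 + δ * mm a v u)

/-- the barrier through `(v, c)` -/
noncomputable def Tb (p : ℕ) (c : ℝ) (v u : Vec d) : ℝ := c * ((1 + nsq v) / (1 + nsq u)) ^ p

end Pool.Agent.H48.PL
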