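import Pool.Agent.H48.PL.PotC

/-!
# Module PotD: the derivative of the potential along characteristics (formula (D))

Planar `f`: for `t ∈ (0,T)` the derivative of `f t · w` in a direction `u` is `u e` times the derivative `D(t,y,w) := fderiv ℝ (unc f) (t,y,w) (0, Pi.single e 1, 0)` (the function
`y ↦ f t y w` depends on `y e` only). So `d/dr f r (x + r v - z e_e) w = fderiv (unc f) (1, v, 0) = fderiv (unc f) (1, w, 0) + fderiv (unc f) (0, v - w, 0) = Q r y w + (v e - w e) D(r,y,w)`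
(`hf.eqn`), bounded by `C (1+‖v‖) ((1+‖w‖)^N)⁻¹` locally uniformly in `r` (`decay_deriv`, `Q_le`).
Differentiate under `∫ z, k z * ∫ w, Φ v w * f ..` (`hasDerivAt_integral_of_dominated_loc_of_deriv_le` twice, or once on the product of `(-l/2,l/2)` and `ℝ^d`):
derivative `= ∫ z, k z ∫ w, Φ Q + ∫ z, k z ∫ w, (v e - w e) Φ v w D(t, y_z, w)`, `y_z = x + tv - z e_e`. In the last term exchange the integrals (Fubini) and use for every `w`
`kl_ibp` with `F(r) = f t (y with e-coordinate r) w` (`F' = D`, continuous), `ξ = (x+tv) e`: `= ∫ w, (v e - w e) Φ (f t (x+tv) w - (1/l) ∫ z, f t (y_z) w)`.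
-/

set_option autoImplicit false

open MeasureTheory Set Filter Topology Pool.Agent.H25.Kin

namespace Pool.Agent.H48.PL

variable {d : ℕ} {T l : ℝ} {Q f : ℝ → Vec d → Vec d → ℝ} {Φ : Vec d → Vec d → ℝ}

private lemma PotD_single (e : Fin d) (z : ℝ) : (Pi.single e z : Vec d) = z • Pi.single e 1 := by
  funext i
  by_cases h : i = e
  · subst h; simp
  · simp [h]

private lemma PotD_dir (hf : IsClassicalSol T Q f) {t : ℝ} (ht : t ∈ Ioo 0 T) (x u w : Vec d)
    (s : ℝ) : HasDerivAt (fun s : ℝ => f t (x + s • u) w)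
      (fderiv ℝ (unc f) (t, x + s • u, w) (0, u, 0)) s := by
  have h1 : HasFDerivAt (unc f) (fderiv ℝ (unc f) (t, x + s • u, w)) (t, x + s • u, w) :=
    ((hf.cda ht (x + s • u) w).differentiableAt (by norm_num)).hasFDerivAt
  have h2 : HasDerivAt (fun s : ℝ => (t, x + s • u, w)) (0, u, 0) s := by
    refine (hasDerivAt_const s t).prodMk (HasDerivAt.prodMk ?_ (hasDerivAt_const s w))
    have := ((hasDerivAt_id s).smul_const u).const_add x
    simpa using this
  exact h1.comp_hasDerivAt s h2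

/-- the derivative of a planar solution in direction `(1, v, 0)` -/
lemma planar_deriv (hf : IsClassicalSol T Q f) {e : Fin d} (hpl : Planar e T f) {t : ℝ}
    (ht : t ∈ Ioo 0 T) (x v w : Vec d) :
    fderiv ℝ (unc f) (t, x, w) (1, v, 0) =
      Q t x w + (v e - w e) * fderiv ℝ (unc f) (t, x, w) (0, Pi.single e 1, 0) := by
  have e1 : ((1 : ℝ), v, (0 : Vec d)) = (1, w, 0) + (0, v - w, 0) := by simp
  rw [e1, map_add, hf.eqn t ht x w]
  congr 1
  set u := v - w with hu
  have hue : v e - w e = u e := by simp [hu]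
  rw [hue]
  have h1 := PotD_dir hf ht x u w 0
  have h2 := PotD_dir hf ht x (u e • Pi.single e 1) w 0
  have h3 : (fun s : ℝ => f t (x + s • u) w) = fun s : ℝ => f t (x + s • (u e • Pi.single e 1)) w := by
    funext s
    refine hpl t ⟨ht.1.le, ht.2⟩ _ _ _ ?_
    simp
  rw [h3] at h1
  have h4 := h1.unique h2
  simp only [zero_smul, add_zero] at h4
  rw [h4]
  have e2 : ((0 : ℝ), u e • (Pi.single e 1 : Vec d), (0 : Vec d)) =
      u e • ((0 : ℝ), (Pi.single e 1 : Vec d), (0 : Vec d)) := by simp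
  rw [e2, map_smul, smul_eq_mul]

private lemma PotD_int {l : ℝ} {G : ℝ × Vec d → ℝ} {C : ℝ}
    (hm : AEStronglyMeasurable G ((volume.restrict (Ioo (-(l / 2)) (l / 2))).prod volume))
    (hb : ∀ q : ℝ × Vec d, q.1 ∈ Ioo (-(l / 2)) (l / 2) → |G q| ≤ C * wt d q.2) :
    Integrable G ((volume.restrict (Ioo (-(l / 2)) (l / 2))).prod volume) := by
  have h := (integrable_wt (d := d)).comp_snd (volume.restrict (Ioo (-(l / 2)) (l / 2)))
  refine (h.const_mul C).mono' hm ?_
  have h2 : ∀ᵐ q : ℝ × Vec d ∂((volume.restrict (Ioo (-(l / 2)) (l / 2))).prod volume),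
      q.1 ∈ Ioo (-(l / 2)) (l / 2) :=
    Measure.quasiMeasurePreserving_fst.ae (ae_restrict_mem measurableSet_Ioo)
  filter_upwards [h2] with q hq
  exact hb q hq

private lemma PotD_char (hf : IsClassicalSol T Q f) {t : ℝ} (ht : t ∈ Ioo 0 T) (x v w : Vec d) :
    HasDerivAt (fun s => f s (x + s • v) w) (fderiv ℝ (unc f) (t, x + t • v, w) (1, v, 0)) t := by
  have h1 : HasFDerivAt (unc f) (fderiv ℝ (unc f) (t, x + t • v, w)) (t, x + t • v, w) :=
    ((hf.cda ht (x + t • v) w).differentiableAt (by norm_num)).hasFDerivAt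
  have h2 : HasDerivAt (fun s : ℝ => (s, x + s • v, w)) (1, v, 0) t := by
    refine (hasDerivAt_id t).prodMk (HasDerivAt.prodMk ?_ (hasDerivAt_const t w))
    have := ((hasDerivAt_id t).smul_const v).const_add x
    simpa using this
  exact h1.comp_hasDerivAt t h2

private lemma PotD_cl (e : Fin d) (y : Vec d) :
    Continuous fun q : ℝ × Vec d => (y - Pi.single e q.1, q.2) := by
  have h : (fun q : ℝ × Vec d => (y - Pi.single e q.1, q.2)) =
      fun q : ℝ × Vec d => (y - q.1 • (Pi.single e 1 : Vec d), q.2) := by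
    funext q
    rw [PotD_single e q.1]
  rw [h]
  fun_prop

theorem pot_char (hf : IsClassicalSol T Q f) {e : Fin d} (hpl : Planar e T f) (hΦ : PGW Φ)
    (hl : 0 < l) {t : ℝ} (ht : t ∈ Ioo 0 T) (x v : Vec d) :
    HasDerivAt (fun r => pot e l Φ (f r) (x + r • v) v) (dpot e l Φ (f t) (Q t) (x + t • v) v) t := by
  obtain ⟨N, K, hK0, hK⟩ := hΦ.le
  set P := K * (1 + ‖v‖) ^ N with hP
  have hv0 := w_pos v
  have hP0 : 0 ≤ P := by positivity
  have hΦw : ∀ w, |Φ v w| ≤ P * (1 + ‖w‖) ^ N := fun w => by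
    refine (hK v w).trans (le_of_eq ?_)
    rw [hP]; ring
  have hΦc : Continuous fun w => Φ v w := hΦ.cont.comp (by fun_prop : Continuous fun w => (v, w))
  have hT1 : (t + T) / 2 < T := by linarith [ht.2]
  have hT0 : 0 < t / 2 := by linarith [ht.1]
  obtain ⟨C, hC0, hC⟩ := hf.f_le hT1 (N + 1 + (d + 1))
  obtain ⟨C', hC'⟩ := hf.decay_deriv (t / 2) hT0 _ hT1 (N + 1 + (d + 1))
  have hnhds : Ioo (t / 2) ((t + T) / 2) ∈ 𝓝 t :=
    Ioo_mem_nhds (by linarith [ht.1]) (by linarith [ht.2])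
  have hsub : ∀ r ∈ Ioo (t / 2) ((t + T) / 2), r ∈ Ioo 0 T := fun r hr =>
    ⟨by linarith [hr.1, ht.1], by linarith [hr.2, ht.2]⟩
  have htI : t ∈ Icc (t / 2) ((t + T) / 2) := ⟨by linarith [ht.1], by linarith [ht.2]⟩
  have ht0 : t ∈ Ico 0 T := ⟨ht.1.le, ht.2⟩
  have hE : ∀ r ∈ Icc (t / 2) ((t + T) / 2), ∀ y w, ‖fderiv ℝ (unc f) (r, y, w)‖ ≤
      |C'| * ((1 + ‖w‖) ^ (N + 1 + (d + 1)))⁻¹ := by
    intro r hr y w
    rw [← div_eq_mul_inv, le_div_iff₀ (pow_pos (w_pos w) _), mul_comm]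
    have h1 := hC' r hr y w
    have h2 := norm_nonneg (fderiv ℝ (fderiv ℝ (unc f)) (r, y, w))
    refine le_trans ?_ (h1.trans (le_abs_self C'))
    have := w_pos w
    gcongr
    linarith
  have hf' : ∀ r ∈ Icc (t / 2) ((t + T) / 2), ∀ y w, |f r y w| ≤
      C * ((1 + ‖w‖) ^ (N + 1 + (d + 1)))⁻¹ := fun r hr y w =>
    hC r ⟨by linarith [hr.1, ht.1], hr.2⟩ y w
  -- weights
  have hwt1 : ∀ w : Vec d, (1 + ‖w‖) ^ (N + 1) * ((1 + ‖w‖) ^ (N + 1 + (d + 1)))⁻¹ = wt d w := by
    intro w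
    have := wt_bound (d := d) (a := 1) (b := 1) zero_le_one zero_le_one w (N + 1)
    simpa using this
  have hwt0 : ∀ w : Vec d, (1 + ‖w‖) ^ N * ((1 + ‖w‖) ^ (N + 1 + (d + 1)))⁻¹ ≤ wt d w := by
    intro w
    rw [← hwt1 w]
    have h2 := w_pos w
    exact mul_le_mul_of_nonneg_right (pow_le_pow_right₀ (one_le_w w) (Nat.le_succ N))
      (inv_nonneg.2 (pow_nonneg h2.le _))
  have hve : ∀ w : Vec d, |v e - w e| ≤ (1 + ‖v‖) * (1 + ‖w‖) := by
    intro w
    have h1 := norm_le_pi_norm v e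
    have h2 := norm_le_pi_norm w e
    rw [Real.norm_eq_abs] at h1 h2
    have h3 := norm_nonneg v
    have h4 := norm_nonneg w
    have h5 := abs_sub (v e) (w e)
    nlinarith [mul_nonneg h3 h4]
  have hkl : ∀ q : ℝ × Vec d, q.1 ∈ Ioo (-(l / 2)) (l / 2) → |kl l q.1| ≤ 1 / 2 := fun q hq =>
    kl_abs hl hq
  have hkm : Measurable fun q : ℝ × Vec d => kl l q.1 := (kl_meas l).comp measurable_fst
  set μ : Measure (ℝ × Vec d) := (volume.restrict (Ioo (-(l / 2)) (l / 2))).prod volume with hμ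
  set D : ℝ → Vec d → Vec d → ℝ := fun r y w =>
    fderiv ℝ (unc f) (r, y, w) (0, Pi.single e 1, 0) with hD
  -- bounds of the derivatives
  have hD1 : ∀ r ∈ Icc (t / 2) ((t + T) / 2), ∀ y w, |fderiv ℝ (unc f) (r, y, w) (1, v, 0)| ≤
      |C'| * ((1 + ‖w‖) ^ (N + 1 + (d + 1)))⁻¹ * (1 + ‖v‖) := by
    intro r hr y w
    have a1 := (fderiv ℝ (unc f) (r, y, w)).le_opNorm ((1 : ℝ), v, (0 : Vec d))
    have a2 : ‖((1 : ℝ), v, (0 : Vec d))‖ ≤ 1 + ‖v‖ := by
      rw [Prod.norm_def, Prod.norm_def]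
      simp only [norm_one, norm_zero]
      have := norm_nonneg v
      refine max_le (by linarith) (max_le (by linarith) (by linarith))
    rw [Real.norm_eq_abs] at a1
    refine a1.trans ?_
    have a3 := hE r hr y w
    gcongr
  have hDb : ∀ y w, |D t y w| ≤ |C'| * ((1 + ‖w‖) ^ (N + 1 + (d + 1)))⁻¹ := by
    intro y w
    have a1 := (fderiv ℝ (unc f) (t, y, w)).le_opNorm ((0 : ℝ), (Pi.single e 1 : Vec d), (0 : Vec d))
    have a2 : ‖((0 : ℝ), (Pi.single e 1 : Vec d), (0 : Vec d))‖ ≤ 1 := by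
      rw [Prod.norm_def, Prod.norm_def]
      have := Pi.norm_single (G := fun _ : Fin d => ℝ) (i := e) (1 : ℝ)
      simp only [norm_zero, this, norm_one]
      refine max_le (by norm_num) (max_le le_rfl (by norm_num))
    rw [Real.norm_eq_abs] at a1
    refine a1.trans ?_
    have a3 := hE t htI y w
    calc ‖fderiv ℝ (unc f) (t, y, w)‖ * ‖((0 : ℝ), (Pi.single e 1 : Vec d), (0 : Vec d))‖
        ≤ (|C'| * ((1 + ‖w‖) ^ (N + 1 + (d + 1)))⁻¹) * 1 := by gcongr
      _ = _ := mul_one _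
  -- continuity
  have cf : ∀ r ∈ Ico 0 T, ∀ y : Vec d, Continuous fun q : ℝ × Vec d => f r (y - Pi.single e q.1) q.2 :=
    fun r hr y => (hf.cont_slice hr).comp (PotD_cl e y)
  have cΦ : Continuous fun q : ℝ × Vec d => Φ v q.2 := hΦc.comp continuous_snd
  have cQ : ∀ y : Vec d, Continuous fun q : ℝ × Vec d => Q t (y - Pi.single e q.1) q.2 :=
    fun y => (hf.cont_Q ht).comp (PotD_cl e y)
  have cE : ∀ r ∈ Ioo 0 T, ∀ y : Vec d, Continuous fun q : ℝ × Vec d =>
      fderiv ℝ (unc f) (r, y - Pi.single e q.1, q.2) := by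
    intro r hr y
    have h1 : Continuous fun q : ℝ × Vec d => (r, y - Pi.single e q.1, q.2) := by
      have := PotD_cl e y
      exact continuous_const.prodMk this
    exact hf.cont_fderiv.comp_continuous h1 fun q => ⟨hr, mem_univ _⟩
  have cD : ∀ y : Vec d, Continuous fun q : ℝ × Vec d => D t (y - Pi.single e q.1) q.2 := by
    intro y
    exact (cE t ht y).clm_apply continuous_const
  have cve : Continuous fun q : ℝ × Vec d => v e - q.2 e := by fun_prop
  set y0 : Vec d := x + t • v with hy0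
  set F : ℝ → ℝ × Vec d → ℝ := fun r q =>
    kl l q.1 * (Φ v q.2 * f r (x + r • v - Pi.single e q.1) q.2) with hF
  set F' : ℝ → ℝ × Vec d → ℝ := fun r q =>
    kl l q.1 * (Φ v q.2 * fderiv ℝ (unc f) (r, x + r • v - Pi.single e q.1, q.2) (1, v, 0)) with hF'
  have hFm : ∀ r ∈ Ico 0 T, AEStronglyMeasurable (F r) μ := fun r hr =>
    hkm.aestronglyMeasurable.mul (cΦ.mul (cf r hr _)).aestronglyMeasurable
  have hFi : ∀ r ∈ Icc (t / 2) ((t + T) / 2), Integrable (F r) μ := by
    intro r hr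
    have hr0 : r ∈ Ico 0 T := ⟨by linarith [hr.1, ht.1], by linarith [hr.2, ht.2]⟩
    refine PotD_int (C := 1 / 2 * (P * C)) (hFm r hr0) fun q hq => ?_
    rw [hF]
    simp only
    rw [abs_mul, abs_mul]
    have h1 := hkl q hq
    have h2 := hΦw q.2
    have h3 := hf' r hr (x + r • v - Pi.single e q.1) q.2
    have h4 := hwt0 q.2
    have h5 := w_pos q.2
    calc |kl l q.1| * (|Φ v q.2| * |f r (x + r • v - Pi.single e q.1) q.2|)
        ≤ 1 / 2 * ((P * (1 + ‖q.2‖) ^ N) * (C * ((1 + ‖q.2‖) ^ (N + 1 + (d + 1)))⁻¹)) := by gcongr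
      _ = 1 / 2 * (P * C) * ((1 + ‖q.2‖) ^ N * ((1 + ‖q.2‖) ^ (N + 1 + (d + 1)))⁻¹) := by ring
      _ ≤ 1 / 2 * (P * C) * wt d q.2 := by gcongr
  have main := (hasDerivAt_integral_of_dominated_loc_of_deriv_le (μ := μ)
    (F := F) (F' := F') (bound := fun q => (1 / 2 * (P * (|C'| * (1 + ‖v‖)))) * wt d q.2) (x₀ := t)
    hnhds ?_ ?_ ?_ ?_ ?_ ?_).2
  rotate_left
  · filter_upwards [hnhds] with r hr
    have := hsub r hr
    exact hFm r ⟨this.1.le, this.2⟩
  · exact hFi t htI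
  · exact hkm.aestronglyMeasurable.mul
      (cΦ.mul ((cE t ht _).clm_apply continuous_const)).aestronglyMeasurable
  · have h2 : ∀ᵐ q : ℝ × Vec d ∂μ, q.1 ∈ Ioo (-(l / 2)) (l / 2) :=
      Measure.quasiMeasurePreserving_fst.ae (ae_restrict_mem measurableSet_Ioo)
    filter_upwards [h2] with q hq r hr
    have hr' : r ∈ Icc (t / 2) ((t + T) / 2) := ⟨hr.1.le, hr.2.le⟩
    rw [Real.norm_eq_abs, hF']
    simp only
    rw [abs_mul, abs_mul]
    have h1 := hkl q hq
    have h2 := hΦw q.2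
    have h3 := hD1 r hr' (x + r • v - Pi.single e q.1) q.2
    have h4 := hwt0 q.2
    have h5 := w_pos q.2
    calc |kl l q.1| * (|Φ v q.2| * |fderiv ℝ (unc f) (r, x + r • v - Pi.single e q.1, q.2) (1, v, 0)|)
        ≤ 1 / 2 * ((P * (1 + ‖q.2‖) ^ N) *
          (|C'| * ((1 + ‖q.2‖) ^ (N + 1 + (d + 1)))⁻¹ * (1 + ‖v‖))) := by gcongr
      _ = 1 / 2 * (P * (|C'| * (1 + ‖v‖))) *
          ((1 + ‖q.2‖) ^ N * ((1 + ‖q.2‖) ^ (N + 1 + (d + 1)))⁻¹) := by ring
      _ ≤ 1 / 2 * (P * (|C'| * (1 + ‖v‖))) * wt d q.2 := by gcongr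
  · exact ((integrable_wt (d := d)).comp_snd (volume.restrict (Ioo (-(l / 2)) (l / 2)))).const_mul _
  · refine Eventually.of_forall fun q r hr => ?_
    have hr' := hsub r hr
    have h1 := PotD_char hf hr' (x - Pi.single e q.1) v q.2
    have e1 : ∀ s : ℝ, x - Pi.single e q.1 + s • v = x + s • v - Pi.single e q.1 := fun s => by abel
    simp only [e1] at h1
    exact (h1.const_mul (Φ v q.2)).const_mul (kl l q.1)
  -- the potential is the integral over the product
  have e1 : (fun r => pot e l Φ (f r) (x + r • v) v) =ᶠ[𝓝 t] fun r => ∫ q, F r q ∂μ := by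
    filter_upwards [hnhds] with r hr
    have hi := hFi r ⟨hr.1.le, hr.2.le⟩
    rw [hμ] at hi ⊢
    rw [integral_prod _ hi]
    unfold pot
    refine integral_congr_ae (Eventually.of_forall fun z => ?_)
    simp only [hF]
    rw [integral_const_mul]
  refine (main.congr_of_eventuallyEq e1).congr_deriv ?_
  -- the two parts of the derivative
  set G1 : ℝ × Vec d → ℝ := fun q => kl l q.1 * (Φ v q.2 * Q t (y0 - Pi.single e q.1) q.2) with hG1
  set G2 : ℝ × Vec d → ℝ := fun q =>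
    kl l q.1 * (Φ v q.2 * ((v e - q.2 e) * D t (y0 - Pi.single e q.1) q.2)) with hG2
  have i2 : Integrable G2 μ := by
    refine PotD_int (C := 1 / 2 * (P * ((1 + ‖v‖) * |C'|))) ?_ fun q hq => ?_
    · exact hkm.aestronglyMeasurable.mul (cΦ.mul (cve.mul (cD y0))).aestronglyMeasurable
    · rw [hG2]
      simp only
      rw [abs_mul, abs_mul, abs_mul]
      have h1 := hkl q hq
      have h2 := hΦw q.2
      have h3 := hDb (y0 - Pi.single e q.1) q.2
      have h4 := hve q.2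
      have h5 := w_pos q.2
      calc |kl l q.1| * (|Φ v q.2| * (|v e - q.2 e| * |D t (y0 - Pi.single e q.1) q.2|))
          ≤ 1 / 2 * ((P * (1 + ‖q.2‖) ^ N) * (((1 + ‖v‖) * (1 + ‖q.2‖)) *
            (|C'| * ((1 + ‖q.2‖) ^ (N + 1 + (d + 1)))⁻¹))) := by gcongr
        _ = 1 / 2 * (P * ((1 + ‖v‖) * |C'|)) *
            ((1 + ‖q.2‖) ^ (N + 1) * ((1 + ‖q.2‖) ^ (N + 1 + (d + 1)))⁻¹) := by ring
        _ = 1 / 2 * (P * ((1 + ‖v‖) * |C'|)) * wt d q.2 := by rw [hwt1]
  have hsplit : F' t = fun q => G1 q + G2 q := by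
    funext q
    simp only [hF', hG1, hG2]
    rw [planar_deriv hf hpl ht]
    ring
  have iF' : Integrable (F' t) μ := by
    refine PotD_int (C := 1 / 2 * (P * (|C'| * (1 + ‖v‖)))) ?_ fun q hq => ?_
    · exact hkm.aestronglyMeasurable.mul
        (cΦ.mul ((cE t ht _).clm_apply continuous_const)).aestronglyMeasurable
    · rw [hF']
      simp only
      rw [abs_mul, abs_mul]
      have h1 := hkl q hq
      have h2 := hΦw q.2
      have h3 := hD1 t htI (x + t • v - Pi.single e q.1) q.2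
      have h4 := hwt0 q.2
      have h5 := w_pos q.2
      calc |kl l q.1| * (|Φ v q.2| * |fderiv ℝ (unc f) (t, x + t • v - Pi.single e q.1, q.2) (1, v, 0)|)
          ≤ 1 / 2 * ((P * (1 + ‖q.2‖) ^ N) *
            (|C'| * ((1 + ‖q.2‖) ^ (N + 1 + (d + 1)))⁻¹ * (1 + ‖v‖))) := by gcongr
        _ = 1 / 2 * (P * (|C'| * (1 + ‖v‖))) *
            ((1 + ‖q.2‖) ^ N * ((1 + ‖q.2‖) ^ (N + 1 + (d + 1)))⁻¹) := by ring
        _ ≤ 1 / 2 * (P * (|C'| * (1 + ‖v‖))) * wt d q.2 := by gcongr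
  have i1 : Integrable G1 μ := by
    have h := iF'.sub i2
    have e2 : (F' t - G2) = G1 := by
      funext q
      rw [hsplit]
      simp
    rwa [e2] at h
  rw [hsplit, integral_add i1 i2]
  -- first part
  have p1 : ∫ q, G1 q ∂μ = ∫ z in Ioo (-(l / 2)) (l / 2), kl l z *
      ∫ w, Φ v w * Q t (y0 - Pi.single e z) w := by
    rw [hμ] at i1 ⊢
    rw [integral_prod _ i1]
    refine integral_congr_ae (Eventually.of_forall fun z => ?_)
    simp only [hG1]
    rw [integral_const_mul]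
  -- second part
  have p2 : ∫ q, G2 q ∂μ = ∫ w, ((v e - w e) * Φ v w) * (f t y0 w -
      (1 / l) * ∫ z in Ioo (-(l / 2)) (l / 2), f t (y0 - Pi.single e z) w) := by
    rw [hμ] at i2 ⊢
    rw [integral_prod_symm _ i2]
    refine integral_congr_ae (Eventually.of_forall fun w => ?_)
    simp only [hG2]
    have hk := kl_ibp hl (F := fun ρ : ℝ => f t (y0 + ρ • Pi.single e 1) w)
      (F' := fun ρ : ℝ => D t (y0 + ρ • Pi.single e 1) w)
      (fun ρ => PotD_dir hf ht y0 (Pi.single e 1) w ρ) ?_ 0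
    · have e3 : ∀ z : ℝ, y0 + (0 - z) • (Pi.single e 1 : Vec d) = y0 - Pi.single e z := by
        intro z
        rw [PotD_single e z]
        module
      simp only [e3, zero_smul, add_zero] at hk
      rw [← hk, ← integral_const_mul]
      refine integral_congr_ae (Eventually.of_forall fun z => ?_)
      simp only
      ring
    · have h1 : Continuous fun ρ : ℝ => (t, y0 + ρ • (Pi.single e 1 : Vec d), w) := by fun_prop
      have h2 := hf.cont_fderiv.comp_continuous h1 fun q => ⟨ht, mem_univ _⟩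
      exact h2.clm_apply continuous_const
  -- splitting of the second part
  set H : ℝ × Vec d → ℝ := fun q => (v e - q.2 e) * Φ v q.2 * f t (y0 - Pi.single e q.1) q.2 with hH
  have hHb : ∀ y w, |(v e - w e) * Φ v w * f t y w| ≤ (1 + ‖v‖) * P * C * wt d w := by
    intro y w
    rw [abs_mul, abs_mul]
    have h2 := hΦw w
    have h3 := hf' t htI y w
    have h4 := hve w
    have h5 := w_pos w
    calc |v e - w e| * |Φ v w| * |f t y w|
        ≤ ((1 + ‖v‖) * (1 + ‖w‖)) * (P * (1 + ‖w‖) ^ N) *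
            (C * ((1 + ‖w‖) ^ (N + 1 + (d + 1)))⁻¹) := by gcongr
      _ = (1 + ‖v‖) * P * C *
            ((1 + ‖w‖) ^ (N + 1) * ((1 + ‖w‖) ^ (N + 1 + (d + 1)))⁻¹) := by ring
      _ = (1 + ‖v‖) * P * C * wt d w := by rw [hwt1]
  have iH : Integrable H μ := by
    refine PotD_int (C := (1 + ‖v‖) * P * C) ?_ fun q _ => hHb _ _
    exact ((cve.mul cΦ).mul (cf t ht0 y0)).aestronglyMeasurable
  have j1 : Integrable fun w => (v e - w e) * Φ v w * f t y0 w := by
    have hc : Continuous fun w : Vec d => (v e - w e) * Φ v w * f t y0 w := by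
      have h1 : Continuous fun w : Vec d => f t y0 w :=
        (hf.cont_slice ht0).comp (by fun_prop : Continuous fun w : Vec d => (y0, w))
      have h2 : Continuous fun w : Vec d => v e - w e := by fun_prop
      exact (h2.mul hΦc).mul h1
    refine ((integrable_wt (d := d)).const_mul ((1 + ‖v‖) * P * C)).mono' hc.aestronglyMeasurable ?_
    exact Eventually.of_forall fun w => hHb y0 w
  have j2 : Integrable fun w => ∫ z in Ioo (-(l / 2)) (l / 2), H (z, w) := iH.integral_prod_right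
  have p3 : ∫ w, ((v e - w e) * Φ v w) * (f t y0 w -
      (1 / l) * ∫ z in Ioo (-(l / 2)) (l / 2), f t (y0 - Pi.single e z) w) =
      (∫ w, (v e - w e) * Φ v w * f t y0 w) -
        (1 / l) * ∫ z in Ioo (-(l / 2)) (l / 2), ∫ w, (v e - w e) * Φ v w *
          f t (y0 - Pi.single e z) w := by
    have e4 : ∫ z in Ioo (-(l / 2)) (l / 2), ∫ w, (v e - w e) * Φ v w *
        f t (y0 - Pi.single e z) w = ∫ w, ∫ z in Ioo (-(l / 2)) (l / 2), H (z, w) := by
      have h1 := integral_prod _ (by rw [hμ] at iH; exact iH)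
      have h2 := integral_prod_symm _ (by rw [hμ] at iH; exact iH)
      rw [← h2, h1]
    rw [e4, ← integral_const_mul, ← integral_sub j1 (j2.const_mul _)]
    refine integral_congr_ae (Eventually.of_forall fun w => ?_)
    simp only [hH]
    have e5 : ∫ z in Ioo (-(l / 2)) (l / 2), (v e - w e) * Φ v w * f t (y0 - Pi.single e z) w =
        ((v e - w e) * Φ v w) * ∫ z in Ioo (-(l / 2)) (l / 2), f t (y0 - Pi.single e z) w := by
      rw [← integral_const_mul]
    rw [e5]
    ring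
  rw [p1, p2, p3]
  unfold dpot
  ring

end Pool.Agent.H48.PL
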