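import Pool.Agent.H48.PL.PovS
import Pool.Agent.H48.PL.PovG
import Pool.Agent.H48.PL.Ang

/-!
# Module Pov1: the angular integral of the increment of `⟨v⟩^a`

`φ = jb^a`, `γ = 1+a`, `2s < a ≤ 1`, `Δ = φ' + φ'_* - φ - φ_*`.
* `ainc_abs`: `|Δ| ≤ |jb post - jb v|^a + |jb post' - jb w|^a ≤ 2 (|V|² y/2)^(a/2) ≤ 2 |V|^a y^(a/2)` (`|x^a-y^a| ≤ |x-y|^a`, `jb_lip`,
  `nsq_post_sub`), `y = 1-cosTh ≤ 2`; `ker_small` with `τ = a/2 > s`, `u = 2` (all of the sphere, a.e.): `|ainc| ≤ C |V|^(1+a) |V|^a ≤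
  C |V|^(1+a) RR^a`.
* `ainc_hc`: `(v,w) ∉ CmpS δ`, `δ ≤ 1/100`. Split the sphere: (P) `0 ≤ x ≤ 1/2`: by `pov_mid`, `pov_up`: `Δ ≥ (3/16 - δ^a) RR^a ≥ RR^a/16`; `kerB ≥ |V|^γ cb y^(-β) ≥
  |V|^γ cb` there (`HL.lo`, cut-off `ε ≤ 1/2` does not matter, `y ≤ 1`), and `surf {0 ≤ x ≤ 1/2} > 0` uniformly in `k = dirk v w`
  (`cap_low` with the ball of radius `1/8` around `σ₀ = k/4·.. + √(15)/4 m`, `m ⊥ k` unit, or `shell_low` with `u = 1/64`.. use: a unit vector
  `σ₀` with `k·σ₀ = 1/4` exists because `d ≥ 2`; on `|σ-σ₀| ≤ 1/8`: `|x - 1/4| ≤ 1/8`).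
  (G) `y ≤ u` (small angles): `Δ ≥ -2|V|^a y^(a/2)`, total `≥ -C |V|^γ RR^a u^(a/2-s)`.
  (M) the rest, `y ≥ u`: `Δ ≥ -δ^a RR^a` (`pov_low`, `pov_up`), mass `≤ C|V|^γ u^(-s)`: total `≥ -C |V|^γ RR^a δ^a u^(-s)`.
  First choose `u ≤ 1/2`, then `δ`, so that the sum of (G), (M) is at most half of (P).
-/

set_option autoImplicit false

open MeasureTheory Set Filter Topology Pool.Agent.H25.Kin Pool.Agent.H82.BK Pool.Agent.H82.CM

namespace Pool.Agent.H48.PL

variable {d : ℕ} {s a C Ca cb : ℝ} {b : ℝ → ℝ}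

private lemma p1_sub_rpow {x y a : ℝ} (hx : 0 ≤ x) (hy : 0 ≤ y) (ha : 0 ≤ a) (ha1 : a ≤ 1) :
    |x ^ a - y ^ a| ≤ |x - y| ^ a := by
  wlog h : y ≤ x generalizing x y
  · have := this hy hx (not_le.1 h).le
    rwa [abs_sub_comm, abs_sub_comm y x] at this
  rw [abs_of_nonneg (sub_nonneg.2 h),
    abs_of_nonneg (sub_nonneg.2 (Real.rpow_le_rpow hy h ha))]
  have h1 := Real.rpow_add_le_add_rpow (sub_nonneg.2 h) hy ha ha1
  rw [sub_add_cancel] at h1
  linarith

/-- the increment -/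
private noncomputable def p1D (a : ℝ) (v w σ : Vec d) : ℝ :=
  jb (post v w σ) ^ a + jb (post' v w σ) ^ a - jb v ^ a - jb w ^ a

private lemma p1_one {a : ℝ} (ha : 0 ≤ a) (ha1 : a ≤ 1) {v p : Vec d} {L y : ℝ} (hL : 0 ≤ L)
    (hy : 0 ≤ y) (h : nsq (p - v) = L ^ 2 * (y / 2)) : |jb p ^ a - jb v ^ a| ≤ L ^ a * y ^ (a / 2) := by
  refine (p1_sub_rpow (jb_pos p).le (jb_pos v).le ha ha1).trans ?_
  refine (Real.rpow_le_rpow (abs_nonneg _) (jb_lip p v) ha).trans ?_
  have h1 : len (p - v) ≤ L * y ^ ((1 : ℝ) / 2) := by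
    rw [← Real.sqrt_eq_rpow]
    unfold len
    rw [h]
    calc Real.sqrt (L ^ 2 * (y / 2)) ≤ Real.sqrt (L ^ 2 * y) :=
          Real.sqrt_le_sqrt (mul_le_mul_of_nonneg_left (by linarith) (sq_nonneg _))
      _ = L * Real.sqrt y := by rw [Real.sqrt_mul (sq_nonneg _), Real.sqrt_sq hL]
  refine (Real.rpow_le_rpow (len_nonneg _) h1 ha).trans (le_of_eq ?_)
  rw [Real.mul_rpow hL (Real.rpow_nonneg hy _), ← Real.rpow_mul hy]
  congr 2
  ring

private lemma p1D_abs {a : ℝ} (ha : 0 ≤ a) (ha1 : a ≤ 1) {v w σ : Vec d} (hvw : v ≠ w)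
    (hσ : nsq σ = 1) : |p1D a v w σ| ≤ 2 * len (v - w) ^ a * (1 - cosTh v w σ) ^ (a / 2) := by
  have hy := one_sub_cosTh_nonneg (v := v) (w := w) hσ
  have h1 := p1_one ha ha1 (L := len (v - w)) (len_nonneg _) hy
    (by rw [nsq_post_sub hvw hσ, len_sq] : nsq (post v w σ - v) = len (v - w) ^ 2 * ((1 - cosTh v w σ) / 2))
  have h2 := p1_one ha ha1 (L := len (v - w)) (len_nonneg _) hy
    (by rw [nsq_post'_sub hvw hσ, len_sq] : nsq (post' v w σ - w) = len (v - w) ^ 2 * ((1 - cosTh v w σ) / 2))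
  have h3 : p1D a v w σ = (jb (post v w σ) ^ a - jb v ^ a) + (jb (post' v w σ) ^ a - jb w ^ a) := by
    unfold p1D; ring
  rw [h3]
  refine (abs_add_le _ _).trans ?_
  linarith

private lemma p1D_meas {a : ℝ} (ha : 0 ≤ a) (v w : Vec d) : Measurable fun σ : Vec d => p1D a v w σ := by
  unfold p1D
  have h1 : Continuous fun σ : Vec d => jb (post v w σ) :=
    jb_cont.comp (continuous_post.comp (continuous_const.prodMk (continuous_const.prodMk continuous_id)))
  have h2 : Continuous fun σ : Vec d => jb (post' v w σ) :=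
    jb_cont.comp (continuous_post'.comp (continuous_const.prodMk (continuous_const.prodMk continuous_id)))
  exact ((((h1.rpow_const fun _ => Or.inr ha).add (h2.rpow_const fun _ => Or.inr ha)).sub
    continuous_const).sub continuous_const).measurable

private lemma p1_y_le {v w σ : Vec d} (hσ : nsq σ = 1) : 1 - cosTh v w σ ≤ 2 := by
  have := (abs_le.1 (abs_cosTh_le (v := v) (w := w) hσ)).1
  linarith

private lemma p1_integrable (H : Hyp d (1 + a) s b C Ca) (ha : 0 ≤ a) (ha1 : a ≤ 1) {ε : ℝ} (hε : 0 < ε)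
    {v w : Vec d} (hvw : v ≠ w) :
    Integrable (fun σ => kerB (1 + a) b ε v w σ * p1D a v w σ) (surf d) := by
  refine inner_integrable (F0 := 2 * len (v - w) ^ a * 2 ^ (a / 2)) H.bm H.bd H.β0 hε (p1D_meas ha v w)
    fun σ hσ => ?_
  refine (p1D_abs ha ha1 hvw hσ).trans ?_
  have h0 := Real.rpow_nonneg (len_nonneg (v - w)) a
  exact mul_le_mul_of_nonneg_left
    (Real.rpow_le_rpow (one_sub_cosTh_nonneg hσ) (p1_y_le hσ) (by linarith)) (by linarith)

private lemma p1_ainc (γ : ℝ) (b : ℝ → ℝ) (ε : ℝ) (v w : Vec d) :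
    ainc γ b ε (fun u => jb u ^ a) v w = ∫ σ, kerB γ b ε v w σ * p1D a v w σ ∂(surf d) := rfl

theorem ainc_abs (HL : HypL d (1 + a) s b C Ca cb) (h1 : 2 * s < a) (ha1 : a ≤ 1) :
    ∃ K : ℝ, 0 ≤ K ∧ ∀ ε : ℝ, 0 < ε → ∀ v w : Vec d, v ≠ w →
      |ainc (1 + a) b ε (fun u => jb u ^ a) v w| ≤ K * (len (v - w) ^ (1 + a) * RR v w ^ a) := by
  have hs := HL.H.hs
  have ha : 0 ≤ a := by linarith
  obtain ⟨A, hA, hker⟩ := ker_small HL.H (τ := a / 2) (by linarith) (by linarith)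
  have hu0 : (0 : ℝ) ≤ 2 ^ (a / 2 - s) := by positivity
  refine ⟨4 * A * 2 ^ (a / 2 - s), by positivity, fun ε hε v w hvw => ?_⟩
  obtain ⟨hi, hle⟩ := hker ε hε v w hvw 2 (by norm_num)
  have hae : ∀ᵐ σ ∂(surf d), σ ∈ {σ : Vec d | 1 - cosTh v w σ ≤ 2} := by
    filter_upwards [surf_ae] with σ hσ
    exact p1_y_le hσ
  have hres : (surf d).restrict {σ : Vec d | 1 - cosTh v w σ ≤ 2} = surf d :=
    Measure.restrict_eq_self_of_ae_mem hae
  rw [IntegrableOn, hres] at hi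
  rw [hres] at hle
  have hl0 := Real.rpow_nonneg (len_nonneg (v - w)) a
  have hl1 := Real.rpow_nonneg (len_nonneg (v - w)) (1 + a)
  rw [p1_ainc]
  calc |∫ σ, kerB (1 + a) b ε v w σ * p1D a v w σ ∂(surf d)|
      ≤ ∫ σ, |kerB (1 + a) b ε v w σ * p1D a v w σ| ∂(surf d) := abs_integral_le_integral_abs
    _ ≤ ∫ σ, 2 * len (v - w) ^ a * (kerB (1 + a) b ε v w σ * (1 - cosTh v w σ) ^ (a / 2)) ∂(surf d) := by
        refine integral_mono_ae (p1_integrable HL.H ha ha1 hε hvw).abs (hi.const_mul _) ?_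
        filter_upwards [surf_ae] with σ hσ
        have hk := kerB_nonneg (γ := 1 + a) HL.H.bd hε (v := v) (w := w) hσ
        rw [abs_mul, abs_of_nonneg hk]
        calc kerB (1 + a) b ε v w σ * |p1D a v w σ|
            ≤ kerB (1 + a) b ε v w σ * (2 * len (v - w) ^ a * (1 - cosTh v w σ) ^ (a / 2)) :=
              mul_le_mul_of_nonneg_left (p1D_abs ha ha1 hvw hσ) hk
          _ = _ := by ring
    _ = 2 * len (v - w) ^ a * ∫ σ, kerB (1 + a) b ε v w σ * (1 - cosTh v w σ) ^ (a / 2) ∂(surf d) :=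
        integral_const_mul _ _
    _ ≤ 2 * len (v - w) ^ a * (A * len (v - w) ^ (1 + a) * 2 ^ (a / 2 - s)) :=
        mul_le_mul_of_nonneg_left hle (by linarith)
    _ ≤ 2 * (2 * RR v w ^ a) * (A * len (v - w) ^ (1 + a) * 2 ^ (a / 2 - s)) := by
        refine mul_le_mul_of_nonneg_right ?_ (by positivity)
        refine mul_le_mul_of_nonneg_left ?_ (by norm_num)
        refine (Real.rpow_le_rpow (len_nonneg _) (len_le_RR v w) ha).trans ?_
        rw [Real.mul_rpow (by norm_num) (RR_pos v w).le]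
        refine mul_le_mul_of_nonneg_right ?_ (Real.rpow_nonneg (RR_pos v w).le _)
        calc (2 : ℝ) ^ a ≤ 2 ^ (1 : ℝ) := Real.rpow_le_rpow_of_exponent_le (by norm_num) ha1
          _ = 2 := Real.rpow_one 2
    _ = 4 * A * 2 ^ (a / 2 - s) * (len (v - w) ^ (1 + a) * RR v w ^ a) := by ring

/-- a unit vector with `k · σ₀ = 1/4` -/
private lemma p1_vec (hd : 2 ≤ d) {k : Vec d} (hk : nsq k = 1) :
    ∃ z : Vec d, nsq z = 1 ∧ dot k z = 1 / 4 := by
  obtain ⟨i, hi⟩ : ∃ i, k i ≠ 0 := by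
    by_contra hcon
    push Not at hcon
    have : nsq k = 0 := by unfold nsq; simp [hcon]
    rw [hk] at this
    norm_num at this
  obtain ⟨j, hj⟩ : ∃ j : Fin d, j ≠ i := by
    have : Nontrivial (Fin d) := Fin.nontrivial_iff_two_le.2 hd
    exact exists_ne i
  set m : Vec d := k j • Pi.single i 1 - k i • Pi.single j 1 with hm
  have hdi : ∀ u : Vec d, ∀ l : Fin d, dot u (Pi.single l 1) = u l := by
    intro u l
    unfold dot
    rw [Finset.sum_eq_single l]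
    · simp
    · intro b _ hb
      simp [hb]
    · intro h; exact absurd (Finset.mem_univ l) h
  have hkm : dot k m = 0 := by
    rw [hm, dot_sub, dot_smul, dot_smul, hdi, hdi]; ring
  have hm0 : 0 < nsq m := by
    have hmj : m j = - k i := by
      rw [hm]
      simp [hj]
    have h1 : m ≠ 0 := by
      intro h
      rw [h] at hmj
      simp only [Pi.zero_apply] at hmj
      exact hi (by linarith)
    exact sq_pos_of_ne h1
  set n : Vec d := dir m with hn
  have hm1 : m ≠ 0 := by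
    rintro h
    rw [h] at hm0
    unfold nsq at hm0
    simp at hm0
  have hn1 : nsq n = 1 := nsq_dir hm1
  have hkn : dot k n = 0 := by
    rw [hn]
    unfold dir
    rw [dot_smul, hkm, mul_zero]
  refine ⟨(1 / 4 : ℝ) • k + (Real.sqrt 15 / 4) • n, ?_, ?_⟩
  · rw [nsq_add, nsq_smul, nsq_smul, smul_dot, dot_smul, hkn, hk, hn1]
    have h15 : Real.sqrt 15 ^ 2 = 15 := Real.sq_sqrt (by norm_num)
    linear_combination (1 / 16) * h15
  · rw [dot_add, dot_smul, dot_smul, hkn, dot_self, hk]; ring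

/-- the measure of the band `0 ≤ k · σ ≤ 1/2` -/
private lemma p1_band (hd : 2 ≤ d) : ∃ μ : ℝ, 0 < μ ∧ ∀ k : Vec d, nsq k = 1 →
    μ ≤ ((surf d) {σ : Vec d | 0 ≤ dot k σ ∧ dot k σ ≤ 1 / 2}).toReal := by
  obtain ⟨c, hc, hcap⟩ := cap_low hd
  refine ⟨c * (1 / 8) ^ ((d : ℝ) - 1), by positivity, fun k hk => ?_⟩
  obtain ⟨z, hz, hkz⟩ := p1_vec hd hk
  have h1 := hcap z hz (1 / 8) (by norm_num) (by norm_num)
  have h2 : {σ : Vec d | nsq σ = 1 ∧ nsq (σ - z) ≤ (1 / 8) ^ 2} ⊆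
      {σ : Vec d | 0 ≤ dot k σ ∧ dot k σ ≤ 1 / 2} := by
    rintro σ ⟨_, h3⟩
    have h4 := dot_sq_le k (σ - z)
    rw [hk, one_mul, dot_sub, hkz] at h4
    have h5 := abs_le_of_sq_le_sq' (h4.trans h3) (by norm_num)
    have h6 : 0 ≤ dot k σ := by linarith [h5.1]
    have h7 : dot k σ ≤ 1 / 2 := by linarith [h5.2]
    exact ⟨h6, h7⟩
  have h3 := h1.trans (measure_mono h2)
  have h4 := ENNReal.toReal_mono (measure_ne_top (surf d) _) h3
  rwa [ENNReal.toReal_ofReal (by positivity)] at h4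

private lemma p1_small {p t : ℝ} (hp : 0 < p) (ht : 0 < t) :
    ∃ u : ℝ, 0 < u ∧ u ≤ 1 / 100 ∧ u ^ p ≤ t := by
  refine ⟨min (1 / 100) (t ^ (1 / p)), lt_min (by norm_num) (by positivity), min_le_left _ _, ?_⟩
  have h0 : 0 ≤ min (1 / 100) (t ^ (1 / p)) := le_min (by norm_num) (by positivity)
  refine (Real.rpow_le_rpow h0 (min_le_right _ _) hp.le).trans (le_of_eq ?_)
  rw [← Real.rpow_mul ht.le, one_div, inv_mul_cancel₀ hp.ne', Real.rpow_one]

private lemma p1_ABsq {v w σ : Vec d} (hσ : nsq σ = 1) :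
    jb (post v w σ) ^ 2 + jb (post' v w σ) ^ 2 = RR v w ^ 2 := by
  rw [← RR_sq, RR_post hσ]

private lemma p1D_low {δ : ℝ} (ha : 0 < a) (ha1 : a ≤ 1) (hδ : 0 < δ)
    {v w σ : Vec d} (hσ : nsq σ = 1) (hm : jb v ≤ δ * RR v w ∨ jb w ≤ δ * RR v w) :
    -(δ ^ a * RR v w ^ a) ≤ p1D a v w σ := by
  have h1 := pov_low ha ha1 (jb_pos _).le (jb_pos _).le (RR_pos v w).le (p1_ABsq (v := v) (w := w) hσ)
  have h2 := pov_up ha (jb_pos v).le (jb_pos w).le (RR_pos v w).le hδ.le (RR_sq v w).symm hm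
  unfold p1D
  linarith

private lemma p1D_mid {δ : ℝ} (ha : 0 < a) (ha1 : a ≤ 1) (hδ : 0 < δ) (hδ1 : δ ≤ 1 / 100)
    (hδa : δ ^ a ≤ 1 / 8)
    {v w σ : Vec d} (hvw : v ≠ w) (hσ : nsq σ = 1) (hm : jb v ≤ δ * RR v w ∨ jb w ≤ δ * RR v w)
    (h0 : 0 ≤ cosTh v w σ) (h1 : cosTh v w σ ≤ 1 / 2) : RR v w ^ a / 16 ≤ p1D a v w σ := by
  obtain ⟨g1, g2⟩ := pov_geo hδ hδ1 hvw hσ hm h0 h1
  have h3 := pov_mid ha ha1 (RR_pos v w).le g1 g2 (p1_ABsq (v := v) (w := w) hσ)
  have h2 := pov_up ha (jb_pos v).le (jb_pos w).le (RR_pos v w).le hδ.le (RR_sq v w).symm hm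
  have h4 := Real.rpow_nonneg (RR_pos v w).le a
  unfold p1D
  nlinarith

theorem ainc_hc (HL : HypL d (1 + a) s b C Ca cb) (h1 : 2 * s < a) (ha1 : a ≤ 1) :
    ∃ δ c ε₀ : ℝ, 0 < δ ∧ δ < 1 ∧ 0 < c ∧ 0 < ε₀ ∧ ∀ ε : ℝ, 0 < ε → ε ≤ ε₀ → ∀ v w : Vec d, v ≠ w →
      (v, w) ∉ (CmpS δ : Set (Vec d × Vec d)) →
      c * (len (v - w) ^ (1 + a) * RR v w ^ a) ≤ ainc (1 + a) b ε (fun u => jb u ^ a) v w := by
  have hs := HL.H.hs
  have ha : 0 < a := by linarith
  have hcb := HL.lo.1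
  obtain ⟨A, hA, hks⟩ := ker_small HL.H (τ := a / 2) (by linarith) (by linarith)
  obtain ⟨B, hB, hkl⟩ := ker_large HL.H
  obtain ⟨μ, hμ, hband⟩ := p1_band HL.H.hd
  set κ : ℝ := cb * μ / 64 with hκ
  have hκ0 : 0 < κ := by positivity
  obtain ⟨u, hu, hu1, hu2⟩ := p1_small (p := a / 2 - s) (t := κ / (4 * A + 1)) (by linarith)
    (by positivity)
  have hus : 0 < u ^ (-s) := Real.rpow_pos_of_pos hu _
  obtain ⟨δ, hδ, hδ1, hδ2⟩ := p1_small (p := a) (t := min (1 / 8) (κ / (B * u ^ (-s) + 1))) ha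
    (lt_min (by norm_num) (by positivity))
  have hδ3 : δ ^ a ≤ 1 / 8 := hδ2.trans (min_le_left _ _)
  have hδ4 : δ ^ a ≤ κ / (B * u ^ (-s) + 1) := hδ2.trans (min_le_right _ _)
  have hδa : 0 ≤ δ ^ a := Real.rpow_nonneg hδ.le _
  have hsm1 : 4 * A * u ^ (a / 2 - s) ≤ κ := by
    have h2 : (4 * A + 1) * u ^ (a / 2 - s) ≤ κ := by
      rw [mul_comm]
      exact (le_div_iff₀ (by positivity)).1 hu2
    have h3 := Real.rpow_nonneg hu.le (a / 2 - s)
    nlinarith
  have hsm2 : δ ^ a * (B * u ^ (-s)) ≤ κ := by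
    have h2 : δ ^ a * (B * u ^ (-s) + 1) ≤ κ := (le_div_iff₀ (by positivity)).1 hδ4
    nlinarith
  refine ⟨δ, 2 * κ, 1 / 2, hδ, by linarith, by positivity, by norm_num, fun ε hε hε1 v w hvw hnot => ?_⟩
  have hm : jb v ≤ δ * RR v w ∨ jb w ≤ δ * RR v w := by
    by_contra hcon
    push Not at hcon
    exact hnot ⟨hcon.1.le, hcon.2.le⟩
  obtain ⟨hi1, hl1⟩ := hks ε hε v w hvw u hu
  obtain ⟨hi2, hl2⟩ := hkl ε hε v w hvw u hu
  set V := len (v - w) with hV
  have hV0 : 0 ≤ V := len_nonneg _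
  set R := RR v w with hR
  have hR0 : 0 < R := RR_pos v w
  have hRa : 0 < R ^ a := Real.rpow_pos_of_pos hR0 _
  have hVa : 0 ≤ V ^ a := Real.rpow_nonneg hV0 _
  have hVg : 0 ≤ V ^ (1 + a) := Real.rpow_nonneg hV0 _
  have hcm := measurable_cosTh' (d := d) v w
  set P : Set (Vec d) := {σ | 0 ≤ cosTh v w σ ∧ cosTh v w σ ≤ 1 / 2} with hP
  set G : Set (Vec d) := {σ | 1 - cosTh v w σ ≤ u} with hG
  set M : Set (Vec d) := {σ | u ≤ 1 - cosTh v w σ} with hM
  have hPm : MeasurableSet P :=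
    (measurableSet_le measurable_const hcm).inter (measurableSet_le hcm measurable_const)
  have hGm : MeasurableSet G := measurableSet_le (measurable_const.sub hcm) measurable_const
  have hMm : MeasurableSet M := measurableSet_le measurable_const (measurable_const.sub hcm)
  have hkm := measurable_kerB' (d := d) (1 + a) HL.H.bm ε v w
  have hkP : Integrable (fun σ => P.indicator (fun σ => kerB (1 + a) b ε v w σ * (R ^ a / 16)) σ)
      (surf d) := by
    refine Integrable.indicator ?_ hPm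
    exact inner_integrable (F0 := R ^ a / 16) HL.H.bm HL.H.bd HL.H.β0 hε measurable_const
      fun σ _ => by rw [abs_of_nonneg (by positivity)]
  have hkG : Integrable (fun σ => G.indicator (fun σ => (kerB (1 + a) b ε v w σ *
      (1 - cosTh v w σ) ^ (a / 2)) * (2 * V ^ a)) σ) (surf d) := by
    have h2 : IntegrableOn (fun σ => (kerB (1 + a) b ε v w σ *
      (1 - cosTh v w σ) ^ (a / 2)) * (2 * V ^ a)) G (surf d) := hi1.mul_const _
    exact (integrable_indicator_iff hGm).2 h2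
  have hkM : Integrable (fun σ => M.indicator (fun σ => kerB (1 + a) b ε v w σ * (δ ^ a * R ^ a)) σ)
      (surf d) := by
    have h2 : IntegrableOn (fun σ => kerB (1 + a) b ε v w σ * (δ ^ a * R ^ a)) M (surf d) :=
      hi2.mul_const _
    exact (integrable_indicator_iff hMm).2 h2
  have hmono : ∫ σ, (P.indicator (fun σ => kerB (1 + a) b ε v w σ * (R ^ a / 16)) σ -
      G.indicator (fun σ => (kerB (1 + a) b ε v w σ * (1 - cosTh v w σ) ^ (a / 2)) * (2 * V ^ a)) σ -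
      M.indicator (fun σ => kerB (1 + a) b ε v w σ * (δ ^ a * R ^ a)) σ) ∂(surf d) ≤
      ∫ σ, kerB (1 + a) b ε v w σ * p1D a v w σ ∂(surf d) := by
    refine integral_mono_ae ((hkP.sub hkG).sub hkM) (p1_integrable HL.H ha.le ha1 hε hvw) ?_
    filter_upwards [surf_ae] with σ hσ
    have hk := kerB_nonneg (γ := 1 + a) HL.H.bd hε (v := v) (w := w) hσ
    have hy := one_sub_cosTh_nonneg (v := v) (w := w) hσ
    have hya : 0 ≤ (1 - cosTh v w σ) ^ (a / 2) := Real.rpow_nonneg hy _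
    simp only [Set.indicator_apply]
    by_cases hPσ : σ ∈ P
    · have hGσ : σ ∉ G := by
        intro h
        have e1 : 1 - cosTh v w σ ≤ u := h
        have e2 := hPσ.2
        linarith
      rw [if_pos hPσ, if_neg hGσ]
      have h3 := p1D_mid ha ha1 hδ hδ1 hδ3 hvw hσ hm hPσ.1 hPσ.2
      have h4 : 0 ≤ (if σ ∈ M then kerB (1 + a) b ε v w σ * (δ ^ a * R ^ a) else 0) := by
        split_ifs
        · positivity
        · exact le_rfl
      have h5 := mul_le_mul_of_nonneg_left h3 hk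
      linarith
    · rw [if_neg hPσ]
      by_cases hGσ : σ ∈ G
      · rw [if_pos hGσ]
        have h3 := (abs_le.1 (p1D_abs (a := a) ha.le ha1 hvw hσ)).1
        have h4 : 0 ≤ (if σ ∈ M then kerB (1 + a) b ε v w σ * (δ ^ a * R ^ a) else 0) := by
          split_ifs
          · positivity
          · exact le_rfl
        have h5 := mul_le_mul_of_nonneg_left h3 hk
        nlinarith
      · have hMσ : σ ∈ M := by
          have e1 : ¬ (1 - cosTh v w σ ≤ u) := hGσ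
          have e2 : u ≤ 1 - cosTh v w σ := (not_le.1 e1).le
          exact e2
        rw [if_neg hGσ, if_pos hMσ]
        have h3 := p1D_low ha ha1 hδ hσ hm
        have h5 := mul_le_mul_of_nonneg_left h3 hk
        linarith
  rw [p1_ainc]
  refine le_trans ?_ hmono
  have e1 := integral_sub (hkP.sub hkG) hkM
  have e2 := integral_sub hkP hkG
  simp only [Pi.sub_apply] at e1
  rw [e1, e2, integral_indicator hPm, integral_indicator hGm, integral_indicator hMm,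
    integral_mul_const, integral_mul_const, integral_mul_const]
  -- lower bound of the mass of `P`
  have hPlow : V ^ (1 + a) * cb * μ ≤ ∫ σ in P, kerB (1 + a) b ε v w σ ∂(surf d) := by
    have hPe : P = {σ : Vec d | 0 ≤ dot (dirk v w) σ ∧ dot (dirk v w) σ ≤ 1 / 2} := by
      rw [hP]
      ext σ
      simp only [Set.mem_ofPred_eq, cosTh_eq]
    have h2 := hband (dirk v w) (nsq_dirk hvw)
    rw [← hPe] at h2
    have hiP : IntegrableOn (fun σ => kerB (1 + a) b ε v w σ) P (surf d) := by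
      have h3 := inner_integrable (γ := 1 + a) (v := v) (w := w) (F := fun _ => (1 : ℝ)) (F0 := 1)
        HL.H.bm HL.H.bd HL.H.β0 hε measurable_const fun σ _ => by simp
      simp only [mul_one] at h3
      exact h3.integrableOn
    calc V ^ (1 + a) * cb * μ ≤ V ^ (1 + a) * cb * ((surf d) P).toReal :=
          mul_le_mul_of_nonneg_left h2 (by positivity)
      _ = ∫ _σ in P, V ^ (1 + a) * cb ∂(surf d) := by
          rw [setIntegral_const, smul_eq_mul, mul_comm]; rfl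
      _ ≤ ∫ σ in P, kerB (1 + a) b ε v w σ ∂(surf d) := by
          refine setIntegral_mono_on (integrable_const _) hiP hPm fun σ hσ => ?_
          unfold kerB
          have e3 := hσ.2
          rw [if_pos (by linarith)]
          refine mul_le_mul_of_nonneg_left ?_ hVg
          have h5 := HL.lo.2 (cosTh v w σ) hσ.1 (by linarith)
          have h6 : 1 ≤ (1 - cosTh v w σ) ^ (-(((d : ℝ) - 1) / 2 + s)) := by
            have e4 := hσ.1
            exact Real.one_le_rpow_of_pos_of_le_one_of_nonpos (by linarith) (by linarith)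
              (by have := HL.H.β0; linarith)
          nlinarith
  have hVR : V ^ a ≤ 2 * R ^ a := by
    refine (Real.rpow_le_rpow hV0 (len_le_RR v w) ha.le).trans ?_
    rw [Real.mul_rpow (by norm_num) hR0.le]
    refine mul_le_mul_of_nonneg_right ?_ hRa.le
    calc (2 : ℝ) ^ a ≤ 2 ^ (1 : ℝ) := Real.rpow_le_rpow_of_exponent_le (by norm_num) ha1
      _ = 2 := Real.rpow_one 2
  have hup : 0 ≤ u ^ (a / 2 - s) := Real.rpow_nonneg hu.le _
  have t1 : V ^ (1 + a) * cb * μ * (R ^ a / 16) ≤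
      (∫ σ in P, kerB (1 + a) b ε v w σ ∂(surf d)) * (R ^ a / 16) :=
    mul_le_mul_of_nonneg_right hPlow (by positivity)
  have t2 : (∫ σ in G, kerB (1 + a) b ε v w σ * (1 - cosTh v w σ) ^ (a / 2) ∂(surf d)) * (2 * V ^ a) ≤
      κ * (V ^ (1 + a) * R ^ a) := by
    calc (∫ σ in G, kerB (1 + a) b ε v w σ * (1 - cosTh v w σ) ^ (a / 2) ∂(surf d)) * (2 * V ^ a)
        ≤ (A * V ^ (1 + a) * u ^ (a / 2 - s)) * (2 * V ^ a) :=
          mul_le_mul_of_nonneg_right hl1 (by positivity)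
      _ ≤ (A * V ^ (1 + a) * u ^ (a / 2 - s)) * (2 * (2 * R ^ a)) :=
          mul_le_mul_of_nonneg_left (by linarith) (by positivity)
      _ = (4 * A * u ^ (a / 2 - s)) * (V ^ (1 + a) * R ^ a) := by ring
      _ ≤ κ * (V ^ (1 + a) * R ^ a) := mul_le_mul_of_nonneg_right hsm1 (by positivity)
  have t3 : (∫ σ in M, kerB (1 + a) b ε v w σ ∂(surf d)) * (δ ^ a * R ^ a) ≤
      κ * (V ^ (1 + a) * R ^ a) := by
    calc (∫ σ in M, kerB (1 + a) b ε v w σ ∂(surf d)) * (δ ^ a * R ^ a)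
        ≤ (B * V ^ (1 + a) * u ^ (-s)) * (δ ^ a * R ^ a) :=
          mul_le_mul_of_nonneg_right hl2 (by positivity)
      _ = (δ ^ a * (B * u ^ (-s))) * (V ^ (1 + a) * R ^ a) := by ring
      _ ≤ κ * (V ^ (1 + a) * R ^ a) := mul_le_mul_of_nonneg_right hsm2 (by positivity)
  have t4 : V ^ (1 + a) * cb * μ * (R ^ a / 16) = 4 * κ * (V ^ (1 + a) * R ^ a) := by
    rw [hκ]; ring
  linarith

end Pool.Agent.H48.PL
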