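import Pool.Agent.H48.PL.JB

/-!
# Module PovS: scalar inequalities for the low moment

Put `S = RR² = jb v² + jb w²`, `y = jb v²/S`, `jb v^a + jb w^a = S^(a/2) F(y)`, `F(y) = y^(a/2) + (1-y)^(a/2)`, `0 < a ≤ 1`.
* `pov_low`: `F ≥ 1` (`y^(a/2) ≥ y` on `[0,1]`).
* `pov_up`: if `jb w ≤ δ RR` then `jb v^a + jb w^a ≤ RR^a + δ^a RR^a`.
* `pov_mid`: if both `A, B ≥ RR/4`, `A² + B² = RR²`: `A^a + B^a ≥ (1 + 3/16) RR^a`. Put `y = A²/RR² ∈ [1/16, 15/16]`; `F` is concave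
  (`Real.concaveOn_rpow`, `0 ≤ a/2 ≤ 1`) and `F(1/16) = F(15/16) ≥ (1/16)^(a/2) + 15/16 ≥ 1/4 + 15/16 = 1 + 3/16`. By hand: if
  `y ≤ 1/2` then `y^(a/2) ≥ ...`; or: `y^(a/2) ≥ y^(1/2)` (as `y ≤ 1`, `a/2 ≤ 1/2`), so `F(y) ≥ √y + √(1-y)`, and
  `(√y+√(1-y))² = 1 + 2√(y(1-y)) ≥ 1 + 2 √15/16 ≥ 1.48 ≥ (19/16)²  = 1.41`. This avoids concavity.
-/

set_option autoImplicit false

open MeasureTheory Set Filter Topology Pool.Agent.H25.Kin

namespace Pool.Agent.H48.PL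

variable {a R A B δ : ℝ}

lemma pov_low (ha : 0 < a) (ha1 : a ≤ 1) (hA : 0 ≤ A) (hB : 0 ≤ B) (hR : 0 ≤ R)
    (h : A ^ 2 + B ^ 2 = R ^ 2) : R ^ a ≤ A ^ a + B ^ a := by
  have e : ∀ x : ℝ, 0 ≤ x → (x ^ 2) ^ (a / 2) = x ^ a := by
    intro x hx
    rw [← Real.rpow_natCast x 2, ← Real.rpow_mul hx]
    congr 1
    push_cast
    ring
  rw [← e R hR, ← e A hA, ← e B hB, ← h]
  exact Real.rpow_add_le_add_rpow (sq_nonneg A) (sq_nonneg B) (by linarith) (by linarith)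

lemma pov_up (ha : 0 < a) (hA : 0 ≤ A) (hB : 0 ≤ B) (hR : 0 ≤ R) (hδ : 0 ≤ δ)
    (h : A ^ 2 + B ^ 2 = R ^ 2) (hm : A ≤ δ * R ∨ B ≤ δ * R) : A ^ a + B ^ a ≤ (1 + δ ^ a) * R ^ a := by
  have hAR : A ≤ R := by
    apply le_of_sq_le_sq _ hR
    nlinarith [sq_nonneg B]
  have hBR : B ≤ R := by
    apply le_of_sq_le_sq _ hR
    nlinarith [sq_nonneg A]
  have e : (δ * R) ^ a = δ ^ a * R ^ a := Real.mul_rpow hδ hR
  rcases hm with hm | hm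
  · have h1 : A ^ a ≤ (δ * R) ^ a := Real.rpow_le_rpow hA hm ha.le
    have h2 : B ^ a ≤ R ^ a := Real.rpow_le_rpow hB hBR ha.le
    rw [e] at h1
    linarith
  · have h1 : B ^ a ≤ (δ * R) ^ a := Real.rpow_le_rpow hB hm ha.le
    have h2 : A ^ a ≤ R ^ a := Real.rpow_le_rpow hA hAR ha.le
    rw [e] at h1
    linarith

lemma pov_mid (ha : 0 < a) (ha1 : a ≤ 1) (hR : 0 ≤ R) (hA : R / 4 ≤ A) (hB : R / 4 ≤ B)
    (h : A ^ 2 + B ^ 2 = R ^ 2) : (1 + 3 / 16) * R ^ a ≤ A ^ a + B ^ a := by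
  rcases hR.eq_or_lt with h0 | h0
  · subst h0
    have hA0 : 0 ≤ A := by linarith
    have hB0 : 0 ≤ B := by linarith
    rw [Real.zero_rpow ha.ne', mul_zero]
    exact add_nonneg (Real.rpow_nonneg hA0 a) (Real.rpow_nonneg hB0 a)
  have hA0 : 0 < A := by linarith
  have hB0 : 0 < B := by linarith
  set t : ℝ := A / R with ht
  set s : ℝ := B / R with hs
  have hAt : A = t * R := by rw [ht]; field_simp
  have hBs : B = s * R := by rw [hs]; field_simp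
  have ht0 : 0 < t := div_pos hA0 h0
  have hs0 : 0 < s := div_pos hB0 h0
  have ht4 : 1 / 4 ≤ t := by
    rw [ht, le_div_iff₀ h0]; linarith
  have hs4 : 1 / 4 ≤ s := by
    rw [hs, le_div_iff₀ h0]; linarith
  have hts : t ^ 2 + s ^ 2 = 1 := by
    rw [ht, hs, div_pow, div_pow, ← add_div, h, div_self (by positivity)]
  have ht1 : t ≤ 1 := by nlinarith
  have hs1 : s ≤ 1 := by nlinarith
  have hta : t ≤ t ^ a := by
    calc t = t ^ (1 : ℝ) := (Real.rpow_one t).symm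
      _ ≤ t ^ a := Real.rpow_le_rpow_of_exponent_ge ht0 ht1 ha1
  have hsa : s ≤ s ^ a := by
    calc s = s ^ (1 : ℝ) := (Real.rpow_one s).symm
      _ ≤ s ^ a := Real.rpow_le_rpow_of_exponent_ge hs0 hs1 ha1
  have hsum : 1 + 3 / 16 ≤ t + s := by
    nlinarith [mul_nonneg (sub_nonneg.2 ht4) (sub_nonneg.2 hs4)]
  have hRa : 0 ≤ R ^ a := Real.rpow_nonneg hR a
  rw [hAt, hBs, Real.mul_rpow ht0.le hR, Real.mul_rpow hs0.le hR, ← add_mul]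
  exact mul_le_mul_of_nonneg_right (by linarith) hRa

end Pool.Agent.H48.PL
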