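import Pool.Agent.H48.PL.Thin
import Pool.Agent.H82.BK.Coll

/-!
# Module Swap: exchange of the two outgoing velocities

`A = 1+nsq v`. Let `Φ(a',b') = ofReal (g b')` if `nsq (v-a') ≤ ΛA` and `b'-v ∈ SdS e τ (v-a')`, else `0`. By `coll_cv` (β = bt b ε) the left side is (up to the null set `m = 0`)
`∫⁻w∫⁻σ ofReal (|V|^γ bt(cosTh)) Φ(w',v')`; by `σ → -σ` (`fold_neg`, private in H82/CM/FoldG.lean: copy; `neg_preserving`) it equals the same with `β(-x)` and `Φ(v',w')`; by `coll_cv` again it is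
`∫⁻m ∫⁻_{m·σ>0} ofReal (|m|^γ Kn (bt(-·)) c) Φ(v+h, v-m)`, `h = hh σ m`. There `Φ ≠ 0` means: `nsq h ≤ ΛA`, `-m ∈ SdS e τ (-h)`: `τ²/4 nsq h ≤ nsq m ≤ τ² nsq h ≤ τ²ΛA`, `len m ≤ 2|m e|`.
With `nsq h = nsq m (1-c²)/c²`: `c² = nsq m/(nsq m+nsq h) ≥ (τ²/4)/(1+τ²/4) ≥ τ²/5`. `Kn (bt(-·)) c = 2^(d-1) c^(-2-γ) bt(-(2c²-1)) ≤ 2^(d-1)(τ²/5)^(-(2+γ)/2)·2C (2c²)^(-β) ≤ K(τ)` (`bt_le`, `bt_neg` when
`2c² > 1`; `γ > -2`). Bound: `K(τ) surf(univ) ∫⁻_{m..} ofReal (|m|^γ g(v-m))`.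
-/

set_option autoImplicit false

open MeasureTheory Set Filter Topology Pool.Agent.H25.Kin Pool.Agent.H82.BK Pool.Agent.H82.CM
open scoped ENNReal

namespace Pool.Agent.H48.PL

variable {d : ℕ} {γ s C Ca : ℝ} {b : ℝ → ℝ}

private lemma sw_post_neg (v w σ : Vec d) : post v w (-σ) = post' v w σ := by
  unfold post post'; rw [smul_neg, ← sub_eq_add_neg]

private lemma sw_post'_neg (v w σ : Vec d) : post' v w (-σ) = post v w σ := by
  unfold post post'; rw [smul_neg, sub_neg_eq_add]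

private lemma sw_cosTh_neg (v w σ : Vec d) : cosTh v w (-σ) = -cosTh v w σ := by
  unfold cosTh; rw [neg_dot, neg_div]

private lemma sw_nsq_neg (z : Vec d) : nsq (-z) = nsq z := by
  unfold nsq
  refine Finset.sum_congr rfl fun i _ => ?_
  rw [Pi.neg_apply, neg_sq]

private lemma sw_nsq_nonneg (z : Vec d) : 0 ≤ nsq z := by
  unfold nsq
  exact Finset.sum_nonneg fun i _ => by positivity

/-- the collisional integral -/
private noncomputable def swJ (γ : ℝ) (v : Vec d) (β : ℝ → ℝ) (Φ : Vec d → Vec d → ℝ≥0∞) :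
    ℝ≥0∞ :=
  ∫⁻ w, ∫⁻ σ, ENNReal.ofReal (len (v - w) ^ γ * β (cosTh v w σ)) *
    Φ (post' v w σ) (post v w σ) ∂(surf d)

private lemma sw_meas' (γ : ℝ) (v : Vec d) {β : ℝ → ℝ} (hβ : Measurable β)
    {Φ : Vec d → Vec d → ℝ≥0∞} (hΦ : Measurable fun p : Vec d × Vec d => Φ p.1 p.2) (w : Vec d) :
    Measurable fun σ : Vec d =>
      ENNReal.ofReal (len (v - w) ^ γ * β (cosTh v w σ)) * Φ (post' v w σ) (post v w σ) := by
  have h2 : Measurable fun σ : Vec d => ((v, w, σ) : Vec d × Vec d × Vec d) :=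
    measurable_const.prodMk (measurable_const.prodMk measurable_id)
  have m2 : Measurable fun σ : Vec d => β (cosTh v w σ) := hβ.comp (measurable_cosTh.comp h2)
  have m3 : Measurable fun σ : Vec d => post' v w σ := (continuous_post').measurable.comp h2
  have m4 : Measurable fun σ : Vec d => post v w σ := (continuous_post).measurable.comp h2
  have m5 : Measurable fun σ : Vec d => Φ (post' v w σ) (post v w σ) :=
    Measurable.comp (g := fun p : Vec d × Vec d => Φ p.1 p.2) hΦ (m3.prodMk m4)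
  exact (measurable_const.mul m2).ennreal_ofReal.mul m5

/-- exchange `σ ↦ -σ` -/
private lemma sw_neg (hd : 1 ≤ d) (γ : ℝ) (v : Vec d) {β : ℝ → ℝ} (hβ : Measurable β)
    {Φ : Vec d → Vec d → ℝ≥0∞} (hΦ : Measurable fun p : Vec d × Vec d => Φ p.1 p.2) :
    swJ γ v β Φ = swJ γ v (fun x => β (-x)) (fun a b => Φ b a) := by
  unfold swJ
  refine lintegral_congr fun w => ?_
  rw [← (neg_preserving hd).lintegral_comp (sw_meas' γ v hβ hΦ w)]
  refine lintegral_congr fun σ => ?_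
  rw [sw_post_neg, sw_post'_neg, sw_cosTh_neg]

open Classical in
/-- the weight of the pair `(w', v')` -/
private noncomputable def swP (e : Fin d) (τ M : ℝ) (g : Vec d → ℝ) (v a b : Vec d) : ℝ≥0∞ :=
  if nsq (v - a) ≤ M ∧ b - v ∈ SdS e τ (v - a) then ENNReal.ofReal (g b) else 0

private lemma sw_cont_nsq : Continuous (nsq : Vec d → ℝ) := by
  unfold nsq; fun_prop

private lemma swP_meas (e : Fin d) (τ M : ℝ) {g : Vec d → ℝ} (hg : Measurable g) (v : Vec d) :
    Measurable fun p : Vec d × Vec d => swP e τ M g v p.1 p.2 := by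
  unfold swP
  refine Measurable.ite ?_ (hg.comp measurable_snd).ennreal_ofReal measurable_const
  have h1 : MeasurableSet {p : Vec d × Vec d | nsq (v - p.1) ≤ M} :=
    (isClosed_le (sw_cont_nsq.comp (continuous_const.sub continuous_fst)) continuous_const).measurableSet
  have h2 : MeasurableSet {p : Vec d × Vec d | p.2 - v ∈ SdS e τ (v - p.1)} := by
    have h3 : Measurable fun p : Vec d × Vec d => ((v - p.1, p.2 - v) : Vec d × Vec d) := by
      fun_prop
    exact h3 (measurableSet_SdS e τ)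
  exact h1.inter h2

/-- the lower bound of the cosine -/
private lemma sw_co_low {τ : ℝ} (hτ : 0 < τ) (hτ1 : τ ≤ 1) {σ m : Vec d} (hσ : nsq σ = 1)
    (h : 0 < dot m σ) (h1 : τ ^ 2 / 4 * nsq (hh σ m) ≤ nsq m) : τ / 3 ≤ co m σ := by
  have hc := co_pos h
  have hm : 0 < nsq m := by
    have h2 := len_pos (ne_zero_of_dot h)
    have h3 := len_sq m
    rw [← h3]
    positivity
  rw [nsq_hh hσ h] at h1
  have h4 : τ ^ 2 / 4 * ((1 - co m σ ^ 2) / co m σ ^ 2) ≤ 1 := by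
    by_contra hcon
    push Not at hcon
    have := mul_lt_mul_of_pos_left hcon hm
    nlinarith
  have h5 : τ ^ 2 / 4 * (1 - co m σ ^ 2) ≤ co m σ ^ 2 := by
    rw [← mul_div_assoc, div_le_one (by positivity)] at h4
    exact h4
  by_contra hcon
  push Not at hcon
  have h6 : co m σ ^ 2 < τ ^ 2 / 9 := by nlinarith
  have h7 : co m σ ^ 2 < 1 / 9 := by nlinarith
  have h8 : τ ^ 2 / 4 * (8 / 9) ≤ τ ^ 2 / 4 * (1 - co m σ ^ 2) :=
    mul_le_mul_of_nonneg_left (by linarith) (by positivity)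
  nlinarith [mul_pos hτ hτ]

/-- the bound of the kernel -/
private lemma sw_kern {C β γ τ ε : ℝ} {b : ℝ → ℝ} (hC : AngBound b C β) (hβ : 0 ≤ β) (hγ : -2 < γ)
    (hτ : 0 < τ) {c : ℝ} (hc : τ / 3 ≤ c) :
    Kn d γ (fun x => bt b ε (-x)) c ≤
      2 ^ (d - 1) * (τ / 3) ^ (-2 - γ) * (2 * C * (2 * (τ / 3) ^ 2) ^ (-β)) := by
  have hC0 := hC.1
  have hc0 : 0 < c := by linarith [div_pos hτ (by norm_num : (0 : ℝ) < 3)]
  have hB : 0 ≤ 2 * C * (2 * (τ / 3) ^ 2) ^ (-β) := by positivity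
  have h1 : bt b ε (-(2 * c ^ 2 - 1)) ≤ 2 * C * (2 * (τ / 3) ^ 2) ^ (-β) := by
    by_cases h : -(2 * c ^ 2 - 1) < 0
    · rw [bt_neg h]; exact hB
    · push Not at h
      have hx1 : -(2 * c ^ 2 - 1) < 1 := by linarith [pow_pos hc0 2]
      refine (bt_le hC hβ h hx1).trans ?_
      refine mul_le_mul_of_nonneg_left ?_ (by positivity)
      refine Real.rpow_le_rpow_of_nonpos (by positivity) ?_ (by linarith)
      nlinarith [div_pos hτ (by norm_num : (0 : ℝ) < 3)]
  have h2 : c ^ (-2 - γ) ≤ (τ / 3) ^ (-2 - γ) :=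
    Real.rpow_le_rpow_of_nonpos (by positivity) hc (by linarith)
  unfold Kn
  calc 2 ^ (d - 1) * c ^ (-2 - γ) * bt b ε (-(2 * c ^ 2 - 1))
      ≤ 2 ^ (d - 1) * c ^ (-2 - γ) * (2 * C * (2 * (τ / 3) ^ 2) ^ (-β)) :=
        mul_le_mul_of_nonneg_left h1 (by positivity)
    _ ≤ _ := by
        refine mul_le_mul_of_nonneg_right ?_ hB
        exact mul_le_mul_of_nonneg_left h2 (by positivity)

theorem swap_thin (H : Hyp d γ s b C Ca) (e : Fin d) {τ Λ : ℝ} (hτ : 0 < τ) (hτ1 : τ ≤ 1)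
    (hΛ : 0 < Λ) : ∃ K : ℝ, 0 ≤ K ∧ ∀ g : Vec d → ℝ, Measurable g → (∀ u, 0 ≤ g u) → ∀ v : Vec d,
    ∀ ε : ℝ, 0 < ε →
      ∫⁻ m in {m : Vec d | nsq m ≤ Λ * (1 + nsq v)}, ENNReal.ofReal (len m ^ γ) * TM e τ γ b ε g v m ≤
        ENNReal.ofReal K * ∫⁻ m in {m : Vec d | nsq m ≤ τ ^ 2 * Λ * (1 + nsq v) ∧ len m ≤ 2 * |m e|},
          ENNReal.ofReal (len m ^ γ * g (v - m)) := by
  classical
  have hC := H.bd
  have hC0 := hC.1
  have hβ := H.β0
  have hd1 := H.hd1
  set K₀ : ℝ := 2 ^ (d - 1) * (τ / 3) ^ (-2 - γ) *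
    (2 * C * (2 * (τ / 3) ^ 2) ^ (-(((d : ℝ) - 1) / 2 + s))) with hK₀
  have hK₀0 : 0 ≤ K₀ := by positivity
  refine ⟨K₀ * (surf d univ).toReal, by positivity, fun g hg hg0 v ε hε => ?_⟩
  set M : ℝ := Λ * (1 + nsq v) with hM
  have mbt := measurable_bt H.bm ε
  have mbt' : Measurable fun x => bt b ε (-x) := mbt.comp measurable_neg
  have mΦ := swP_meas e τ M hg v
  have mΦ' : Measurable fun p : Vec d × Vec d => swP e τ M g v p.2 p.1 :=
    Measurable.comp (g := fun p : Vec d × Vec d => swP e τ M g v p.1 p.2)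
      (f := fun p : Vec d × Vec d => (p.2, p.1)) mΦ (measurable_snd.prodMk measurable_fst)
  have hS1 : MeasurableSet {m : Vec d | nsq m ≤ M} :=
    (isClosed_le sw_cont_nsq continuous_const).measurableSet
  have hS2 : MeasurableSet {m : Vec d | nsq m ≤ τ ^ 2 * Λ * (1 + nsq v) ∧ len m ≤ 2 * |m e|} := by
    refine (isClosed_le sw_cont_nsq continuous_const).measurableSet.inter ?_
    exact (isClosed_le continuous_len (by fun_prop)).measurableSet
  -- the left side
  have e1 : ∫⁻ m in {m : Vec d | nsq m ≤ M}, ENNReal.ofReal (len m ^ γ) * TM e τ γ b ε g v m =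
      swJ γ v (bt b ε) (swP e τ M g v) := by
    have h := coll_cv H.hd γ mbt mΦ v
    unfold swJ
    rw [h, ← lintegral_indicator hS1]
    refine lintegral_congr fun m => ?_
    unfold TM
    by_cases hm : nsq m ≤ M
    · rw [indicator_of_mem (show m ∈ {m : Vec d | nsq m ≤ M} from hm),
        ← lintegral_const_mul' _ _ ENNReal.ofReal_ne_top]
      refine lintegral_congr fun σ => ?_
      unfold swP
      rw [show v - (v - m) = m by abel, show v + hh σ m - v = hh σ m by abel]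
      by_cases h2 : hh σ m ∈ SdS e τ m
      · rw [if_pos h2, if_pos ⟨hm, h2⟩, ENNReal.ofReal_mul' (hg0 _),
          ENNReal.ofReal_mul (Real.rpow_nonneg (len_nonneg m) γ), mul_assoc]
      · rw [if_neg h2, if_neg (fun h3 => h2 h3.2), mul_zero, mul_zero]
    · rw [indicator_of_notMem (show m ∉ {m : Vec d | nsq m ≤ M} from hm)]
      symm
      have hz : (fun σ : Vec d => ENNReal.ofReal (len m ^ γ * Kn d γ (bt b ε) (co m σ)) *
          swP e τ M g v (v - m) (v + hh σ m)) = fun _ => 0 := by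
        funext σ
        unfold swP
        rw [show v - (v - m) = m by abel, if_neg (fun h3 => hm h3.1), mul_zero]
      rw [hz, lintegral_zero]
  rw [e1, sw_neg hd1 γ v mbt mΦ]
  have h := coll_cv H.hd γ mbt' (Φ := fun a b => swP e τ M g v b a) mΦ' v
  unfold swJ
  rw [h, ENNReal.ofReal_mul hK₀0, ENNReal.ofReal_toReal (measure_ne_top _ _),
    ← lintegral_indicator hS2, ← lintegral_const_mul' _ _ (ENNReal.mul_ne_top ENNReal.ofReal_ne_top (measure_ne_top _ _))]
  refine lintegral_mono fun m => ?_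
  -- the bound for fixed `m`
  have key : ∀ᵐ σ ∂((surf d).restrict {σ : Vec d | 0 < dot m σ}),
      ENNReal.ofReal (len m ^ γ * Kn d γ (fun x => bt b ε (-x)) (co m σ)) *
        swP e τ M g v (v + hh σ m) (v - m) ≤
      ENNReal.ofReal K₀ * indicator {m : Vec d | nsq m ≤ τ ^ 2 * Λ * (1 + nsq v) ∧ len m ≤ 2 * |m e|}
        (fun m => ENNReal.ofReal (len m ^ γ * g (v - m))) m := by
    filter_upwards [ae_restrict_of_ae surf_ae, ae_restrict_mem (measurableSet_half m)] with σ hσ hm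
    have hm' : 0 < dot m σ := hm
    unfold swP
    have e2 : v - (v + hh σ m) = -(hh σ m) := by abel
    have e3 : v - m - v = -m := by abel
    rw [e2, e3]
    by_cases h2 : nsq (-(hh σ m)) ≤ M ∧ -m ∈ SdS e τ (-(hh σ m))
    · rw [if_pos h2]
      obtain ⟨h3, h4, h5, h6⟩ := h2
      rw [sw_nsq_neg] at h3 h4 h5
      rw [sw_nsq_neg] at h4 h5
      rw [len_neg, Pi.neg_apply, abs_neg] at h6
      have h7 : m ∈ {m : Vec d | nsq m ≤ τ ^ 2 * Λ * (1 + nsq v) ∧ len m ≤ 2 * |m e|} := by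
        refine ⟨?_, h6⟩
        calc nsq m ≤ τ ^ 2 * nsq (hh σ m) := h5
          _ ≤ τ ^ 2 * M := mul_le_mul_of_nonneg_left h3 (by positivity)
          _ = _ := by rw [hM]; ring
      rw [indicator_of_mem h7]
      have h8 := sw_co_low hτ hτ1 hσ hm' h4
      have h9 : Kn d γ (fun x => bt b ε (-x)) (co m σ) ≤ K₀ := sw_kern hC hβ H.g1 hτ h8
      rw [← ENNReal.ofReal_mul' (hg0 _), ← ENNReal.ofReal_mul hK₀0]
      refine ENNReal.ofReal_le_ofReal ?_
      have hl := Real.rpow_nonneg (len_nonneg m) γ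
      calc len m ^ γ * Kn d γ (fun x => bt b ε (-x)) (co m σ) * g (v - m)
          ≤ len m ^ γ * K₀ * g (v - m) :=
            mul_le_mul_of_nonneg_right (mul_le_mul_of_nonneg_left h9 hl) (hg0 _)
        _ = _ := by ring
    · rw [if_neg h2, mul_zero]
      exact bot_le
  calc ∫⁻ σ in {σ : Vec d | 0 < dot m σ},
        ENNReal.ofReal (len m ^ γ * Kn d γ (fun x => bt b ε (-x)) (co m σ)) *
          swP e τ M g v (v + hh σ m) (v - m) ∂(surf d)
      ≤ ∫⁻ _σ in {σ : Vec d | 0 < dot m σ}, ENNReal.ofReal K₀ *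
          indicator {m : Vec d | nsq m ≤ τ ^ 2 * Λ * (1 + nsq v) ∧ len m ≤ 2 * |m e|}
            (fun m => ENNReal.ofReal (len m ^ γ * g (v - m))) m ∂(surf d) :=
        lintegral_mono_ae key
    _ = ENNReal.ofReal K₀ *
          indicator {m : Vec d | nsq m ≤ τ ^ 2 * Λ * (1 + nsq v) ∧ len m ≤ 2 * |m e|}
            (fun m => ENNReal.ofReal (len m ^ γ * g (v - m))) m * surf d {σ : Vec d | 0 < dot m σ} := by
        rw [setLIntegral_const]
    _ ≤ ENNReal.ofReal K₀ *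
          indicator {m : Vec d | nsq m ≤ τ ^ 2 * Λ * (1 + nsq v) ∧ len m ≤ 2 * |m e|}
            (fun m => ENNReal.ofReal (len m ^ γ * g (v - m))) m * surf d univ := by
        gcongr
        exact subset_univ _
    _ = _ := by ring

end Pool.Agent.H48.PL
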