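import Pool.Agent.H48.PL.Ang
import Pool.Agent.H48.PL.JB

/-!
# Module ThinL: small deflections in a transversal direction

`h = hh σ m = |m| (σ/c - k)`, `k = dir m`, `c = co m σ = k·σ`. `|k_e| ≤ 1/16`. `m₀` = unit vector `⊥ k` closest to `e` (`(e_e - k_e k)/√(1-k_e²)`,
`m₀_e = √(1-k_e²) ≥ .998`; `d ≥ 2` is not even needed separately since `|k_e| < 1`). `σ₀ = cosη k + sinη m₀`, `tan η = 3τ/4`, `τ ≤ 1/4`: `c₀ = cosη ≥ .98`.
For `|σ|=1`, `|σ-σ₀| ≤ r = τ/16`: `c ≥ .96`, `|σ/c - σ₀/c₀| ≤ r/c + r/(c c₀) ≤ 2.2 r ≤ .14 τ`, so `h/|m| = (3τ/4) m₀ + O(.14τ)`: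
`|h|/|m| ∈ [.6τ, .9τ] ⊂ [τ/2, τ]`, `h_e/|m| ≥ .6τ ≥ (|h|/|m|)/2`: `h ∈ SdS e τ m`. Kernel: `c²|h|²/|m|² = 1-c²` (`nsq_hh`), `1-c² ≤ τ²`, `1-c² ≥ .3τ²`:
cut-off not active for `ε ≤ τ²/2` (`1-(2c²-1) = 2(1-c²)`), `Kn (bt) c ≥ bt (2c²-1) ≥ b(2c²-1) ≥ cb (2τ²)^(-β)` (`bt_ge`, `HL.lo`, `c^(-2-γ) ≥ 1`, `2^(d-1) ≥ 1`; `γ > -2`).
`cap_low`: measure `≥ c (τ/16)^(d-1)`. Product `≥ c₆ τ^(-2β+d-1) = c₆ τ^(-2s)`.
-/

set_option autoImplicit false

open MeasureTheory Set Filter Topology Pool.Agent.H25.Kin Pool.Agent.H82.BK Pool.Agent.H82.CM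
open scoped ENNReal

namespace Pool.Agent.H48.PL

variable {d : ℕ} {γ s C Ca cb : ℝ} {b : ℝ → ℝ}

/-- small displacements, not almost orthogonal to `e` -/
def SdS (e : Fin d) (τ : ℝ) (m : Vec d) : Set (Vec d) :=
  {h | τ ^ 2 / 4 * nsq m ≤ nsq h ∧ nsq h ≤ τ ^ 2 * nsq m ∧ len h ≤ 2 * |h e|}

private lemma thl_len_le {u : Vec d} {r : ℝ} (hr : 0 ≤ r) (h : nsq u ≤ r ^ 2) : len u ≤ r := by
  unfold len
  rw [← Real.sqrt_sq hr]
  exact Real.sqrt_le_sqrt h

private lemma thl_dot_le {u v : Vec d} : |dot u v| ≤ len u * len v := by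
  have h1 := dot_sq_le u v
  rw [← len_sq u, ← len_sq v, ← mul_pow] at h1
  exact abs_le_of_sq_le_sq h1 (mul_nonneg (len_nonneg u) (len_nonneg v))

private lemma thl_len_smul (a : ℝ) (z : Vec d) : len (a • z) = |a| * len z := by
  unfold len
  rw [nsq_smul, Real.sqrt_mul (sq_nonneg a), Real.sqrt_sq_eq_abs]

private lemma thl_nsq_single (e : Fin d) : nsq (Pi.single e 1 : Vec d) = 1 := by
  unfold nsq
  rw [Finset.sum_eq_single e]
  · simp
  · intro i _ hi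
    simp [Pi.single_eq_of_ne hi]
  · intro h
    exact absurd (Finset.mem_univ e) h

private lemma thl_dot_single (k : Vec d) (e : Fin d) : dot k (Pi.single e 1 : Vec d) = k e := by
  unfold dot
  rw [Finset.sum_eq_single e]
  · simp
  · intro i _ hi
    simp [Pi.single_eq_of_ne hi]
  · intro h
    exact absurd (Finset.mem_univ e) h

/-- the displacement direction `w`: `w ⊥ k`, `|w| = 3τ/4`, `w_e ≥ .748 τ` -/
private lemma thl_w {k : Vec d} (hk : nsq k = 1) (e : Fin d) (hke : |k e| ≤ 1 / 16) {τ : ℝ}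
    (h0 : 0 < τ) : ∃ w : Vec d, nsq w = 9 / 16 * τ ^ 2 ∧ dot k w = 0 ∧ 187 / 250 * τ ≤ w e := by
  set a : ℝ := k e with ha
  have ha2 : a ^ 2 ≤ 1 / 256 := by
    have := abs_le.1 hke
    nlinarith [this.1, this.2]
  set q : ℝ := Real.sqrt (1 - a ^ 2) with hq
  have hq2 : q ^ 2 = 1 - a ^ 2 := Real.sq_sqrt (by linarith)
  have hq0 : 0 ≤ q := Real.sqrt_nonneg _
  have hq1 : 998 / 1000 ≤ q := by
    rw [hq]
    refine Real.le_sqrt_of_sq_le ?_
    linarith
  have hqp : 0 < q := by linarith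
  set E : Vec d := Pi.single e 1 with hE
  have hE1 : nsq E = 1 := thl_nsq_single e
  have hEk : dot k E = a := thl_dot_single k e
  refine ⟨(3 / 4 * τ * q⁻¹) • (E - a • k), ?_, ?_, ?_⟩
  · rw [nsq_smul, nsq_sub, nsq_smul, dot_smul, dot_comm E k, hEk, hE1, hk]
    have : 1 - 2 * (a * a) + a ^ 2 * 1 = q ^ 2 := by rw [hq2]; ring
    rw [this, mul_pow, inv_pow]
    field_simp
    ring
  · rw [dot_smul, dot_sub, hEk, dot_smul, dot_self, hk]
    ring
  · have h3 : ((3 / 4 * τ * q⁻¹) • (E - a • k)) e = 3 / 4 * τ * q⁻¹ * (1 - a * a) := by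
      simp [hE, ← ha]
    rw [h3]
    have h4 : 1 - a * a = q ^ 2 := by rw [hq2]; ring
    rw [h4]
    have h5 : 3 / 4 * τ * q⁻¹ * q ^ 2 = 3 / 4 * τ * q := by
      field_simp
    rw [h5]
    have h6 := mul_le_mul_of_nonneg_left hq1 (show 0 ≤ 3 / 4 * τ by positivity)
    clear * - h6 h0
    linarith

private lemma thl_geo {m : Vec d} (hm : m ≠ 0) (e : Fin d) (hme : |m e| ≤ len m / 16) {τ : ℝ}
    (h0 : 0 < τ) (h1 : τ ≤ 1 / 4) : ∃ σ₀ : Vec d, nsq σ₀ = 1 ∧ ∀ σ : Vec d, nsq σ = 1 →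
      nsq (σ - σ₀) ≤ (τ / 16) ^ 2 → 0 < dot m σ ∧ hh σ m ∈ SdS e τ m ∧ 24 / 25 ≤ co m σ ∧
        3 / 10 * τ ^ 2 ≤ 1 - co m σ ^ 2 ∧ 1 - co m σ ^ 2 ≤ τ ^ 2 := by
  have hl := len_pos hm
  obtain ⟨k, hk⟩ : ∃ k : Vec d, k = dir m := ⟨_, rfl⟩
  have hk1 : nsq k = 1 := by rw [hk]; exact nsq_dir hm
  have hmk : m = len m • k := by
    rw [hk]; unfold dir; rw [smul_smul, mul_inv_cancel₀ hl.ne', one_smul]
  have ha1 : |k e| ≤ 1 / 16 := by
    have h2 : m e = len m * k e := by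
      have := congrFun hmk e
      simpa [smul_eq_mul] using this
    rw [h2, abs_mul, abs_of_pos hl] at hme
    by_contra hcon
    push Not at hcon
    nlinarith
  obtain ⟨w, hw1, hw2, hw3⟩ := thl_w hk1 e ha1 h0
  have hlk : len k = 1 := by unfold len; rw [hk1, Real.sqrt_one]
  have hlw : len w = 3 / 4 * τ := by
    unfold len
    rw [hw1, show 9 / 16 * τ ^ 2 = (3 / 4 * τ) ^ 2 by ring, Real.sqrt_sq (by positivity)]
  have hτ2 : τ ^ 2 ≤ 1 / 16 := by nlinarith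
  -- the norm of `k + w`
  obtain ⟨N, hN⟩ : ∃ N : ℝ, N = len (k + w) := ⟨_, rfl⟩
  have hN2 : N ^ 2 = 1 + 9 / 16 * τ ^ 2 := by
    rw [hN, len_sq, nsq_add, hk1, hw1, hw2]; ring
  have hN0 : 0 ≤ N := by rw [hN]; exact len_nonneg _
  have hN1 : 1 ≤ N := by clear * - hN2 hN0; nlinarith [sq_nonneg τ]
  have hN3 : N ≤ 102 / 100 := by clear * - hN2 hτ2 hN0; nlinarith
  have hNp : 0 < N := by linarith
  refine ⟨N⁻¹ • (k + w), ?_, fun σ hσ hσ0 => ?_⟩
  · rw [nsq_smul, ← len_sq, ← hN, inv_pow]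
    field_simp
  obtain ⟨ρ, hρ⟩ : ∃ ρ : Vec d, ρ = σ - N⁻¹ • (k + w) := ⟨_, rfl⟩
  rw [← hρ] at hσ0
  have hρ1 : len ρ ≤ τ / 16 := thl_len_le (by positivity) hσ0
  have hσρ : σ = N⁻¹ • (k + w) + ρ := by rw [hρ]; abel
  obtain ⟨c, hc⟩ : ∃ c : ℝ, c = dot k σ := ⟨_, rfl⟩
  have hco : co m σ = c := by rw [co_eq, hc, hk]
  have hc1 : c = N⁻¹ + dot k ρ := by
    rw [hc, hσρ, dot_add, dot_smul, dot_add, dot_self, hk1, hw2]; ring
  have hkρ : |dot k ρ| ≤ τ / 16 := by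
    refine thl_dot_le.trans ?_
    rw [hlk, one_mul]; exact hρ1
  have hkρ' := abs_le.1 hkρ
  have hNi : 98 / 100 ≤ N⁻¹ := by
    rw [le_inv_comm₀ (by norm_num) hNp]
    refine hN3.trans ?_
    norm_num
  have hc2 : 964 / 1000 ≤ c := by linarith [hkρ'.1]
  have hcp : 0 < c := by linarith
  have hdm : dot m σ = len m * c := by
    rw [hc, ← smul_dot, ← hmk]
  have hdp : 0 < dot m σ := by rw [hdm]; positivity
  -- `u = h / |m|`
  obtain ⟨u, hu⟩ : ∃ u : Vec d, u = c⁻¹ • σ - k := ⟨_, rfl⟩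
  have hhu : hh σ m = len m • u := by
    unfold hh
    rw [hdm, ← len_sq m, hu, smul_sub, ← hmk, smul_smul]
    congr 2
    field_simp
  have hcuw : c • (u - w) = ρ - (dot k ρ) • (k + w) := by
    rw [hu, smul_sub, smul_sub, smul_smul, mul_inv_cancel₀ hcp.ne', one_smul]
    have h3 : σ - c • k - c • w = σ - c • (k + w) := by rw [smul_add]; abel
    rw [h3, hc1, add_smul, hσρ]
    abel
  have huw : len (u - w) ≤ 14 / 100 * τ := by
    have h3 : len (c • (u - w)) ≤ τ / 16 + τ / 16 * N := by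
      rw [hcuw]
      refine (len_sub_le _ _).trans ?_
      rw [thl_len_smul, ← hN]
      have : |dot k ρ| * N ≤ τ / 16 * N := mul_le_mul_of_nonneg_right hkρ hN0
      linarith
    rw [thl_len_smul, abs_of_pos hcp] at h3
    have h4 : 0 ≤ len (u - w) := len_nonneg _
    have h5 : 964 / 1000 * len (u - w) ≤ c * len (u - w) := mul_le_mul_of_nonneg_right hc2 h4
    have h6 : τ / 16 * N ≤ τ / 16 * (102 / 100) := mul_le_mul_of_nonneg_left hN3 (by positivity)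
    clear * - h3 h4 h5 h6 h0
    linarith
  have hu1 : len u ≤ 89 / 100 * τ := by
    have h3 := len_le_add_sub u w
    rw [hlw] at h3
    linarith
  have hu2 : 61 / 100 * τ ≤ len u := by
    have h3 := len_le_add_sub w u
    rw [hlw] at h3
    have h4 : len (w - u) = len (u - w) := by
      have : w - u = (-1 : ℝ) • (u - w) := by rw [neg_one_smul]; abel
      rw [this, thl_len_smul]; norm_num
    rw [h4] at h3
    linarith
  have hu3 : 608 / 1000 * τ ≤ u e := by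
    have h3 := abs_coord_le (u - w) e
    have h4 : (u - w) e = u e - w e := rfl
    rw [h4] at h3
    have h5 := (abs_le.1 (h3.trans huw)).1
    linarith
  have hnu : nsq u = len u ^ 2 := (len_sq u).symm
  have hu0 : 0 ≤ len u := len_nonneg u
  have hnu1 : nsq u ≤ 4 / 5 * τ ^ 2 := by
    have h3 := pow_le_pow_left₀ hu0 hu1 2
    have h4 := sq_nonneg τ
    rw [hnu]
    clear * - h3 h4
    linarith
  have hnu2 : 37 / 100 * τ ^ 2 ≤ nsq u := by
    have h3 := pow_le_pow_left₀ (show 0 ≤ 61 / 100 * τ by positivity) hu2 2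
    have h4 := sq_nonneg τ
    rw [hnu]
    clear * - h3 h4
    linarith
  have hnu3 : 1 - c ^ 2 = c ^ 2 * nsq u := by
    have h3 : nsq u = c⁻¹ ^ 2 - 2 * (c⁻¹ * c) + 1 := by
      rw [hu, nsq_sub, nsq_smul, hσ, hk1, smul_dot, dot_comm σ k, ← hc]; ring
    rw [h3]
    field_simp
    ring
  have hcle : c ≤ 1 := by rw [← hco]; exact co_le_one hσ
  refine ⟨hdp, ⟨?_, ?_, ?_⟩, ?_, ?_, ?_⟩
  · rw [hhu, nsq_smul, len_sq]
    have h3 : 0 < nsq m := sq_pos_of_ne hm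
    have h4 := mul_le_mul_of_nonneg_left hnu2 h3.le
    have h5 := mul_nonneg h3.le (sq_nonneg τ)
    clear * - h4 h5
    linarith
  · rw [hhu, nsq_smul, len_sq]
    have h3 : 0 < nsq m := sq_pos_of_ne hm
    have h4 := mul_le_mul_of_nonneg_left hnu1 h3.le
    have h5 := mul_nonneg h3.le (sq_nonneg τ)
    clear * - h4 h5
    linarith
  · rw [hhu, len_smul hl.le]
    have h3 : (len m • u) e = len m * u e := rfl
    rw [h3, abs_mul, abs_of_pos hl]
    have h4 : u e ≤ |u e| := le_abs_self _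
    have h5 : len u ≤ 2 * |u e| := by linarith
    have h6 := mul_le_mul_of_nonneg_left h5 hl.le
    clear * - h6
    linarith
  · rw [hco]; linarith
  · rw [hco, hnu3]
    have h3 : 9 / 10 ≤ c ^ 2 := (by norm_num : (9 / 10 : ℝ) ≤ (964 / 1000) ^ 2).trans
      (pow_le_pow_left₀ (by norm_num) hc2 2)
    have h4 := mul_le_mul h3 hnu2 (by positivity) (by positivity)
    have h5 := sq_nonneg τ
    clear * - h4 h5
    linarith
  · rw [hco, hnu3]
    have h3 : c ^ 2 ≤ 1 := pow_le_one₀ hcp.le hcle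
    have h4 : 0 ≤ nsq u := sq_nonneg' u
    have h5 := mul_le_of_le_one_left h4 h3
    have h6 := sq_nonneg τ
    clear * - h5 h6 hnu1
    linarith

open Classical in
theorem thin_low (HL : HypL d γ s b C Ca cb) (e : Fin d) : ∃ c₆ : ℝ, 0 < c₆ ∧
    ∀ τ : ℝ, 0 < τ → τ ≤ 1 / 4 → ∀ m : Vec d, m ≠ 0 → |m e| ≤ len m / 16 →
    ∀ ε : ℝ, 0 < ε → ε ≤ τ ^ 2 / 2 →
      ENNReal.ofReal (c₆ * τ ^ (-(2 * s))) ≤ ∫⁻ σ in {σ : Vec d | 0 < dot m σ},
        (if hh σ m ∈ SdS e τ m then ENNReal.ofReal (Kn d γ (bt b ε) (co m σ)) else 0) ∂(surf d) := by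
  obtain ⟨c, hc, hcap⟩ := cap_low HL.H.hd
  have hcb := HL.lo.1
  have hβ := HL.H.β0
  have hd2 : (2 : ℝ) ≤ d := by exact_mod_cast HL.H.hd
  have hg1 := HL.H.g1
  set B : ℝ := ((d : ℝ) - 1) / 2 + s with hB
  set M : ℝ := cb * 2 ^ (-B) with hM
  have hM0 : 0 < M := by positivity
  refine ⟨M * (c * (1 / 16) ^ ((d : ℝ) - 1)), by positivity, fun τ h0 h1 m hm hme ε hε hε1 => ?_⟩
  obtain ⟨σ₀, hσ0, hgeo⟩ := thl_geo hm e hme h0 h1
  set S : Set (Vec d) := {σ : Vec d | nsq σ = 1 ∧ nsq (σ - σ₀) ≤ (τ / 16) ^ 2} with hS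
  have hSm : MeasurableSet S :=
    ((isClosed_eq continuous_sq continuous_const).inter
      (isClosed_le (continuous_sq.comp (continuous_id.sub continuous_const))
        continuous_const)).measurableSet
  have h2 := hcap σ₀ hσ0 (τ / 16) (by positivity) (by linarith)
  have hSsub : S ⊆ {σ : Vec d | 0 < dot m σ} := fun σ hσ => (hgeo σ hσ.1 hσ.2).1
  calc ENNReal.ofReal (M * (c * (1 / 16) ^ ((d : ℝ) - 1)) * τ ^ (-(2 * s)))
      = ENNReal.ofReal (M * (τ ^ 2) ^ (-B)) * ENNReal.ofReal (c * (τ / 16) ^ ((d : ℝ) - 1)) := by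
        rw [← ENNReal.ofReal_mul (by positivity)]
        congr 1
        have h3 : (τ ^ 2) ^ (-B) = τ ^ (-(2 * B)) := by
          rw [← Real.rpow_natCast τ 2, ← Real.rpow_mul h0.le]
          congr 1
          push_cast
          ring
        have h4 : (τ / 16) ^ ((d : ℝ) - 1) = τ ^ ((d : ℝ) - 1) * (1 / 16) ^ ((d : ℝ) - 1) := by
          rw [← Real.mul_rpow h0.le (by norm_num)]
          congr 1
          ring
        have h5 : τ ^ (-(2 * s)) = τ ^ (-(2 * B)) * τ ^ ((d : ℝ) - 1) := by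
          rw [← Real.rpow_add h0, hB]
          congr 1
          ring
        rw [h3, h4, h5]
        ring
    _ ≤ ENNReal.ofReal (M * (τ ^ 2) ^ (-B)) * surf d S := by gcongr
    _ = ∫⁻ _σ in S, ENNReal.ofReal (M * (τ ^ 2) ^ (-B)) ∂(surf d) := by rw [setLIntegral_const]
    _ ≤ ∫⁻ σ in S, (if hh σ m ∈ SdS e τ m then
          ENNReal.ofReal (Kn d γ (bt b ε) (co m σ)) else 0) ∂(surf d) := by
        refine setLIntegral_mono' hSm fun σ hσ => ?_
        obtain ⟨h3, h4, h5, h6, h7⟩ := hgeo σ hσ.1 hσ.2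
        rw [if_pos h4]
        refine ENNReal.ofReal_le_ofReal ?_
        set c' := co m σ with hc'
        have hτp : 0 < τ ^ 2 := by positivity
        have hc0 : 0 < c' := by linarith
        have hc2 : c' < 1 := by clear * - h6 hc0 hτp; nlinarith
        have hx0 : 0 < 2 * c' ^ 2 - 1 := by clear * - h5; nlinarith
        have hx1 : 2 * c' ^ 2 - 1 < 1 := by clear * - h6 hτp; linarith
        have hxe : 2 * c' ^ 2 - 1 ≤ 1 - ε := by clear * - h6 hτp hε1; linarith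
        have h8 := bt_ge (ε := ε) HL.H.bd hx0 hx1.le hxe
        have h9 := HL.lo.2 (2 * c' ^ 2 - 1) hx0.le hx1
        have h10 : (2 * τ ^ 2) ^ (-B) ≤ (1 - (2 * c' ^ 2 - 1)) ^ (-B) := by
          refine Real.rpow_le_rpow_of_nonpos (by linarith) ?_ (by linarith)
          linarith
        have h11 : (2 * τ ^ 2) ^ (-B) = 2 ^ (-B) * (τ ^ 2) ^ (-B) :=
          Real.mul_rpow (by norm_num) hτp.le
        have h12 : M * (τ ^ 2) ^ (-B) ≤ bt b ε (2 * c' ^ 2 - 1) := by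
          rw [hM, mul_assoc, ← h11]
          exact (mul_le_mul_of_nonneg_left h10 hcb.le).trans (h9.trans h8)
        have h13 : 1 ≤ c' ^ (-2 - γ) :=
          Real.one_le_rpow_of_pos_of_le_one_of_nonpos hc0 hc2.le (by linarith)
        have h14 : (1 : ℝ) ≤ 2 ^ (d - 1) := one_le_pow₀ (by norm_num)
        have h15 : 0 < (τ ^ 2) ^ (-B) := Real.rpow_pos_of_pos hτp _
        have hb0 : 0 ≤ M * (τ ^ 2) ^ (-B) := by positivity
        have hb1 : 0 ≤ bt b ε (2 * c' ^ 2 - 1) := hb0.trans h12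
        unfold Kn
        refine h12.trans (le_mul_of_one_le_left hb1 ?_)
        exact one_le_mul_of_one_le_of_one_le h14 h13
    _ ≤ _ := lintegral_mono_set hSsub

lemma measurableSet_SdS (e : Fin d) (τ : ℝ) :
    MeasurableSet {q : Vec d × Vec d | q.2 ∈ SdS e τ q.1} := by
  have h1 : Continuous fun q : Vec d × Vec d => nsq q.1 := continuous_sq.comp continuous_fst
  have h2 : Continuous fun q : Vec d × Vec d => nsq q.2 := continuous_sq.comp continuous_snd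
  have h3 : Continuous fun q : Vec d × Vec d => len q.2 := continuous_len.comp continuous_snd
  have h4 : Continuous fun q : Vec d × Vec d => |q.2 e| :=
    ((continuous_apply e).comp continuous_snd).abs
  exact ((isClosed_le (continuous_const.mul h1) h2).inter
    ((isClosed_le h2 (continuous_const.mul h1)).inter
      (isClosed_le h3 (continuous_const.mul h4)))).measurableSet

end Pool.Agent.H48.PL
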